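import Pool.Agent.Helper74.SS.St

set_option autoImplicit false

open Set Metric Filter Topology

namespace Pool.Agent.Helper74.SS

theorem pA10 : StA10 := by
  intro V B _ S c γ hc hγ
  obtain ⟨ε, hε, hc⟩ := hc
  have hu := isCompact_Icc.uniformContinuousOn_of_continuous hγ.1
  rw [Metric.uniformContinuousOn_iff] at hu
  obtain ⟨δ, hδ, hu⟩ := hu ε hε
  obtain ⟨N, hN⟩ := exists_nat_one_div_lt hδ
  have hN0 : (0 : ℝ) < (N : ℝ) + 1 := by positivity
  have key : ∀ k : ℕ, k ≤ N + 1 → c (γ ((k : ℝ) / ((N : ℝ) + 1))) = c (γ 0) := by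
    intro k
    induction k with
    | zero => intro _; simp
    | succ k ih =>
      intro hk
      rw [← ih (by omega)]
      have hk1 : (k : ℝ) + 1 ≤ (N : ℝ) + 1 := by exact_mod_cast hk
      have hk0 : (0 : ℝ) ≤ k := Nat.cast_nonneg k
      have m1 : ((k : ℝ) / ((N : ℝ) + 1)) ∈ Icc (0 : ℝ) 1 :=
        ⟨by positivity, by rw [div_le_one hN0]; linarith⟩
      have m2 : (((k + 1 : ℕ) : ℝ) / ((N : ℝ) + 1)) ∈ Icc (0 : ℝ) 1 := by
        push_cast
        exact ⟨by positivity, by rw [div_le_one hN0]; linarith⟩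
      refine (hc _ (hγ.2 m1) _ (hγ.2 m2) (hu _ m1 _ m2 ?_)).symm
      rw [Real.dist_eq]
      have e : (k : ℝ) / ((N : ℝ) + 1) - ((k + 1 : ℕ) : ℝ) / ((N : ℝ) + 1)
          = -(1 / ((N : ℝ) + 1)) := by
        push_cast
        field_simp
        ring
      rw [e, abs_neg, abs_of_pos (by positivity)]
      exact hN
  have h1 := key (N + 1) le_rfl
  have e1 : ((N + 1 : ℕ) : ℝ) / ((N : ℝ) + 1) = 1 := by
    push_cast
    field_simp
  rw [e1] at h1
  exact h1.symm

end Pool.Agent.Helper74.SS
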