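import Pool.Agent.Helper74.SS.St

set_option autoImplicit false

open Set Metric Filter Topology

namespace Pool.Agent.Helper74.SS

theorem pp_eq_A2 {V G : Type} [PseudoMetricSpace V] [Group G] (E : V → V → G)
    (γ : ℝ → V) (N : ℕ) : pp E γ N =
    ((List.range N).map (fun k : ℕ => E (γ ((k : ℝ) / N)) (γ (((k : ℝ) + 1) / N)))).prod := by
  unfold pp
  simp only [bind_pure_comp, List.map_eq_map, List.map_map]
  rfl

theorem pp_double_A2 {V G : Type} [PseudoMetricSpace V] [Group G] (E : V → V → G)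
    (γ γ' δ : ℝ → V) (h1 : γ 1 = γ' 0)
    (hγ : ∀ t ∈ Icc (0 : ℝ) (1 / 2), δ t = γ (2 * t))
    (hγ' : ∀ t ∈ Icc (1 / 2 : ℝ) 1, δ t = γ' (2 * t - 1)) (N : ℕ) (hN : 1 ≤ N) :
    pp E δ (N + N) = pp E γ N * pp E γ' N := by
  have hN0 : (0 : ℝ) < N := by exact_mod_cast hN
  rw [pp_eq_A2, pp_eq_A2, pp_eq_A2, List.range_add, List.map_append, List.prod_append,
    List.map_map]
  congr 1
  · congr 1
    apply List.map_congr_left
    intro k hk
    have hk1 : k + 1 ≤ N := List.mem_range.mp hk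
    have hk2 : (k : ℝ) + 1 ≤ N := by exact_mod_cast hk1
    have hk0 : (0 : ℝ) ≤ k := Nat.cast_nonneg k
    have e1 : δ ((k : ℝ) / ((N + N : ℕ) : ℝ)) = γ ((k : ℝ) / N) := by
      rw [hγ]
      · congr 1
        push_cast
        field_simp
        ring
      · push_cast
        refine ⟨by positivity, ?_⟩
        rw [div_le_div_iff₀ (by positivity) (by norm_num)]
        linarith
    have e2 : δ (((k : ℝ) + 1) / ((N + N : ℕ) : ℝ)) = γ (((k : ℝ) + 1) / N) := by
      rw [hγ]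
      · congr 1
        push_cast
        field_simp
        ring
      · push_cast
        refine ⟨by positivity, ?_⟩
        rw [div_le_div_iff₀ (by positivity) (by norm_num)]
        linarith
    rw [e1, e2]
  · congr 1
    apply List.map_congr_left
    intro k hk
    have hk1 : k + 1 ≤ N := List.mem_range.mp hk
    have hk2 : (k : ℝ) + 1 ≤ N := by exact_mod_cast hk1
    have hk0 : (0 : ℝ) ≤ k := Nat.cast_nonneg k
    have e1 : δ (((N + k : ℕ) : ℝ) / ((N + N : ℕ) : ℝ)) = γ' ((k : ℝ) / N) := by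
      rw [hγ']
      · congr 1
        push_cast
        field_simp
        ring
      · push_cast
        constructor
        · rw [div_le_div_iff₀ (by norm_num) (by positivity)]
          linarith
        · rw [div_le_one (by positivity)]
          linarith
    have e2 : δ ((((N + k : ℕ) : ℝ) + 1) / ((N + N : ℕ) : ℝ)) = γ' (((k : ℝ) + 1) / N) := by
      rw [hγ']
      · congr 1
        push_cast
        field_simp
        ring
      · push_cast
        constructor
        · rw [div_le_div_iff₀ (by norm_num) (by positivity)]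
          linarith
        · rw [div_le_one (by positivity)]
          linarith
    show E (δ (((N + k : ℕ) : ℝ) / ((N + N : ℕ) : ℝ))) (δ ((((N + k : ℕ) : ℝ) + 1) / ((N + N : ℕ) : ℝ)))
      = E (γ' ((k : ℝ) / N)) (γ' (((k : ℝ) + 1) / N))
    rw [e1, e2]

theorem isPath_A2 {V : Type} [PseudoMetricSpace V] (S : Set V)
    (γ γ' δ : ℝ → V) (h0 : IsPath S γ) (h0' : IsPath S γ')
    (hγ : ∀ t ∈ Icc (0 : ℝ) (1 / 2), δ t = γ (2 * t))
    (hγ' : ∀ t ∈ Icc (1 / 2 : ℝ) 1, δ t = γ' (2 * t - 1)) : IsPath S δ := by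
  have m1 : MapsTo (fun t : ℝ => 2 * t) (Icc (0 : ℝ) (1 / 2)) (Icc 0 1) := by
    intro t ht
    exact ⟨by linarith [ht.1], by linarith [ht.2]⟩
  have m2 : MapsTo (fun t : ℝ => 2 * t - 1) (Icc (1 / 2 : ℝ) 1) (Icc 0 1) := by
    intro t ht
    exact ⟨by linarith [ht.1], by linarith [ht.2]⟩
  have e : Icc (0 : ℝ) 1 = Icc (0 : ℝ) (1 / 2) ∪ Icc (1 / 2 : ℝ) 1 := by
    rw [Icc_union_Icc_eq_Icc] <;> norm_num
  constructor
  · rw [e]
    apply ContinuousOn.union_of_isClosed _ _ isClosed_Icc isClosed_Icc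
    · have hc : ContinuousOn (fun t : ℝ => γ (2 * t)) (Icc (0 : ℝ) (1 / 2)) :=
        h0.1.comp (by fun_prop) m1
      exact hc.congr hγ
    · have hc : ContinuousOn (fun t : ℝ => γ' (2 * t - 1)) (Icc (1 / 2 : ℝ) 1) :=
        h0'.1.comp (by fun_prop) m2
      exact hc.congr hγ'
  · intro t ht
    rw [e] at ht
    rcases ht with ht | ht
    · rw [hγ t ht]; exact h0.2 (m1 ht)
    · rw [hγ' t ht]; exact h0'.2 (m2 ht)

theorem pA2 (hA1' : StA1') : StA2 := by
  intro V G _ _ S E γ γ' δ hE h0 h0' h1 hγ hγ'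
  have hδ := isPath_A2 S γ γ' δ h0 h0' hγ hγ'
  refine ⟨hδ, ?_⟩
  obtain ⟨N1, hN1⟩ := hA1' V G S E γ hE h0
  obtain ⟨N2, hN2⟩ := hA1' V G S E γ' hE h0'
  obtain ⟨N3, hN3⟩ := hA1' V G S E δ hE hδ
  have hN : 1 ≤ N1 + N2 + N3 + 1 := by omega
  rw [← hN1 (N1 + N2 + N3 + 1) (by omega), ← hN2 (N1 + N2 + N3 + 1) (by omega),
    ← hN3 ((N1 + N2 + N3 + 1) + (N1 + N2 + N3 + 1)) (by omega)]
  exact pp_double_A2 E γ γ' δ h1 hγ hγ' _ hN

end Pool.Agent.Helper74.SS
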