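import Pool.Agent.Helper74.SS.StA

/-! Project SS, module A3: elementary facts about path products. -/

set_option autoImplicit false

open Set Metric Filter Topology

namespace Pool.Agent.Helper74.SS

namespace A3m

variable {V G : Type} [PseudoMetricSpace V] [Group G]

theorem mem01 {k N : ℕ} (h : k ≤ N) (hN : 0 < N) : (k : ℝ) / N ∈ Icc (0 : ℝ) 1 := by
  have h0 : (0 : ℝ) < N := by exact_mod_cast hN
  refine ⟨by positivity, ?_⟩
  rw [div_le_one h0]
  exact_mod_cast h

theorem mem01' {k N : ℕ} (h : k < N) : ((k : ℝ) + 1) / N ∈ Icc (0 : ℝ) 1 := by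
  have := mem01 (k := k + 1) (N := N) h (by omega)
  push_cast at this
  exact this

theorem close {S : Set V} {γ : ℝ → V} (h : IsPath S γ) {ε : ℝ} (hε : 0 < ε) :
    ∃ N1 : ℕ, ∀ N ≥ N1, ∀ k < N, dist (γ ((k : ℝ) / N)) (γ (((k : ℝ) + 1) / N)) < ε := by
  have hu := isCompact_Icc.uniformContinuousOn_of_continuous h.1
  rw [Metric.uniformContinuousOn_iff] at hu
  obtain ⟨δ, hδ, hd⟩ := hu ε hε
  obtain ⟨n, hn⟩ := exists_nat_one_div_lt hδ
  refine ⟨n + 1, fun N hN k hk => ?_⟩
  have hN0 : (0 : ℝ) < N := by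
    have : 0 < N := by omega
    exact_mod_cast this
  refine hd _ (mem01 hk.le (by omega)) _ (mem01' hk) ?_
  rw [Real.dist_eq]
  have : (k : ℝ) / N - ((k : ℝ) + 1) / N = -(1 / N) := by ring
  rw [this, abs_neg, abs_of_pos (by positivity)]
  refine lt_of_le_of_lt ?_ hn
  refine one_div_le_one_div_of_le (by positivity) ?_
  have : n + 1 ≤ N := hN
  exact_mod_cast this

theorem pp_eq (E : V → V → G) (γ : ℝ → V) (N : ℕ) : pp E γ N =
    ((List.range N).map fun k : ℕ => E (γ ((k : ℝ) / N)) (γ (((k : ℝ) + 1) / N))).prod := by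
  unfold pp
  congr 1
  have : (do let a ← List.range N; pure (a : ℝ) : List ℝ) = (List.range N).map fun k : ℕ => (k : ℝ) := by
    simp only [List.bind_eq_flatMap, List.pure_def]
    induction List.range N with
    | nil => rfl
    | cons a l ih => simp [List.flatMap_cons, ih]
  rw [this, List.map_map]
  rfl

theorem pp_congr {E E' : V → V → G} {γ γ' : ℝ → V} {N : ℕ}
    (h : ∀ k < N, E (γ ((k : ℝ) / N)) (γ (((k : ℝ) + 1) / N)) =
      E' (γ' ((k : ℝ) / N)) (γ' (((k : ℝ) + 1) / N))) : pp E γ N = pp E' γ' N := by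
  rw [pp_eq, pp_eq]
  congr 1
  exact List.map_congr_left fun k hk => h k (List.mem_range.mp hk)

theorem rev_prod (a : ℕ → G) (N : ℕ) :
    ((List.range N).map fun k => (a (N - 1 - k))⁻¹).prod * ((List.range N).map a).prod = 1 := by
  induction N with
  | zero => simp
  | succ N ih =>
    have h1 : ((List.range (N + 1)).map fun k => (a (N + 1 - 1 - k))⁻¹).prod =
        (a N)⁻¹ * ((List.range N).map fun k => (a (N - 1 - k))⁻¹).prod := by
      rw [List.range_succ_eq_map, List.map_cons, List.prod_cons, List.map_map]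
      congr 2
      refine List.map_congr_left fun k _ => ?_
      simp only [Function.comp_apply]
      congr 2
      omega
    have h2 : ((List.range (N + 1)).map a).prod = ((List.range N).map a).prod * a N := by
      rw [List.range_succ, List.map_append, List.prod_append]; simp
    rw [h1, h2]
    calc _ = (a N)⁻¹ * (((List.range N).map fun k => (a (N - 1 - k))⁻¹).prod *
          ((List.range N).map a).prod) * a N := by group
      _ = 1 := by rw [ih]; simp

end A3m

open A3m in
theorem pA3 (h1 : StA1') : StA3 := by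
  intro V G _ _ S E hC
  have hC' := hC
  obtain ⟨ε, hε, hE⟩ := hC
  have hd : ∀ x ∈ S, E x x = 1 := by
    intro x hx
    have := hE x hx x hx x hx (by simpa using hε) (by simpa using hε)
    exact mul_eq_left.mp this
  have hinv : ∀ x ∈ S, ∀ y ∈ S, dist x y < ε → E y x = (E x y)⁻¹ := by
    intro x hx y hy hxy
    have := hE x hx y hy x hx hxy (by simpa using hε)
    rw [hd x hx] at this
    exact eq_inv_of_mul_eq_one_right this
  refine ⟨hd, ⟨ε, hε, hinv⟩, ?_, ?_, ?_, ?_⟩
  · intro x hx
    obtain ⟨N0, h⟩ := h1 V G S E (fun _ => x) hC' ⟨continuousOn_const, fun _ _ => hx⟩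
    rw [← h N0 le_rfl, pp_eq]
    refine List.prod_eq_one ?_
    intro g hg
    obtain ⟨k, -, rfl⟩ := List.mem_map.mp hg
    exact hd x hx
  · intro γ γ' hγ
    have : pp E γ = pp E γ' := by
      funext N
      refine pp_congr fun k hk => ?_
      rw [hγ _ (mem01 hk.le (by omega)), hγ _ (mem01' hk)]
    unfold PP
    rw [this]
  · intro γ hγ
    have hr : IsPath S (fun t => γ (1 - t)) := by
      refine ⟨?_, fun t ht => hγ.2 ⟨by linarith [ht.2], by linarith [ht.1]⟩⟩
      refine hγ.1.comp (t := Icc 0 1) (by fun_prop) ?_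
      exact fun t ht => ⟨by linarith [ht.2], by linarith [ht.1]⟩
    obtain ⟨N0, h⟩ := h1 V G S E γ hC' hγ
    obtain ⟨N0', h'⟩ := h1 V G S E (fun t => γ (1 - t)) hC' hr
    obtain ⟨N1, hN1⟩ := close hγ hε
    set N := N0 + N0' + N1 + 1 with hN
    rw [← h N (by omega), ← h' N (by omega), pp_eq, pp_eq]
    rw [eq_inv_iff_mul_eq_one, ← rev_prod (fun k => E (γ ((k : ℝ) / N)) (γ (((k : ℝ) + 1) / N))) N]
    congr 2
    refine List.map_congr_left fun k hk => ?_
    have hk' := List.mem_range.mp hk
    have hN0 : (N : ℝ) ≠ 0 := by positivity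
    have hc : ((N - 1 - k : ℕ) : ℝ) = (N : ℝ) - 1 - k := by
      rw [Nat.cast_sub (by omega), Nat.cast_sub (by omega)]; simp
    have e1 : 1 - (k : ℝ) / N = (((N - 1 - k : ℕ) : ℝ) + 1) / N := by
      rw [hc]; field_simp; ring
    have e2 : 1 - ((k : ℝ) + 1) / N = ((N - 1 - k : ℕ) : ℝ) / N := by
      rw [hc]; field_simp; ring
    simp only [e1, e2]
    refine hinv _ (hγ.2 (mem01 (by omega) (by omega))) _ (hγ.2 (mem01' (by omega))) ?_
    exact hN1 N (by omega) _ (by omega)
  · intro E' γ hn hγ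
    obtain ⟨η, hη, hn⟩ := hn
    have hC2 : Coc S E' := by
      refine ⟨min ε (η / 2), lt_min hε (by positivity), ?_⟩
      intro x hx y hy z hz hxy hxz
      have a1 := lt_of_lt_of_le hxy (min_le_left _ _)
      have a2 := lt_of_lt_of_le hxz (min_le_left _ _)
      have b1 := lt_of_lt_of_le hxy (min_le_right _ _)
      have b2 := lt_of_lt_of_le hxz (min_le_right _ _)
      have hyz : dist y z < η := by
        have := dist_triangle y x z
        rw [dist_comm y x] at this
        linarith
      rw [← hn x hx y hy (by linarith), ← hn y hy z hz hyz, ← hn x hx z hz (by linarith)]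
      exact hE x hx y hy z hz a1 a2
    refine ⟨hC2, ?_⟩
    obtain ⟨N0, h⟩ := h1 V G S E γ hC' hγ
    obtain ⟨N0', h'⟩ := h1 V G S E' γ hC2 hγ
    obtain ⟨N1, hN1⟩ := close hγ hη
    set N := N0 + N0' + N1 + 1 with hN
    rw [← h N (by omega), ← h' N (by omega)]
    refine pp_congr fun k hk => ?_
    exact (hn _ (hγ.2 (mem01 (by omega) (by omega))) _ (hγ.2 (mem01' hk)) (hN1 N (by omega) k hk)).symm

end Pool.Agent.Helper74.SS
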