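import Pool.Agent.Helper74.SS.St

/-! Project SS, module A4: homomorphisms and pull-backs of cocycles near the diagonal. -/

set_option autoImplicit false

open Set Metric Filter Topology

namespace Pool.Agent.Helper74.SS

private theorem pp_map_A4 {V G G' : Type} [Group G] [Group G'] (E : V → V → G)
    (f : G →* G') (γ : ℝ → V) (N : ℕ) :
    pp (fun x y => f (E x y)) γ N = f (pp E γ N) := by
  unfold pp
  rw [map_list_prod, List.map_map]
  rfl

theorem pA4 (h1 : StA1') : StA4 := by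
  refine ⟨?_, ?_⟩
  · intro V G G' _ _ _ S E f γ hE hγ
    have hC : Coc S (fun x y => f (E x y)) := by
      obtain ⟨ε, hε, H⟩ := hE
      refine ⟨ε, hε, fun x hx y hy z hz hxy hxz => ?_⟩
      show f (E x y) * f (E y z) = f (E x z)
      rw [← map_mul, H x hx y hy z hz hxy hxz]
    refine ⟨hC, ?_⟩
    obtain ⟨N0, hN0⟩ := h1 V G S E γ hE hγ
    obtain ⟨N1, hN1⟩ := h1 V G' S _ γ hC hγ
    rw [← hN1 (max N0 N1) (le_max_right _ _), pp_map_A4, hN0 (max N0 N1) (le_max_left _ _)]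
  · intro V V' G _ _ _ S S' E F γ hE hF hγ
    refine ⟨?_, ⟨?_, ?_⟩, rfl⟩
    · obtain ⟨ε, hε, H⟩ := hE
      obtain ⟨δ, hδ, hd⟩ := Metric.uniformContinuousOn_iff.1 hF.1 ε hε
      refine ⟨δ, hδ, fun x hx y hy z hz hxy hxz => ?_⟩
      exact H (F x) (hF.2 hx) (F y) (hF.2 hy) (F z) (hF.2 hz) (hd x hx y hy hxy) (hd x hx z hz hxz)
    · exact hF.1.continuousOn.comp hγ.1 hγ.2
    · exact fun t ht => hF.2 (hγ.2 ht)

end Pool.Agent.Helper74.SS
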