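import Pool.Agent.Helper74.SS.St

set_option autoImplicit false

open Set Metric Filter Topology

namespace Pool.Agent.Helper74.SS

private theorem pp_eq_A5 {V G : Type} [PseudoMetricSpace V] [Group G] (E : V → V → G)
    (γ : ℝ → V) (N : ℕ) : pp E γ N =
      ((List.range N).map fun k : ℕ => E (γ ((k : ℝ) / N)) (γ (((k : ℝ) + 1) / N))).prod := by
  unfold pp
  congr 1
  have h : ∀ l : List ℕ, (List.flatMap (fun a : ℕ => [((a : ℕ) : ℝ)]) l) =
      l.map (fun a : ℕ => (a : ℝ)) := by
    intro l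
    induction l with
    | nil => rfl
    | cons a l ih => rw [List.flatMap_cons, ih]; rfl
  simp only [List.bind_eq_flatMap, List.pure_def, h, List.map_map]
  rfl

theorem pA5 (hA1' : StA1') : StA5 := by
  intro V G _ _ S c E E' γ hE hg hγ
  obtain ⟨ε1, hε1, h1⟩ := hE
  obtain ⟨ε2, hε2, h2⟩ := hg
  have hE' : Coc S E' := by
    refine ⟨min ε1 (ε2 / 2), lt_min hε1 (half_pos hε2), ?_⟩
    intro x hx y hy z hz hxy hxz
    have hxy1 := hxy.trans_le (min_le_left _ _)
    have hxz1 := hxz.trans_le (min_le_left _ _)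
    have hxy2 := hxy.trans_le (min_le_right _ _)
    have hxz2 := hxz.trans_le (min_le_right _ _)
    have hyz : dist y z < ε2 := by
      have := dist_triangle_left y z x
      linarith
    have e1 := h2 x hx y hy (by linarith)
    have e2 := h2 y hy z hz hyz
    have e3 := h2 x hx z hz (by linarith)
    have e4 := h1 x hx y hy z hz hxy1 hxz1
    apply mul_left_cancel (a := c x)
    rw [← mul_assoc, e1, mul_assoc, e2, ← mul_assoc, e4, e3]
  refine ⟨hE', ?_⟩
  obtain ⟨N1, hN1⟩ := hA1' V G S E γ ⟨ε1, hε1, h1⟩ hγ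
  obtain ⟨N2, hN2⟩ := hA1' V G S E' γ hE' hγ
  have huc : UniformContinuousOn γ (Icc 0 1) :=
    isCompact_Icc.uniformContinuousOn_of_continuous hγ.1
  rw [Metric.uniformContinuousOn_iff] at huc
  obtain ⟨δ, hδ, huc⟩ := huc ε2 hε2
  obtain ⟨N3, hN3⟩ := exists_nat_gt (1 / δ)
  set N := max (max N1 N2) (max N3 1) with hN
  have hNN1 : N1 ≤ N := (le_max_left _ _).trans (le_max_left _ _)
  have hNN2 : N2 ≤ N := (le_max_right _ _).trans (le_max_left _ _)
  have hNN3 : N3 ≤ N := (le_max_left _ _).trans (le_max_right _ _)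
  have hNpos : 1 ≤ N := (le_max_right _ _).trans (le_max_right _ _)
  have hN0 : (0 : ℝ) < N := by exact_mod_cast hNpos
  have hNδ : 1 / (N : ℝ) < δ := by
    have h3 : (1 : ℝ) / δ < N := hN3.trans_le (by exact_mod_cast hNN3)
    rw [div_lt_iff₀ hδ] at h3
    rw [div_lt_iff₀ hN0]
    linarith
  rw [← hN1 N hNN1, ← hN2 N hNN2]
  have key : ∀ n : ℕ, n ≤ N →
      c (γ 0) * ((List.range n).map fun k : ℕ => E' (γ ((k : ℝ) / N)) (γ (((k : ℝ) + 1) / N))).prod =
      ((List.range n).map fun k : ℕ => E (γ ((k : ℝ) / N)) (γ (((k : ℝ) + 1) / N))).prod *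
        c (γ ((n : ℝ) / N)) := by
    intro n
    induction n with
    | zero =>
      intro _
      simp
    | succ n ih =>
      intro hn
      rw [List.range_succ, List.map_append, List.map_append, List.prod_append, List.prod_append,
        ← mul_assoc, ih (by omega)]
      simp only [List.map_cons, List.map_nil, List.prod_cons, List.prod_nil, mul_one]
      have hnN : (n : ℝ) + 1 ≤ N := by exact_mod_cast hn
      have hm1 : (n : ℝ) / N ∈ Icc (0 : ℝ) 1 :=
        ⟨by positivity, by rw [div_le_one hN0]; linarith⟩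
      have hm2 : ((n : ℝ) + 1) / N ∈ Icc (0 : ℝ) 1 :=
        ⟨by positivity, by rw [div_le_one hN0]; linarith⟩
      have hd : dist (γ ((n : ℝ) / N)) (γ (((n : ℝ) + 1) / N)) < ε2 := by
        apply huc _ hm1 _ hm2
        rw [Real.dist_eq]
        have : (n : ℝ) / N - ((n : ℝ) + 1) / N = -(1 / N) := by
          field_simp
          ring
        rw [this, abs_neg, abs_of_pos (by positivity)]
        exact hNδ
      have e := h2 _ (hγ.2 hm1) _ (hγ.2 hm2) hd
      rw [mul_assoc, e, ← mul_assoc]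
      push_cast
      rfl
  have := key N le_rfl
  rw [div_self hN0.ne', ← pp_eq_A5, ← pp_eq_A5] at this
  exact this

end Pool.Agent.Helper74.SS
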