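import Pool.Agent.Helper74.SS.St

/-!
# SS module A6: gauge transformations form a groupoid
-/

set_option autoImplicit false

open Set Metric Filter Topology

namespace Pool.Agent.Helper74.SS

theorem pA6 : StA6 := by
  refine ⟨?_, ?_, ?_, ?_, ?_⟩
  · intro V G _ _ S E
    refine ⟨1, one_pos, fun x _ y _ _ => ?_⟩
    simp
  · intro V G _ _ S c E E' ⟨ε, hε, h⟩
    refine ⟨ε, hε, fun x hx y hy hxy => ?_⟩
    have h1 := h x hx y hy hxy
    show (c x)⁻¹ * E x y = E' x y * (c y)⁻¹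
    have h2 : E x y = c x * E' x y * (c y)⁻¹ := by rw [h1, mul_inv_cancel_right]
    rw [h2]
    group
  · intro V G _ _ S c c' E E' E'' ⟨ε, hε, h⟩ ⟨ε', hε', h'⟩
    refine ⟨min ε ε', lt_min hε hε', fun x hx y hy hxy => ?_⟩
    have h1 := h x hx y hy (lt_of_lt_of_le hxy (min_le_left _ _))
    have h2 := h' x hx y hy (lt_of_lt_of_le hxy (min_le_right _ _))
    show c x * c' x * E'' x y = E x y * (c y * c' y)
    rw [mul_assoc, h2, ← mul_assoc, h1, mul_assoc]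
  · intro V V' G _ _ _ S S' c E E' F ⟨ε, hε, h⟩ ⟨hF, hS⟩
    obtain ⟨δ, hδ, hFδ⟩ := Metric.uniformContinuousOn_iff.1 hF ε hε
    exact ⟨δ, hδ, fun x hx y hy hxy => h (F x) (hS hx) (F y) (hS hy) (hFδ x hx y hy hxy)⟩
  · intro V G G' _ _ _ S c E E' f ⟨ε, hε, h⟩
    refine ⟨ε, hε, fun x hx y hy hxy => ?_⟩
    show f (c x) * f (E' x y) = f (E x y) * f (c y)
    rw [← map_mul, ← map_mul, h x hx y hy hxy]

end Pool.Agent.Helper74.SS
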