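import Pool.Agent.Helper74.SS.St

/-! Project SS (MP_2a19da_gt), module A7: homotopy invariance of group valued cocycles. -/

set_option autoImplicit false

open Set Metric Filter Topology

namespace Pool.Agent.Helper74.SS

private theorem pp_eq_A7 {V G : Type} [PseudoMetricSpace V] [Group G] (E : V → V → G)
    (γ : ℝ → V) (N : ℕ) : pp E γ N =
      ((List.range N).map fun k : ℕ => E (γ ((k : ℝ) / N)) (γ (((k : ℝ) + 1) / N))).prod := by
  unfold pp
  simp only [bind_pure_comp, List.map_eq_map, List.map_map]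
  rfl

theorem pA7 (hA1 : StA1) : StA7 := by
  intro V V' G _ _ _ S S' E h hE hh
  obtain ⟨N0, hN0⟩ := hA1 V V' G S S' E h hE hh
  obtain ⟨ε, hε, hcoc⟩ := hE
  obtain ⟨hu, hmem⟩ := hh
  obtain ⟨δ, hδ, hd⟩ := Metric.uniformContinuousOn_iff.1 hu ε hε
  have hd' : ∀ x ∈ S, ∀ y ∈ S, ∀ s ∈ Icc (0 : ℝ) 1, ∀ t ∈ Icc (0 : ℝ) 1, dist x y < δ →
      |s - t| < δ → dist (h x s) (h y t) < ε := by
    intro x hx y hy s hs t ht hxy hst
    refine hd (x, s) ⟨hx, hs⟩ (y, t) ⟨hy, ht⟩ ?_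
    rw [Prod.dist_eq, max_lt_iff]
    exact ⟨hxy, by rwa [Real.dist_eq]⟩
  obtain ⟨N1, hN1⟩ := exists_nat_gt (1 / δ)
  obtain ⟨N, hNN0, hNN1, hNpos⟩ : ∃ N : ℕ, N0 ≤ N ∧ N1 ≤ N ∧ 0 < N :=
    ⟨max (max N0 N1) 1, by simp, by simp, by simp⟩
  have hNR : (0 : ℝ) < N := by exact_mod_cast hNpos
  have hstep : 1 / (N : ℝ) < δ := by
    have h1 : 1 / δ < (N : ℝ) := lt_of_lt_of_le hN1 (by exact_mod_cast hNN1)
    rw [div_lt_iff₀ hNR]
    rw [div_lt_iff₀ hδ] at h1
    linarith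
  refine ⟨δ, hδ, fun x hx y hy hxy => ?_⟩
  have hIcc : ∀ n : ℕ, n ≤ N → ((n : ℝ) / N) ∈ Icc (0 : ℝ) 1 := by
    intro n hn
    refine ⟨by positivity, ?_⟩
    rw [div_le_one hNR]
    exact_mod_cast hn
  have key : ∀ n : ℕ, n ≤ N →
      ((List.range n).map fun k : ℕ => E (h x ((k : ℝ) / N)) (h x (((k : ℝ) + 1) / N))).prod *
          E (h x ((n : ℝ) / N)) (h y ((n : ℝ) / N)) =
        E (h x 0) (h y 0) *
          ((List.range n).map fun k : ℕ => E (h y ((k : ℝ) / N)) (h y (((k : ℝ) + 1) / N))).prod := by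
    intro n
    induction n with
    | zero => intro _; simp
    | succ n ih =>
      intro hn
      have ih' := ih (Nat.le_of_succ_le hn)
      rw [List.range_succ, List.map_append, List.map_append, List.prod_append, List.prod_append]
      simp only [List.map_cons, List.map_nil, List.prod_cons, List.prod_nil, mul_one]
      have hm0 := hIcc n (Nat.le_of_succ_le hn)
      have hm1 := hIcc (n + 1) hn
      push_cast at hm1 ⊢
      have h01 : |(n : ℝ) / N - ((n : ℝ) + 1) / N| < δ := by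
        have h2 : (n : ℝ) / N - ((n : ℝ) + 1) / N = -(1 / N) := by ring
        rw [h2, abs_neg, abs_of_pos (by positivity)]
        exact hstep
      have h00 : |(n : ℝ) / N - (n : ℝ) / N| < δ := by simpa using hδ
      have hxx : dist x x < δ := by simpa using hδ
      have e1 := hcoc (h x ((n : ℝ) / N)) (hmem x hx _ hm0) (h x (((n : ℝ) + 1) / N))
        (hmem x hx _ hm1) (h y (((n : ℝ) + 1) / N)) (hmem y hy _ hm1)
        (hd' x hx x hx _ hm0 _ hm1 hxx h01) (hd' x hx y hy _ hm0 _ hm1 hxy h01)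
      have e2 := hcoc (h x ((n : ℝ) / N)) (hmem x hx _ hm0) (h y ((n : ℝ) / N))
        (hmem y hy _ hm0) (h y (((n : ℝ) + 1) / N)) (hmem y hy _ hm1)
        (hd' x hx y hy _ hm0 _ hm0 hxy h00) (hd' x hx y hy _ hm0 _ hm1 hxy h01)
      rw [mul_assoc, e1, ← e2, ← mul_assoc, ih', mul_assoc]
  have hfin := key N le_rfl
  rw [div_self hNR.ne'] at hfin
  have hx1 := hN0 N hNN0 x hx
  have hy1 := hN0 N hNN0 y hy
  rw [pp_eq_A7] at hx1 hy1
  show PP E (h x) * E (h x 1) (h y 1) = E (h x 0) (h y 0) * PP E (h y)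
  rw [← hx1, ← hy1]
  exact hfin

end Pool.Agent.Helper74.SS
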