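import Pool.Agent.Helper74.SS.St

set_option autoImplicit false

open Set Metric Filter Topology

namespace Pool.Agent.Helper74.SS

theorem pA8 (hA4 : StA4) (hA5 : StA5) (hA7 : StA7) : StA8 := by
  intro V G _ _ S E h hE hc hS
  have hu : UniformContinuousOn (fun p : ℝ × ℝ => h p.1 p.2) (Icc 0 1 ×ˢ Icc 0 1) :=
    (isCompact_Icc.prod isCompact_Icc).uniformContinuousOn_of_continuous hc
  have hH : HMor (Icc (0 : ℝ) 1) S h := ⟨hu, hS⟩
  have hG := hA7 ℝ V G (Icc (0 : ℝ) 1) S E h hE hH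
  have hM : ∀ τ ∈ Icc (0 : ℝ) 1, Mor (Icc (0 : ℝ) 1) S (fun t => h t τ) := by
    intro τ hτ
    refine ⟨isCompact_Icc.uniformContinuousOn_of_continuous ?_, fun t ht => hS t ht τ hτ⟩
    have h1 : ContinuousOn (fun t : ℝ => ((t, τ) : ℝ × ℝ)) (Icc 0 1) := by fun_prop
    exact hc.comp h1 fun t ht => ⟨ht, hτ⟩
  have hid : IsPath (Icc (0 : ℝ) 1) (id : ℝ → ℝ) := ⟨continuousOn_id, fun t ht => ht⟩
  obtain ⟨c0, -, e0⟩ := hA4.2 ℝ V G (Icc (0 : ℝ) 1) S E (fun t => h t 0) id hE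
    (hM 0 (left_mem_Icc.2 zero_le_one)) hid
  obtain ⟨c1, -, e1⟩ := hA4.2 ℝ V G (Icc (0 : ℝ) 1) S E (fun t => h t 1) id hE
    (hM 1 (right_mem_Icc.2 zero_le_one)) hid
  obtain ⟨-, e⟩ := hA5 ℝ G (Icc (0 : ℝ) 1) (fun x => PP E (h x)) (fun x y => E (h x 0) (h y 0))
    (fun x y => E (h x 1) (h y 1)) id c0 hG hid
  simp only [id] at e e0 e1
  have e0' : PP (fun x y => E (h x 0) (h y 0)) (fun t : ℝ => t) = PP E (fun t => h t 0) := e0
  have e1' : PP (fun x y => E (h x 1) (h y 1)) (fun t : ℝ => t) = PP E (fun t => h t 1) := e1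
  have e' : PP E (h 0) * PP (fun x y => E (h x 1) (h y 1)) (fun t : ℝ => t) =
    PP (fun x y => E (h x 0) (h y 0)) (fun t : ℝ => t) * PP E (h 1) := e
  rw [e0', e1'] at e'
  exact e'

end Pool.Agent.Helper74.SS
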