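import Pool.Agent.Helper74.SS.St

/-! Project SS, module A9. -/

set_option autoImplicit false

open Set Metric Filter Topology

namespace Pool.Agent.Helper74.SS

theorem pp_one_A9 {V G : Type} [PseudoMetricSpace V] [Group G] (γ : ℝ → V) (N : ℕ) :
    pp (fun _ _ : V => (1 : G)) γ N = 1 := by
  unfold pp
  apply List.prod_eq_one
  intro x hx
  rw [List.mem_map] at hx
  obtain ⟨_, _, h⟩ := hx
  exact h.symm

theorem PP_one_A9 {V G : Type} [PseudoMetricSpace V] [Group G] (γ : ℝ → V) :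
    PP (fun _ _ : V => (1 : G)) γ = 1 := by
  classical
  unfold PP
  split_ifs with h
  · obtain ⟨N, hN⟩ := h.choose_spec.exists
    rw [← hN, pp_one_A9]
  · rfl

theorem pA9 (h7 : StA7) (h5 : StA5) (h3 : StA3) : StA9 := by
  refine ⟨?_, ?_⟩
  · intro V G _ _ S E hc hE
    obtain ⟨h, x0, hh, hx0, h01⟩ := hc
    obtain ⟨ε, hε, hg⟩ := h7 V V G S S E h hE hh
    refine ⟨fun x => PP E (h x), ε, hε, ?_⟩
    intro x hx y hy hxy
    have h1 := hg x hx y hy hxy
    have hE1 := (h3 V G S E hE).1 x0 hx0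
    simp only [(h01 x hx).1, (h01 y hy).1, (h01 x hx).2, (h01 y hy).2, hE1] at h1
    exact h1
  · intro V G _ _ S E d γ hE hd hγ
    have h1 := (h5 V G S d E (fun _ _ => 1) γ hE hd hγ).2
    rw [PP_one_A9, mul_one] at h1
    rw [h1, mul_inv_cancel_right]

end Pool.Agent.Helper74.SS
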