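import Pool.Agent.Helper74.SS.StA

/-! Project SS, module B1: elementary closure properties of twisted cochains. -/

set_option autoImplicit false

open Set Metric Filter Topology

namespace Pool.Agent.Helper74.SS

private theorem nr3symm_B1 {V B : Type} [PseudoMetricSpace V] {S : Set V} {ω ω' : V → V → V → B}
    (h : Nr3 S ω ω') : Nr3 S ω' ω := by
  obtain ⟨ε, hε, h⟩ := h
  exact ⟨ε, hε, fun x hx y hy z hz a b => (h x hx y hy z hz a b).symm⟩

private theorem z2d1_B1 {V A : Type} [PseudoMetricSpace V] [CommRing A] {S : Set V}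
    {e : V → V → Aˣ} (hC : Coc S e) (φ : V → V → A) : Z2 S e (d1 e φ) := by
  obtain ⟨ε, hε, hE⟩ := hC
  refine ⟨ε, hε, fun w hw x hx y hy z hz hwx hwy hwz => ?_⟩
  have h := hE w hw x hx y hy hwx hwy
  have h' : (e w x : A) * e x y = e w y := by rw [← h]; simp
  simp only [d1]
  linear_combination (φ y z) * h'

private theorem z2nr_B1 {V A : Type} [PseudoMetricSpace V] [CommRing A] {S : Set V}
    {e : V → V → Aˣ} {ω ω' : V → V → V → A} (hn : Nr3 S ω ω') (hz : Z2 S e ω) : Z2 S e ω' := by
  obtain ⟨δ, hδ, hn⟩ := hn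
  obtain ⟨ε, hε, hz⟩ := hz
  refine ⟨min ε (δ / 2), lt_min hε (by positivity), fun w hw x hx y hy z hz' hwx hwy hwz => ?_⟩
  have a1 := lt_of_lt_of_le hwx (min_le_left _ _)
  have a2 := lt_of_lt_of_le hwy (min_le_left _ _)
  have a3 := lt_of_lt_of_le hwz (min_le_left _ _)
  have b1 := lt_of_lt_of_le hwx (min_le_right _ _)
  have b2 := lt_of_lt_of_le hwy (min_le_right _ _)
  have b3 := lt_of_lt_of_le hwz (min_le_right _ _)
  have hxy : dist x y < δ := by
    have := dist_triangle x w y
    rw [dist_comm x w] at this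
    linarith
  have hxz : dist x z < δ := by
    have := dist_triangle x w z
    rw [dist_comm x w] at this
    linarith
  have h := hz w hw x hx y hy z hz' a1 a2 a3
  rw [hn x hx y hy z hz' hxy hxz, hn w hw y hy z hz' (by linarith) (by linarith),
    hn w hw x hx z hz' (by linarith) (by linarith),
    hn w hw x hx y hy (by linarith) (by linarith)] at h
  exact h

theorem pB1 : StB1 := by
  intro V A _ _ S e hC
  refine ⟨?_, z2d1_B1 hC, fun ω ω' h h' => z2nr_B1 h h', ?_, ?_, ?_, ?_⟩
  · intro g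
    obtain ⟨ε, hε, hE⟩ := hC
    refine ⟨ε, hε, fun x hx y hy z hz hxy hxz => ?_⟩
    have h := hE x hx y hy z hz hxy hxz
    have h' : (e x y : A) * e y z = e x z := by rw [← h]; simp
    simp only [d1, d0]
    linear_combination (g z) * h'
  · rintro ω ω' a ⟨ε, hε, h⟩ ⟨ε', hε', h'⟩
    refine ⟨min ε ε', lt_min hε hε', fun w hw x hx y hy z hz hwx hwy hwz => ?_⟩
    have h1 := h w hw x hx y hy z hz (lt_of_lt_of_le hwx (min_le_left _ _))
      (lt_of_lt_of_le hwy (min_le_left _ _)) (lt_of_lt_of_le hwz (min_le_left _ _))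
    have h2 := h' w hw x hx y hy z hz (lt_of_lt_of_le hwx (min_le_right _ _))
      (lt_of_lt_of_le hwy (min_le_right _ _)) (lt_of_lt_of_le hwz (min_le_right _ _))
    linear_combination h1 + a * h2
  · rintro ω ω' a ⟨φ, ε, hε, h⟩ ⟨φ', ε', hε', h'⟩
    refine ⟨fun x y => φ x y + a * φ' x y, min ε ε', lt_min hε hε',
      fun x hx y hy z hz hxy hxz => ?_⟩
    have h1 := h x hx y hy z hz (lt_of_lt_of_le hxy (min_le_left _ _))
      (lt_of_lt_of_le hxz (min_le_left _ _))
    have h2 := h' x hx y hy z hz (lt_of_lt_of_le hxy (min_le_right _ _))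
      (lt_of_lt_of_le hxz (min_le_right _ _))
    simp only [d1] at h1 h2 ⊢
    linear_combination h1 + a * h2
  · rintro ω ⟨φ, h⟩
    exact z2nr_B1 (nr3symm_B1 h) (z2d1_B1 hC φ)
  · intro φ
    obtain ⟨ε', hε', hE⟩ := hC
    constructor
    · rintro ⟨ε, hε, h⟩
      refine ⟨min ε ε', lt_min hε hε', fun x hx y hy z hz hxy hxz => ?_⟩
      have h1 := h x hx y hy z hz (lt_of_lt_of_le hxy (min_le_left _ _))
        (lt_of_lt_of_le hxz (min_le_left _ _))
      have h2 := hE x hx y hy z hz (lt_of_lt_of_le hxy (min_le_right _ _))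
        (lt_of_lt_of_le hxz (min_le_right _ _))
      simp only [d1] at h1
      ext
      · simp only [Aff.mul_m]
        linear_combination h1
      · simp only [Aff.mul_u, h2]
    · rintro ⟨ε, hε, h⟩
      refine ⟨ε, hε, fun x hx y hy z hz hxy hxz => ?_⟩
      have h1 := congrArg Aff.m (h x hx y hy z hz hxy hxz)
      simp only [Aff.mul_m] at h1
      simp only [d1]
      linear_combination h1

end Pool.Agent.Helper74.SS
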