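import Pool.Agent.Helper74.SS.St

set_option autoImplicit false

open Set Metric Filter Topology

namespace Pool.Agent.Helper74.SS

private theorem gau_val_B2 {V A : Type} [PseudoMetricSpace V] [CommRing A] {e e' : V → V → Aˣ}
    {g : V → Aˣ} {x y : V} (h : g x * e' x y = e x y * g y) :
    (g x : A) * (e' x y : A) = (e x y : A) * (g y : A) := by
  have := congrArg (fun u : Aˣ => (u : A)) h
  simpa using this

private theorem uc_B2 {V V' : Type} [PseudoMetricSpace V] [PseudoMetricSpace V'] {S : Set V}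
    {F : V → V'} (h : UniformContinuousOn F S) {ε : ℝ} (hε : 0 < ε) :
    ∃ δ > 0, ∀ x ∈ S, ∀ y ∈ S, dist x y < δ → dist (F x) (F y) < ε := by
  rw [Metric.uniformContinuousOn_iff] at h
  obtain ⟨δ, hδ, H⟩ := h ε hε
  exact ⟨δ, hδ, fun x hx y hy hxy => H x hx y hy hxy⟩

theorem pB2 : StB2 := by
  refine ⟨?_, ?_, ?_⟩
  · intro V A _ _ S e e' g ω hG
    obtain ⟨ε1, hε1, hg⟩ := hG
    refine ⟨?_, ?_⟩
    · rintro ⟨ε2, hε2, hz⟩
      refine ⟨min ε1 ε2, lt_min hε1 hε2, fun w hw x hx y hy z hz' h1 h2 h3 => ?_⟩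
      have k1 := gau_val_B2 (hg w hw x hx (lt_of_lt_of_le h1 (min_le_left _ _)))
      have k2 := hz w hw x hx y hy z hz' (lt_of_lt_of_le h1 (min_le_right _ _))
        (lt_of_lt_of_le h2 (min_le_right _ _)) (lt_of_lt_of_le h3 (min_le_right _ _))
      have k3 : (e w x : A) * ((g x : A) * ω x y z) - (g w : A) * ω w y z + (g w : A) * ω w x z
          - (g w : A) * ω w x y
          = (g w : A) * ((e' w x : A) * ω x y z - ω w y z + ω w x z - ω w x y) := by
        rw [← mul_assoc, ← k1]; ring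
      show (e w x : A) * ((g x : A) * ω x y z) - (g w : A) * ω w y z + (g w : A) * ω w x z
          - (g w : A) * ω w x y = 0
      rw [k3, k2, mul_zero]
    · rintro ⟨φ, ε2, hε2, hφ⟩
      refine ⟨fun x y => (g x : A) * φ x y, min ε1 ε2, lt_min hε1 hε2,
        fun x hx y hy z hz h1 h2 => ?_⟩
      have k1 := gau_val_B2 (hg x hx y hy (lt_of_lt_of_le h1 (min_le_left _ _)))
      have k2 := hφ x hx y hy z hz (lt_of_lt_of_le h1 (min_le_right _ _))
        (lt_of_lt_of_le h2 (min_le_right _ _))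
      show (g x : A) * ω x y z = (e x y : A) * ((g y : A) * φ y z) - (g x : A) * φ x z
        + (g x : A) * φ x y
      rw [k2, ← mul_assoc, ← k1]
      unfold d1
      ring
  · intro V V' A _ _ _ S S' F e ω hF
    obtain ⟨hu, hm⟩ := hF
    refine ⟨?_, ?_⟩
    · rintro ⟨ε, hε, hz⟩
      obtain ⟨δ, hδ, H⟩ := uc_B2 hu hε
      exact ⟨δ, hδ, fun w hw x hx y hy z hz' h1 h2 h3 =>
        hz (F w) (hm hw) (F x) (hm hx) (F y) (hm hy) (F z) (hm hz')
          (H w hw x hx h1) (H w hw y hy h2) (H w hw z hz' h3)⟩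
    · rintro ⟨φ, ε, hε, hφ⟩
      obtain ⟨δ, hδ, H⟩ := uc_B2 hu hε
      exact ⟨fun x y => φ (F x) (F y), δ, hδ, fun x hx y hy z hz h1 h2 =>
        hφ (F x) (hm hx) (F y) (hm hy) (F z) (hm hz) (H x hx y hy h1) (H x hx z hz h2)⟩
  · intro V A A' _ _ _ S e ω f
    refine ⟨?_, ?_⟩
    · rintro ⟨ε, hε, hz⟩
      refine ⟨ε, hε, fun w hw x hx y hy z hz' h1 h2 h3 => ?_⟩
      have k := congrArg f (hz w hw x hx y hy z hz' h1 h2 h3)
      simpa using k
    · rintro ⟨φ, ε, hε, hφ⟩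
      refine ⟨fun x y => f (φ x y), ε, hε, fun x hx y hy z hz h1 h2 => ?_⟩
      have k := congrArg f (hφ x hx y hy z hz h1 h2)
      unfold d1 at k ⊢
      simpa using k

end Pool.Agent.Helper74.SS
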