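import Pool.Agent.Helper74.SS.St

set_option autoImplicit false

open Set Metric Filter Topology

namespace Pool.Agent.Helper74.SS

theorem pp_eq_B4 {V G : Type} [PseudoMetricSpace V] [Group G] (E : V → V → G)
    (γ : ℝ → V) (N : ℕ) : pp E γ N =
    ((List.range N).map (fun k : ℕ => E (γ ((k : ℝ) / N)) (γ (((k : ℝ) + 1) / N)))).prod := by
  unfold pp
  simp only [bind_pure_comp, List.map_eq_map, List.map_map]
  rfl

/-- partial products along the homotopy -/
noncomputable def gg_B4 {V V' G : Type} [Group G] (E : V' → V' → G) (h : V → ℝ → V') (N k : ℕ)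
    (x : V) : G :=
  ((List.range k).map (fun j : ℕ => E (h x ((j : ℝ) / N)) (h x (((j : ℝ) + 1) / N)))).prod

theorem gg_succ_B4 {V V' G : Type} [Group G] (E : V' → V' → G) (h : V → ℝ → V') (N k : ℕ)
    (x : V) : gg_B4 E h N (k + 1) x =
      gg_B4 E h N k x * E (h x ((k : ℝ) / N)) (h x (((k : ℝ) + 1) / N)) := by
  unfold gg_B4
  rw [List.range_succ, List.map_append, List.prod_append]
  simp

theorem Gau_comp_B4 {V G : Type} [PseudoMetricSpace V] [Group G] {S : Set V} {c c' : V → G}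
    {E E' E'' : V → V → G} (h1 : Gau S c E E') (h2 : Gau S c' E' E'') :
    Gau S (fun x => c x * c' x) E E'' := by
  obtain ⟨ε, hε, h1⟩ := h1
  obtain ⟨ε', hε', h2⟩ := h2
  refine ⟨min ε ε', lt_min hε hε', fun x hx y hy hxy => ?_⟩
  have a := h1 x hx y hy (lt_of_lt_of_le hxy (min_le_left _ _))
  have b := h2 x hx y hy (lt_of_lt_of_le hxy (min_le_right _ _))
  show c x * c' x * E'' x y = E x y * (c y * c' y)
  rw [mul_assoc, b, ← mul_assoc, a, mul_assoc]

theorem B2_add_B4 {V A : Type} [PseudoMetricSpace V] [CommRing A] {S : Set V} {e : V → V → Aˣ}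
    {ω ω' ω'' : V → V → V → A} (h1 : B2 S e ω) (h2 : B2 S e ω')
    (h : ∀ x ∈ S, ∀ y ∈ S, ∀ z ∈ S, ω'' x y z = ω x y z + ω' x y z) : B2 S e ω'' := by
  obtain ⟨φ, ε, hε, h1⟩ := h1
  obtain ⟨φ', ε', hε', h2⟩ := h2
  refine ⟨fun x y => φ x y + φ' x y, min ε ε', lt_min hε hε', fun x hx y hy z hz hxy hxz => ?_⟩
  have a := h1 x hx y hy z hz (lt_of_lt_of_le hxy (min_le_left _ _))
    (lt_of_lt_of_le hxz (min_le_left _ _))
  have b := h2 x hx y hy z hz (lt_of_lt_of_le hxy (min_le_right _ _))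
    (lt_of_lt_of_le hxz (min_le_right _ _))
  rw [h x hx y hy z hz, a, b]
  unfold d1
  ring

theorem pB4 (hA1 : StA1) (hB2 : StB2) (hB3 : StB3) : StB4 := by
  intro V V' A _ _ _ S S' e ω h he hω hh
  obtain ⟨ε, hε, H3⟩ := hB3 V V' A S' e ω he hω
  obtain ⟨N0, hN0⟩ := hA1 V V' Aˣ S S' e h he hh
  have hu := hh.1
  rw [Metric.uniformContinuousOn_iff] at hu
  obtain ⟨δ, hδ, hu⟩ := hu ε hε
  obtain ⟨M, hM⟩ := exists_nat_one_div_lt hδ
  set N : ℕ := max N0 (M + 1) with hN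
  have hNM : (M : ℝ) + 1 ≤ N := by
    have : M + 1 ≤ N := le_max_right _ _
    exact_mod_cast this
  have hM0 : (0 : ℝ) ≤ M := Nat.cast_nonneg M
  have hNpos : (0 : ℝ) < N := by linarith
  have hNδ : 1 / (N : ℝ) < δ :=
    lt_of_le_of_lt (one_div_le_one_div_of_le (by linarith) hNM) hM
  have hk01 : ∀ k : ℕ, k ≤ N → ((k : ℝ) / N) ∈ Icc (0 : ℝ) 1 := by
    intro k hk
    have h1 : (k : ℝ) ≤ N := by exact_mod_cast hk
    exact ⟨by positivity, by rw [div_le_one hNpos]; exact h1⟩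
  have key : ∀ k : ℕ, k ≤ N →
      Gau S (gg_B4 e h N k) (fun x y => e (h x 0) (h y 0))
        (fun x y => e (h x ((k : ℝ) / N)) (h y ((k : ℝ) / N))) ∧
      B2 S (fun x y => e (h x 0) (h y 0)) (fun x y z => ω (h x 0) (h y 0) (h z 0) -
        ((gg_B4 e h N k x : Aˣ) : A) * ω (h x ((k : ℝ) / N)) (h y ((k : ℝ) / N))
          (h z ((k : ℝ) / N))) := by
    intro k
    induction k with
    | zero =>
      intro _
      constructor
      · refine ⟨1, one_pos, fun x _ y _ _ => ?_⟩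
        simp [gg_B4]
      · refine ⟨fun _ _ => 0, 1, one_pos, fun x _ y _ z _ _ _ => ?_⟩
        simp [gg_B4, d1]
    | succ k ih =>
      intro hk
      obtain ⟨ih1, ih2⟩ := ih (by omega)
      have hk1 := hk01 k (by omega)
      have hk2 := hk01 (k + 1) hk
      have hcast : (((k + 1 : ℕ) : ℝ) / N) = ((k : ℝ) + 1) / N := by push_cast; rfl
      rw [hcast] at hk2
      have hd : dist ((k : ℝ) / N) (((k : ℝ) + 1) / N) < δ := by
        rw [Real.dist_eq]
        have e : (k : ℝ) / N - ((k : ℝ) + 1) / N = -(1 / (N : ℝ)) := by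
          field_simp
          ring
        rw [e, abs_neg, abs_of_pos (by positivity)]
        exact hNδ
      have hd0 : ∀ a : ℝ, dist a a < δ := fun a => by rw [dist_self]; exact hδ
      obtain ⟨g1, b1⟩ := H3 S (fun x => h x ((k : ℝ) / N)) (fun x => h x (((k : ℝ) + 1) / N))
        (fun x hx => hh.2 x hx _ hk1) (fun x hx => hh.2 x hx _ hk2)
        ⟨δ, hδ, fun x hx y hy hxy => by
          refine ⟨?_, ?_, ?_⟩
          · exact hu (x, (k : ℝ) / N) ⟨hx, hk1⟩ (y, (k : ℝ) / N) ⟨hy, hk1⟩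
              (by rw [Prod.dist_eq]; exact max_lt hxy (hd0 _))
          · exact hu (x, (k : ℝ) / N) ⟨hx, hk1⟩ (y, ((k : ℝ) + 1) / N) ⟨hy, hk2⟩
              (by rw [Prod.dist_eq]; exact max_lt hxy hd)
          · exact hu (x, ((k : ℝ) + 1) / N) ⟨hx, hk2⟩ (y, ((k : ℝ) + 1) / N) ⟨hy, hk2⟩
              (by rw [Prod.dist_eq]; exact max_lt hxy (hd0 _))⟩
      rw [hcast]
      constructor
      · have := Gau_comp_B4 ih1 g1
        have e1 : gg_B4 e h N (k + 1) = fun x => gg_B4 e h N k x *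
            e (h x ((k : ℝ) / N)) (h x (((k : ℝ) + 1) / N)) := by
          funext x; exact gg_succ_B4 e h N k x
        rw [e1]
        exact this
      · have b2 := (hB2.1 V A S _ _ (gg_B4 e h N k) _ ih1).2 b1
        refine B2_add_B4 ih2 b2 ?_
        intro x _ y _ z _
        rw [gg_succ_B4, Units.val_mul]
        ring
  have hfin := (key N le_rfl).2
  have hNN : (N : ℝ) / N = 1 := div_self hNpos.ne'
  rw [hNN] at hfin
  obtain ⟨φ, ε', hε', hfin⟩ := hfin
  refine ⟨φ, ε', hε', fun x hx y hy z hz hxy hxz => ?_⟩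
  have e1 : gg_B4 e h N N x = PP e (h x) := by
    rw [← hN0 N (le_max_left _ _) x hx, pp_eq_B4]
    rfl
  have e2 := hfin x hx y hy z hz hxy hxz
  rw [← e2]
  show ω (h x 0) (h y 0) (h z 0) - ((PP e (h x) : Aˣ) : A) * ω (h x 1) (h y 1) (h z 1)
    = ω (h x 0) (h y 0) (h z 0) - ((gg_B4 e h N N x : Aˣ) : A) * ω (h x 1) (h y 1) (h z 1)
  rw [e1]

end Pool.Agent.Helper74.SS
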