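import Pool.Agent.Helper74.SS.St

/-!
Project SS, module B5: contractible sets have no second cohomology.
-/

set_option autoImplicit false

open Set Metric Filter Topology

namespace Pool.Agent.Helper74.SS

/-- B5: contractible sets have no second cohomology. -/
theorem pB5 (hB4 : StB4) (hA7 : StA7) : StB5 := by
  intro V A _ _ S e ω hcontr hcoc hz
  obtain ⟨h, x0, hmor, hx0, hh⟩ := hcontr
  obtain ⟨φ, ε1, hε1, h1⟩ := hB4 V V A S S e ω h hcoc hz hmor
  obtain ⟨ε2, hε2, h2⟩ := hA7 V V Aˣ S S e h hcoc hmor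
  obtain ⟨ε3, hε3, h3⟩ := hcoc
  have he : e x0 x0 = 1 := by
    have h4 := h3 x0 hx0 x0 hx0 x0 hx0 (by rw [dist_self]; exact hε3)
      (by rw [dist_self]; exact hε3)
    exact mul_eq_left.1 h4
  refine ⟨fun x y => φ x y + ((PP e (h x) : Aˣ) : A) * ω x0 x0 x0, min ε1 ε2,
    lt_min hε1 hε2, ?_⟩
  intro x hx y hy z hz' hxy hxz
  have h5 := h1 x hx y hy z hz' (hxy.trans_le (min_le_left _ _)) (hxz.trans_le (min_le_left _ _))
  have h6 := h2 x hx y hy (hxy.trans_le (min_le_right _ _))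
  simp only [(hh x hx).1, (hh x hx).2, (hh y hy).1, (hh y hy).2, (hh z hz').1, (hh z hz').2, he,
    mul_one] at h5 h6
  have h7 : ((PP e (h x) : Aˣ) : A) = (e x y : A) * ((PP e (h y) : Aˣ) : A) := by
    rw [h6, Units.val_mul]
  simp only [d1, (hh x hx).1, (hh y hy).1] at h5 ⊢
  linear_combination h5 + ω x0 x0 x0 * h7

end Pool.Agent.Helper74.SS
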