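import Pool.Agent.Helper74.SS.St

/-! Project SS, module B6: sets of dimension at most one have no second cohomology. -/

set_option autoImplicit false

open Set Metric Filter Topology

namespace Pool.Agent.Helper74.SS

open Classical in
/-- The cochain of module B6. -/
private noncomputable def psiB6 {V A : Type} [CommRing A] (e : V → V → Aˣ) (ω : V → V → V → A)
    (a b : V) : A :=
  if a = b then ω a a a
  else if WellOrderingRel a b then 0
  else (((e b a)⁻¹ : Aˣ) : A) * (ω b a b + ω b b b)

theorem pB6 (hB3 : StB3) (hB2 : StB2) : StB6 := by
  intro V A _ _ S e ω hD he hω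
  obtain ⟨ε3, hε3, H3⟩ := hB3 V V A S e ω he hω
  obtain ⟨εc, hεc, Hc⟩ := id he
  obtain ⟨εz, hεz, Hz⟩ := id hω
  set m : ℝ := min (min εc εz) ε3 with hm
  have hmpos : 0 < m := lt_min (lt_min hεc hεz) hε3
  have hmc : m ≤ εc := (min_le_left _ _).trans (min_le_left _ _)
  have hmz : m ≤ εz := (min_le_left _ _).trans (min_le_right _ _)
  have hm3 : m ≤ ε3 := min_le_right _ _
  obtain ⟨v, hvS, hvd, ε1, hε1, hv⟩ := hD (m / 8) (by positivity)
  obtain ⟨hG, hBd⟩ := H3 S (fun x => x) v (fun x hx => hx) hvS
    ⟨m / 2, by positivity, by
      intro x hx y hy hxy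
      have h1 := hvd x hx
      have h2 := hvd y hy
      refine ⟨by linarith, ?_, ?_⟩
      · have := dist_triangle x y (v y)
        linarith
      · have h3 := dist_triangle (v x) x (v y)
        have h4 := dist_triangle x y (v y)
        rw [dist_comm (v x) x] at h3
        linarith⟩
  have hee : ∀ x ∈ S, e x x = 1 := by
    intro x hx
    have h := Hc x hx x hx x hx (by rw [dist_self]; exact hεc) (by rw [dist_self]; exact hεc)
    exact mul_eq_left.1 h
  -- the three cases
  have key : ∀ a ∈ S, ∀ b ∈ S, ∀ c ∈ S, dist a b < m → dist a c < m → dist b c < m →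
      (a = b ∨ b = c ∨ a = c) →
      ω a b c = (e a b : A) * psiB6 e ω b c - psiB6 e ω a c + psiB6 e ω a b := by
    have haac : ∀ a ∈ S, ∀ c ∈ S, dist a c < m → ω a a c = ω a a a := by
      intro a ha c hc hac
      have h := Hz a ha a ha a ha c hc (by rw [dist_self]; exact hεz)
        (by rw [dist_self]; exact hεz) (lt_of_lt_of_le hac hmz)
      rw [hee a ha, Units.val_one, one_mul] at h
      linear_combination h
    have habb : ∀ a ∈ S, ∀ b ∈ S, dist a b < m → ω a b b = (e a b : A) * ω b b b := by
      intro a ha b hb hab
      have h' := lt_of_lt_of_le hab hmz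
      have h := Hz a ha b hb b hb b hb h' h' h'
      linear_combination -h
    intro a ha b hb c hc hab hac hbc hcase
    by_cases h1 : a = b
    · subst h1
      rw [haac a ha c hc hac, hee a ha, Units.val_one, one_mul]
      have : psiB6 e ω a a = ω a a a := by
        unfold psiB6
        rw [if_pos rfl]
      rw [this]
      ring
    · by_cases h2 : b = c
      · subst h2
        rw [habb a ha b hb hab]
        have : psiB6 e ω b b = ω b b b := by
          unfold psiB6
          rw [if_pos rfl]
        rw [this]
        ring
      · have h3 : a = c := by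
          rcases hcase with h | h | h
          · exact absurd h h1
          · exact absurd h h2
          · exact h
        subst h3
        have haa : psiB6 e ω a a = ω a a a := by
          unfold psiB6
          rw [if_pos rfl]
        rw [haa]
        by_cases hlt : WellOrderingRel a b
        · have hnlt : ¬ WellOrderingRel b a := fun h => asymm hlt h
          have p1 : psiB6 e ω a b = 0 := by
            unfold psiB6
            rw [if_neg h1, if_pos hlt]
          have p2 : psiB6 e ω b a = (((e a b)⁻¹ : Aˣ) : A) * (ω a b a + ω a a a) := by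
            unfold psiB6
            rw [if_neg (Ne.symm h1), if_neg hnlt]
          rw [p1, p2, ← mul_assoc, Units.mul_inv, one_mul]
          ring
        · have hlt' : WellOrderingRel b a := by
            rcases trichotomous_of WellOrderingRel a b with h | h | h
            · exact absurd h hlt
            · exact absurd h h1
            · exact h
          have p1 : psiB6 e ω b a = 0 := by
            unfold psiB6
            rw [if_neg (Ne.symm h1), if_pos hlt']
          have p2 : psiB6 e ω a b = (((e b a)⁻¹ : Aˣ) : A) * (ω b a b + ω b b b) := by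
            unfold psiB6
            rw [if_neg h1, if_neg hlt]
          have hinv : (e b a)⁻¹ = e a b := by
            have h := Hc b hb a ha b hb
              (by rw [dist_comm]; exact lt_of_lt_of_le hab hmc) (by rw [dist_self]; exact hεc)
            rw [hee b hb] at h
            exact inv_eq_of_mul_eq_one_right h
          have hz := Hz a ha b hb a ha b hb (lt_of_lt_of_le hab hmz)
            (by rw [dist_self]; exact hεz) (lt_of_lt_of_le hab hmz)
          have h5 := haac a ha b hb hab
          have h6 := habb a ha b hb hab
          rw [p1, p2, hinv]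
          rw [h5, h6] at hz
          linear_combination -hz
  -- the pulled back cocycle is a coboundary
  have hpull : B2 S (fun x y => e (v x) (v y)) (fun x y z => ω (v x) (v y) (v z)) := by
    refine ⟨fun x y => psiB6 e ω (v x) (v y), min ε1 (m / 4), lt_min hε1 (by positivity), ?_⟩
    intro x hx y hy z hz hxy hxz
    have hxy1 := lt_of_lt_of_le hxy (min_le_left _ _)
    have hxy2 := lt_of_lt_of_le hxy (min_le_right _ _)
    have hxz1 := lt_of_lt_of_le hxz (min_le_left _ _)
    have hxz2 := lt_of_lt_of_le hxz (min_le_right _ _)
    have h1 := hvd x hx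
    have h2 := hvd y hy
    have h3 := hvd z hz
    have dab : dist (v x) (v y) < m / 2 := by
      have h4 := dist_triangle (v x) x (v y)
      have h5 := dist_triangle x y (v y)
      rw [dist_comm (v x) x] at h4
      linarith
    have dac : dist (v x) (v z) < m / 2 := by
      have h4 := dist_triangle (v x) x (v z)
      have h5 := dist_triangle x z (v z)
      rw [dist_comm (v x) x] at h4
      linarith
    have dbc : dist (v y) (v z) < m := by
      have h4 := dist_triangle (v y) (v x) (v z)
      rw [dist_comm (v y) (v x)] at h4
      linarith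
    exact key (v x) (hvS hx) (v y) (hvS hy) (v z) (hvS hz) (by linarith) (by linarith) dbc
      (hv x hx y hy z hz hxy1 hxz1)
  have hg : B2 S (fun x y => e x y)
      (fun x y z => ((e x (v x) : Aˣ) : A) * ω (v x) (v y) (v z)) :=
    (hB2.1 V A S (fun x y => e x y) (fun x y => e (v x) (v y)) (fun x => e x (v x))
      (fun x y z => ω (v x) (v y) (v z)) hG).2 hpull
  obtain ⟨φ1, δ1, hδ1, K1⟩ := hBd
  obtain ⟨φ2, δ2, hδ2, K2⟩ := hg
  refine ⟨fun x y => φ1 x y + φ2 x y, min δ1 δ2, lt_min hδ1 hδ2, ?_⟩
  intro x hx y hy z hz hxy hxz
  have k1 := K1 x hx y hy z hz (lt_of_lt_of_le hxy (min_le_left _ _))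
    (lt_of_lt_of_le hxz (min_le_left _ _))
  have k2 := K2 x hx y hy z hz (lt_of_lt_of_le hxy (min_le_right _ _))
    (lt_of_lt_of_le hxz (min_le_right _ _))
  simp only [d1] at k1 k2 ⊢
  linear_combination k1 + k2

end Pool.Agent.Helper74.SS
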