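import Pool.Agent.Helper74.SS.St
import Pool.Agent.Helper74.SS.P.A3

/-! Project SS, module B7: twisted line integrals. -/

set_option autoImplicit false

open Set Metric Filter Topology

namespace Pool.Agent.Helper74.SS

namespace B7m

variable {A : Type} [CommRing A]

theorem prod_u (f : ℕ → A) (u : ℕ → Aˣ) (l : List ℕ) :
    ((l.map fun k => (⟨f k, u k⟩ : Aff A)).prod).u = (l.map u).prod := by
  induction l with
  | nil => simp
  | cons a l ih =>
    rw [List.map_cons, List.prod_cons, List.map_cons, List.prod_cons, Aff.mul_u, ih]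

theorem prod_m (f g : ℕ → A) (a : A) (u : ℕ → Aˣ) (l : List ℕ) :
    ((l.map fun k => (⟨f k + a * g k, u k⟩ : Aff A)).prod).m =
      ((l.map fun k => (⟨f k, u k⟩ : Aff A)).prod).m +
        a * ((l.map fun k => (⟨g k, u k⟩ : Aff A)).prod).m := by
  induction l with
  | nil => simp
  | cons b l ih =>
    simp only [List.map_cons, List.prod_cons, Aff.mul_m]
    rw [ih]
    ring

theorem prod_d0 (g : ℕ → A) (u : ℕ → Aˣ) (n : ℕ) :
    (((List.range n).map fun k => (⟨(u k : A) * g (k + 1) - g k, u k⟩ : Aff A)).prod).m =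
      ((((List.range n).map u).prod : Aˣ) : A) * g n - g 0 := by
  induction n with
  | zero => simp
  | succ n ih =>
    rw [List.range_succ, List.map_append, List.prod_append, Aff.mul_m, ih,
      prod_u (fun k => (u k : A) * g (k + 1) - g k) u (List.range n), List.map_append,
      List.prod_append]
    simp only [List.map_cons, List.map_nil, List.prod_cons, List.prod_nil, mul_one, Units.val_mul]
    ring

/-- the homomorphism of affine groups induced by a ring homomorphism -/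
def affMap {A A' : Type} [CommRing A] [CommRing A'] (f : A →+* A') : Aff A →* Aff A' where
  toFun a := ⟨f a.m, Units.map (f : A →* A') a.u⟩
  map_one' := by
    ext
    · simp
    · simp
  map_mul' a b := by
    ext
    · simp
    · simp

end B7m

open A3m B7m in
theorem pB7 (hA1 : StA1') (hA3 : StA3) (hA4 : StA4) (hA9 : StA9) (hB1 : StB1) : StB7 := by
  intro V A _ _ S e γ he hγ
  obtain ⟨b1, -, -, -, -, -, b7⟩ := hB1 V A S e he
  have P1 : ∀ φ : V → V → A, Z1 S e φ →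
      PP (fun x y => (⟨φ x y, e x y⟩ : Aff A)) γ = ⟨integ e φ γ, PP e γ⟩ := by
    intro φ hφ
    obtain ⟨-, h⟩ := hA4.1 V (Aff A) Aˣ S (fun x y => (⟨φ x y, e x y⟩ : Aff A)) (Aff.uHom A) γ
      ((b7 φ).1 hφ) hγ
    ext
    · rfl
    · have h' : PP e γ = (PP (fun x y => (⟨φ x y, e x y⟩ : Aff A)) γ).u := h
      simp only
      rw [h']
  have Zlin : ∀ φ φ' : V → V → A, ∀ a : A, Z1 S e φ → Z1 S e φ' →
      Z1 S e (fun x y => φ x y + a * φ' x y) := by
    intro φ φ' a h h'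
    obtain ⟨δ, hδ, H⟩ := h
    obtain ⟨δ', hδ', H'⟩ := h'
    refine ⟨min δ δ', lt_min hδ hδ', ?_⟩
    intro x hx y hy z hz hxy hxz
    have k1 := H x hx y hy z hz (lt_of_lt_of_le hxy (min_le_left _ _))
      (lt_of_lt_of_le hxz (min_le_left _ _))
    have k2 := H' x hx y hy z hz (lt_of_lt_of_le hxy (min_le_right _ _))
      (lt_of_lt_of_le hxz (min_le_right _ _))
    simp only [d1] at k1 k2 ⊢
    linear_combination k1 + a * k2
  refine ⟨P1, ?_, ?_, ?_, ?_, ?_⟩
  · intro φ φ' a h h'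
    refine ⟨Zlin φ φ' a h h', ?_⟩
    obtain ⟨N0, h0⟩ := hA1 V (Aff A) S _ γ ((b7 _).1 (Zlin φ φ' a h h')) hγ
    obtain ⟨N1, h1⟩ := hA1 V (Aff A) S _ γ ((b7 φ).1 h) hγ
    obtain ⟨N2, h2⟩ := hA1 V (Aff A) S _ γ ((b7 φ').1 h') hγ
    unfold integ
    rw [← h0 (N0 + N1 + N2) (by omega), ← h1 (N0 + N1 + N2) (by omega),
      ← h2 (N0 + N1 + N2) (by omega), pp_eq, pp_eq, pp_eq]
    exact prod_m _ _ a _ _
  · intro g
    have hz : Z1 S e (d0 e g) := b1 g
    refine ⟨hz, ?_⟩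
    obtain ⟨N0, h0⟩ := hA1 V (Aff A) S _ γ ((b7 _).1 hz) hγ
    obtain ⟨N1, h1⟩ := hA1 V Aˣ S e γ he hγ
    unfold integ
    rw [← h0 (N0 + N1 + 1) (by omega), ← h1 (N0 + N1 + 1) (by omega), pp_eq, pp_eq]
    set N : ℕ := N0 + N1 + 1 with hN
    have hN0 : (N : ℝ) ≠ 0 := by
      have : 0 < N := by omega
      positivity
    have hcast : ∀ k : ℕ, ((k : ℝ) + 1) / N = ((k + 1 : ℕ) : ℝ) / N := by
      intro k
      push_cast
      rfl
    have h3 := prod_d0 (fun k => g (γ ((k : ℝ) / N)))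
      (fun k => e (γ ((k : ℝ) / N)) (γ (((k : ℝ) + 1) / N))) N
    have e1 : ((N : ℕ) : ℝ) / N = 1 := div_self hN0
    have e0 : ((0 : ℕ) : ℝ) / N = 0 := by simp
    simp only [e1, e0] at h3
    rw [← h3]
    congr 2
    refine List.map_congr_left fun k _ => ?_
    simp only [d0, hcast]
  · intro φ φ' hφ hn
    have hn' : Nr2 S (fun x y => (⟨φ x y, e x y⟩ : Aff A)) (fun x y => (⟨φ' x y, e x y⟩ : Aff A)) := by
      obtain ⟨δ, hδ, H⟩ := hn
      refine ⟨δ, hδ, fun x hx y hy hxy => ?_⟩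
      simp only [H x hx y hy hxy]
    obtain ⟨-, -, -, -, -, h6⟩ := hA3 V (Aff A) S (fun x y => (⟨φ x y, e x y⟩ : Aff A))
      ((b7 φ).1 hφ)
    obtain ⟨hc, hp⟩ := h6 _ γ hn' hγ
    refine ⟨(b7 φ').2 hc, ?_⟩
    unfold integ
    rw [hp]
  · intro φ hC hφ hcl
    obtain ⟨d, hd⟩ := hA9.1 V (Aff A) S _ hC ((b7 φ).1 hφ)
    have h1 := hA9.2 V (Aff A) S _ d γ ((b7 φ).1 hφ) hd hγ
    rw [hcl, mul_inv_cancel, P1 φ hφ] at h1
    have hm := congrArg Aff.m h1
    have hu := congrArg Aff.u h1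
    exact ⟨hm, hu⟩
  · intro A' _ f φ hφ
    obtain ⟨hc, hp⟩ := hA4.1 V (Aff A) (Aff A') S (fun x y => (⟨φ x y, e x y⟩ : Aff A)) (affMap f) γ
      ((b7 φ).1 hφ) hγ
    constructor
    · obtain ⟨δ, hδ, H⟩ := hφ
      refine ⟨δ, hδ, fun x hx y hy z hz hxy hxz => ?_⟩
      have h := congrArg f (H x hx y hy z hz hxy hxz)
      simp only [d1, map_add, map_sub, map_mul, map_zero] at h ⊢
      exact h
    · have h := congrArg Aff.m hp
      exact h

end Pool.Agent.Helper74.SS
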