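import Pool.Agent.Helper74.SS.StA
import Pool.Agent.Helper74.SS.Cpx

/-! Project SS, module C (helper68): the complex of a presentation is an instance of `Geo`. -/

set_option autoImplicit false

open Set Metric Filter Topology

namespace Pool.Agent.Helper74.SS

theorem pC (hC1 : StC1) (hC2 : StC2) (hC5 : StC5) (hC6 : StC6) (hC11 : StC11)
    (hC12 : StC12) (hC13 : StC13) : StC := by
  intro ι κ _ _ _ _ R
  obtain ⟨-, hXX, hcel, hcel1, -, hcel01, hhj, hhk, hhW, -, -, -, -⟩ := hC2 ι κ R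
  obtain ⟨hex, hex0, hex1, -, -, -, -, hgam⟩ := hC1
  obtain ⟨hleb, hdisj, hconn⟩ := hC5 ι κ R
  have hWA : WW ι κ ⊆ AA R := by
    intro x hx
    refine ⟨Or.inl hx, fun j => ?_⟩
    rw [hhW x hx j]
    norm_num
  have hW0 : (0 : Amb ι κ) ∈ WW ι κ := Or.inl rfl
  have hwpt : ∀ i, IsPath (AA R) (wpt i) := by
    intro i
    refine ⟨?_, fun t _ => hWA (Or.inr ⟨i, t, rfl⟩)⟩
    have h2 : Continuous (wpt (κ := κ) i) := by
      unfold wpt
      refine Continuous.prodMk ?_ continuous_const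
      exact (continuous_single i).comp (hex.sub continuous_const)
    exact h2.continuousOn
  have hAc : ∀ j, ∀ ρ ∈ Icc (1 / 2 : ℝ) 1, ∀ t ∈ Icc (0 : ℝ) 1, cel R j ρ t ∈ AA R := by
    intro j ρ hρ t ht
    refine ⟨Or.inr ⟨j, ρ, ⟨by linarith [hρ.1], hρ.2⟩, t, ht, rfl⟩, fun k => ?_⟩
    by_cases hk : j = k
    · subst hk
      rw [hhj]
      linarith [hρ.1]
    · rw [hhk j k ρ t hk]
      norm_num
  have hBc : ∀ j, ∀ ρ ∈ Icc (0 : ℝ) (2 / 3), ∀ t ∈ Icc (0 : ℝ) 1, cel R j ρ t ∈ BB R j := by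
    intro j ρ hρ t ht
    refine ⟨Or.inr ⟨j, ρ, ⟨hρ.1, by linarith [hρ.2]⟩, t, ht, rfl⟩, ?_⟩
    rw [hhj]
    linarith [hρ.2]
  have hrad : ∀ j, IsPath (AA R) (fun τ => cel R j (1 - τ / 2) 0) := by
    intro j
    refine ⟨?_, fun τ hτ => hAc j _ ⟨by linarith [hτ.2], by linarith [hτ.1]⟩ 0
      ⟨le_refl _, zero_le_one⟩⟩
    have h1 : Continuous fun τ : ℝ => (1 - τ / 2, (0 : ℝ)) := by fun_prop
    exact ((hcel j).comp h1).continuousOn
  have hlam : ∀ j, IsPath (AA R ∩ BB R j) (fun t => cel R j (1 / 2) t) := by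
    intro j
    refine ⟨?_, fun t ht => ⟨hAc j _ ⟨le_refl _, by norm_num⟩ t ht,
      hBc j _ ⟨by norm_num, by norm_num⟩ t ht⟩⟩
    exact ((hcel j).comp (continuous_const.prodMk continuous_id)).continuousOn
  obtain ⟨h11a, h11b, h11c⟩ := hC11 ι κ R
  refine ⟨{ X := XX R, A := AA R, B := BB R, o := 0, wp := wpt,
            lam := fun j t => cel R j (1 / 2) t, rad := fun j τ => cel R j (1 - τ / 2) 0,
            cpt := hXX, oA := hWA hW0, AX := fun x hx => hx.1, BX := fun j x hx => hx.1,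
            wpP := ?_, radP := ?_, lamP := ?_, leb := hleb, disj := hdisj, conn := hconn,
            Bcon := hC6 ι κ R, Nconn := fun j => (hC13 ι κ R j).1,
            Ntriv := fun j => (hC13 ι κ R j).2.1, Nex := fun j => (hC13 ι κ R j).2.2,
            Aex := h11a, Auniq := h11b, Arel := ?_, AH2 := h11c }, rfl⟩
  · intro i
    refine ⟨hwpt i, ?_, ?_⟩
    · unfold wpt
      rw [hex0, sub_self, Pi.single_zero]
      rfl
    · unfold wpt
      rw [hex1, sub_self, Pi.single_zero]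
      rfl
  · intro j
    refine ⟨hrad j, ?_, ?_⟩
    · simp only [zero_div, sub_zero]
      rw [hcel1, (hgam ι κ (R j)).2.1 0 (le_refl _)]
      rfl
    · norm_num
  · intro j
    refine ⟨hlam j, ?_⟩
    exact (hcel01 j (1 / 2)).symm
  · intro G _ E hE j
    exact (hC12 ι κ G R E hE).2 j

end Pool.Agent.Helper74.SS
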