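import Pool.Agent.Helper74.SS.St

set_option autoImplicit false

open Set Metric Filter Topology

namespace Pool.Agent.Helper74.SS

theorem pC0 : StC0 := by
  intro T V Y _ _ _ _ K q f hK hq hf
  rw [continuousOn_iff_isClosed]
  intro C hC
  rw [continuousOn_iff_isClosed] at hf
  obtain ⟨u, hu, hu'⟩ := hf C hC
  refine ⟨q '' (u ∩ K), ?_, ?_⟩
  · have h1 : IsCompact (u ∩ K) := hK.inter_left hu
    exact (h1.image_of_continuousOn (hq.mono inter_subset_right)).isClosed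
  · ext y
    constructor
    · rintro ⟨hy, x, hx, rfl⟩
      have h2 : x ∈ u ∩ K := by
        rw [← hu']
        exact ⟨hy, hx⟩
      exact ⟨⟨x, h2, rfl⟩, ⟨x, hx, rfl⟩⟩
    · rintro ⟨⟨x, hx, rfl⟩, _⟩
      rw [← hu'] at hx
      exact ⟨hx.1, ⟨x, hx.2, rfl⟩⟩

end Pool.Agent.Helper74.SS
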