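import Pool.Agent.Helper74.SS.St

set_option autoImplicit false

open Set Metric Filter Topology

namespace Pool.Agent.Helper74.SS

private theorem cont_C1 : Continuous ex := by
  unfold ex
  fun_prop

private theorem iff_C1 (s t : ℝ) : ex s = ex t ↔ ∃ n : ℤ, s - t = n := by
  have h1 : (2 * Real.pi * Complex.I : ℂ) ≠ 0 := Complex.two_pi_I_ne_zero
  unfold ex
  rw [Complex.exp_eq_exp_iff_exists_int]
  refine exists_congr fun n => ?_
  constructor
  · intro h
    have h2 : (2 * Real.pi * Complex.I : ℂ) * (s - t) = (2 * Real.pi * Complex.I : ℂ) * n := by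
      linear_combination h
    have h3 := mul_left_cancel₀ h1 h2
    exact_mod_cast h3
  · intro h
    have h2 : (s : ℂ) - t = n := by exact_mod_cast h
    linear_combination (2 * Real.pi * Complex.I : ℂ) * h2

private theorem surj_C1 (z : ℂ) (hz : ‖z‖ = 1) : ∃ t ∈ Ico (0 : ℝ) 1, z = ex t := by
  refine ⟨Int.fract (z.arg / (2 * Real.pi)), ⟨Int.fract_nonneg _, Int.fract_lt_one _⟩, ?_⟩
  have h1 : ex (z.arg / (2 * Real.pi)) = z := by
    have h2 := Complex.norm_mul_exp_arg_mul_I z
    rw [hz, Complex.ofReal_one, one_mul] at h2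
    unfold ex
    rw [← h2]
    congr 1
    rw [h2]
    have : (Real.pi : ℂ) ≠ 0 := by exact_mod_cast Real.pi_ne_zero
    push_cast
    field_simp
  have h2 : ex (Int.fract (z.arg / (2 * Real.pi))) = ex (z.arg / (2 * Real.pi)) := by
    rw [iff_C1]
    refine ⟨-⌊z.arg / (2 * Real.pi)⌋, ?_⟩
    rw [Int.fract]
    push_cast
    ring
  rw [h2, h1]

private theorem zero_C1 : ex 0 = 1 := by simp [ex]

private theorem one_C1 : ex 1 = 1 := by
  have := (iff_C1 1 0).2 ⟨1, by simp⟩
  rw [this, zero_C1]

private theorem neg_one_C1 : ex (-1) = 1 := by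
  have := (iff_C1 (-1) 0).2 ⟨-1, by simp⟩
  rw [this, zero_C1]

private theorem lp_zero_C1 {ι : Type} [DecidableEq ι] (a : ι × Bool) : lp a 0 = 0 := by
  unfold lp
  cases a.2 <;> simp [zero_C1]

private theorem lp_one_C1 {ι : Type} [DecidableEq ι] (a : ι × Bool) : lp a 1 = 0 := by
  unfold lp
  cases a.2 <;> simp [one_C1, neg_one_C1]

private theorem lp_cont_C1 {ι : Type} [DecidableEq ι] (a : ι × Bool) : Continuous (lp a) := by
  unfold lp
  refine (continuous_single a.1).comp ?_
  cases a.2
  · exact (cont_C1.comp continuous_neg).sub continuous_const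
  · exact cont_C1.sub continuous_const

private theorem lp_mem_C1 {ι κ : Type} [DecidableEq ι] (a : ι × Bool) (t : ℝ) :
    ((lp a t, 0) : Amb ι κ) ∈ WW ι κ := by
  refine Or.inr ⟨a.1, (if a.2 then t else -t), ?_⟩
  unfold lp wpt
  rfl

private theorem clamp_cont_C1 : Continuous clamp := by
  unfold clamp
  fun_prop

private theorem clamp_le_C1 {t : ℝ} (ht : t ≤ 0) : clamp t = 0 := by
  unfold clamp
  exact max_eq_left ((min_le_right _ _).trans ht)

private theorem clamp_ge_C1 {t : ℝ} (ht : 1 ≤ t) : clamp t = 1 := by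
  unfold clamp
  rw [min_eq_left ht]
  simp

private theorem gam_C1 (ι κ : Type) [DecidableEq ι] (w : Wd ι) : Continuous (gam w) ∧
    (∀ t ≤ 0, gam w t = 0) ∧ (∀ t ≥ 1, gam w t = 0) ∧ ∀ t, ((gam w t, 0) : Amb ι κ) ∈ WW ι κ := by
  induction w with
  | nil =>
    refine ⟨?_, ?_, ?_, ?_⟩
    · have : (gam ([] : Wd ι)) = fun _ => 0 := by
        funext t
        rfl
      rw [this]
      exact continuous_const
    · intro t _
      rfl
    · intro t _
      rfl
    · intro t
      exact Or.inl rfl
  | cons a w ih =>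
    obtain ⟨hc, h0, h1, hm⟩ := ih
    have he : ∀ t, gam (a :: w) t = lp a (clamp (2 * t)) + gam w (2 * t - 1) := fun t => rfl
    refine ⟨?_, ?_, ?_, ?_⟩
    · have : gam (a :: w) = fun t => lp a (clamp (2 * t)) + gam w (2 * t - 1) := by
        funext t
        rfl
      rw [this]
      refine ((lp_cont_C1 a).comp (clamp_cont_C1.comp ?_)).add (hc.comp ?_)
      · fun_prop
      · fun_prop
    · intro t ht
      rw [he, clamp_le_C1 (by linarith), lp_zero_C1, h0 _ (by linarith), add_zero]
    · intro t ht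
      rw [he, clamp_ge_C1 (by linarith), lp_one_C1, h1 _ (by linarith), add_zero]
    · intro t
      rw [he]
      rcases le_total t (1 / 2) with ht | ht
      · rw [h0 _ (by linarith), add_zero]
        exact lp_mem_C1 a _
      · rw [clamp_ge_C1 (by linarith), lp_one_C1, zero_add]
        exact hm _

theorem pC1 : StC1 := by
  refine ⟨cont_C1, zero_C1, one_C1, ?_, ?_, surj_C1, iff_C1, fun ι κ _ w => gam_C1 ι κ w⟩
  · intro s t
    unfold ex
    rw [← Complex.exp_add]
    congr 1
    push_cast
    ring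
  · intro t
    unfold ex
    have h1 : (2 * Real.pi * t * Complex.I : ℂ) = ((2 * Real.pi * t : ℝ) : ℂ) * Complex.I := by
      push_cast
      ring
    rw [h1, Complex.norm_exp_ofReal_mul_I]

end Pool.Agent.Helper74.SS
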