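import Pool.Agent.Helper74.SS.P.C8b

/-! Project SS, module C10: the wedge of circles is one-dimensional. -/

set_option autoImplicit false

open Set Metric Filter Topology

namespace Pool.Agent.Helper74.SS

namespace C10Aux

/-- among three real numbers which are close, two have the same rounding -/
theorem round_three {a b c : ℝ} (h1 : |a - b| ≤ 1 / 8) (h2 : |a - c| ≤ 1 / 8) :
    round a = round b ∨ round b = round c ∨ round a = round c := by
  have ha := abs_le.1 (abs_sub_round a)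
  have hb := abs_le.1 (abs_sub_round b)
  have hc := abs_le.1 (abs_sub_round c)
  have h1' := abs_le.1 h1
  have h2' := abs_le.1 h2
  have e1 : ((round a - round b : ℤ) : ℝ) < 2 := by push_cast; linarith
  have e2 : (-2 : ℝ) < ((round a - round b : ℤ) : ℝ) := by push_cast; linarith
  have e3 : ((round a - round c : ℤ) : ℝ) < 2 := by push_cast; linarith
  have e4 : (-2 : ℝ) < ((round a - round c : ℤ) : ℝ) := by push_cast; linarith
  have e5 : ((round b - round c : ℤ) : ℝ) < 2 := by push_cast; linarith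
  have e6 : (-2 : ℝ) < ((round b - round c : ℤ) : ℝ) := by push_cast; linarith
  have f1 : round a - round b < 2 := by exact_mod_cast e1
  have f2 : -2 < round a - round b := by exact_mod_cast e2
  have f3 : round a - round c < 2 := by exact_mod_cast e3
  have f4 : -2 < round a - round c := by exact_mod_cast e4
  have f5 : round b - round c < 2 := by exact_mod_cast e5
  have f6 : -2 < round b - round c := by exact_mod_cast e6
  omega

/-- a parameter of a point of the circle -/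
noncomputable def par (z : ℂ) : ℝ := z.arg / (2 * Real.pi)

/-- the rounding of the circle -/
noncomputable def rr (N : ℕ) (z : ℂ) : ℂ := ex ((round (N * par z) : ℤ) / (N : ℝ))

theorem ex_par {z : ℂ} (hz : ‖z‖ = 1) : ex (par z) = z := by
  have h2 := Complex.norm_mul_exp_arg_mul_I z
  rw [hz, Complex.ofReal_one, one_mul] at h2
  unfold ex par
  conv_rhs => rw [← h2]
  congr 1
  have : (Real.pi : ℂ) ≠ 0 := by exact_mod_cast Real.pi_ne_zero
  push_cast
  field_simp

theorem rr_ex (hC1 : StC1) {N : ℕ} (hN : 0 < N) (t : ℝ) :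
    rr N (ex t) = ex ((round (N * t) : ℤ) / (N : ℝ)) := by
  obtain ⟨hc, h0, h1, hadd, hnorm, hsurj, hiff, _⟩ := hC1
  have hN' : (N : ℝ) ≠ 0 := by positivity
  unfold rr
  have h : ex (par (ex t)) = ex t := ex_par (hnorm t)
  obtain ⟨n, hn⟩ := (hiff _ _).1 h
  rw [hiff]
  refine ⟨n, ?_⟩
  have h2 : (N : ℝ) * par (ex t) = N * t + ((N * n : ℤ) : ℝ) := by
    push_cast
    rw [← hn]; ring
  rw [h2, round_add_intCast]
  push_cast
  field_simp
  ring

theorem rr_three (hC1 : StC1) {N : ℕ} (hN : 0 < N) (s t u : ℝ)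
    (h1 : dist (ex s) (ex t) ≤ 1 / (2 * N)) (h2 : dist (ex s) (ex u) ≤ 1 / (2 * N)) :
    rr N (ex s) = rr N (ex t) ∨ rr N (ex t) = rr N (ex u) ∨ rr N (ex s) = rr N (ex u) := by
  have hN' : (0 : ℝ) < N := by exact_mod_cast hN
  obtain ⟨n, hn⟩ := C8b_near hC1 s t
  obtain ⟨m, hm⟩ := C8b_near hC1 s u
  have ht : ex t = ex (t + n) := (hC1.2.2.2.2.2.2.1 _ _).2 ⟨-n, by push_cast; ring⟩
  have hu : ex u = ex (u + m) := (hC1.2.2.2.2.2.2.1 _ _).2 ⟨-m, by push_cast; ring⟩
  rw [ht, hu, rr_ex hC1 hN, rr_ex hC1 hN, rr_ex hC1 hN]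
  have key : ∀ (v : ℝ) (k : ℤ), |s - v - k| ≤ dist (ex s) (ex v) / 4 →
      dist (ex s) (ex v) ≤ 1 / (2 * N) → |(N : ℝ) * s - N * (v + k)| ≤ 1 / 8 := by
    intro v k h3 h4
    have h5 : (N : ℝ) * s - N * (v + k) = N * (s - v - k) := by ring
    rw [h5, abs_mul, abs_of_pos hN']
    have h6 : |s - v - k| ≤ 1 / (2 * N) / 4 := h3.trans (by linarith)
    calc (N : ℝ) * |s - v - k| ≤ N * (1 / (2 * N) / 4) := by gcongr
      _ = 1 / 8 := by field_simp; norm_num
  rcases round_three (key t n hn h1) (key u m hm h2) with h | h | h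
  · left; rw [h]
  · right; left; rw [h]
  · right; right; rw [h]

theorem rr_one (hC1 : StC1) {N : ℕ} (hN : 0 < N) (s : ℝ)
    (h1 : dist (ex s) 1 ≤ 1 / (2 * N)) : rr N (ex s) = 1 := by
  have hN' : (0 : ℝ) < N := by exact_mod_cast hN
  obtain ⟨n, hn⟩ := C8b_near hC1 s 0
  have hC1' := hC1
  obtain ⟨hc, h0, h1', hadd, hnorm, hsurj, hiff, _⟩ := hC1'
  rw [h0] at hn
  have hs : ex s = ex (s - n) := (hiff _ _).2 ⟨n, by ring⟩
  rw [hs, rr_ex hC1 hN]
  have h3 : |(N : ℝ) * (s - n)| ≤ 1 / 8 := by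
    rw [abs_mul, abs_of_pos hN']
    have h6 : |s - n| ≤ 1 / (2 * N) / 4 := by
      have : s - n = s - 0 - n := by ring
      rw [this]
      exact hn.trans (by linarith)
    calc (N : ℝ) * |s - n| ≤ N * (1 / (2 * N) / 4) := by gcongr
      _ = 1 / 8 := by field_simp; norm_num
  have h4 : round ((N : ℝ) * (s - n)) = 0 := by
    rw [round_eq_zero_iff]
    have := abs_le.1 h3
    constructor <;> linarith
  rw [h4]
  simp [h0]

variable {ι κ : Type} [Fintype ι] [DecidableEq ι] [Fintype κ] [DecidableEq κ]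

/-- the displacement -/
noncomputable def vv (N : ℕ) (x : Amb ι κ) : Amb ι κ := (fun i => rr N (x.1 i + 1) - 1, 0)

theorem vv_wpt (hC1 : StC1) {N : ℕ} (hN : 0 < N) (i : ι) (t : ℝ) :
    vv N (wpt i t : Amb ι κ) = (Pi.single i (rr N (ex t) - 1), 0) := by
  have h0 := hC1.2.1
  have h1 : rr N 1 = 1 := by
    have := rr_one hC1 hN 0 (by rw [h0, dist_self]; positivity)
    rwa [h0] at this
  unfold vv wpt
  refine Prod.ext ?_ rfl
  funext k
  show rr N ((Pi.single i (ex t - 1) : ι → ℂ) k + 1) - 1 = (Pi.single i (rr N (ex t) - 1) : ι → ℂ) k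
  by_cases hk : k = i
  · subst hk
    rw [Pi.single_eq_same, Pi.single_eq_same, sub_add_cancel]
  · rw [Pi.single_eq_of_ne hk, Pi.single_eq_of_ne hk, zero_add, h1, sub_self]

theorem vv_zero (hC1 : StC1) {N : ℕ} (hN : 0 < N) : vv N (0 : Amb ι κ) = 0 := by
  have h0 := hC1.2.1
  have h1 : rr N 1 = 1 := by
    have := rr_one hC1 hN 0 (by rw [h0, dist_self]; positivity)
    rwa [h0] at this
  unfold vv
  refine Prod.ext ?_ rfl
  funext k
  show rr N (0 + 1) - 1 = 0
  rw [zero_add, h1, sub_self]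

theorem dist_single (i : ι) (a b : ℂ) :
    dist ((Pi.single i a, 0) : Amb ι κ) (Pi.single i b, 0) ≤ dist a b := by
  rw [Prod.dist_eq]
  simp only [dist_self]
  rw [max_eq_left dist_nonneg, dist_pi_le_iff dist_nonneg]
  intro j
  by_cases hj : j = i
  · subst hj
    simp
  · simp [Pi.single_eq_of_ne hj]

theorem coord_le (i : ι) (x y : Amb ι κ) : dist (x.1 i) (y.1 i) ≤ dist x y :=
  (dist_le_pi_dist x.1 y.1 i).trans (by rw [Prod.dist_eq]; exact le_max_left _ _)

theorem same_circle (hC1 : StC1) {N : ℕ} (hN : 0 < N) (x : Amb ι κ) (hx : x ∈ WW ι κ)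
    (hv : vv N x ≠ 0) : ∃ i, (∃ s, x = wpt i s) ∧
      ∀ y ∈ WW ι κ, dist x y < 1 / (2 * N) → ∃ t, y = wpt i t := by
  rcases hx with h | ⟨i, s, h⟩
  · exact absurd (by rw [h]; exact vv_zero hC1 hN) hv
  · refine ⟨i, ⟨s, h⟩, ?_⟩
    have h2 : ¬ dist (ex s) 1 ≤ 1 / (2 * N) := by
      intro h3
      apply hv
      rw [h, vv_wpt hC1 hN, rr_one hC1 hN s h3, sub_self, Pi.single_zero]
      rfl
    have h3 : ∀ y : Amb ι κ, y.1 i = 0 → ¬ dist x y < 1 / (2 * N) := by
      intro y hy hd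
      apply h2
      have h4 := coord_le i x y
      rw [hy, h] at h4
      have h5 : (wpt i s : Amb ι κ).1 i = ex s - 1 := by
        show (Pi.single i (ex s - 1) : ι → ℂ) i = _
        rw [Pi.single_eq_same]
      rw [h5, dist_zero_right, ← dist_eq_norm] at h4
      rw [h] at hd
      linarith
    intro y hy hd
    rcases hy with h4 | ⟨k, t, h4⟩
    · exact absurd hd (h3 y (by rw [h4]; rfl))
    · by_cases hk : i = k
      · subst hk
        exact ⟨t, h4⟩
      · refine absurd hd (h3 y ?_)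
        rw [h4]
        show (Pi.single k (ex t - 1) : ι → ℂ) i = 0
        rw [Pi.single_eq_of_ne hk]

theorem finish (hC1 : StC1) {N : ℕ} (hN : 0 < N) (i : ι) (s t u : ℝ)
    (h1 : dist (wpt i s : Amb ι κ) (wpt i t) ≤ 1 / (2 * N))
    (h2 : dist (wpt i s : Amb ι κ) (wpt i u) ≤ 1 / (2 * N)) :
    vv N (wpt i s : Amb ι κ) = vv N (wpt i t) ∨ vv N (wpt i t : Amb ι κ) = vv N (wpt i u) ∨
      vv N (wpt i s : Amb ι κ) = vv N (wpt i u) := by
  have h5 : ∀ v : ℝ, (wpt i v : Amb ι κ).1 i = ex v - 1 := by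
    intro v
    show (Pi.single i (ex v - 1) : ι → ℂ) i = _
    rw [Pi.single_eq_same]
  have h3 := coord_le i (wpt i s : Amb ι κ) (wpt i t)
  have h4 := coord_le i (wpt i s : Amb ι κ) (wpt i u)
  rw [h5, h5, dist_sub_right] at h3 h4
  rw [vv_wpt hC1 hN, vv_wpt hC1 hN, vv_wpt hC1 hN]
  rcases rr_three hC1 hN s t u (h3.trans h1) (h4.trans h2) with h | h | h
  · left; rw [h]
  · right; left; rw [h]
  · right; right; rw [h]

theorem exists_N (hC1 : StC1) {ε : ℝ} (hε : 0 < ε) : ∃ N : ℕ, 0 < N ∧ ∀ t : ℝ,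
    dist (ex t) (rr N (ex t)) < ε := by
  have hC1' := hC1
  obtain ⟨hc, h0, h1, hadd, hnorm, hsurj, hiff, _⟩ := hC1'
  have huc : UniformContinuousOn ex (Icc (-1 : ℝ) 2) :=
    isCompact_Icc.uniformContinuousOn_of_continuous hc.continuousOn
  rw [Metric.uniformContinuousOn_iff] at huc
  obtain ⟨δ, hδ, hucδ⟩ := huc ε hε
  obtain ⟨N, hN⟩ := exists_nat_gt (1 / δ)
  have hN0 : (0 : ℝ) < N := lt_trans (by positivity) hN
  have hN' : 0 < N := by exact_mod_cast hN0
  have hN1 : (1 : ℝ) ≤ N := by exact_mod_cast hN'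
  refine ⟨N, hN', ?_⟩
  intro t
  obtain ⟨s, hs, hst⟩ := hsurj (ex t) (hnorm t)
  rw [hst, rr_ex hC1 hN']
  have h2 : |s - (round (N * s) : ℤ) / (N : ℝ)| ≤ 1 / (2 * N) := by
    have h3 := abs_sub_round ((N : ℝ) * s)
    have h4 : s - (round (N * s) : ℤ) / (N : ℝ) = (N * s - round (N * s)) / N := by
      field_simp
    rw [h4, abs_div, abs_of_pos hN0, div_le_div_iff₀ hN0 (by positivity)]
    nlinarith
  have h3 : 1 / (2 * (N : ℝ)) ≤ 1 / 2 := by
    rw [div_le_div_iff₀ (by positivity) (by norm_num)]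
    linarith
  have h4 := abs_le.1 h2
  apply hucδ s ⟨by linarith [hs.1], by linarith [hs.2]⟩ _
    ⟨by linarith [hs.1], by linarith [hs.2]⟩
  rw [Real.dist_eq]
  refine lt_of_le_of_lt h2 ?_
  have h5 : 1 < δ * N := by
    rw [div_lt_iff₀ hδ] at hN
    linarith
  rw [div_lt_iff₀ (by positivity)]
  nlinarith

end C10Aux

open C10Aux

theorem pC10 (hC1 : StC1) : StC10 := by
  intro ι κ _ _ _ _ ε0 hε0
  obtain ⟨N, hN, hNd⟩ := exists_N hC1 hε0
  have hN0 : (0 : ℝ) < N := by exact_mod_cast hN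
  refine ⟨vv N, ?_, ?_, 1 / (4 * N), by positivity, ?_⟩
  · intro x hx
    rcases hx with h | ⟨i, t, h⟩
    · left
      rw [h, vv_zero hC1 hN]
    · right
      refine ⟨i, (round (N * t) : ℤ) / (N : ℝ), ?_⟩
      rw [h, vv_wpt hC1 hN, rr_ex hC1 hN]
      rfl
  · intro x hx
    rcases hx with h | ⟨i, t, h⟩
    · rw [h, vv_zero hC1 hN, dist_self]
      exact hε0
    · rw [h, vv_wpt hC1 hN]
      refine lt_of_le_of_lt (dist_single i _ _) ?_
      rw [dist_sub_right]
      exact hNd t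
  · intro x hx y hy z hz hxy hxz
    have hlt : 1 / (4 * (N : ℝ)) < 1 / (2 * N) := by
      rw [div_lt_div_iff₀ (by positivity) (by positivity)]
      linarith
    have hyz : dist y z < 1 / (2 * N) := by
      have h1 := dist_triangle_left y z x
      have h2 : 1 / (2 * (N : ℝ)) = 1 / (4 * N) + 1 / (4 * N) := by
        field_simp; norm_num
      rw [h2]
      linarith
    have hfin : ∀ i, (∃ s, x = wpt i s) → (∃ t, y = wpt i t) → (∃ u, z = wpt i u) →
        vv N x = vv N y ∨ vv N y = vv N z ∨ vv N x = vv N z := by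
      rintro i ⟨s, rfl⟩ ⟨t, rfl⟩ ⟨u, rfl⟩
      exact finish hC1 hN i s t u (hxy.le.trans hlt.le) (hxz.le.trans hlt.le)
    by_cases hvx : vv N x = 0
    · by_cases hvy : vv N y = 0
      · left; rw [hvx, hvy]
      · obtain ⟨i, hy', hall⟩ := same_circle hC1 hN y hy hvy
        exact hfin i (hall x hx (by rw [dist_comm]; exact hxy.trans hlt)) hy' (hall z hz hyz)
    · obtain ⟨i, hx', hall⟩ := same_circle hC1 hN x hx hvx
      exact hfin i hx' (hall y hy (hxy.trans hlt)) (hall z hz (hxz.trans hlt))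

end Pool.Agent.Helper74.SS
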