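import Pool.Agent.Helper74.SS.StA
import Pool.Agent.Helper74.SS.Cpx

/-! Project SS, module C11 (helper68): cocycles on `AA R`. -/

set_option autoImplicit false

open Set Metric Filter Topology

namespace Pool.Agent.Helper74.SS

theorem coc_mono_C11 {V G : Type} [PseudoMetricSpace V] [Group G] {S S' : Set V} (h : S ⊆ S')
    {E : V → V → G} (hE : Coc S' E) : Coc S E := by
  obtain ⟨ε, hε, h1⟩ := hE
  exact ⟨ε, hε, fun x hx y hy z hz => h1 x (h hx) y (h hy) z (h hz)⟩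

theorem z2_mono_C11 {V K : Type} [PseudoMetricSpace V] [CommRing K] {S S' : Set V} (h : S ⊆ S')
    {e : V → V → Kˣ} {ω : V → V → V → K} (hE : Z2 S' e ω) : Z2 S e ω := by
  obtain ⟨ε, hε, h1⟩ := hE
  exact ⟨ε, hε, fun w hw x hx y hy z hz => h1 w (h hw) x (h hx) y (h hy) z (h hz)⟩

theorem hmor_mor_C11 {V V' : Type} [PseudoMetricSpace V] [PseudoMetricSpace V'] {S : Set V}
    {S' : Set V'} {h : V → ℝ → V'} (hh : HMor S S' h) {τ : ℝ} (hτ : τ ∈ Icc (0 : ℝ) 1) :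
    UniformContinuousOn (fun x => h x τ) S := by
  have h1 : UniformContinuous (fun x : V => (x, τ)) :=
    uniformContinuous_id.prodMk uniformContinuous_const
  exact hh.1.comp h1.uniformContinuousOn fun x hx => ⟨hx, hτ⟩

theorem pC11 (hC1 : StC1) (hC2 : StC2) (hC4 : StC4) (hC9a : StC9a) (hC9b : StC9b)
    (hC10 : StC10) (hA3 : StA3) (hA4 : StA4) (hA6 : StA6) (hA7 : StA7) (hB1 : StB1)
    (hB2 : StB2) (hB4 : StB4) (hB6 : StB6) : StC11 := by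
  intro ι κ _ _ _ _ R
  obtain ⟨P, hP, hP0, hP1, hPW⟩ := hC4 ι κ R
  have h0 : (0 : ℝ) ∈ Icc (0 : ℝ) 1 := ⟨le_refl _, zero_le_one⟩
  have h1 : (1 : ℝ) ∈ Icc (0 : ℝ) 1 := ⟨zero_le_one, le_refl _⟩
  have hWA : WW ι κ ⊆ AA R := by
    intro x hx
    refine ⟨Or.inl hx, fun j => ?_⟩
    rw [(hC2 ι κ R).2.2.2.2.2.2.2.2.1 x hx j]
    norm_num
  have hW0 : (0 : Amb ι κ) ∈ WW ι κ := Or.inl rfl
  have hA0 : (0 : Amb ι κ) ∈ AA R := hWA hW0
  have hr : Mor (AA R) (WW ι κ) (fun x => P x 1) := ⟨hmor_mor_C11 hP h1, fun x hx => hP1 x hx⟩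
  have hwptW : ∀ i, IsPath (WW ι κ) (wpt i) := by
    intro i
    refine ⟨?_, fun t _ => Or.inr ⟨i, t, rfl⟩⟩
    have h2 : Continuous (wpt (κ := κ) i) := by
      unfold wpt
      refine Continuous.prodMk ?_ continuous_const
      exact (continuous_single i).comp (hC1.1.sub continuous_const)
    exact h2.continuousOn
  have hwptA : ∀ i, IsPath (AA R) (wpt i) := fun i =>
    ⟨(hwptW i).1, fun t ht => hWA ((hwptW i).2 ht)⟩
  have hconst : IsPath (AA R) (fun _ => (0 : Amb ι κ)) :=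
    ⟨continuousOn_const, fun _ _ => hA0⟩
  have hcE0 : ∀ {G : Type} [Group G] (E : Amb ι κ → Amb ι κ → G), Coc (AA R) E →
      PP E (P 0) = 1 := by
    intro G _ E hE
    have h2 := hA3 (Amb ι κ) G (AA R) E hE
    rw [h2.2.2.2.1 (P 0) (fun _ => 0) fun t ht => hPW 0 hW0 t ht]
    exact h2.2.2.1 0 hA0
  have hgE : ∀ {G : Type} [Group G] (E : Amb ι κ → Amb ι κ → G), Coc (AA R) E →
      Gau (AA R) (fun x => PP E (P x)) E (fun x y => E (P x 1) (P y 1)) := by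
    intro G _ E hE
    obtain ⟨ε, hε, h2⟩ := hA7 (Amb ι κ) (Amb ι κ) G (AA R) (AA R) E P hE hP
    refine ⟨ε, hε, fun x hx y hy hxy => ?_⟩
    have h3 := h2 x hx y hy hxy
    simp only at h3 ⊢
    rw [hP0 x hx, hP0 y hy] at h3
    exact h3
  refine ⟨?_, ?_, ?_⟩
  · intro G _ g
    obtain ⟨E, hE, hEg⟩ := hC9a ι κ G g
    refine ⟨fun x y => E (P x 1) (P y 1), ?_, fun i => ?_⟩
    · exact (hA4.2 (Amb ι κ) (Amb ι κ) G (AA R) (WW ι κ) E (fun x => P x 1) _ hE hr hconst).1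
    · rw [(hA4.2 (Amb ι κ) (Amb ι κ) G (AA R) (WW ι κ) E (fun x => P x 1) (wpt i) hE hr
        (hwptA i)).2.2, ← hEg i]
      refine (hA3 (Amb ι κ) G (WW ι κ) E hE).2.2.2.1 _ _ fun t ht => ?_
      exact hPW _ (Or.inr ⟨i, t, rfl⟩) 1 h1
  · intro G _ E E' hE hE' hEE
    obtain ⟨cW, hcW0, hcW⟩ := hC9b ι κ G E E' (coc_mono_C11 hWA hE) (coc_mono_C11 hWA hE') hEE
    obtain ⟨-, h2, h3, h4, -⟩ := hA6
    have h5 := h4 (Amb ι κ) (Amb ι κ) G (AA R) (WW ι κ) cW E E' (fun x => P x 1) hcW hr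
    have h6 := h3 (Amb ι κ) G (AA R) _ _ _ _ _ (hgE E hE) h5
    have h7 := h2 (Amb ι κ) G (AA R) _ _ _ (hgE E' hE')
    have h8 := h3 (Amb ι κ) G (AA R) _ _ _ _ _ h6 h7
    refine ⟨_, ?_, h8⟩
    rw [hcE0 E hE, hcE0 E' hE', hPW 0 hW0 1 h1, hcW0, inv_one, mul_one, mul_one]
  · intro K _ e ω he hω
    have h2 : B2 (AA R) e (fun x y z => ω x y z -
        ((PP e (P x) : Kˣ) : K) * ω (P x 1) (P y 1) (P z 1)) := by
      obtain ⟨φ, ε, hε, h3⟩ := hB4 (Amb ι κ) (Amb ι κ) K (AA R) (AA R) e ω P he hω hP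
      refine ⟨φ, ε, hε, fun x hx y hy z hz hxy hxz => ?_⟩
      have h4 := h3 x hx y hy z hz hxy hxz
      simp only [d1] at h4 ⊢
      rw [hP0 x hx, hP0 y hy, hP0 z hz] at h4
      exact h4
    have h3 : B2 (WW ι κ) e ω := hB6 (Amb ι κ) K (WW ι κ) e ω (hC10 ι κ)
      (coc_mono_C11 hWA he) (z2_mono_C11 hWA hω)
    have h4 := (hB2.2.1 (Amb ι κ) (Amb ι κ) K (AA R) (WW ι κ) (fun x => P x 1) e ω hr).2 h3
    have h5 := (hB2.1 (Amb ι κ) K (AA R) e _ (fun x => PP e (P x)) _ (hgE e he)).2 h4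
    have h6 := (hB1 (Amb ι κ) K (AA R) e he).2.2.2.2.1 _ _ 1 h2 h5
    have h7 : (fun x y z => ω x y z - ((PP e (P x) : Kˣ) : K) * ω (P x 1) (P y 1) (P z 1) +
        1 * (((PP e (P x) : Kˣ) : K) * ω (P x 1) (P y 1) (P z 1))) = ω := by
      funext x y z
      ring
    rw [h7] at h6
    exact h6

end Pool.Agent.Helper74.SS
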