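import Pool.Agent.Helper74.SS.St

/-! Project SS, module C12: path products along words and around the annuli. -/

set_option autoImplicit false

open Set Metric Filter Topology

namespace Pool.Agent.Helper74.SS

theorem pC12 (hC1 : StC1) (hC2 : StC2) (hA2 : StA2) (hA3 : StA3) (hA8 : StA8) : StC12 := by
  intro ι κ G _ _ _ _ _ R E hE
  obtain ⟨hexc, hex0, hex1, hexadd, -, -, -, hgam⟩ := hC1
  obtain ⟨-, -, hcelc, hcel1, -, hcelper, hhj, hhk, hhW, -, -, -, -⟩ := hC2 ι κ R
  have hW : ∀ x ∈ WW ι κ, x ∈ AA R := fun x hx =>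
    ⟨Or.inl hx, fun j => by rw [hhW x hx j]; norm_num⟩
  obtain ⟨-, -, hconst, -, hrev, -⟩ := hA3 (Amb ι κ) G (AA R) E hE
  have hwptc : ∀ i, Continuous (wpt i : ℝ → Amb ι κ) := by
    intro i
    have h1 : Continuous fun t : ℝ => (Pi.single i (ex t - 1) : ι → ℂ) := by
      refine continuous_pi fun j => ?_
      by_cases hj : j = i
      · subst hj
        simp only [Pi.single_eq_same]
        exact hexc.sub continuous_const
      · simp only [Pi.single_eq_of_ne hj]
        exact continuous_const
    exact h1.prodMk continuous_const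
  have hwptp : ∀ i, IsPath (AA R) (wpt i : ℝ → Amb ι κ) := fun i =>
    ⟨(hwptc i).continuousOn, fun t _ => hW _ (Or.inr ⟨i, t, rfl⟩)⟩
  have hgamp : ∀ w : Wd ι, IsPath (AA R) (fun t => ((gam w t, 0) : Amb ι κ)) := by
    intro w
    obtain ⟨h1, -, -, h4⟩ := hgam ι κ w
    exact ⟨(h1.prodMk continuous_const).continuousOn, fun t _ => hW _ (h4 t)⟩
  -- the loop of one letter
  have hletter : ∀ a : ι × Bool, IsPath (AA R) (fun t => ((lp a t, 0) : Amb ι κ)) ∧
      PP E (fun t => ((lp a t, 0) : Amb ι κ)) =
        if a.2 then PP E (wpt a.1) else (PP E (wpt a.1))⁻¹ := by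
    rintro ⟨i, b⟩
    cases b with
    | true =>
      have h1 : (fun t => ((lp (i, true) t, 0) : Amb ι κ)) = wpt i := by
        funext t
        simp [lp, wpt]
      rw [h1]
      exact ⟨hwptp i, by simp⟩
    | false =>
      have h1 : (fun t => ((lp (i, false) t, 0) : Amb ι κ)) = fun t => wpt i (1 - t) := by
        funext t
        have h2 : ex (1 - t) = ex (-t) := by
          rw [sub_eq_add_neg, hexadd, hex1, one_mul]
        simp [lp, wpt, h2]
      rw [h1]
      refine ⟨⟨((hwptc i).comp (continuous_const.sub continuous_id)).continuousOn, fun t _ =>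
        hW _ (Or.inr ⟨i, 1 - t, rfl⟩)⟩, ?_⟩
      rw [hrev (wpt i) (hwptp i)]
      simp
  have hlp1 : ∀ a : ι × Bool, lp a 1 = 0 := by
    rintro ⟨i, b⟩
    cases b with
    | true => simp [lp, hex1]
    | false =>
      have h2 : ex (-1) = 1 := by
        have h3 := hexadd 1 (-1)
        rw [add_neg_cancel, hex0, hex1, one_mul] at h3
        exact h3.symm
      simp [lp, h2]
  have hwords : ∀ w : Wd ι, PP E (fun t => ((gam w t, 0) : Amb ι κ)) =
      wev (fun i => PP E (wpt i)) w := by
    intro w
    induction w with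
    | nil =>
      have h0 : (0 : Amb ι κ) ∈ AA R := hW _ (Or.inl rfl)
      have h1 := hconst 0 h0
      have h2 : (fun t : ℝ => ((gam ([] : Wd ι) t, 0) : Amb ι κ)) = fun _ => (0 : Amb ι κ) := by
        funext t
        simp [gam]
      rw [h2, h1]
      simp [wev]
    | cons a w ih =>
      obtain ⟨hp1, hp2⟩ := hletter a
      obtain ⟨-, hneg, hpos, -⟩ := hgam ι κ w
      have h1 := hA2 (Amb ι κ) G (AA R) E (fun t => ((lp a t, 0) : Amb ι κ))
        (fun t => ((gam w t, 0) : Amb ι κ)) (fun t => ((gam (a :: w) t, 0) : Amb ι κ)) hE hp1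
        (hgamp w) (by
          show ((lp a 1, 0) : Amb ι κ) = (gam w 0, 0)
          rw [hlp1, hneg 0 le_rfl])
        (by
          rintro t ⟨ht0, ht1⟩
          show ((gam (a :: w) t, 0) : Amb ι κ) = (lp a (2 * t), 0)
          have h2 : clamp (2 * t) = 2 * t := by
            unfold clamp
            rw [min_eq_right (by linarith), max_eq_right (by linarith)]
          rw [gam, h2, hneg _ (by linarith), add_zero])
        (by
          rintro t ⟨ht0, ht1⟩
          show ((gam (a :: w) t, 0) : Amb ι κ) = (gam w (2 * t - 1), 0)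
          have h2 : clamp (2 * t) = 1 := by
            unfold clamp
            rw [min_eq_left (by linarith), max_eq_right (by linarith)]
          rw [gam, h2, hlp1, zero_add])
      rw [h1.2, hp2, ih]
      simp [wev]
  refine ⟨hwords, fun j => ?_⟩
  have hc : Continuous (fun p : ℝ × ℝ => cel R j (1 - p.2 / 2) p.1) :=
    (hcelc j).comp ((continuous_const.sub (continuous_snd.div_const 2)).prodMk continuous_fst)
  have h1 := hA8 (Amb ι κ) G (AA R) E (fun t τ => cel R j (1 - τ / 2) t) hE hc.continuousOn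
    (by
      rintro t ht τ ⟨hτ0, hτ1⟩
      refine ⟨Or.inr ⟨j, 1 - τ / 2, ⟨by linarith, by linarith⟩, t, ht, rfl⟩, fun k => ?_⟩
      by_cases hk : j = k
      · subst hk
        rw [hhj]
        linarith
      · rw [hhk j k _ _ hk]
        norm_num)
  have e1 : (fun t => cel R j (1 - 1 / 2) t) = fun t => cel R j (1 / 2) t := by
    norm_num
  have e2 : (fun t => cel R j (1 - 0 / 2) t) = fun t => ((gam (R j) t, 0) : Amb ι κ) := by
    funext t
    rw [zero_div, sub_zero, hcel1]
  have e3 : (fun τ : ℝ => cel R j (1 - τ / 2) 1) = fun τ => cel R j (1 - τ / 2) 0 := by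
    funext τ
    exact (hcelper j _).symm
  rw [e1, e2, e3, hwords (R j)] at h1
  rw [h1, mul_inv_cancel_right]

end Pool.Agent.Helper74.SS
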