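import Pool.Agent.Helper74.SS.StA
import Pool.Agent.Helper74.SS.Cpx

/-! Project SS, module C13 (helper68): cocycles on the annuli. -/

set_option autoImplicit false

open Set Metric Filter Topology

namespace Pool.Agent.Helper74.SS

theorem pC13 (hC1 : StC1) (hC2 : StC2) (hC7 : StC7) (hC8a : StC8a) (hC8b : StC8b)
    (hA4 : StA4) (hA6 : StA6) (hA7 : StA7) : StC13 := by
  intro ι κ _ _ _ _ R j
  obtain ⟨a, s, h, ha, hs, ha1, hs1, hh1, hh0, hhs⟩ := hC7 ι κ R j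
  obtain ⟨-, -, hcel, -, -, -, hhj, hhk, -, -, hpt, -, -⟩ := hC2 ι κ R
  have hann : ∀ ρ ∈ Icc (1 / 2 : ℝ) (2 / 3), ∀ t ∈ Icc (0 : ℝ) 1,
      cel R j ρ t ∈ AA R ∩ BB R j := by
    intro ρ hρ t ht
    have h1 : cel R j ρ t ∈ XX R :=
      Or.inr ⟨j, ρ, ⟨by linarith [hρ.1], by linarith [hρ.2]⟩, t, ht, rfl⟩
    refine ⟨⟨h1, fun k => ?_⟩, h1, ?_⟩
    · by_cases hk : j = k
      · subst hk
        rw [hhj]
        linarith [hρ.1]
      · rw [hhk j k ρ t hk]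
        norm_num
    · rw [hhj]
      linarith [hρ.2]
  have hlam : IsPath (AA R ∩ BB R j) (fun t => cel R j (1 / 2) t) := by
    refine ⟨?_, fun t ht => hann (1 / 2) ⟨le_refl _, by norm_num⟩ t ht⟩
    exact ((hcel j).comp (continuous_const.prodMk continuous_id)).continuousOn
  have hex : IsPath (sphere (0 : ℂ) 1) ex := by
    refine ⟨hC1.1.continuousOn, fun t _ => ?_⟩
    rw [mem_sphere_zero_iff_norm]
    exact hC1.2.2.2.2.1 t
  refine ⟨?_, ?_, ?_⟩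
  · intro x hx
    have hx1 : 1 / 3 ≤ hh j x := hx.2.2
    have hx2 : hh j x ≤ 1 / 2 := hx.1.2 j
    obtain ⟨t, ht, hxt⟩ := hpt x hx.1.1 j (by linarith)
    refine ⟨fun σ => cel R j ((1 - σ) / 2 + σ * (1 - hh j x)) (σ * t), ⟨?_, ?_⟩, ?_, ?_⟩
    · have h1 : Continuous fun σ : ℝ => ((1 - σ) / 2 + σ * (1 - hh j x), σ * t) := by fun_prop
      exact ((hcel j).comp h1).continuousOn
    · intro σ hσ
      refine hann _ ⟨?_, ?_⟩ _ ⟨mul_nonneg hσ.1 ht.1, ?_⟩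
      · nlinarith [hσ.1]
      · nlinarith [hσ.1, hσ.2, mul_le_mul_of_nonneg_left hx1 hσ.1]
      · nlinarith [hσ.1, hσ.2, ht.1, ht.2]
    · simp
    · simp only [sub_self, zero_div, one_mul, zero_add]
      exact hxt.symm
  · intro G _ E hE hE1
    obtain ⟨h1, -, h2⟩ := hA4.2 ℂ (Amb ι κ) G (sphere 0 1) (AA R ∩ BB R j) E s ex hE hs hex
    have h3 : PP (fun x y => E (s x) (s y)) ex = 1 := by
      rw [h2]
      have h4 : (fun t => s (ex t)) = fun t => cel R j (1 / 2) t := funext hs1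
      rw [h4, hE1]
    obtain ⟨h4, h5⟩ := hA4.1 ℂ G G (sphere 0 1) _ (1 : G →* G) ex h1 hex
    simp only [MonoidHom.one_apply] at h4 h5
    obtain ⟨c, -, hc⟩ := hC8b G _ _ h1 h4 (h3.trans h5.symm)
    obtain ⟨-, -, h6, h7, -⟩ := hA6
    have h8 := h7 (Amb ι κ) ℂ G (AA R ∩ BB R j) (sphere 0 1) c _ _ a hc ha
    obtain ⟨ε, hε, h9⟩ := hA7 (Amb ι κ) (Amb ι κ) G (AA R ∩ BB R j) (AA R ∩ BB R j) E h hE hh1
    have h10 : Gau (AA R ∩ BB R j) (fun x => PP E (h x)) E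
        (fun x y => E (s (a x)) (s (a y))) := by
      refine ⟨ε, hε, fun x hx y hy hxy => ?_⟩
      have h11 := h9 x hx y hy hxy
      simp only at h11 ⊢
      rw [hh0 x hx, hh0 y hy, hhs x hx, hhs y hy] at h11
      exact h11
    exact ⟨_, h6 (Amb ι κ) G (AA R ∩ BB R j) _ _ _ _ _ h10 h8⟩
  · obtain ⟨E, hE, hE1, -⟩ := hC8a (Multiplicative ℤ) (Multiplicative.ofAdd 1)
    obtain ⟨h1, -, h2⟩ := hA4.2 (Amb ι κ) ℂ (Multiplicative ℤ) (AA R ∩ BB R j) (sphere 0 1) E a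
      (fun t => cel R j (1 / 2) t) hE ha hlam
    refine ⟨_, h1, ?_⟩
    rw [h2, ← hE1]
    have h3 : (fun t => a (cel R j (1 / 2) t)) = ex := funext ha1
    rw [h3]

end Pool.Agent.Helper74.SS
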