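import Pool.Agent.Helper74.SS.St

set_option autoImplicit false

open Set Metric Filter Topology

namespace Pool.Agent.Helper74.SS

private theorem wpt_fract_C2 (hC1 : StC1) {ι κ : Type} [DecidableEq ι] (i : ι) (t : ℝ) :
    (wpt i t : Amb ι κ) = wpt i (Int.fract t) := by
  obtain ⟨-, -, -, -, -, -, hiff, -⟩ := hC1
  have h1 : ex t = ex (Int.fract t) := by
    rw [hiff]
    exact ⟨⌊t⌋, by rw [Int.fract]; ring⟩
  unfold wpt
  rw [h1]

private theorem wpt_cont_C2 (hC1 : StC1) {ι κ : Type} [DecidableEq ι] (i : ι) :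
    Continuous (fun t => (wpt i t : Amb ι κ)) := by
  unfold wpt
  exact ((continuous_single i).comp (hC1.1.sub continuous_const)).prodMk continuous_const

private theorem ww_C2 (hC1 : StC1) (ι κ : Type) [Fintype ι] [DecidableEq ι] :
    IsCompact (WW ι κ) := by
  have h1 : WW ι κ = {0} ∪ ⋃ i : ι, (fun t => (wpt i t : Amb ι κ)) '' Icc 0 1 := by
    ext x
    simp only [WW, mem_ofPred_eq, mem_union, mem_singleton_iff, mem_iUnion, mem_image]
    refine or_congr_right (exists_congr fun i => ?_)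
    constructor
    · rintro ⟨t, rfl⟩
      exact ⟨Int.fract t, ⟨Int.fract_nonneg _, (Int.fract_lt_one _).le⟩,
        (wpt_fract_C2 hC1 i t).symm⟩
    · rintro ⟨t, -, rfl⟩
      exact ⟨t, rfl⟩
  rw [h1]
  exact isCompact_singleton.union (isCompact_iUnion fun i =>
    isCompact_Icc.image (wpt_cont_C2 hC1 i))

private theorem cel_cont_C2 (hC1 : StC1) {ι κ : Type} [DecidableEq ι] [DecidableEq κ]
    (R : κ → Wd ι) (j : κ) : Continuous fun p : ℝ × ℝ => cel R j p.1 p.2 := by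
  unfold cel
  have hg : Continuous (gam (R j)) := (hC1.2.2.2.2.2.2.2 ι κ (R j)).1
  have he : Continuous ex := hC1.1
  have h1 : Continuous (fun p : ℝ × ℝ => (((((p.1 * (1 - p.1) : ℝ) : ℂ) * ex p.2, 1 - p.1)) :
      ℂ × ℝ)) := by
    refine Continuous.prodMk ?_ (by fun_prop)
    exact (Complex.continuous_ofReal.comp (by fun_prop)).mul (he.comp continuous_snd)
  have h2 : Continuous (fun z : ℂ × ℝ => (Pi.single j z : κ → ℂ × ℝ)) := by
    exact continuous_single (A := fun _ : κ => ℂ × ℝ) j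
  refine Continuous.prodMk ?_ (h2.comp h1)
  have h3 : Continuous (fun p : ℝ × ℝ => gam (R j) p.2) := hg.comp continuous_snd
  have h4 : Continuous (fun p : ℝ × ℝ => max 0 (3 * p.1 - 2)) := by fun_prop
  exact h4.smul h3

private theorem cel_one_C2 {ι κ : Type} [DecidableEq ι] [DecidableEq κ]
    (R : κ → Wd ι) (j : κ) (t : ℝ) : cel R j 1 t = (gam (R j) t, 0) := by
  unfold cel
  have h1 : max 0 ((3 : ℝ) * 1 - 2) = 1 := by norm_num
  rw [h1, one_smul]
  have h2 : (((((1 : ℝ) * (1 - 1) : ℝ) : ℂ) * ex t, (1 : ℝ) - 1) : ℂ × ℝ) = 0 := by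
    ext <;> simp
  rw [h2, Pi.single_zero]

private theorem cel_zero_C2 {ι κ : Type} [DecidableEq ι] [DecidableEq κ]
    (R : κ → Wd ι) (j : κ) (t : ℝ) : cel R j 0 t = cel R j 0 0 := by
  unfold cel
  have h1 : max 0 ((3 : ℝ) * 0 - 2) = 0 := by norm_num
  rw [h1, zero_smul, zero_smul]
  simp

private theorem cel_per_C2 (hC1 : StC1) {ι κ : Type} [DecidableEq ι] [DecidableEq κ]
    (R : κ → Wd ι) (j : κ) (ρ : ℝ) : cel R j ρ 0 = cel R j ρ 1 := by
  unfold cel
  have hg := (hC1.2.2.2.2.2.2.2 ι κ (R j))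
  rw [hg.2.1 0 le_rfl, hg.2.2.1 1 le_rfl, hC1.2.1, hC1.2.2.1]

private theorem hh_same_C2 {ι κ : Type} [DecidableEq ι] [DecidableEq κ]
    (R : κ → Wd ι) (j : κ) (ρ t : ℝ) : hh j (cel R j ρ t) = 1 - ρ := by
  unfold hh cel
  simp

private theorem hh_ne_C2 {ι κ : Type} [DecidableEq ι] [DecidableEq κ]
    (R : κ → Wd ι) (j k : κ) (ρ t : ℝ) (h : j ≠ k) : hh k (cel R j ρ t) = 0 := by
  unfold hh cel
  simp [Pi.single_eq_of_ne (Ne.symm h)]

private theorem hh_ww_C2 {ι κ : Type} [DecidableEq ι] (x : Amb ι κ) (hx : x ∈ WW ι κ) (j : κ) :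
    hh j x = 0 := by
  rcases hx with rfl | ⟨i, t, rfl⟩
  · rfl
  · rfl

theorem pC2 (hC1 : StC1) : StC2 := by
  intro ι κ _ _ _ _ R
  refine ⟨ww_C2 hC1 ι κ, ?_, fun j => cel_cont_C2 hC1 R j, fun j t => cel_one_C2 R j t,
    fun j t => cel_zero_C2 R j t, fun j ρ => cel_per_C2 hC1 R j ρ,
    fun j ρ t => hh_same_C2 R j ρ t, fun j k ρ t h => hh_ne_C2 R j k ρ t h,
    fun x hx j => hh_ww_C2 x hx j, ?_, ?_, ?_, ?_⟩
  · have h1 : XX R = WW ι κ ∪ ⋃ j : κ, (fun p : ℝ × ℝ => cel R j p.1 p.2) ''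
        (Icc (0 : ℝ) 1 ×ˢ Icc (0 : ℝ) 1) := by
      ext x
      simp only [XX, mem_ofPred_eq, mem_union, mem_iUnion, mem_image]
      refine or_congr_right (exists_congr fun j => ?_)
      constructor
      · rintro ⟨ρ, hρ, t, ht, rfl⟩
        exact ⟨(ρ, t), ⟨hρ, ht⟩, rfl⟩
      · rintro ⟨⟨ρ, t⟩, ⟨hρ, ht⟩, rfl⟩
        exact ⟨ρ, hρ, t, ht, rfl⟩
    rw [h1]
    exact (ww_C2 hC1 ι κ).union (isCompact_iUnion fun j =>
      (isCompact_Icc.prod isCompact_Icc).image (cel_cont_C2 hC1 R j))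
  · rintro x (hx | ⟨k, ρ, hρ, t, ht, rfl⟩) j
    · rw [hh_ww_C2 x hx j]
    · by_cases h : k = j
      · subst h
        rw [hh_same_C2]
        linarith [hρ.2]
      · rw [hh_ne_C2 R k j ρ t h]
  · rintro x (hx | ⟨k, ρ, hρ, t, ht, rfl⟩) j hj
    · rw [hh_ww_C2 x hx j] at hj
      exact absurd hj (lt_irrefl _)
    · by_cases h : k = j
      · subst h
        refine ⟨t, ht, ?_⟩
        rw [hh_same_C2, sub_sub_cancel]
      · rw [hh_ne_C2 R k j ρ t h] at hj
        exact absurd hj (lt_irrefl _)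
  · rintro x (hx | ⟨k, ρ, hρ, t, ht, rfl⟩) h0
    · exact hx
    · have h1 := h0 k
      rw [hh_same_C2] at h1
      have h2 : ρ = 1 := by linarith
      subst h2
      rw [cel_one_C2]
      exact (hC1.2.2.2.2.2.2.2 ι κ (R k)).2.2.2 t
  · intro j ρ hρ ρ' hρ' t ht t' ht' hlt he
    have h1 : ρ = ρ' := by
      have := congrArg (hh j) he
      rw [hh_same_C2, hh_same_C2] at this
      linarith
    refine ⟨h1, ?_⟩
    subst h1
    by_cases h0 : ρ = 0
    · exact Or.inl h0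
    · right
      rw [← hC1.2.2.2.2.2.2.1]
      have h2 : ((cel R j ρ t).2 j).1 = ((cel R j ρ t').2 j).1 := by rw [he]
      unfold cel at h2
      simp only [Pi.single_eq_same] at h2
      have h3 : (((ρ * (1 - ρ) : ℝ) : ℂ)) ≠ 0 := by
        rw [Complex.ofReal_ne_zero]
        exact mul_ne_zero h0 (by linarith)
      exact mul_left_cancel₀ h3 h2

end Pool.Agent.Helper74.SS
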