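import Pool.Agent.Helper74.SS.St

set_option autoImplicit false

open Set Metric Filter Topology

namespace Pool.Agent.Helper74.SS

private theorem cont_hh_C4 {ι κ : Type} (j : κ) : Continuous fun x : Amb ι κ => hh j x := by
  unfold hh
  fun_prop

theorem pC4 (hC1 : StC1) (hC2 : StC2) (hC3 : StC3) : StC4 := by
  intro ι κ _ _ _ _ R
  obtain ⟨hex, hex0, hex1, -, hexn, hexs, -, hgam⟩ := hC1
  obtain ⟨hW, hX, hcel, hcel1, hcel0, hcelp, hhj, hhk, hhW, hh0, hpos, hzero, hinj⟩ := hC2 ι κ R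
  have hf := hC3 ι κ (Amb ι κ) R (fun x _ => x)
    (fun j ρ t τ => cel R j (min 1 ((1 + τ) * ρ)) t) continuousOn_fst
    (fun j => ((hcel j).comp (f := fun p : ℝ × ℝ × ℝ => (min 1 ((1 + p.2.2) * p.1), p.2.1))
      (by fun_prop)).continuousOn)
    (fun j t ht τ hτ => by
      show cel R j (min 1 ((1 + τ) * 1)) t = _
      rw [mul_one, min_eq_left (by linarith [hτ.1]), hcel1])
    (fun j t ht τ hτ => by
      show cel R j (min 1 ((1 + τ) * 0)) t = cel R j (min 1 ((1 + τ) * 0)) 0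
      rw [mul_zero, min_eq_right (by norm_num), hcel0])
    (fun j ρ hρ τ hτ => hcelp j _)
  obtain ⟨f, hfc, hfW, hfcel⟩ := hf
  have hcases : ∀ x ∈ AA R, x ∈ WW ι κ ∨ ∃ j, ∃ ρ ∈ Icc (1 / 2 : ℝ) 1, ∃ t ∈ Icc (0 : ℝ) 1,
      x = cel R j ρ t := by
    rintro x ⟨hx, hx2⟩
    by_cases h0 : ∀ j, hh j x = 0
    · exact Or.inl (hzero x hx h0)
    · push Not at h0
      obtain ⟨j, hj⟩ := h0
      have h1 : 0 < hh j x := lt_of_le_of_ne (hh0 x hx j) (Ne.symm hj)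
      obtain ⟨t, ht, hxt⟩ := hpos x hx j h1
      exact Or.inr ⟨j, _, ⟨by linarith [hx2 j], by linarith⟩, t, ht, hxt⟩
  have hWA : ∀ x ∈ WW ι κ, x ∈ AA R := fun x hx => ⟨Or.inl hx, fun j => by
    rw [hhW x hx]; norm_num⟩
  have hAc : IsCompact (AA R) := by
    have h1 : AA R = XX R ∩ {x | ∀ k, hh k x ≤ 1 / 2} := rfl
    rw [h1]
    refine hX.inter_right ?_
    have h2 : {x : Amb ι κ | ∀ k, hh k x ≤ 1 / 2} = ⋂ k, {x | hh k x ≤ 1 / 2} := by
      ext x; simp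
    rw [h2]
    exact isClosed_iInter fun k => isClosed_le (cont_hh_C4 k) continuous_const
  refine ⟨f, ⟨?_, ?_⟩, ?_, ?_, hfW⟩
  · refine (hAc.prod isCompact_Icc).uniformContinuousOn_of_continuous (hfc.mono ?_)
    rintro ⟨x, τ⟩ ⟨hx, hτ⟩
    exact ⟨hx.1, hτ⟩
  · intro x hx τ hτ
    rcases hcases x hx with hxW | ⟨j, ρ, hρ, t, ht, rfl⟩
    · rw [hfW x hxW τ hτ]; exact hx
    · have hρ' : ρ ∈ Icc (0 : ℝ) 1 := ⟨by linarith [hρ.1], hρ.2⟩
      rw [hfcel j ρ hρ' t ht τ hτ]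
      have h1 : 1 / 2 ≤ min 1 ((1 + τ) * ρ) :=
        le_min (by norm_num) (by nlinarith [hρ.1, hτ.1])
      refine ⟨Or.inr ⟨j, _, ⟨by linarith, min_le_left _ _⟩, t, ht, rfl⟩, fun k => ?_⟩
      by_cases hk : j = k
      · subst hk
        rw [hhj]; linarith
      · rw [hhk j k _ _ hk]; norm_num
  · intro x hx
    rcases hcases x hx with hxW | ⟨j, ρ, hρ, t, ht, rfl⟩
    · exact hfW x hxW 0 (by simp)
    · have hρ' : ρ ∈ Icc (0 : ℝ) 1 := ⟨by linarith [hρ.1], hρ.2⟩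
      rw [hfcel j ρ hρ' t ht 0 (by simp)]
      simp only [add_zero, one_mul]
      rw [min_eq_right hρ.2]
  · intro x hx
    rcases hcases x hx with hxW | ⟨j, ρ, hρ, t, ht, rfl⟩
    · rw [hfW x hxW 1 (by simp)]; exact hxW
    · have hρ' : ρ ∈ Icc (0 : ℝ) 1 := ⟨by linarith [hρ.1], hρ.2⟩
      rw [hfcel j ρ hρ' t ht 1 (by simp)]
      rw [min_eq_left (by linarith [hρ.1]), hcel1]
      exact (hgam ι κ (R j)).2.2.2 t

end Pool.Agent.Helper74.SS
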