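import Pool.Agent.Helper74.SS.St

set_option autoImplicit false

open Set Metric Filter Topology

namespace Pool.Agent.Helper74.SS

private theorem lip_C5 {ι κ : Type} [Fintype ι] [Fintype κ] (j : κ) (x y : Amb ι κ) :
    |hh j x - hh j y| ≤ dist x y := by
  unfold hh
  rw [← Real.dist_eq]
  have h1 : dist (x.2 j).2 (y.2 j).2 ≤ dist (x.2 j) (y.2 j) := by
    rw [Prod.dist_eq]; exact le_max_right _ _
  have h2 : dist (x.2 j) (y.2 j) ≤ dist x.2 y.2 := dist_le_pi_dist _ _ _
  have h3 : dist x.2 y.2 ≤ dist x y := by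
    rw [Prod.dist_eq (x := x)]; exact le_max_right _ _
  linarith

theorem pC5 (hC1 : StC1) (hC2 : StC2) : StC5 := by
  intro ι κ _ _ _ _ R
  obtain ⟨hex, hex0, hex1, -, -, -, -, hgam⟩ := hC1
  obtain ⟨hW, hX, hcel, hcel1, hcel0, hcelp, hhj, hhk, hhW, hh0, hpos, hzero, hinj⟩ := hC2 ι κ R
  refine ⟨⟨1 / 12, by norm_num, ?_⟩, ?_, ?_⟩
  · intro x hx
    by_cases h : ∃ j, 5 / 12 ≤ hh j x
    · obtain ⟨j, hj⟩ := h
      refine Or.inr ⟨j, fun y hy hxy => ⟨hy, ?_⟩⟩
      have h1 := abs_le.1 (lip_C5 j x y)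
      linarith [h1.1, h1.2]
    · push Not at h
      refine Or.inl fun y hy hxy => ⟨hy, fun j => ?_⟩
      have h1 := abs_le.1 (lip_C5 j x y)
      linarith [h1.1, h1.2, h j]
  · intro j k hjk
    rw [Set.disjoint_left]
    rintro x ⟨hx, hxj⟩ ⟨-, hxk⟩
    obtain ⟨t, -, ht⟩ := hpos x hx j (by linarith)
    have h1 := hhk j k (1 - hh j x) t hjk
    rw [← ht] at h1
    linarith
  · intro x hx
    rcases hx with hx | ⟨j, ρ, hρ, t, ht, rfl⟩
    · rcases hx with rfl | ⟨i, t, rfl⟩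
      · exact ⟨fun _ => 0, ⟨continuousOn_const, fun _ _ => Or.inl (Or.inl rfl)⟩, rfl, rfl⟩
      · refine ⟨fun s => wpt i (s * t), ⟨?_, fun s _ => Or.inl (Or.inr ⟨i, s * t, rfl⟩)⟩, ?_, ?_⟩
        · refine Continuous.continuousOn ?_
          unfold wpt
          refine Continuous.prodMk ?_ continuous_const
          exact (continuous_single i).comp
            ((hex.comp (continuous_id.mul continuous_const)).sub continuous_const)
        · simp [wpt, hex0]
        · simp
    · refine ⟨fun s => cel R j (1 - s * (1 - ρ)) (s * t), ⟨?_, ?_⟩, ?_, ?_⟩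
      · refine Continuous.continuousOn ?_
        exact (hcel j).comp (f := fun s : ℝ => (1 - s * (1 - ρ), s * t)) (by fun_prop)
      · intro s hs
        refine Or.inr ⟨j, _, ⟨?_, ?_⟩, _, ⟨?_, ?_⟩, rfl⟩
        · nlinarith [hs.1, hs.2, hρ.1, hρ.2]
        · nlinarith [hs.1, hs.2, hρ.1, hρ.2]
        · exact mul_nonneg hs.1 ht.1
        · nlinarith [hs.1, hs.2, ht.1, ht.2]
      · have h1 := hcel1 j 0
        have h2 := (hgam ι κ (R j)).2.1 0 le_rfl
        simp only [zero_mul, sub_zero]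
        rw [h1, h2]
        rfl
      · simp

end Pool.Agent.Helper74.SS
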