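import Pool.Agent.Helper74.SS.St

set_option autoImplicit false

open Set Metric Filter Topology

namespace Pool.Agent.Helper74.SS

private theorem cel_C6 {ι κ : Type} [DecidableEq ι] [DecidableEq κ] (R : κ → Wd ι) (j : κ)
    (ρ t : ℝ) (hρ : ρ ≤ 2 / 3) :
    cel R j ρ t = (0, Pi.single j (((ρ * (1 - ρ) : ℝ) : ℂ) * ex t, 1 - ρ)) := by
  unfold cel
  rw [max_eq_left (by linarith), zero_smul]

private theorem cont_hh_C6 {ι κ : Type} (j : κ) : Continuous fun x : Amb ι κ => hh j x := by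
  unfold hh
  fun_prop

theorem pC6 (hC2 : StC2) : StC6 := by
  intro ι κ _ _ _ _ R j
  obtain ⟨hW, hX, hcel, hcel1, hcel0, hcelp, hhj, hhk, hhW, hh0, hpos, hzero, hinj⟩ := hC2 ι κ R
  -- the homotopy
  let c' : Amb ι κ → ℝ → ℝ := fun x τ => 1 - (1 - τ) * (1 - hh j x)
  let h : Amb ι κ → ℝ → Amb ι κ := fun x τ =>
    (0, Pi.single j ((((1 - τ) * (c' x τ / hh j x) : ℝ) : ℂ) * (x.2 j).1, c' x τ))
  have hle : ∀ x ∈ XX R, hh j x ≤ 1 := by
    intro x hx
    rcases hx with hx | ⟨k, ρ, hρ, t, ht, rfl⟩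
    · rw [hhW x hx]; norm_num
    · by_cases hk : k = j
      · subst hk
        rw [hhj]; linarith [hρ.1]
      · rw [hhk k j ρ t hk]; norm_num
  have key : ∀ x ∈ BB R j, ∃ t ∈ Icc (0 : ℝ) 1, x = cel R j (1 - hh j x) t ∧
      ∀ τ ∈ Icc (0 : ℝ) 1, h x τ = cel R j ((1 - τ) * (1 - hh j x)) t := by
    intro x hx
    obtain ⟨t, ht, hxt⟩ := hpos x hx.1 j (by linarith [hx.2])
    refine ⟨t, ht, hxt, fun τ hτ => ?_⟩
    have hc : (1 : ℝ) / 3 ≤ hh j x := hx.2
    have hc1 : hh j x ≤ 1 := hle x hx.1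
    have h1 : (x.2 j).1 = (((1 - hh j x) * (1 - (1 - hh j x)) : ℝ) : ℂ) * ex t := by
      have h2 := congrArg (fun y : Amb ι κ => (y.2 j).1) hxt
      rw [cel_C6 R j _ t (by linarith)] at h2
      simpa using h2
    rw [cel_C6 R j _ t (by nlinarith [hτ.1, hτ.2])]
    show ((0, Pi.single j ((((1 - τ) * (c' x τ / hh j x) : ℝ) : ℂ) * (x.2 j).1, c' x τ)) :
      Amb ι κ) = _
    have h3 : (((1 - τ) * (c' x τ / hh j x) : ℝ) : ℂ) * (x.2 j).1 =
        (((1 - τ) * (1 - hh j x) * (1 - (1 - τ) * (1 - hh j x)) : ℝ) : ℂ) * ex t := by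
      rw [h1, ← mul_assoc, ← Complex.ofReal_mul]
      congr 2
      have h4 : hh j x ≠ 0 := by linarith
      show (1 - τ) * ((1 - (1 - τ) * (1 - hh j x)) / hh j x) * _ = _
      field_simp
      ring
    rw [h3]
  have hBc : IsCompact (BB R j) := by
    have : BB R j = XX R ∩ {x | 1 / 3 ≤ hh j x} := rfl
    rw [this]
    exact hX.inter_right (isClosed_le continuous_const (cont_hh_C6 j))
  refine ⟨h, cel R j 0 0, ⟨?_, ?_⟩, ?_, ?_⟩
  · refine (hBc.prod isCompact_Icc).uniformContinuousOn_of_continuous ?_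
    have h1 : ContinuousOn (fun p : Amb ι κ × ℝ => c' p.1 p.2 / hh j p.1)
        (BB R j ×ˢ Icc (0 : ℝ) 1) := by
      refine ContinuousOn.div ?_ ?_ ?_
      · refine Continuous.continuousOn ?_
        show Continuous fun p : Amb ι κ × ℝ => 1 - (1 - p.2) * (1 - hh j p.1)
        have := (cont_hh_C6 j).comp (continuous_fst (X := Amb ι κ) (Y := ℝ))
        exact continuous_const.sub ((continuous_const.sub continuous_snd).mul
          (continuous_const.sub this))
      · exact ((cont_hh_C6 j).comp continuous_fst).continuousOn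
      · rintro ⟨x, τ⟩ ⟨hx, -⟩
        have : (1 : ℝ) / 3 ≤ hh j x := hx.2
        show hh j x ≠ 0
        linarith
    have h2 : ContinuousOn (fun p : Amb ι κ × ℝ =>
        ((((1 - p.2) * (c' p.1 p.2 / hh j p.1) : ℝ) : ℂ) * (p.1.2 j).1, c' p.1 p.2))
        (BB R j ×ˢ Icc (0 : ℝ) 1) := by
      refine ContinuousOn.prodMk ?_ ?_
      · refine ContinuousOn.mul ?_ ?_
        · refine Complex.continuous_ofReal.comp_continuousOn ?_
          exact ((continuous_const.sub continuous_snd).continuousOn).mul h1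
        · exact Continuous.continuousOn (by fun_prop)
      · refine Continuous.continuousOn ?_
        show Continuous fun p : Amb ι κ × ℝ => 1 - (1 - p.2) * (1 - hh j p.1)
        have := (cont_hh_C6 j).comp (continuous_fst (X := Amb ι κ) (Y := ℝ))
        exact continuous_const.sub ((continuous_const.sub continuous_snd).mul
          (continuous_const.sub this))
    refine ContinuousOn.prodMk continuousOn_const ?_
    exact (continuous_single j).comp_continuousOn h2
  · intro x hx τ hτ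
    obtain ⟨t, ht, -, h2⟩ := key x hx
    rw [h2 τ hτ]
    have hc : (1 : ℝ) / 3 ≤ hh j x := hx.2
    have hc1 : hh j x ≤ 1 := hle x hx.1
    refine ⟨Or.inr ⟨j, _, ⟨?_, ?_⟩, t, ht, rfl⟩, ?_⟩
    · nlinarith [hτ.1, hτ.2]
    · nlinarith [hτ.1, hτ.2]
    · rw [hhj]; nlinarith [hτ.1, hτ.2]
  · refine ⟨Or.inr ⟨j, 0, by simp, 0, by simp, rfl⟩, ?_⟩
    rw [hhj]; norm_num
  · intro x hx
    obtain ⟨t, ht, h1, h2⟩ := key x hx
    constructor
    · rw [h2 0 (by simp)]
      conv_rhs => rw [h1]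
      simp
    · rw [h2 1 (by simp)]
      simp only [sub_self, zero_mul]
      exact hcel0 j t

end Pool.Agent.Helper74.SS
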