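import Pool.Agent.Helper74.SS.St

set_option autoImplicit false

open Set Metric Filter Topology

namespace Pool.Agent.Helper74.SS

private theorem cel_C7 {ι κ : Type} [DecidableEq ι] [DecidableEq κ] (R : κ → Wd ι) (j : κ)
    (ρ t : ℝ) (hρ : ρ ≤ 2 / 3) :
    cel R j ρ t = (0, Pi.single j (((ρ * (1 - ρ) : ℝ) : ℂ) * ex t, 1 - ρ)) := by
  unfold cel
  rw [max_eq_left (by linarith), zero_smul]

private theorem cont_hh_C7 {ι κ : Type} (j : κ) : Continuous fun x : Amb ι κ => hh j x := by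
  unfold hh
  fun_prop

theorem pC7 (hC1 : StC1) (hC2 : StC2) : StC7 := by
  intro ι κ _ _ _ _ R j
  obtain ⟨hex, hex0, hex1, -, hexn, hexs, -, hgam⟩ := hC1
  obtain ⟨hW, hX, hcel, hcel1, hcel0, hcelp, hhj, hhk, hhW, hh0, hpos, hzero, hinj⟩ := hC2 ι κ R
  let a : Amb ι κ → ℂ := fun x => (x.2 j).1 / (((1 - hh j x) * hh j x : ℝ) : ℂ)
  let s : ℂ → Amb ι κ := fun z => (0, Pi.single j (z / 4, 1 / 2))
  let c' : Amb ι κ → ℝ → ℝ := fun x τ => (1 - τ) * hh j x + τ / 2
  let h : Amb ι κ → ℝ → Amb ι κ := fun x τ =>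
    (0, Pi.single j ((((1 - c' x τ) * c' x τ : ℝ) : ℂ) * a x, c' x τ))
  have hae : ∀ ρ t, 0 < ρ → ρ ≤ 2 / 3 → a (cel R j ρ t) = ex t := by
    intro ρ t hρ hρ'
    show ((cel R j ρ t).2 j).1 / (((1 - hh j (cel R j ρ t)) * hh j (cel R j ρ t) : ℝ) : ℂ) = ex t
    rw [hhj, cel_C7 R j ρ t hρ']
    have h1 : (((1 - (1 - ρ)) * (1 - ρ) : ℝ) : ℂ) ≠ 0 := by
      have : (0 : ℝ) < (1 - (1 - ρ)) * (1 - ρ) := by
        have : 0 < 1 - ρ := by linarith
        have h2 : 0 < 1 - (1 - ρ) := by linarith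
        positivity
      exact_mod_cast this.ne'
    rw [div_eq_iff h1]
    simp only [Pi.single_eq_same]
    rw [mul_comm]
    congr 2
    ring
  have hse : ∀ t, s (ex t) = cel R j (1 / 2) t := by
    intro t
    rw [cel_C7 R j _ t (by norm_num)]
    show ((0, Pi.single j (ex t / 4, 1 / 2)) : Amb ι κ) = _
    have h1 : ex t / 4 = (((1 / 2 * (1 - 1 / 2) : ℝ)) : ℂ) * ex t := by
      push_cast
      ring
    rw [h1]
    norm_num
  have key : ∀ x ∈ AA R ∩ BB R j, ∃ t ∈ Icc (0 : ℝ) 1, x = cel R j (1 - hh j x) t ∧ a x = ex t ∧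
      ∀ τ ∈ Icc (0 : ℝ) 1, h x τ = cel R j (1 - c' x τ) t := by
    rintro x ⟨hxA, hxB⟩
    have hc : (1 : ℝ) / 3 ≤ hh j x := hxB.2
    have hc1 : hh j x ≤ 1 / 2 := hxA.2 j
    obtain ⟨t, ht, hxt⟩ := hpos x hxB.1 j (by linarith)
    have hax : a x = ex t := by
      have h1 := hae (1 - hh j x) t (by linarith) (by linarith)
      rw [← hxt] at h1
      exact h1
    refine ⟨t, ht, hxt, hax, fun τ hτ => ?_⟩
    have h2 : 1 / 3 ≤ c' x τ := by
      show 1 / 3 ≤ (1 - τ) * hh j x + τ / 2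
      nlinarith [hτ.1, hτ.2]
    rw [cel_C7 R j _ t (by linarith)]
    show ((0, Pi.single j ((((1 - c' x τ) * c' x τ : ℝ) : ℂ) * a x, c' x τ)) : Amb ι κ) = _
    rw [hax]
    have h3 : (1 - c' x τ) * (1 - (1 - c' x τ)) = (1 - c' x τ) * c' x τ := by ring
    have h4 : 1 - (1 - c' x τ) = c' x τ := by ring
    rw [h3, h4]
  have hNc : IsCompact (AA R ∩ BB R j) := by
    have h1 : AA R ∩ BB R j = (XX R ∩ {x | 1 / 3 ≤ hh j x}) ∩ {x | ∀ k, hh k x ≤ 1 / 2} := by
      ext x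
      constructor
      · rintro ⟨h1, h2⟩
        exact ⟨h2, h1.2⟩
      · rintro ⟨h1, h2⟩
        exact ⟨⟨h1.1, h2⟩, h1⟩
    rw [h1]
    refine (hX.inter_right (isClosed_le continuous_const (cont_hh_C7 j))).inter_right ?_
    have h2 : {x : Amb ι κ | ∀ k, hh k x ≤ 1 / 2} = ⋂ k, {x | hh k x ≤ 1 / 2} := by
      ext x; simp
    rw [h2]
    exact isClosed_iInter fun k => isClosed_le (cont_hh_C7 k) continuous_const
  have hac : ContinuousOn a (AA R ∩ BB R j) := by
    refine ContinuousOn.div ?_ ?_ ?_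
    · exact Continuous.continuousOn (by fun_prop)
    · refine Continuous.continuousOn (Complex.continuous_ofReal.comp ?_)
      exact (continuous_const.sub (cont_hh_C7 j)).mul (cont_hh_C7 j)
    · rintro x ⟨hxA, hxB⟩
      have hc : (1 : ℝ) / 3 ≤ hh j x := hxB.2
      have hc1 : hh j x ≤ 1 / 2 := hxA.2 j
      have : (0 : ℝ) < (1 - hh j x) * hh j x := by
        have : 0 < 1 - hh j x := by linarith
        have h2 : 0 < hh j x := by linarith
        positivity
      exact_mod_cast this.ne'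
  have hsc : Continuous s := by
    refine Continuous.prodMk continuous_const ?_
    exact (continuous_single j).comp ((continuous_id.div_const 4).prodMk continuous_const)
  have hcc : Continuous fun p : Amb ι κ × ℝ => c' p.1 p.2 := by
    show Continuous fun p : Amb ι κ × ℝ => (1 - p.2) * hh j p.1 + p.2 / 2
    have := (cont_hh_C7 j).comp (continuous_fst (X := Amb ι κ) (Y := ℝ))
    exact ((continuous_const.sub continuous_snd).mul this).add (continuous_snd.div_const 2)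
  refine ⟨a, s, h, ⟨?_, ?_⟩, ⟨?_, ?_⟩, ?_, hse, ⟨?_, ?_⟩, ?_, ?_⟩
  · exact hNc.uniformContinuousOn_of_continuous hac
  · intro x hx
    obtain ⟨t, ht, -, h1, -⟩ := key x hx
    rw [h1]
    simp [hexn]
  · exact (isCompact_sphere _ _).uniformContinuousOn_of_continuous hsc.continuousOn
  · intro z hz
    obtain ⟨t, ht, rfl⟩ := hexs z (by simpa using hz)
    rw [hse]
    refine ⟨⟨Or.inr ⟨j, 1 / 2, ⟨by norm_num, by norm_num⟩, t, ⟨ht.1, ht.2.le⟩, rfl⟩, fun k => ?_⟩,
      Or.inr ⟨j, 1 / 2, ⟨by norm_num, by norm_num⟩, t, ⟨ht.1, ht.2.le⟩, rfl⟩, ?_⟩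
    · by_cases hk : j = k
      · subst hk
        rw [hhj]; norm_num
      · rw [hhk j k _ _ hk]; norm_num
    · rw [hhj]; norm_num
  · intro t
    exact hae _ t (by norm_num) (by norm_num)
  · refine (hNc.prod isCompact_Icc).uniformContinuousOn_of_continuous ?_
    have h2 : ContinuousOn (fun p : Amb ι κ × ℝ =>
        ((((1 - c' p.1 p.2) * c' p.1 p.2 : ℝ) : ℂ) * a p.1, c' p.1 p.2))
        ((AA R ∩ BB R j) ×ˢ Icc (0 : ℝ) 1) := by
      refine ContinuousOn.prodMk (ContinuousOn.mul ?_ ?_) hcc.continuousOn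
      · exact (Complex.continuous_ofReal.comp ((continuous_const.sub hcc).mul hcc)).continuousOn
      · exact hac.comp continuousOn_fst fun p hp => hp.1
    refine ContinuousOn.prodMk continuousOn_const ?_
    exact (continuous_single j).comp_continuousOn h2
  · intro x hx τ hτ
    obtain ⟨t, ht, -, -, h2⟩ := key x hx
    have hc : (1 : ℝ) / 3 ≤ hh j x := hx.2.2
    have hc1 : hh j x ≤ 1 / 2 := hx.1.2 j
    have h3 : 1 / 3 ≤ c' x τ := by
      show 1 / 3 ≤ (1 - τ) * hh j x + τ / 2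
      nlinarith [hτ.1, hτ.2]
    have h4 : c' x τ ≤ 1 / 2 := by
      show (1 - τ) * hh j x + τ / 2 ≤ 1 / 2
      nlinarith [hτ.1, hτ.2]
    rw [h2 τ hτ]
    have hXm : cel R j (1 - c' x τ) t ∈ XX R :=
      Or.inr ⟨j, _, ⟨by linarith, by linarith⟩, t, ht, rfl⟩
    refine ⟨⟨hXm, fun k => ?_⟩, hXm, ?_⟩
    · by_cases hk : j = k
      · subst hk
        rw [hhj]; linarith
      · rw [hhk j k _ _ hk]; norm_num
    · rw [hhj]; linarith
  · intro x hx
    obtain ⟨t, ht, h1, -, h2⟩ := key x hx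
    rw [h2 0 (by simp)]
    conv_rhs => rw [h1]
    congr 1
    show 1 - ((1 - 0) * hh j x + 0 / 2) = _
    ring
  · intro x hx
    obtain ⟨t, ht, h1, h3, h2⟩ := key x hx
    rw [h2 1 (by simp), h3, hse]
    congr 1
    show 1 - ((1 - 1) * hh j x + 1 / 2) = _
    ring

end Pool.Agent.Helper74.SS
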