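import Pool.Agent.Helper74.SS.St

/-! Project SS, module C8a: existence of cocycles on the unit circle. -/

set_option autoImplicit false

open Set Metric Filter Topology

namespace Pool.Agent.Helper74.SS

namespace C8aAux

/-- the winding integer -/
noncomputable def kk (z w : ℂ) : ℤ := round ((z.arg - w.arg) / (2 * Real.pi))

theorem kk_near {z w : ℂ} (hz : ‖z‖ = 1) (hw : ‖w‖ = 1) :
    |(z.arg - w.arg) / (2 * Real.pi) - (kk z w : ℝ)| ≤ dist z w / 4 := by
  have hz0 : z ≠ 0 := by
    intro h; rw [h, norm_zero] at hz; exact zero_ne_one hz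
  have hw0 : w ≠ 0 := by
    intro h; rw [h, norm_zero] at hw; exact zero_ne_one hw
  have h1 : |(z / w).arg| ≤ Real.pi / 2 * ‖z - w‖ := by
    rw [← Complex.angle_eq_abs_arg hz0 hw0]
    exact Complex.angle_le_mul_norm_sub hz hw
  have h2 := Complex.arg_div_coe_angle hz0 hw0
  rw [← Real.Angle.coe_sub, Real.Angle.angle_eq_iff_two_pi_dvd_sub] at h2
  obtain ⟨n, hn⟩ := h2
  have hpi := Real.pi_pos
  have h3 : (z.arg - w.arg) / (2 * Real.pi) - ((-n : ℤ) : ℝ) = (z / w).arg / (2 * Real.pi) := by
    push_cast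
    field_simp
    linarith
  refine (round_le _ (-n)).trans ?_
  rw [h3, abs_div, abs_of_pos (by positivity : 0 < 2 * Real.pi), div_le_iff₀ (by positivity),
    dist_eq_norm]
  calc |(z / w).arg| ≤ Real.pi / 2 * ‖z - w‖ := h1
    _ = ‖z - w‖ / 4 * (2 * Real.pi) := by ring

theorem int_eq_zero {m : ℤ} (h : |(m : ℝ)| < 1) : m = 0 := by
  have h2 : |m| < 1 := by exact_mod_cast h
  exact Int.abs_lt_one_iff.1 h2

theorem round_eq' {x : ℝ} {m : ℤ} (h : |x - m| < 1 / 2) : round x = m := by
  have h1 := round_le x m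
  have h2 : |((round x - m : ℤ) : ℝ)| < 1 := by
    push_cast
    rw [abs_lt] at *
    rw [abs_le] at h1
    have h3 := h1.1
    have h4 := h1.2
    have h5 : |x - m| < 1 / 2 := abs_lt.2 h
    constructor <;> linarith [h.1, h.2]
  have := int_eq_zero h2
  omega

theorem norm_ex (t : ℝ) : ‖ex t‖ = 1 := by
  unfold ex
  have : (2 * (Real.pi : ℂ) * (t : ℂ) * Complex.I) = ((2 * Real.pi * t : ℝ) : ℂ) * Complex.I := by
    push_cast; ring
  rw [this, Complex.norm_exp_ofReal_mul_I]

theorem arg_ex {t : ℝ} (h1 : -(1 / 2) < t) (h2 : t ≤ 1 / 2) : (ex t).arg = 2 * Real.pi * t := by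
  unfold ex
  have : (2 * (Real.pi : ℂ) * (t : ℂ) * Complex.I) = ((2 * Real.pi * t : ℝ) : ℂ) * Complex.I := by
    push_cast; ring
  rw [this, Complex.arg_exp_mul_I, toIocMod_eq_self]
  have hpi := Real.pi_pos
  constructor <;> nlinarith

theorem ex_sub_one (t : ℝ) : ex (t - 1) = ex t := by
  unfold ex
  rw [← Complex.exp_periodic.sub_eq (2 * (Real.pi : ℂ) * (t : ℂ) * Complex.I)]
  congr 1
  push_cast
  ring

theorem pp_eq_C8a {V G : Type} [PseudoMetricSpace V] [Group G] (E : V → V → G)
    (γ : ℝ → V) (N : ℕ) : pp E γ N =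
    ((List.range N).map (fun k : ℕ => E (γ ((k : ℝ) / N)) (γ (((k : ℝ) + 1) / N)))).prod := by
  unfold pp
  simp only [bind_pure_comp, List.map_eq_map, List.map_map]
  rfl

theorem arg_ex' {t : ℝ} (h1 : 1 / 2 < t) (h2 : t ≤ 1) : (ex t).arg = 2 * Real.pi * (t - 1) := by
  rw [← ex_sub_one]
  exact arg_ex (by linarith) (by linarith)

theorem pp_succ_aux {V G : Type} [Group G] (E : V → V → G) (γ : ℝ → V) (N n : ℕ) :
    ((List.range (n + 1)).map fun k : ℕ => E (γ ((k : ℝ) / N)) (γ (((k : ℝ) + 1) / N))).prod =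
    ((List.range n).map fun k : ℕ => E (γ ((k : ℝ) / N)) (γ (((k : ℝ) + 1) / N))).prod *
      E (γ ((n : ℝ) / N)) (γ (((n : ℝ) + 1) / N)) := by
  rw [List.range_succ, List.map_append, List.prod_append]
  simp

theorem partial_prod {G : Type} [Group G] (g : G) {N : ℕ} (hN : 3 ≤ N) (n : ℕ) (hn : n ≤ N) :
    ((List.range n).map fun k : ℕ =>
      (fun z w => g ^ (kk z w)) (ex ((k : ℝ) / N)) (ex (((k : ℝ) + 1) / N))).prod =
      if (n : ℝ) / N ≤ 1 / 2 then 1 else g := by
  have hN0 : (3 : ℝ) ≤ N := by exact_mod_cast hN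
  have hNp : (0 : ℝ) < N := by linarith
  have hN1 : 1 / (N : ℝ) < 1 / 2 := by
    rw [div_lt_div_iff₀ hNp (by norm_num)]
    linarith
  have hNpos : 0 < 1 / (N : ℝ) := by positivity
  have hpi := Real.pi_pos
  induction n with
  | zero => simp
  | succ n ih =>
    have hn' : n ≤ N := by omega
    have hstep : ((n : ℝ) + 1) / N = (n : ℝ) / N + 1 / N := by ring
    have hle : ((n : ℝ) + 1) / N ≤ 1 := by
      rw [div_le_one hNp]
      exact_mod_cast hn
    have hge : (0 : ℝ) ≤ (n : ℝ) / N := by positivity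
    have hsucc := pp_succ_aux (fun z w : ℂ => g ^ (kk z w)) ex N n
    rw [hsucc, ih hn']
    push_cast
    rcases le_or_gt (((n : ℝ) + 1) / N) (1 / 2) with h1 | h1
    · -- below one half
      have h2 : (n : ℝ) / N ≤ 1 / 2 := by linarith
      rw [if_pos h2, if_pos h1]
      have hk : kk (ex ((n : ℝ) / N)) (ex (((n : ℝ) + 1) / N)) = 0 := by
        unfold kk
        apply round_eq'
        rw [arg_ex (by linarith) h2, arg_ex (by linarith) h1, hstep]
        have : (2 * Real.pi * ((n : ℝ) / N) - 2 * Real.pi * ((n : ℝ) / N + 1 / N)) /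
            (2 * Real.pi) - ((0 : ℤ) : ℝ) = -(1 / N) := by
          push_cast
          field_simp
          ring
        rw [this, abs_neg, abs_of_pos hNpos]
        exact hN1
      rw [hk]
      simp
    · rw [if_neg (not_le.2 h1)]
      rcases le_or_gt ((n : ℝ) / N) (1 / 2) with h2 | h2
      · rw [if_pos h2]
        have hk : kk (ex ((n : ℝ) / N)) (ex (((n : ℝ) + 1) / N)) = 1 := by
          unfold kk
          apply round_eq'
          rw [arg_ex (by linarith) h2, arg_ex' h1 hle, hstep]
          have : (2 * Real.pi * ((n : ℝ) / N) - 2 * Real.pi * ((n : ℝ) / N + 1 / N - 1)) /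
              (2 * Real.pi) - ((1 : ℤ) : ℝ) = -(1 / N) := by
            push_cast
            field_simp
            ring
          rw [this, abs_neg, abs_of_pos hNpos]
          exact hN1
        rw [hk]
        simp
      · rw [if_neg (not_le.2 h2)]
        have hk : kk (ex ((n : ℝ) / N)) (ex (((n : ℝ) + 1) / N)) = 0 := by
          unfold kk
          apply round_eq'
          rw [arg_ex' h2 (by linarith), arg_ex' h1 hle, hstep]
          have : (2 * Real.pi * ((n : ℝ) / N - 1) - 2 * Real.pi * ((n : ℝ) / N + 1 / N - 1)) /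
              (2 * Real.pi) - ((0 : ℤ) : ℝ) = -(1 / N) := by
            push_cast
            field_simp
            ring
          rw [this, abs_neg, abs_of_pos hNpos]
          exact hN1
        rw [hk]
        simp

theorem PP_eq_of_eventually {V G : Type} [PseudoMetricSpace V] [Group G] (E : V → V → G)
    (γ : ℝ → V) (g : G) (h : ∀ᶠ N in atTop, pp E γ N = g) : PP E γ = g := by
  have hex : ∃ g, ∀ᶠ N in atTop, pp E γ N = g := ⟨g, h⟩
  unfold PP
  rw [dif_pos hex]
  obtain ⟨N, h1, h2⟩ := (hex.choose_spec.and h).exists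
  exact h1.symm.trans h2

end C8aAux

open C8aAux in
theorem pC8a : StC8a := by
  intro G _ g
  refine ⟨fun z w => g ^ (kk z w), ?_, ?_, ?_⟩
  · refine ⟨1 / 2, by norm_num, fun x hx y hy z hz hxy hxz => ?_⟩
    have hx' : ‖x‖ = 1 := by simpa using hx
    have hy' : ‖y‖ = 1 := by simpa using hy
    have hz' : ‖z‖ = 1 := by simpa using hz
    have hyz : dist y z < 1 := by
      have := dist_triangle y x z
      rw [dist_comm y x] at this
      linarith
    simp only
    rw [← zpow_add]
    congr 1
    have h1 := kk_near hx' hy'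
    have h2 := kk_near hy' hz'
    have h3 := kk_near hx' hz'
    have hpi := Real.pi_pos
    have h4 : (x.arg - z.arg) / (2 * Real.pi) =
        (x.arg - y.arg) / (2 * Real.pi) + (y.arg - z.arg) / (2 * Real.pi) := by ring
    rw [h4] at h3
    have h5 : |((kk x y + kk y z - kk x z : ℤ) : ℝ)| < 1 := by
      push_cast
      rw [abs_le] at h1 h2 h3
      rw [abs_lt]
      constructor <;> linarith [h1.1, h1.2, h2.1, h2.2, h3.1, h3.2]
    have := int_eq_zero h5
    omega
  · apply PP_eq_of_eventually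
    filter_upwards [eventually_ge_atTop 3] with N hN
    have h := partial_prod g hN N le_rfl
    have hN0 : (3 : ℝ) ≤ N := by exact_mod_cast hN
    have hNN : (N : ℝ) / N = 1 := div_self (by linarith)
    rw [hNN, if_neg (by norm_num)] at h
    rw [pp_eq_C8a]
    exact h
  · refine ⟨1 / 2, by norm_num, fun z hz w hw h1z h1w => ?_⟩
    have hz' : ‖z‖ = 1 := by simpa using hz
    have hw' : ‖w‖ = 1 := by simpa using hw
    have hpi := Real.pi_pos
    have harg : ∀ u : ℂ, ‖u‖ = 1 → dist 1 u < 1 / 2 → |u.arg| ≤ Real.pi / 4 := by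
      intro u hu hd
      have hu0 : u ≠ 0 := by
        intro h; rw [h, norm_zero] at hu; exact zero_ne_one hu
      have h1 : |(u / 1).arg| ≤ Real.pi / 2 * ‖u - 1‖ := by
        rw [← Complex.angle_eq_abs_arg hu0 one_ne_zero]
        exact Complex.angle_le_mul_norm_sub hu norm_one
      rw [div_one] at h1
      rw [dist_comm, dist_eq_norm] at hd
      nlinarith
    have h1 := harg z hz' h1z
    have h2 := harg w hw' h1w
    have hk : kk z w = 0 := by
      unfold kk
      apply round_eq'
      rw [Int.cast_zero, sub_zero, abs_div, abs_of_pos (by positivity : 0 < 2 * Real.pi),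
        div_lt_iff₀ (by positivity)]
      rw [abs_le] at h1 h2
      rw [abs_lt]
      constructor <;> linarith [h1.1, h1.2, h2.1, h2.2]
    simp only
    rw [hk, zpow_zero]

end Pool.Agent.Helper74.SS
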