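import Pool.Agent.Helper74.SS.St

/-! Project SS, module C8b: uniqueness of cocycles on the unit circle. -/

set_option autoImplicit false

open Set Metric Filter Topology

namespace Pool.Agent.Helper74.SS

/-- Points of the circle which are close have parameters which are close modulo one. -/
theorem C8b_near (hC1 : StC1) (s t : ℝ) : ∃ n : ℤ, |s - t - n| ≤ dist (ex s) (ex t) / 4 := by
  obtain ⟨_, h0, _, hadd, hnorm, _, hiff, _⟩ := hC1
  refine ⟨round (s - t), ?_⟩
  set u : ℝ := s - t - round (s - t) with hu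
  have hu2 : |u| ≤ 1 / 2 := abs_sub_round (s - t)
  have h1 : ex (s - t) = ex u := (hiff _ _).2 ⟨round (s - t), by rw [hu]; ring⟩
  have h2 : ex s = ex u * ex t := by
    rw [← h1, ← hadd]; congr 1; ring
  have h3 : dist (ex s) (ex t) = ‖ex u - 1‖ := by
    rw [dist_eq_norm, h2]
    have : ex u * ex t - ex t = (ex u - 1) * ex t := by ring
    rw [this, norm_mul, hnorm, mul_one]
  have h4 : ‖ex u - 1‖ = 2 * |Real.sin (Real.pi * u)| := by
    have h5 : ex u = Complex.exp (Complex.I * ((2 * Real.pi * u : ℝ) : ℂ)) := by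
      unfold ex; congr 1; push_cast; ring
    rw [h5, Complex.norm_exp_I_mul_ofReal_sub_one, norm_mul]
    have h6 : 2 * Real.pi * u / 2 = Real.pi * u := by ring
    rw [h6]
    simp
  have hpi := Real.pi_pos
  have h5 : 2 / Real.pi * |Real.pi * u| ≤ |Real.sin (Real.pi * u)| := by
    apply Real.mul_abs_le_abs_sin
    rw [abs_mul, abs_of_pos hpi]
    nlinarith
  have h6 : 2 / Real.pi * |Real.pi * u| = 2 * |u| := by
    rw [abs_mul, abs_of_pos hpi]
    field_simp
  rw [h6] at h5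
  rw [h3, h4]
  linarith

theorem C8b_contr : Contr (Icc (0 : ℝ) 1) := by
  refine ⟨fun s τ => (1 - τ) * s, 0, ⟨?_, ?_⟩, ⟨le_refl _, zero_le_one⟩, ?_⟩
  · apply IsCompact.uniformContinuousOn_of_continuous
    · exact isCompact_Icc.prod isCompact_Icc
    · fun_prop
  · intro x hx τ hτ
    constructor
    · exact mul_nonneg (by linarith [hτ.2]) hx.1
    · have := hx.1; have := hx.2; have := hτ.1; have := hτ.2
      nlinarith
  · intro x _
    constructor <;> ring

theorem C8b_key (hC1 : StC1) (hA4 : StA4) (hA9 : StA9) {G : Type} [Group G] (E : ℂ → ℂ → G)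
    (hE : Coc (sphere (0 : ℂ) 1) E) : ∃ d : ℝ → G, d 0 = 1 ∧ PP E ex = (d 1)⁻¹ ∧
      ∃ ε > 0, ∀ s ∈ Icc (0 : ℝ) 1, ∀ t ∈ Icc (0 : ℝ) 1, |s - t| < ε →
        E (ex s) (ex t) = d s * (d t)⁻¹ := by
  obtain ⟨hc, h0, h1, hadd, hnorm, hsurj, hiff, _⟩ := hC1
  have hmaps : ∀ t : ℝ, ex t ∈ sphere (0 : ℂ) 1 := fun t => by
    rw [mem_sphere_zero_iff_norm]; exact hnorm t
  have hM : Mor (Icc (0 : ℝ) 1) (sphere (0 : ℂ) 1) ex :=
    ⟨isCompact_Icc.uniformContinuousOn_of_continuous hc.continuousOn, fun t _ => hmaps t⟩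
  have hid : IsPath (Icc (0 : ℝ) 1) (fun t : ℝ => t) := ⟨continuousOn_id, fun t ht => ht⟩
  obtain ⟨hC, _, hPP⟩ := hA4.2 ℝ ℂ G (Icc (0 : ℝ) 1) (sphere (0 : ℂ) 1) E ex (fun t : ℝ => t)
    hE hM hid
  obtain ⟨d0, hd0⟩ := hA9.1 ℝ G (Icc (0 : ℝ) 1) _ C8b_contr hC
  have hP := hA9.2 ℝ G (Icc (0 : ℝ) 1) _ d0 _ hC hd0 hid
  obtain ⟨ε, hε, hg⟩ := hd0
  refine ⟨fun s => d0 s * (d0 0)⁻¹, mul_inv_cancel _, ?_, ε, hε, ?_⟩
  · have : PP E ex = d0 0 * (d0 1)⁻¹ := by
      rw [← hP, hPP]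
    rw [this, mul_inv_rev, inv_inv]
  · intro s hs t ht hst
    have h2 := hg s hs t ht hst
    rw [mul_one] at h2
    have h3 : E (ex s) (ex t) = d0 s * (d0 t)⁻¹ := by
      rw [h2, mul_inv_cancel_right]
    rw [h3]
    group

theorem pC8b (hC1 : StC1) (hA4 : StA4) (hA9 : StA9) : StC8b := by
  classical
  intro G _ E E' hE hE' hP
  obtain ⟨d, hd0, hd1, ε1, hε1, hd⟩ := C8b_key hC1 hA4 hA9 E hE
  obtain ⟨d', hd0', hd1', ε2, hε2, hd'⟩ := C8b_key hC1 hA4 hA9 E' hE'
  have hnear := C8b_near hC1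
  obtain ⟨hc, h0, h1, hadd, hnorm, hsurj, hiff, _⟩ := hC1
  have hmaps : ∀ t : ℝ, ex t ∈ sphere (0 : ℂ) 1 := fun t => by
    rw [mem_sphere_zero_iff_norm]; exact hnorm t
  have h11 : d 1 = d' 1 := by
    have := hP
    rw [hd1, hd1'] at this
    exact inv_injective this
  have hτ : ∀ z : ℂ, ∃ t : ℝ, ‖z‖ = 1 → (t ∈ Ico (0 : ℝ) 1 ∧ z = ex t) := by
    intro z
    by_cases hz : ‖z‖ = 1
    · obtain ⟨t, ht, h⟩ := hsurj z hz
      exact ⟨t, fun _ => ⟨ht, h⟩⟩
    · exact ⟨0, fun h => absurd h hz⟩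
  choose τ hτ using hτ
  refine ⟨fun z => d (τ z) * (d' (τ z))⁻¹, ?_, ?_⟩
  · obtain ⟨ht, h⟩ := hτ 1 (by simp)
    have h2 : ex 0 = ex (τ 1) := by rw [h0]; exact h
    obtain ⟨n, hn⟩ := (hiff _ _).1 h2
    have hn0 : n = 0 := by
      have h3 : (n : ℝ) ≤ 0 := by linarith [ht.1]
      have h4 : (-1 : ℝ) < n := by linarith [ht.2]
      have h5 : n ≤ 0 := by exact_mod_cast h3
      have h6 : -1 < n := by exact_mod_cast h4
      omega
    rw [hn0] at hn
    have h3 : τ 1 = 0 := by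
      push_cast at hn
      linarith
    simp only [h3, hd0, hd0', inv_one, mul_one]
  · -- close points
    obtain ⟨e1, he1, hE⟩ := hE
    obtain ⟨e2, he2, hE'⟩ := hE'
    have huc : UniformContinuousOn ex (Icc (0 : ℝ) 1) :=
      isCompact_Icc.uniformContinuousOn_of_continuous hc.continuousOn
    rw [Metric.uniformContinuousOn_iff] at huc
    obtain ⟨δ, hδ, hucδ⟩ := huc (min e1 e2) (lt_min he1 he2)
    set η : ℝ := min (min ε1 ε2) (min δ (1 / 4)) with hη
    have hη0 : 0 < η := by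
      apply lt_min (lt_min hε1 hε2) (lt_min hδ (by norm_num))
    have hη1 : η ≤ ε1 := (min_le_left _ _).trans (min_le_left _ _)
    have hη2 : η ≤ ε2 := (min_le_left _ _).trans (min_le_right _ _)
    have hη3 : η ≤ δ := (min_le_right _ _).trans (min_le_left _ _)
    have hη4 : η ≤ 1 / 4 := (min_le_right _ _).trans (min_le_right _ _)
    refine ⟨min η (min e1 e2), lt_min hη0 (lt_min he1 he2), ?_⟩
    intro z hz w hw hzw
    rw [mem_sphere_zero_iff_norm] at hz hw
    obtain ⟨hs, hzs⟩ := hτ z hz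
    obtain ⟨ht, hwt⟩ := hτ w hw
    show d (τ z) * (d' (τ z))⁻¹ * E' z w = E z w * (d (τ w) * (d' (τ w))⁻¹)
    set s := τ z
    set t := τ w
    have hs' : s ∈ Icc (0 : ℝ) 1 := ⟨hs.1, hs.2.le⟩
    have ht' : t ∈ Icc (0 : ℝ) 1 := ⟨ht.1, ht.2.le⟩
    have h0I : (0 : ℝ) ∈ Icc (0 : ℝ) 1 := ⟨le_refl _, zero_le_one⟩
    have h1I : (1 : ℝ) ∈ Icc (0 : ℝ) 1 := ⟨zero_le_one, le_refl _⟩
    have hzwη : dist z w < η := lt_of_lt_of_le hzw (min_le_left _ _)
    have hzw1 : dist z w < e1 := lt_of_lt_of_le hzw ((min_le_right _ _).trans (min_le_left _ _))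
    have hzw2 : dist z w < e2 := lt_of_lt_of_le hzw ((min_le_right _ _).trans (min_le_right _ _))
    obtain ⟨n, hn⟩ := hnear s t
    rw [← hzs, ← hwt] at hn
    have hn2 : |s - t - n| < η := by
      have : (0 : ℝ) ≤ dist z w := dist_nonneg
      linarith
    have hn3 := abs_lt.1 hn2
    have hnl : (n : ℝ) < 2 := by linarith [hs.2, ht.1]
    have hnr : (-2 : ℝ) < n := by linarith [hs.1, ht.2]
    have hnl' : n < 2 := by exact_mod_cast hnl
    have hnr' : -2 < n := by exact_mod_cast hnr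
    have hcases : n = 0 ∨ n = 1 ∨ n = -1 := by omega
    rcases hcases with h | h | h
    · rw [h] at hn2
      push_cast at hn2
      rw [sub_zero] at hn2
      have hEz := hd s hs' t ht' (lt_of_lt_of_le hn2 hη1)
      have hEz' := hd' s hs' t ht' (lt_of_lt_of_le hn2 hη2)
      rw [← hzs, ← hwt] at hEz hEz'
      rw [hEz, hEz']
      group
    · rw [h] at hn3
      push_cast at hn3
      -- s near 1, t near 0
      have hs1 : |s - 1| < η := by
        rw [abs_lt]; constructor <;> linarith [hs.2, ht.1]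
      have ht1 : |0 - t| < η := by
        rw [abs_lt]; constructor <;> linarith [hs.2, ht.1]
      have hz1 : dist z (ex 1) < min e1 e2 := by
        rw [hzs]
        apply hucδ s hs' 1 h1I
        rw [Real.dist_eq]; exact lt_of_lt_of_le hs1 hη3
      have hA := hE z (by rw [mem_sphere_zero_iff_norm]; exact hz) (ex 1) (hmaps 1) w
        (by rw [mem_sphere_zero_iff_norm]; exact hw) (lt_of_lt_of_le hz1 (min_le_left _ _)) hzw1
      have hA' := hE' z (by rw [mem_sphere_zero_iff_norm]; exact hz) (ex 1) (hmaps 1) w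
        (by rw [mem_sphere_zero_iff_norm]; exact hw) (lt_of_lt_of_le hz1 (min_le_right _ _)) hzw2
      have hB := hd s hs' 1 h1I (lt_of_lt_of_le hs1 hη1)
      have hB' := hd' s hs' 1 h1I (lt_of_lt_of_le hs1 hη2)
      have hC := hd 0 h0I t ht' (lt_of_lt_of_le ht1 hη1)
      have hC' := hd' 0 h0I t ht' (lt_of_lt_of_le ht1 hη2)
      rw [← hzs] at hB hB'
      have h01 : ex 0 = ex 1 := by rw [h0, h1]
      rw [← hwt, h01] at hC hC'
      rw [← hA, ← hA', hB, hB', hC, hC', hd0, hd0', h11]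
      group
    · rw [h] at hn3
      push_cast at hn3
      -- s near 0, t near 1
      have hs1 : |s - 0| < η := by
        rw [abs_lt]; constructor <;> linarith [hs.1, ht.2]
      have ht1 : |1 - t| < η := by
        rw [abs_lt]; constructor <;> linarith [hs.1, ht.2]
      have hz1 : dist z (ex 0) < min e1 e2 := by
        rw [hzs]
        apply hucδ s hs' 0 h0I
        rw [Real.dist_eq]; exact lt_of_lt_of_le hs1 hη3
      have hA := hE z (by rw [mem_sphere_zero_iff_norm]; exact hz) (ex 0) (hmaps 0) w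
        (by rw [mem_sphere_zero_iff_norm]; exact hw) (lt_of_lt_of_le hz1 (min_le_left _ _)) hzw1
      have hA' := hE' z (by rw [mem_sphere_zero_iff_norm]; exact hz) (ex 0) (hmaps 0) w
        (by rw [mem_sphere_zero_iff_norm]; exact hw) (lt_of_lt_of_le hz1 (min_le_right _ _)) hzw2
      have hB := hd s hs' 0 h0I (lt_of_lt_of_le hs1 hη1)
      have hB' := hd' s hs' 0 h0I (lt_of_lt_of_le hs1 hη2)
      have hC := hd 1 h1I t ht' (lt_of_lt_of_le ht1 hη1)
      have hC' := hd' 1 h1I t ht' (lt_of_lt_of_le ht1 hη2)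
      rw [← hzs] at hB hB'
      have h01 : ex 1 = ex 0 := by rw [h0, h1]
      rw [← hwt, h01] at hC hC'
      rw [← hA, ← hA', hB, hB', hC, hC', hd0, hd0', h11]
      group

end Pool.Agent.Helper74.SS
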