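import Pool.Agent.Helper74.SS.St

/-! Project SS, module C9a: cocycles on the wedge of circles, existence. -/

set_option autoImplicit false

open Set Metric Filter Topology

namespace Pool.Agent.Helper74.SS

open Classical in
/-- the value of `u` which is different from `1`, if there is one -/
private noncomputable def sel_C9a {ι G : Type} [Group G] (u : ι → G) : G :=
  if h : ∃ i, u i ≠ 1 then u h.choose else 1

private theorem sel_eq_C9a {ι G : Type} [Group G] (u : ι → G) (k : ι) (h : ∀ l, l ≠ k → u l = 1) :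
    sel_C9a u = u k := by
  unfold sel_C9a
  split_ifs with h'
  · have h1 := h'.choose_spec
    have h2 : h'.choose = k := by
      by_contra hne
      exact h1 (h _ hne)
    rw [h2]
  · push Not at h'
    exact (h' k).symm

private theorem sel_one_C9a {ι G : Type} [Group G] (u : ι → G) (h : ∀ l, u l = 1) :
    sel_C9a u = 1 := by
  unfold sel_C9a
  rw [dif_neg]
  push Not
  exact h

private theorem unif_C9a {ι : Type} [Finite ι] (f : ι → ℝ) (hf : ∀ i, 0 < f i) :
    ∃ ε > 0, ∀ i, ε ≤ f i := by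
  have h1 : ∀ i, ∀ᶠ ε in 𝓝[>] (0 : ℝ), ε ≤ f i := fun i =>
    (eventually_le_nhds (hf i)).filter_mono nhdsWithin_le_nhds
  obtain ⟨ε, h, hε⟩ := ((eventually_all.2 h1).and self_mem_nhdsWithin).exists
  exact ⟨ε, hε, h⟩

private theorem pp_congr_C9a {V V' G : Type} [Group G] (E : V → V → G) (E' : V' → V' → G)
    (γ : ℝ → V) (γ' : ℝ → V') (h : ∀ s t, E (γ s) (γ t) = E' (γ' s) (γ' t)) :
    PP E γ = PP E' γ' := by
  have h1 : pp E γ = pp E' γ' := by
    funext N
    unfold pp
    simp only [h]
  classical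
  let F : (ℕ → G) → G := fun p => if h : ∃ g, ∀ᶠ N in atTop, p N = g then h.choose else 1
  have e1 : PP E γ = F (pp E γ) := by
    unfold PP
    rfl
  have e2 : PP E' γ' = F (pp E' γ') := by
    unfold PP
    rfl
  rw [e1, e2, h1]

theorem pC9a (hC1 : StC1) (hC8a : StC8a) : StC9a := by
  intro ι κ G _ _ _ _ _ g
  obtain ⟨-, h0, -, -, hn, -, -, -⟩ := hC1
  choose Ei hC hP hT using fun i => hC8a G (g i)
  choose εC hεC HC using hC
  choose εT hεT HT using hT
  have h1s : (1 : ℂ) ∈ sphere (0 : ℂ) 1 := by simp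
  have h11 : ∀ i, Ei i 1 1 = 1 := fun i =>
    HT i 1 h1s 1 h1s (by rw [dist_self]; exact hεT i) (by rw [dist_self]; exact hεT i)
  obtain ⟨ε0, hε0, hb⟩ := unif_C9a (fun i => min (εC i) (εT i))
    (fun i => lt_min (hεC i) (hεT i))
  have hb1 : ∀ i, ε0 ≤ εC i := fun i => (hb i).trans (min_le_left _ _)
  have hb2 : ∀ i, ε0 ≤ εT i := fun i => (hb i).trans (min_le_right _ _)
  -- points of the wedge
  have hsph : ∀ x ∈ WW ι κ, ∀ i, x.1 i + 1 ∈ sphere (0 : ℂ) 1 := by
    rintro x (rfl | ⟨k, t, rfl⟩) i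
    · simp
    · by_cases hik : i = k
      · subst hik
        simp [wpt, hn]
      · simp [wpt, hik]
  have hone : ∀ x ∈ WW ι κ, ∀ k, x.1 k ≠ 0 → ∀ l, l ≠ k → x.1 l = 0 := by
    rintro x (rfl | ⟨j, t, rfl⟩) k hk l hl
    · simp
    · by_cases hkj : k = j
      · subst hkj
        simp [wpt, hl]
      · exact absurd (by simp [wpt, hkj]) hk
  have hdist : ∀ x y : Amb ι κ, ∀ k, dist (x.1 k) (y.1 k) ≤ dist x y := by
    intro x y k
    exact (dist_le_pi_dist x.1 y.1 k).trans (by rw [Prod.dist_eq]; exact le_max_left _ _)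
  refine ⟨fun x y => sel_C9a (fun i => Ei i (x.1 i + 1) (y.1 i + 1)), ?_, ?_⟩
  · refine ⟨ε0 / 4, by positivity, fun x hx y hy z hz hxy hxz => ?_⟩
    by_cases hk : ∃ k, ε0 / 2 ≤ ‖x.1 k‖
    · obtain ⟨k, hk⟩ := hk
      have key : ∀ w ∈ WW ι κ, dist x w < ε0 / 4 → ∀ l, l ≠ k → w.1 l = 0 := by
        intro w hw hxw
        apply hone w hw k
        intro h
        have h2 := hdist x w k
        rw [h, dist_zero_right] at h2
        linarith
      have hx0 := key x hx (by rw [dist_self]; positivity)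
      have hy0 := key y hy hxy
      have hz0 := key z hz hxz
      show sel_C9a _ * sel_C9a _ = sel_C9a _
      rw [sel_eq_C9a (fun i => Ei i (x.1 i + 1) (y.1 i + 1)) k
          (fun l hl => by simp only [hx0 l hl, hy0 l hl, zero_add]; exact h11 l),
        sel_eq_C9a (fun i => Ei i (y.1 i + 1) (z.1 i + 1)) k
          (fun l hl => by simp only [hy0 l hl, hz0 l hl, zero_add]; exact h11 l),
        sel_eq_C9a (fun i => Ei i (x.1 i + 1) (z.1 i + 1)) k
          (fun l hl => by simp only [hx0 l hl, hz0 l hl, zero_add]; exact h11 l)]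
      have hd : ∀ w, dist x w < ε0 / 4 → dist (x.1 k + 1) (w.1 k + 1) < εC k := by
        intro w hw
        rw [dist_add_right]
        have := hdist x w k
        have := hb1 k
        linarith
      exact HC k _ (hsph x hx k) _ (hsph y hy k) _ (hsph z hz k) (hd y hxy) (hd z hxz)
    · push Not at hk
      have key : ∀ w, dist x w < ε0 / 4 → ∀ l, dist 1 (w.1 l + 1) < εT l := by
        intro w hxw l
        have h2 := hdist x w l
        have h3 := hk l
        have h4 := hb2 l
        have h5 : dist (1 : ℂ) (w.1 l + 1) = ‖w.1 l‖ := by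
          rw [dist_eq_norm, show (1 : ℂ) - (w.1 l + 1) = -(w.1 l) by ring, norm_neg]
        have h6 : ‖w.1 l‖ ≤ ‖x.1 l‖ + dist (x.1 l) (w.1 l) := by
          rw [dist_eq_norm]
          have := norm_sub_norm_le (w.1 l) (x.1 l)
          rw [norm_sub_rev] at this
          linarith
        rw [h5]
        linarith
      have hx0 := key x (by rw [dist_self]; positivity)
      have hy0 := key y hxy
      have hz0 := key z hxz
      show sel_C9a _ * sel_C9a _ = sel_C9a _
      rw [sel_one_C9a (fun i => Ei i (x.1 i + 1) (y.1 i + 1))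
          (fun l => HT l _ (hsph x hx l) _ (hsph y hy l) (hx0 l) (hy0 l)),
        sel_one_C9a (fun i => Ei i (y.1 i + 1) (z.1 i + 1))
          (fun l => HT l _ (hsph y hy l) _ (hsph z hz l) (hy0 l) (hz0 l)),
        sel_one_C9a (fun i => Ei i (x.1 i + 1) (z.1 i + 1))
          (fun l => HT l _ (hsph x hx l) _ (hsph z hz l) (hx0 l) (hz0 l)), one_mul]
  · intro i
    rw [← hP i]
    apply pp_congr_C9a
    intro s t
    show sel_C9a _ = _
    rw [sel_eq_C9a _ i (fun l hl => by
      simp only [wpt, Pi.single_eq_of_ne hl, zero_add]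
      exact h11 l)]
    simp [wpt]

end Pool.Agent.Helper74.SS
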