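import Pool.Agent.Helper74.SS.St

/-! Project SS, module C9b: uniqueness of cocycles on the wedge of circles. -/

set_option autoImplicit false

open Set Metric Filter Topology

namespace Pool.Agent.Helper74.SS

/-- the embedding of the unit circle as the circle `i` -/
noncomputable def C9bemb {ι : Type} (κ : Type) [DecidableEq ι] (i : ι) (z : ℂ) : Amb ι κ :=
  (Pi.single i (z - 1), 0)

theorem C9b_wpt {ι κ : Type} [DecidableEq ι] (i : ι) (t : ℝ) :
    (wpt i t : Amb ι κ) = C9bemb κ i (ex t) := rfl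

theorem C9b_zero {ι κ : Type} [DecidableEq ι] (i : ι) (h0 : ex 0 = 1) :
    (0 : Amb ι κ) = wpt i 0 := by
  unfold wpt
  rw [h0]
  simp only [sub_self, Pi.single_zero]
  rfl

theorem C9b_dist {ι κ : Type} [Fintype ι] [DecidableEq ι] [Fintype κ] (i : ι) (z w : ℂ) :
    dist (C9bemb κ i z : Amb ι κ) (C9bemb κ i w) = dist z w := by
  unfold C9bemb
  rw [Prod.dist_eq]
  simp only [dist_self]
  rw [max_eq_left dist_nonneg]
  apply le_antisymm
  · rw [dist_pi_le_iff dist_nonneg]
    intro j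
    by_cases hj : j = i
    · subst hj
      simp
    · simp [Pi.single_eq_of_ne hj]
  · have := dist_le_pi_dist (Pi.single i (z - 1) : ι → ℂ) (Pi.single i (w - 1)) i
    simpa using this

theorem C9b_dist0 {ι κ : Type} [Fintype ι] [DecidableEq ι] [Fintype κ] {i k : ι} (hik : i ≠ k)
    (z w : ℂ) :
    dist (C9bemb κ i z : Amb ι κ) (C9bemb κ i 1) ≤ dist (C9bemb κ i z : Amb ι κ) (C9bemb κ k w) := by
  rw [C9b_dist]
  have h1 := dist_le_pi_dist (Pi.single i (z - 1) : ι → ℂ) (Pi.single k (w - 1)) i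
  rw [Pi.single_eq_same, Pi.single_eq_of_ne hik, dist_zero_right, ← dist_eq_norm] at h1
  refine h1.trans ?_
  unfold C9bemb
  rw [Prod.dist_eq]
  exact le_max_left _ _

theorem pC9b (hC1 : StC1) (hC8b : StC8b) (hA4 : StA4) : StC9b := by
  classical
  intro ι κ G _ _ _ _ _ E E' hE hE' hPP
  obtain ⟨hexc, hex0, -, -, hexn, hexs, -, -⟩ := hC1
  -- the maps of the circle
  have hmor : ∀ i : ι, Mor (sphere (0 : ℂ) 1) (WW ι κ) (C9bemb κ i) := by
    intro i
    constructor
    · rw [Metric.uniformContinuousOn_iff]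
      intro ε hε
      refine ⟨ε, hε, fun x _ y _ hxy => ?_⟩
      rw [C9b_dist]
      exact hxy
    · intro z hz
      obtain ⟨t, -, rfl⟩ := hexs z (by simpa using hz)
      exact Or.inr ⟨i, t, rfl⟩
  have hpath : IsPath (sphere (0 : ℂ) 1) ex := by
    refine ⟨hexc.continuousOn, fun t _ => ?_⟩
    simp [hexn t]
  have hci : ∀ i : ι, ∃ c : ℂ → G, c 1 = 1 ∧
      Gau (sphere (0 : ℂ) 1) c (fun x y => E (C9bemb κ i x) (C9bemb κ i y))
        (fun x y => E' (C9bemb κ i x) (C9bemb κ i y)) := by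
    intro i
    obtain ⟨h1, -, h3⟩ := hA4.2 ℂ (Amb ι κ) G (sphere 0 1) (WW ι κ) E (C9bemb κ i) ex hE (hmor i)
      hpath
    obtain ⟨h1', -, h3'⟩ := hA4.2 ℂ (Amb ι κ) G (sphere 0 1) (WW ι κ) E' (C9bemb κ i) ex hE'
      (hmor i) hpath
    refine hC8b G _ _ h1 h1' ?_
    rw [h3, h3']
    exact hPP i
  choose ci hci1 hciG using hci
  have hG : ∃ ε > 0, ∀ i : ι, ∀ x ∈ sphere (0 : ℂ) 1, ∀ y ∈ sphere (0 : ℂ) 1, dist x y < ε →
      ci i x * E' (C9bemb κ i x) (C9bemb κ i y) = E (C9bemb κ i x) (C9bemb κ i y) * ci i y := by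
    choose εi hεi hεG using hciG
    by_cases hne : Nonempty ι
    · refine ⟨Finset.univ.inf' Finset.univ_nonempty εi, ?_, ?_⟩
      · rw [gt_iff_lt, Finset.lt_inf'_iff]
        intro i _
        exact hεi i
      · intro i x hx y hy hxy
        exact hεG i x hx y hy (hxy.trans_le (Finset.inf'_le _ (Finset.mem_univ i)))
    · exact ⟨1, one_pos, fun i => absurd ⟨i⟩ hne⟩
  obtain ⟨ε1, hε1, hG⟩ := hG
  obtain ⟨ε2, hε2, hE2⟩ := hE
  obtain ⟨ε3, hε3, hE3⟩ := hE'
  -- the gauge transformation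
  let c : Amb ι κ → G := fun x => if h : ∃ i, x.1 i ≠ 0 then ci h.choose (x.1 h.choose + 1) else 1
  have hc0 : c 0 = 1 := by
    show (if h : ∃ i, (0 : Amb ι κ).1 i ≠ 0 then _ else (1 : G)) = 1
    rw [dif_neg]
    rintro ⟨i, hi⟩
    exact hi rfl
  have hc : ∀ (i : ι) (t : ℝ), c (wpt i t) = ci i (ex t) := by
    intro i t
    by_cases h1 : ex t = 1
    · have : (wpt i t : Amb ι κ) = 0 := by
        unfold wpt
        rw [h1]
        simp
      rw [this, hc0, h1, hci1]
    · have hx : ∀ j, (wpt i t : Amb ι κ).1 j ≠ 0 → j = i := by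
        intro j hj
        by_contra hji
        apply hj
        show (Pi.single i (ex t - 1) : ι → ℂ) j = 0
        exact Pi.single_eq_of_ne hji _
      have hex : ∃ j, (wpt i t : Amb ι κ).1 j ≠ 0 := by
        refine ⟨i, ?_⟩
        show (Pi.single i (ex t - 1) : ι → ℂ) i ≠ 0
        rw [Pi.single_eq_same]
        exact sub_ne_zero.mpr h1
      have hch := hx _ hex.choose_spec
      show (if h : ∃ j, (wpt i t : Amb ι κ).1 j ≠ 0 then
        ci h.choose ((wpt i t : Amb ι κ).1 h.choose + 1) else 1) = _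
      rw [dif_pos hex, hch]
      congr 1
      show (Pi.single i (ex t - 1) : ι → ℂ) i + 1 = ex t
      rw [Pi.single_eq_same]
      ring
  -- same circle
  have hsame : ∀ (i : ι) (s t : ℝ), dist (wpt i s : Amb ι κ) (wpt i t) < ε1 →
      c (wpt i s) * E' (wpt i s) (wpt i t) = E (wpt i s) (wpt i t) * c (wpt i t) := by
    intro i s t hst
    rw [hc, hc]
    refine hG i (ex s) (by simp [hexn]) (ex t) (by simp [hexn]) ?_
    rw [← C9b_dist (κ := κ) i]
    exact hst
  have hmem0 : (0 : Amb ι κ) ∈ WW ι κ := Or.inl rfl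
  have hE00 : E 0 0 = 1 := by
    have h := hE2 0 hmem0 0 hmem0 0 hmem0 (by simpa using hε2) (by simpa using hε2)
    exact mul_eq_left.mp h
  have hE00' : E' 0 0 = 1 := by
    have h := hE3 0 hmem0 0 hmem0 0 hmem0 (by simpa using hε3) (by simpa using hε3)
    exact mul_eq_left.mp h
  refine ⟨c, hc0, min ε1 (min ε2 ε3), lt_min hε1 (lt_min hε2 hε3), ?_⟩
  intro x hx y hy hxy
  have hxy1 : dist x y < ε1 := hxy.trans_le (min_le_left _ _)
  have hxy2 : dist x y < ε2 := hxy.trans_le ((min_le_right _ _).trans (min_le_left _ _))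
  have hxy3 : dist x y < ε3 := hxy.trans_le ((min_le_right _ _).trans (min_le_right _ _))
  rcases hx with rfl | ⟨i, s, rfl⟩
  · rcases hy with rfl | ⟨k, t, rfl⟩
    · rw [hE00, hE00']
      simp
    · rw [C9b_zero k hex0] at hxy1 ⊢
      exact hsame k 0 t hxy1
  · rcases hy with rfl | ⟨k, t, rfl⟩
    · rw [C9b_zero i hex0] at hxy1 ⊢
      exact hsame i s 0 hxy1
    · by_cases hik : i = k
      · subst hik
        exact hsame i s t hxy1
      · have h0i : (0 : Amb ι κ) = C9bemb κ i 1 := by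
          unfold C9bemb
          simp only [sub_self, Pi.single_zero]
          rfl
        have h0k : (0 : Amb ι κ) = C9bemb κ k 1 := by
          unfold C9bemb
          simp only [sub_self, Pi.single_zero]
          rfl
        have hd1 : dist (wpt i s : Amb ι κ) 0 ≤ dist (wpt i s : Amb ι κ) (wpt k t) := by
          rw [h0i]
          exact C9b_dist0 hik (ex s) (ex t)
        have hd2 : dist (0 : Amb ι κ) (wpt k t) ≤ dist (wpt i s : Amb ι κ) (wpt k t) := by
          rw [h0k, dist_comm, dist_comm (wpt i s : Amb ι κ)]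
          exact C9b_dist0 (Ne.symm hik) (ex t) (ex s)
        have hxm : (wpt i s : Amb ι κ) ∈ WW ι κ := Or.inr ⟨i, s, rfl⟩
        have hym : (wpt k t : Amb ι κ) ∈ WW ι κ := Or.inr ⟨k, t, rfl⟩
        have e1 := hE2 _ hxm _ hmem0 _ hym (hd1.trans_lt hxy2) hxy2
        have e2 := hE3 _ hxm _ hmem0 _ hym (hd1.trans_lt hxy3) hxy3
        have e3 : c (wpt i s) * E' (wpt i s) 0 = E (wpt i s) 0 * c 0 := by
          have h := hsame i s 0 (by rw [← C9b_zero i hex0]; exact hd1.trans_lt hxy1)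
          rw [← C9b_zero i hex0] at h
          exact h
        have e4 : c 0 * E' 0 (wpt k t) = E 0 (wpt k t) * c (wpt k t) := by
          have h := hsame k 0 t (by rw [← C9b_zero k hex0]; exact hd2.trans_lt hxy1)
          rw [← C9b_zero k hex0] at h
          exact h
        rw [← e1, ← e2, ← mul_assoc, e3, mul_assoc, e4, mul_assoc]

end Pool.Agent.Helper74.SS
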