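import Pool.Agent.Helper74.SS.St

/-! Project SS: D1. -/

set_option autoImplicit false

open Set Metric Filter Topology

namespace Pool.Agent.Helper74.SS

private theorem coc_mono_D1 {V G : Type} [PseudoMetricSpace V] [Group G] {S T : Set V}
    {E : V → V → G} (h : Coc T E) (hST : S ⊆ T) : Coc S E := by
  obtain ⟨ε, hε, h⟩ := h
  exact ⟨ε, hε, fun x hx y hy z hz => h x (hST hx) y (hST hy) z (hST hz)⟩

private theorem lift_mk_D1 {ι G : Type} [Group G] (a : ι → G) (w : Wd ι) :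
    FreeGroup.lift a (FreeGroup.mk w) = wev a w := by
  rw [FreeGroup.lift_mk, wev]
  congr 1
  refine List.map_congr_left fun x _ => ?_
  rcases x with ⟨i, b⟩
  cases b <;> rfl

theorem pD1 (h9 : StA9) : StD1 := by
  intro ι κ V G _ _ _ R g E hE
  have hrel : ∀ j, wev (fun i => PP E (g.wp i)) (R j) = 1 := by
    intro j
    have hB : Coc (g.B j) E := coc_mono_D1 hE (g.BX j)
    obtain ⟨d, hd⟩ := h9.1 V G (g.B j) E (g.Bcon j) hB
    obtain ⟨⟨hc, hm⟩, hl⟩ := g.lamP j
    have h1 := h9.2 V G (g.B j) E d (g.lam j) hB hd ⟨hc, fun t ht => (hm ht).2⟩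
    rw [hl, mul_inv_cancel] at h1
    rw [← g.Arel G E (coc_mono_D1 hE g.AX) j, h1, mul_one, mul_inv_cancel]
  refine ⟨PresentedGroup.toGroup (f := fun i => PP E (g.wp i)) ?_, fun i =>
    PresentedGroup.toGroup.of _⟩
  rintro _ ⟨j, rfl⟩
  rw [lift_mk_D1]
  exact hrel j

end Pool.Agent.Helper74.SS
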