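import Pool.Agent.Helper74.SS.St

/-! Project SS: D2. -/

set_option autoImplicit false

open Set Metric Filter Topology

namespace Pool.Agent.Helper74.SS

private theorem coc_mono_D2 {V G : Type} [PseudoMetricSpace V] [Group G] {S T : Set V}
    {E : V → V → G} (h : Coc T E) (hST : S ⊆ T) : Coc S E := by
  obtain ⟨ε, hε, h⟩ := h
  exact ⟨ε, hε, fun x hx y hy z hz => h x (hST hx) y (hST hy) z (hST hz)⟩

private theorem min_D2 {κ : Type} [Finite κ] (f : κ → ℝ) (hf : ∀ j, 0 < f j) (δ : ℝ)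
    (hδ : 0 < δ) : ∃ ε > 0, ε ≤ δ ∧ ∀ j, ε ≤ f j := by
  have h1 : ∀ᶠ ε in 𝓝[>] (0 : ℝ), ε ≤ δ ∧ ∀ j, ε ≤ f j := by
    refine Filter.Eventually.and ?_ (Filter.eventually_all.2 fun j => ?_)
    · exact (Ioc_mem_nhdsGT hδ : Set.Ioc (0 : ℝ) δ ∈ 𝓝[>] (0 : ℝ)) |> fun h =>
        Filter.mem_of_superset h fun x hx => hx.2
    · exact (Ioc_mem_nhdsGT (hf j) : Set.Ioc (0 : ℝ) (f j) ∈ 𝓝[>] (0 : ℝ)) |> fun h =>
        Filter.mem_of_superset h fun x hx => hx.2
  obtain ⟨ε, h2, h3⟩ := (h1.and self_mem_nhdsWithin).exists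
  exact ⟨ε, h3, h2⟩

theorem pD2 (h3 : StA3) : StD2 := by
  intro ι κ V G _ _ _ R g a ha
  classical
  obtain ⟨E0, hE0, hE0a⟩ := g.Aex G a
  have hlam : ∀ j, PP E0 (g.lam j) = 1 := by
    intro j
    have h1 := g.Arel G E0 hE0 j
    rw [show (fun i => PP E0 (g.wp i)) = a from funext hE0a, ha j, conj_eq_one_iff] at h1
    exact h1
  have hN : ∀ j, ∃ d : V → G, Gau (g.A ∩ g.B j) d E0 (fun _ _ => 1) := fun j =>
    g.Ntriv j G E0 (coc_mono_D2 hE0 inter_subset_left) (hlam j)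
  choose d r hr hd using hN
  let E : V → V → G := fun x y => if x ∈ g.A ∧ y ∈ g.A then E0 x y else
    if h : ∃ j, x ∈ g.B j ∧ y ∈ g.B j then d h.choose x * (d h.choose y)⁻¹ else 1
  have hEA : ∀ x ∈ g.A, ∀ y ∈ g.A, E x y = E0 x y := fun x hx y hy => if_pos ⟨hx, hy⟩
  have hEB : ∀ j, ∀ x ∈ g.B j, ∀ y ∈ g.B j, dist x y < r j → E x y = d j x * (d j y)⁻¹ := by
    intro j x hx y hy hxy
    by_cases hA : x ∈ g.A ∧ y ∈ g.A
    · rw [hEA x hA.1 y hA.2]
      have h1 := hd j x ⟨hA.1, hx⟩ y ⟨hA.2, hy⟩ hxy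
      rw [mul_one] at h1
      rw [h1, mul_inv_cancel_right]
    · have h : ∃ j, x ∈ g.B j ∧ y ∈ g.B j := ⟨j, hx, hy⟩
      have h1 : E x y = d h.choose x * (d h.choose y)⁻¹ := by
        change (if x ∈ g.A ∧ y ∈ g.A then E0 x y else
          if h : ∃ j, x ∈ g.B j ∧ y ∈ g.B j then d h.choose x * (d h.choose y)⁻¹ else 1) = _
        rw [if_neg hA, dif_pos h]
      have h2 : h.choose = j := by
        by_contra hne
        exact Set.disjoint_left.1 (g.disj _ _ hne) h.choose_spec.1 hx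
      rw [h1, h2]
  obtain ⟨δ, hδ, hleb⟩ := g.leb
  obtain ⟨ε0, hε0, hE0c⟩ := hE0
  obtain ⟨ε, hε, hεδ, hεr⟩ := min_D2 (fun j => r j / 2) (fun j => half_pos (hr j)) (min δ ε0)
    (lt_min hδ hε0)
  refine ⟨E, ⟨ε, hε, fun x hx y hy z hz hxy hxz => ?_⟩, fun i => ?_⟩
  · rcases hleb x hx with h | ⟨j, h⟩
    · have hxA := h x hx (by rw [dist_self]; exact hδ)
      have hyA := h y hy (hxy.trans_le (hεδ.trans (min_le_left _ _)))
      have hzA := h z hz (hxz.trans_le (hεδ.trans (min_le_left _ _)))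
      rw [hEA x hxA y hyA, hEA y hyA z hzA, hEA x hxA z hzA]
      exact hE0c x hxA y hyA z hzA (hxy.trans_le (hεδ.trans (min_le_right _ _)))
        (hxz.trans_le (hεδ.trans (min_le_right _ _)))
    · have hxB := h x hx (by rw [dist_self]; exact hδ)
      have hyB := h y hy (hxy.trans_le (hεδ.trans (min_le_left _ _)))
      have hzB := h z hz (hxz.trans_le (hεδ.trans (min_le_left _ _)))
      have hj := hεr j
      have hyz : dist y z < r j := by
        have h1 := dist_triangle y x z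
        rw [dist_comm y x] at h1
        linarith
      rw [hEB j x hxB y hyB (by have := hr j; linarith), hEB j y hyB z hzB hyz,
        hEB j x hxB z hzB (by have := hr j; linarith)]
      group
  · have h1 := (h3 V G g.A E0 ⟨ε0, hε0, hE0c⟩).2.2.2.2.2 E (g.wp i)
      ⟨1, one_pos, fun x hx y hy _ => (hEA x hx y hy).symm⟩ (g.wpP i).1
    rw [h1.2, hE0a]

end Pool.Agent.Helper74.SS
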