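import Pool.Agent.Helper74.SS.St

/-! Project SS: D3. -/

set_option autoImplicit false

open Set Metric Filter Topology

namespace Pool.Agent.Helper74.SS

private theorem coc_mono_D3 {V G : Type} [PseudoMetricSpace V] [Group G] {S T : Set V}
    {E : V → V → G} (h : Coc T E) (hST : S ⊆ T) : Coc S E := by
  obtain ⟨ε, hε, h⟩ := h
  exact ⟨ε, hε, fun x hx y hy z hz => h x (hST hx) y (hST hy) z (hST hz)⟩

private theorem min_D3 {κ : Type} [Finite κ] (f : κ → ℝ) (hf : ∀ j, 0 < f j) (δ : ℝ)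
    (hδ : 0 < δ) : ∃ ε > 0, ε ≤ δ ∧ ∀ j, ε ≤ f j := by
  have h1 : ∀ᶠ ε in 𝓝[>] (0 : ℝ), ε ≤ δ ∧ ∀ j, ε ≤ f j := by
    refine Filter.Eventually.and ?_ (Filter.eventually_all.2 fun j => ?_)
    · exact (Ioc_mem_nhdsGT hδ : Set.Ioc (0 : ℝ) δ ∈ 𝓝[>] (0 : ℝ)) |> fun h =>
        Filter.mem_of_superset h fun x hx => hx.2
    · exact (Ioc_mem_nhdsGT (hf j) : Set.Ioc (0 : ℝ) (f j) ∈ 𝓝[>] (0 : ℝ)) |> fun h =>
        Filter.mem_of_superset h fun x hx => hx.2
  obtain ⟨ε, h2, h3⟩ := (h1.and self_mem_nhdsWithin).exists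
  exact ⟨ε, h3, h2⟩

theorem pD3 (h9 : StA9) (h10 : StA10) : StD3 := by
  intro ι κ V G _ _ _ R g E E' hE hE' hval
  classical
  obtain ⟨c, hco, hc⟩ := g.Auniq G E E' (coc_mono_D3 hE g.AX) (coc_mono_D3 hE' g.AX) hval
  have hB : ∀ j, ∃ d : V → G, Gau (g.B j) d E (fun _ _ => 1) := fun j =>
    h9.1 V G (g.B j) E (g.Bcon j) (coc_mono_D3 hE (g.BX j))
  have hB' : ∀ j, ∃ d : V → G, Gau (g.B j) d E' (fun _ _ => 1) := fun j =>
    h9.1 V G (g.B j) E' (g.Bcon j) (coc_mono_D3 hE' (g.BX j))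
  choose d r hr hd using hB
  choose d' r' hr' hd' using hB'
  obtain ⟨ε0, hε0, hc⟩ := hc
  have hEd : ∀ j, ∀ x ∈ g.B j, ∀ y ∈ g.B j, dist x y < r j → E x y = d j x * (d j y)⁻¹ := by
    intro j x hx y hy hxy
    have h1 := hd j x hx y hy hxy
    rw [mul_one] at h1
    rw [h1, mul_inv_cancel_right]
  have hEd' : ∀ j, ∀ x ∈ g.B j, ∀ y ∈ g.B j, dist x y < r' j →
      E' x y = d' j x * (d' j y)⁻¹ := by
    intro j x hx y hy hxy
    have h1 := hd' j x hx y hy hxy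
    rw [mul_one] at h1
    rw [h1, mul_inv_cancel_right]
  let k : κ → G := fun j => (d j (g.lam j 0))⁻¹ * c (g.lam j 0) * d' j (g.lam j 0)
  have hk : ∀ j, ∀ x ∈ g.A ∩ g.B j, c x = d j x * k j * (d' j x)⁻¹ := by
    intro j x hx
    obtain ⟨γ, hγ, hγ0, hγ1⟩ := g.Nconn j x hx
    have h1 := h10 V G (g.A ∩ g.B j) (fun x => (d j x)⁻¹ * c x * d' j x) γ
      ⟨min ε0 (min (r j) (r' j)), lt_min hε0 (lt_min (hr j) (hr' j)), fun x hx y hy hxy => by
        have h2 := hc x hx.1 y hy.1 (hxy.trans_le (min_le_left _ _))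
        rw [hEd j x hx.2 y hy.2 (hxy.trans_le ((min_le_right _ _).trans (min_le_left _ _))),
          hEd' j x hx.2 y hy.2 (hxy.trans_le ((min_le_right _ _).trans (min_le_right _ _)))] at h2
        have h3 : (d j x)⁻¹ * (c x * (d' j x * (d' j y)⁻¹)) * d' j y =
            (d j x)⁻¹ * (d j x * (d j y)⁻¹ * c y) * d' j y := by rw [h2]
        simp only [mul_assoc, inv_mul_cancel, mul_one, inv_mul_cancel_left] at h3 ⊢
        exact h3⟩ hγ
    simp only [hγ0, hγ1] at h1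
    change k j = _ at h1
    rw [h1]
    group
  let c' : V → G := fun x => if x ∈ g.A then c x else
    if h : ∃ j, x ∈ g.B j then d h.choose x * k h.choose * (d' h.choose x)⁻¹ else 1
  have hcA : ∀ x ∈ g.A, c' x = c x := fun x hx => if_pos hx
  have hcB : ∀ j, ∀ x ∈ g.B j, c' x = d j x * k j * (d' j x)⁻¹ := by
    intro j x hx
    by_cases hA : x ∈ g.A
    · rw [hcA x hA, hk j x ⟨hA, hx⟩]
    · have h : ∃ j, x ∈ g.B j := ⟨j, hx⟩
      have h1 : c' x = d h.choose x * k h.choose * (d' h.choose x)⁻¹ := by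
        change (if x ∈ g.A then c x else
          if h : ∃ j, x ∈ g.B j then d h.choose x * k h.choose * (d' h.choose x)⁻¹ else 1) = _
        rw [if_neg hA, dif_pos h]
      have h2 : h.choose = j := by
        by_contra hne
        exact Set.disjoint_left.1 (g.disj _ _ hne) h.choose_spec hx
      rw [h1, h2]
  obtain ⟨δ, hδ, hleb⟩ := g.leb
  obtain ⟨ε, hε, hεδ, hεr⟩ := min_D3 (fun j => min (r j) (r' j))
    (fun j => lt_min (hr j) (hr' j)) (min δ ε0) (lt_min hδ hε0)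
  refine ⟨c', by rw [hcA g.o g.oA, hco], ε, hε, fun x hx y hy hxy => ?_⟩
  rcases hleb x hx with h | ⟨j, h⟩
  · have hxA := h x hx (by rw [dist_self]; exact hδ)
    have hyA := h y hy (hxy.trans_le (hεδ.trans (min_le_left _ _)))
    rw [hcA x hxA, hcA y hyA]
    exact hc x hxA y hyA (hxy.trans_le (hεδ.trans (min_le_right _ _)))
  · have hxB := h x hx (by rw [dist_self]; exact hδ)
    have hyB := h y hy (hxy.trans_le (hεδ.trans (min_le_left _ _)))
    rw [hcB j x hxB, hcB j y hyB,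
      hEd j x hxB y hyB (hxy.trans_le ((hεr j).trans (min_le_left _ _))),
      hEd' j x hxB y hyB (hxy.trans_le ((hεr j).trans (min_le_right _ _)))]
    group

end Pool.Agent.Helper74.SS
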