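import Pool.Agent.Helper74.SS.St

/-! Project SS, module E1: every 2-cocycle is represented by a cellular cochain. -/

set_option autoImplicit false

open Set Metric Filter Topology

namespace Pool.Agent.Helper74.SS

theorem pE1 (hB5 : StB5) : StE1 := by
  intro ι κ V K _ _ _ R g e ω he hω
  have hCoc : ∀ T : Set V, T ⊆ g.X → Coc T e := by
    intro T hT
    obtain ⟨ε, hε, H⟩ := he
    exact ⟨ε, hε, fun x hx y hy z hz => H x (hT hx) y (hT hy) z (hT hz)⟩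
  have hZ2 : ∀ T : Set V, T ⊆ g.X → Z2 T e ω := by
    intro T hT
    obtain ⟨ε, hε, H⟩ := hω
    exact ⟨ε, hε, fun w hw x hx y hy z hz => H w (hT hw) x (hT hx) y (hT hy) z (hT hz)⟩
  obtain ⟨η, hη⟩ := g.AH2 K e ω (hCoc g.A g.AX) (hZ2 g.A g.AX)
  have hB : ∀ j, ∃ ψ : V → V → K, Nr3 (g.B j) ω (d1 e ψ) := fun j =>
    hB5 V K (g.B j) e ω (g.Bcon j) (hCoc (g.B j) (g.BX j)) (hZ2 (g.B j) (g.BX j))
  choose ψ hψ using hB
  exact ⟨fun j => ((PP e (g.rad j) : Kˣ) : K) * integ e (fun x y => ψ j x y - η x y) (g.lam j),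
    η, ψ, hη, hψ, fun _ => rfl⟩

end Pool.Agent.Helper74.SS
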