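import Pool.Agent.Helper74.SS.St

/-!
# SS module E3: a representative may be changed by a coboundary
-/

set_option autoImplicit false

open Set Metric Filter Topology

namespace Pool.Agent.Helper74.SS

theorem Coc_mono_E3 {V G : Type} [PseudoMetricSpace V] [Group G] {S T : Set V} (h : S ⊆ T)
    {E : V → V → G} (hE : Coc T E) : Coc S E := by
  obtain ⟨ε, hε, hh⟩ := hE
  exact ⟨ε, hε, fun x hx y hy z hz => hh x (h hx) y (h hy) z (h hz)⟩

theorem IsPath_mono_E3 {V : Type} [PseudoMetricSpace V] {S T : Set V} (h : S ⊆ T)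
    {γ : ℝ → V} (hγ : IsPath S γ) : IsPath T γ :=
  ⟨hγ.1, fun t ht => h (hγ.2 ht)⟩

theorem Nr3_mono_E3 {V B : Type} [PseudoMetricSpace V] {S T : Set V} (h : S ⊆ T)
    {ω ω' : V → V → V → B} (hE : Nr3 T ω ω') : Nr3 S ω ω' := by
  obtain ⟨ε, hε, hh⟩ := hE
  exact ⟨ε, hε, fun x hx y hy z hz => hh x (h hx) y (h hy) z (h hz)⟩

theorem pE3 (hB1 : StB1) (hB7 : StB7) (hA3 : StA3) (hA4 : StA4) (hA5 : StA5) (hA6 : StA6) :
    StE3 := by
  intro ι κ V K _ _ _ R g e ω c b he hω hRep hBd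
  obtain ⟨η, ψ, hη, hψ, hc⟩ := hRep
  obtain ⟨m, hm⟩ := hBd
  have heA : Coc g.A e := Coc_mono_E3 g.AX he
  -- step 1
  obtain ⟨Et, hEt, hPt⟩ := g.Aex (Aff K) fun i => ⟨m i, PP e (g.wp i)⟩
  -- step 2
  have hu : Coc g.A (fun x y => Aff.uHom K (Et x y)) ∧
      ∀ i, PP (fun x y => Aff.uHom K (Et x y)) (g.wp i) = PP e (g.wp i) := by
    constructor
    · by_cases hι : Nonempty ι
      · obtain ⟨i⟩ := hι
        exact (hA4.1 V (Aff K) Kˣ g.A Et (Aff.uHom K) (g.wp i) hEt (g.wpP i).1).1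
      · obtain ⟨ε, hε, hh⟩ := hEt
        refine ⟨ε, hε, fun x hx y hy z hz h1 h2 => ?_⟩
        rw [← map_mul, hh x hx y hy z hz h1 h2]
    · intro i
      rw [(hA4.1 V (Aff K) Kˣ g.A Et (Aff.uHom K) (g.wp i) hEt (g.wpP i).1).2, hPt i]
      rfl
  obtain ⟨c0, hc0, hgau⟩ := g.Auniq Kˣ e (fun x y => Aff.uHom K (Et x y)) heA hu.1
    fun i => (hu.2 i).symm
  -- step 3
  let C : V → Aff K := fun x => ⟨0, c0 x⟩
  let E2 : V → V → Aff K := fun x y => C x * Et x y * (C y)⁻¹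
  have hG1 : Gau g.A C E2 Et := by
    refine ⟨1, one_pos, fun x _ y _ _ => ?_⟩
    show C x * Et x y = C x * Et x y * (C y)⁻¹ * C y
    rw [inv_mul_cancel_right]
  have hG2 := hA6.2.1 V (Aff K) g.A C E2 Et hG1
  have hCo : C g.o = 1 := by
    show (⟨0, c0 g.o⟩ : Aff K) = 1
    rw [hc0]
    rfl
  have hE2 : Coc g.A E2 := by
    have h5 := hA5 V (Aff K) g.A (fun x => (C x)⁻¹) Et E2 (fun _ => g.o) hEt hG2
      ⟨continuousOn_const, fun _ _ => g.oA⟩
    exact h5.1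
  have hPE2 : ∀ i, PP E2 (g.wp i) = ⟨m i, PP e (g.wp i)⟩ := by
    intro i
    have h5 := (hA5 V (Aff K) g.A (fun x => (C x)⁻¹) Et E2 (g.wp i) hEt hG2 (g.wpP i).1).2
    rw [(g.wpP i).2.1, (g.wpP i).2.2, hCo, inv_one, one_mul, mul_one, hPt i] at h5
    exact h5
  let ze : V → V → K := fun x y => (E2 x y).m
  have hNr : Nr2 g.A E2 (fun x y => (⟨ze x y, e x y⟩ : Aff K)) := by
    obtain ⟨ε, hε, hh⟩ := hgau
    refine ⟨ε, hε, fun x hx y hy hxy => ?_⟩
    have h := hh x hx y hy hxy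
    apply Aff.ext
    · rfl
    · show (E2 x y).u = e x y
      have : (E2 x y).u = c0 x * Aff.uHom K (Et x y) * (c0 y)⁻¹ := rfl
      rw [this, h, mul_inv_cancel_right]
  have hz : ∀ γ : ℝ → V, IsPath g.A γ → Coc g.A (fun x y => (⟨ze x y, e x y⟩ : Aff K)) ∧
      PP (fun x y => (⟨ze x y, e x y⟩ : Aff K)) γ = PP E2 γ := fun γ hγ =>
    (hA3 V (Aff K) g.A E2 hE2).2.2.2.2.2 _ γ hNr hγ
  have hcz : Coc g.A (fun x y => (⟨ze x y, e x y⟩ : Aff K)) :=
    (hz (fun _ => g.o) ⟨continuousOn_const, fun _ _ => g.oA⟩).1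
  have hZ1 : Z1 g.A e ze := ((hB1 V K g.A e heA).2.2.2.2.2.2 ze).2 hcz
  -- step 4
  refine ⟨fun x y => η x y - ze x y, ψ, ?_, hψ, ?_⟩
  · obtain ⟨ε, hε, hh⟩ := hη
    obtain ⟨ε', hε', hh'⟩ := hZ1
    refine ⟨min ε ε', lt_min hε hε', fun x hx y hy z hz' h1 h2 => ?_⟩
    rw [hh x hx y hy z hz' (lt_of_lt_of_le h1 (min_le_left _ _))
      (lt_of_lt_of_le h2 (min_le_left _ _))]
    have h0 := hh' x hx y hy z hz' (lt_of_lt_of_le h1 (min_le_right _ _))
      (lt_of_lt_of_le h2 (min_le_right _ _))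
    simp only [d1] at h0 ⊢
    linear_combination h0
  · intro j
    have hAB : g.A ∩ g.B j ⊆ g.A := inter_subset_left
    have hAB' : g.A ∩ g.B j ⊆ g.B j := inter_subset_right
    have heAB : Coc (g.A ∩ g.B j) e := Coc_mono_E3 hAB heA
    have hlam := (g.lamP j).1
    have hd : Z1 (g.A ∩ g.B j) e (fun x y => ψ j x y - η x y) := by
      obtain ⟨ε, hε, hh⟩ := hη
      obtain ⟨ε', hε', hh'⟩ := hψ j
      refine ⟨min ε ε', lt_min hε hε', fun x hx y hy z hz' h1 h2 => ?_⟩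
      have e1 := hh x hx.1 y hy.1 z hz'.1 (lt_of_lt_of_le h1 (min_le_left _ _))
        (lt_of_lt_of_le h2 (min_le_left _ _))
      have e2 := hh' x hx.2 y hy.2 z hz'.2 (lt_of_lt_of_le h1 (min_le_right _ _))
        (lt_of_lt_of_le h2 (min_le_right _ _))
      simp only [d1] at e1 e2 ⊢
      linear_combination e1 - e2
    have hZ1' : Z1 (g.A ∩ g.B j) e ze := Nr3_mono_E3 hAB hZ1
    have hlin := ((hB7 V K (g.A ∩ g.B j) e (g.lam j) heAB hlam).2.1
      (fun x y => ψ j x y - η x y) ze 1 hd hZ1').2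
    have hfun : (fun x y => ψ j x y - (η x y - ze x y)) =
        fun x y => (fun x y => ψ j x y - η x y) x y + 1 * ze x y := by
      funext x y
      ring
    rw [hfun, hlin, mul_add, ← hc j, one_mul]
    show c j + b j = _
    rw [hm j]
    congr 1
    -- the relation
    have hrad := (g.radP j).1
    have hlamA : IsPath g.A (g.lam j) := IsPath_mono_E3 hAB hlam
    have hrel := g.Arel (Aff K) _ hcz j
    have h1 := (hB7 V K g.A e (g.rad j) heA hrad).1 ze hZ1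
    have h2 := (hB7 V K g.A e (g.lam j) heA hlamA).1 ze hZ1
    have h3 : PP e (g.lam j) = 1 := by
      have hBj : Coc (g.B j) e := Coc_mono_E3 (g.BX j) he
      refine ((hB7 V K (g.B j) e (g.lam j) hBj (IsPath_mono_E3 hAB' hlam)).2.2.2.2.1
        (fun _ _ => 0) (g.Bcon j) ⟨1, one_pos, fun x _ y _ z _ _ _ => ?_⟩
        (g.lamP j).2.symm).2
      simp [d1]
    have h4 : (fun i => PP (fun x y => (⟨ze x y, e x y⟩ : Aff K)) (g.wp i)) =
        fun i => (⟨m i, PP e (g.wp i)⟩ : Aff K) := by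
      funext i
      rw [(hz (g.wp i) (g.wpP i).1).2, hPE2 i]
    rw [h1, h2, h4, h3] at hrel
    rw [← hrel]
    simp only [Aff.mul_m, Aff.mul_u, Aff.inv_m, mul_one]
    have h5 : ((PP e (g.rad j) : Kˣ) : K) * -((((PP e (g.rad j))⁻¹ : Kˣ) : K) *
        integ e ze (g.rad j)) = -integ e ze (g.rad j) := by
      rw [mul_neg, ← mul_assoc, Units.mul_inv, one_mul]
    rw [h5]
    ring

end Pool.Agent.Helper74.SS
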