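import Pool.Agent.Helper74.SS.St

set_option autoImplicit false

open Set Metric Filter Topology

namespace Pool.Agent.Helper74.SS

theorem Coc_mono_E4 {V G : Type} [PseudoMetricSpace V] [Group G] {S T : Set V} {E : V → V → G}
    (hST : S ⊆ T) (h : Coc T E) : Coc S E := by
  obtain ⟨ε, hε, h⟩ := h
  exact ⟨ε, hε, fun x hx y hy z hz => h x (hST hx) y (hST hy) z (hST hz)⟩

theorem Nr3_lin_E4 {V A : Type} [PseudoMetricSpace V] [CommRing A] {S : Set V} {e : V → V → Aˣ}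
    {ω ω' : V → V → V → A} {η η' : V → V → A} (a : A) (h1 : Nr3 S ω (d1 e η))
    (h2 : Nr3 S ω' (d1 e η')) :
    Nr3 S (fun x y z => ω x y z + a * ω' x y z) (d1 e (fun x y => η x y + a * η' x y)) := by
  obtain ⟨ε, hε, h1⟩ := h1
  obtain ⟨ε', hε', h2⟩ := h2
  refine ⟨min ε ε', lt_min hε hε', fun x hx y hy z hz hxy hxz => ?_⟩
  have p := h1 x hx y hy z hz (lt_of_lt_of_le hxy (min_le_left _ _))
    (lt_of_lt_of_le hxz (min_le_left _ _))
  have q := h2 x hx y hy z hz (lt_of_lt_of_le hxy (min_le_right _ _))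
    (lt_of_lt_of_le hxz (min_le_right _ _))
  show ω x y z + a * ω' x y z = _
  rw [p, q]
  unfold d1
  ring

theorem Z1_sub_E4 {V A : Type} [PseudoMetricSpace V] [CommRing A] {S S' : Set V} {e : V → V → Aˣ}
    {ω : V → V → V → A} {η ψ : V → V → A} (h1 : Nr3 S ω (d1 e η)) (h2 : Nr3 S' ω (d1 e ψ)) :
    Z1 (S ∩ S') e (fun x y => ψ x y - η x y) := by
  obtain ⟨ε, hε, h1⟩ := h1
  obtain ⟨ε', hε', h2⟩ := h2
  refine ⟨min ε ε', lt_min hε hε', fun x hx y hy z hz hxy hxz => ?_⟩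
  have p := h1 x hx.1 y hy.1 z hz.1 (lt_of_lt_of_le hxy (min_le_left _ _))
    (lt_of_lt_of_le hxz (min_le_left _ _))
  have q := h2 x hx.2 y hy.2 z hz.2 (lt_of_lt_of_le hxy (min_le_right _ _))
    (lt_of_lt_of_le hxz (min_le_right _ _))
  have r : d1 e ψ x y z - d1 e η x y z = 0 := by rw [← p, ← q, sub_self]
  rw [← r]
  unfold d1
  ring

theorem pE4 (hB7 : StB7) : StE4 := by
  intro ι κ V K _ _ _ R g e ω ω' c c' a he _ _ h h'
  obtain ⟨η, ψ, hη, hψ, hc⟩ := h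
  obtain ⟨η', ψ', hη', hψ', hc'⟩ := h'
  refine ⟨fun x y => η x y + a * η' x y, fun j x y => ψ j x y + a * ψ' j x y,
    Nr3_lin_E4 a hη hη', fun j => Nr3_lin_E4 a (hψ j) (hψ' j), fun j => ?_⟩
  have heAB : Coc (g.A ∩ g.B j) e := Coc_mono_E4 (fun x hx => g.AX hx.1) he
  have z1 := Z1_sub_E4 hη (hψ j)
  have z2 := Z1_sub_E4 hη' (hψ' j)
  have key := ((hB7 V K (g.A ∩ g.B j) e (g.lam j) heAB (g.lamP j).1).2.1 _ _ a z1 z2).2
  have e1 : (fun x y => (ψ j x y + a * ψ' j x y) - (η x y + a * η' x y))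
      = fun x y => (ψ j x y - η x y) + a * (ψ' j x y - η' x y) := by
    funext x y
    ring
  show c j + a * c' j = _
  rw [e1, key, hc j, hc' j]
  ring

end Pool.Agent.Helper74.SS
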