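import Pool.Agent.Helper74.SS.St

/-! Project SS: E5. -/

set_option autoImplicit false

open Set Metric Filter Topology

namespace Pool.Agent.Helper74.SS

private theorem coc_mono_E5 {V G : Type} [PseudoMetricSpace V] [Group G] {S T : Set V}
    {E : V → V → G} (h : Coc T E) (hST : S ⊆ T) : Coc S E := by
  obtain ⟨ε, hε, h⟩ := h
  exact ⟨ε, hε, fun x hx y hy z hz => h x (hST hx) y (hST hy) z (hST hz)⟩

private theorem nr3_mono_E5 {V B : Type} [PseudoMetricSpace V] {S T : Set V}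
    {ω ω' : V → V → V → B} (h : Nr3 T ω ω') (hST : S ⊆ T) : Nr3 S ω ω' := by
  obtain ⟨ε, hε, h⟩ := h
  exact ⟨ε, hε, fun x hx y hy z hz => h x (hST hx) y (hST hy) z (hST hz)⟩

private theorem min_E5 {κ : Type} [Finite κ] (f : κ → ℝ) (hf : ∀ j, 0 < f j) (δ : ℝ)
    (hδ : 0 < δ) : ∃ ε > 0, ε ≤ δ ∧ ∀ j, ε ≤ f j := by
  have h1 : ∀ᶠ ε in 𝓝[>] (0 : ℝ), ε ≤ δ ∧ ∀ j, ε ≤ f j := by
    refine Filter.Eventually.and ?_ (Filter.eventually_all.2 fun j => ?_)
    · exact (Ioc_mem_nhdsGT hδ : Set.Ioc (0 : ℝ) δ ∈ 𝓝[>] (0 : ℝ)) |> fun h =>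
        Filter.mem_of_superset h fun x hx => hx.2
    · exact (Ioc_mem_nhdsGT (hf j) : Set.Ioc (0 : ℝ) (f j) ∈ 𝓝[>] (0 : ℝ)) |> fun h =>
        Filter.mem_of_superset h fun x hx => hx.2
  obtain ⟨ε, h2, h3⟩ := (h1.and self_mem_nhdsWithin).exists
  exact ⟨ε, h3, h2⟩

private theorem z1_sub_E5 {V K : Type} [PseudoMetricSpace V] [CommRing K]
    {S S' : Set V} {e : V → V → Kˣ} {ω : V → V → V → K} {η ψ : V → V → K}
    (h : Nr3 S ω (d1 e η)) (h' : Nr3 S' ω (d1 e ψ)) :
    Z1 (S ∩ S') e (fun x y => ψ x y - η x y) := by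
  obtain ⟨ε, hε, h⟩ := h
  obtain ⟨ε', hε', h'⟩ := h'
  refine ⟨min ε ε', lt_min hε hε', fun x hx y hy z hz h1 h2 => ?_⟩
  have e1 := h x hx.1 y hy.1 z hz.1 (h1.trans_le (min_le_left _ _)) (h2.trans_le (min_le_left _ _))
  have e2 := h' x hx.2 y hy.2 z hz.2 (h1.trans_le (min_le_right _ _))
    (h2.trans_le (min_le_right _ _))
  simp only [d1] at e1 e2 ⊢
  linear_combination e1 - e2

theorem pE5 (hB1 : StB1) (h7 : StB7) : StE5 := by
  intro ι κ V K _ _ _ R g e ω he hω
  classical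
  constructor
  · rintro ⟨η, ψ, hη, hψ, hc⟩
    have key : ∀ j, ∃ (q : V → K) (r : ℝ), 0 < r ∧ ∀ x ∈ g.A ∩ g.B j, ∀ y ∈ g.A ∩ g.B j,
        dist x y < r → η x y = ψ j x y + d0 e q x y := by
      intro j
      have heN : Coc (g.A ∩ g.B j) e := coc_mono_E5 he (inter_subset_left.trans g.AX)
      have hZ : Z1 (g.A ∩ g.B j) e (fun x y => ψ j x y - η x y) := z1_sub_E5 hη (hψ j)
      have hint : integ e (fun x y => ψ j x y - η x y) (g.lam j) = 0 := by
        have := hc j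
        rw [eq_comm, Units.mul_right_eq_zero] at this
        exact this
      have hPP : PP e (g.lam j) = 1 := by
        have hp := (g.lamP j).1
        have h1 := h7 V K (g.B j) e (g.lam j) (coc_mono_E5 he (g.BX j))
          ⟨hp.1, fun t ht => (hp.2 ht).2⟩
        exact (h1.2.2.2.2.1 (d0 e fun _ => 0) (g.Bcon j) (h1.2.2.1 fun _ => 0).1
          (g.lamP j).2.symm).2
      have hAff := (h7 V K (g.A ∩ g.B j) e (g.lam j) heN (g.lamP j).1).1 _ hZ
      rw [hint, hPP] at hAff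
      have hCoc := ((hB1 V K (g.A ∩ g.B j) e heN).2.2.2.2.2.2 (fun x y => ψ j x y - η x y)).1 hZ
      obtain ⟨d, r, hr, hd⟩ := g.Ntriv j (Aff K) _ hCoc hAff
      refine ⟨fun x => (d x).m, r, hr, fun x hx y hy hxy => ?_⟩
      have h2 := congrArg Aff.m (hd x hx y hy hxy)
      simp only [mul_one, Aff.mul_m] at h2
      rw [d0, h2]
      ring
    choose q r hr hq using key
    choose r1 hr1 hψ1 using hψ
    have hdd : ∀ j, Nr3 (g.B j) (d1 e (d0 e (q j))) (fun _ _ _ => 0) := fun j =>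
      (hB1 V K (g.B j) e (coc_mono_E5 he (g.BX j))).1 (q j)
    choose r2 hr2 hdd2 using hdd
    let φ : V → V → K := fun x y => if x ∈ g.A ∧ y ∈ g.A then η x y else
      if h : ∃ j, x ∈ g.B j ∧ y ∈ g.B j then ψ h.choose x y + d0 e (q h.choose) x y else 0
    have hφA : ∀ x ∈ g.A, ∀ y ∈ g.A, φ x y = η x y := fun x hx y hy => if_pos ⟨hx, hy⟩
    have hφB : ∀ j, ∀ x ∈ g.B j, ∀ y ∈ g.B j, dist x y < r j →
        φ x y = ψ j x y + d0 e (q j) x y := by
      intro j x hx y hy hxy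
      by_cases hA : x ∈ g.A ∧ y ∈ g.A
      · rw [hφA x hA.1 y hA.2, hq j x ⟨hA.1, hx⟩ y ⟨hA.2, hy⟩ hxy]
      · have h : ∃ j, x ∈ g.B j ∧ y ∈ g.B j := ⟨j, hx, hy⟩
        have h1 : φ x y = ψ h.choose x y + d0 e (q h.choose) x y := by
          change (if x ∈ g.A ∧ y ∈ g.A then η x y else
            if h : ∃ j, x ∈ g.B j ∧ y ∈ g.B j then ψ h.choose x y + d0 e (q h.choose) x y
            else 0) = _
          rw [if_neg hA, dif_pos h]
        have h2 : h.choose = j := by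
          by_contra hne
          exact Set.disjoint_left.1 (g.disj _ _ hne) h.choose_spec.1 hx
        rw [h1, h2]
    obtain ⟨δ, hδ, hleb⟩ := g.leb
    obtain ⟨ε0, hε0, hη0⟩ := hη
    obtain ⟨ε, hε, hεδ, hεr⟩ := min_E5 (fun j => min (r j / 2) (min (r1 j) (r2 j)))
      (fun j => lt_min (half_pos (hr j)) (lt_min (hr1 j) (hr2 j))) (min δ ε0)
      (lt_min hδ hε0)
    refine ⟨φ, ε, hε, fun x hx y hy z hz hxy hxz => ?_⟩
    rcases hleb x hx with h | ⟨j, h⟩
    · have hxA := h x hx (by rw [dist_self]; exact hδ)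
      have hyA := h y hy (hxy.trans_le (hεδ.trans (min_le_left _ _)))
      have hzA := h z hz (hxz.trans_le (hεδ.trans (min_le_left _ _)))
      rw [hη0 x hxA y hyA z hzA (hxy.trans_le (hεδ.trans (min_le_right _ _)))
        (hxz.trans_le (hεδ.trans (min_le_right _ _))), d1, d1, hφA x hxA y hyA, hφA y hyA z hzA,
        hφA x hxA z hzA]
    · have hxB := h x hx (by rw [dist_self]; exact hδ)
      have hyB := h y hy (hxy.trans_le (hεδ.trans (min_le_left _ _)))
      have hzB := h z hz (hxz.trans_le (hεδ.trans (min_le_left _ _)))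
      have hj := hεr j
      have hj1 : ε ≤ r j / 2 := hj.trans (min_le_left _ _)
      have hj2 : ε ≤ r1 j := hj.trans ((min_le_right _ _).trans (min_le_left _ _))
      have hj3 : ε ≤ r2 j := hj.trans ((min_le_right _ _).trans (min_le_right _ _))
      have hyz : dist y z < r j := by
        have h1 := dist_triangle y x z
        rw [dist_comm y x] at h1
        linarith
      have hrj := hr j
      have e1 := hψ1 j x hxB y hyB z hzB (hxy.trans_le hj2) (hxz.trans_le hj2)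
      have e2 := hdd2 j x hxB y hyB z hzB (hxy.trans_le hj3) (hxz.trans_le hj3)
      simp only [d1] at e1 e2 ⊢
      rw [hφB j x hxB y hyB (by linarith), hφB j y hyB z hzB hyz, hφB j x hxB z hzB (by linarith)]
      linear_combination e1 - e2
  · rintro ⟨φ, hφ⟩
    refine ⟨φ, fun _ => φ, nr3_mono_E5 hφ g.AX, fun j => nr3_mono_E5 hφ (g.BX j), fun j => ?_⟩
    have h1 := ((h7 V K (g.A ∩ g.B j) e (g.lam j)
      (coc_mono_E5 he (inter_subset_left.trans g.AX)) (g.lamP j).1).2.2.1 fun _ => 0).2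
    have h2 : (fun x y => φ x y - φ x y) = d0 e (fun _ => 0) := by
      funext x y
      simp [d0]
    rw [h2, h1]
    simp

end Pool.Agent.Helper74.SS
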