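import Pool.Agent.Helper74.SS.StA
import Pool.Agent.Helper74.SS.Geo

/-! Project SS, module E6 (helper68): every cellular cochain represents a 2-cocycle. -/

set_option autoImplicit false

open Set Metric Filter Topology

namespace Pool.Agent.Helper74.SS

theorem coc_mono_E6 {V G : Type} [PseudoMetricSpace V] [Group G] {S S' : Set V} (h : S ⊆ S')
    {E : V → V → G} (hE : Coc S' E) : Coc S E := by
  obtain ⟨ε, hε, h1⟩ := hE
  exact ⟨ε, hε, fun x hx y hy z hz => h1 x (h hx) y (h hy) z (h hz)⟩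

theorem nr3_symm_E6 {V B : Type} [PseudoMetricSpace V] {S : Set V} {ω ω' : V → V → V → B}
    (h : Nr3 S ω ω') : Nr3 S ω' ω := by
  obtain ⟨ε, hε, h1⟩ := h
  exact ⟨ε, hε, fun x hx y hy z hz h2 h3 => (h1 x hx y hy z hz h2 h3).symm⟩

theorem finite_min_E6 {κ : Type} [Finite κ] (f : κ → ℝ) (hf : ∀ j, 0 < f j) :
    ∃ ε > 0, ∀ j, ε ≤ f j := by
  have h1 : ∀ᶠ ε in 𝓝[>] (0 : ℝ), ∀ j, ε ≤ f j := by
    rw [eventually_all]
    intro j
    have h2 : Iic (f j) ∈ 𝓝 (0 : ℝ) := Iic_mem_nhds (hf j)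
    exact mem_nhdsWithin_of_mem_nhds h2
  obtain ⟨ε, h2, h3⟩ := (h1.and self_mem_nhdsWithin).exists
  exact ⟨ε, h3, h2⟩

/-- A 2-cochain which is a cocycle on `A` and on the discs is a cocycle. -/
theorem glue_E6 {ι κ V K : Type} [Finite κ] [MetricSpace V] [CommRing K] {R : κ → Wd ι}
    (g : Geo R V) {e : V → V → Kˣ} {ω : V → V → V → K} (hA : Z2 g.A e ω)
    (hB : ∀ j, Z2 (g.B j) e ω) : Z2 g.X e ω := by
  obtain ⟨εA, hεA, hA⟩ := hA
  choose εB hεB hB using hB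
  obtain ⟨εm, hεm, hm⟩ := finite_min_E6 εB hεB
  obtain ⟨εl, hεl, hl⟩ := g.leb
  refine ⟨min εl (min εA εm), lt_min hεl (lt_min hεA hεm), ?_⟩
  intro w hw x hx y hy z hz hwx hwy hwz
  simp only [lt_min_iff] at hwx hwy hwz
  rcases hl w hw with h | ⟨j, h⟩
  · exact hA w (h w hw (by rw [dist_self]; exact hεl)) x (h x hx hwx.1) y (h y hy hwy.1)
      z (h z hz hwz.1) hwx.2.1 hwy.2.1 hwz.2.1
  · exact hB j w (h w hw (by rw [dist_self]; exact hεl)) x (h x hx hwx.1) y (h y hy hwy.1)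
      z (h z hz hwz.1) (lt_of_lt_of_le hwx.2.2 (hm j)) (lt_of_lt_of_le hwy.2.2 (hm j))
      (lt_of_lt_of_le hwz.2.2 (hm j))

/-- powers of a translation -/
def zt_E6 {K : Type} [CommRing K] (a : K) : Multiplicative ℤ →* Aff K where
  toFun n := ⟨(n.toAdd : K) * a, 1⟩
  map_one' := by ext <;> simp
  map_mul' m n := by
    ext
    · simp [add_mul]
    · simp

open Classical in
theorem pE6 (h3 : StA3) (h4 : StA4) (h5 : StA5) (h9 : StA9) (hb1 : StB1) : StE6 := by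
  intro ι κ V K _ _ _ R g e c he
  have heA : Coc g.A e := coc_mono_E6 g.AX he
  have heB : ∀ j, Coc (g.B j) e := fun j => coc_mono_E6 (g.BX j) he
  have hBj : ∀ j, ∃ d : V → Kˣ, Gau (g.B j) d e (fun _ _ => 1) := fun j =>
    h9.1 V Kˣ (g.B j) e (g.Bcon j) (heB j)
  choose d hd using hBj
  choose k hk hk1 using g.Nex
  obtain ⟨a, ha⟩ : ∃ a : κ → K, a = fun j =>
    (((PP e (g.rad j) * d j (g.lam j 0))⁻¹ : Kˣ) : K) * c j := ⟨_, rfl⟩
  obtain ⟨ze, hze⟩ : ∃ ze : κ → V → V → K, ze = fun j x y =>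
    (d j x : K) * (((k j x y).toAdd : K) * a j) := ⟨_, rfl⟩
  have hint : ∀ j, Coc (g.A ∩ g.B j) (fun x y => (⟨ze j x y, e x y⟩ : Aff K)) ∧
      integ e (ze j) (g.lam j) = (d j (g.lam j 0) : K) * a j := by
    intro j
    obtain ⟨hlam, hlam1⟩ := g.lamP j
    obtain ⟨hTc, hTp⟩ := h4.1 V (Multiplicative ℤ) (Aff K) (g.A ∩ g.B j) (k j) (zt_E6 (a j))
      (g.lam j) (hk j) hlam
    obtain ⟨hF, hFp⟩ := h5 V (Aff K) (g.A ∩ g.B j) (fun x => (⟨0, d j x⟩ : Aff K)⁻¹)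
      (fun x y => zt_E6 (a j) (k j x y))
      (fun x y => (⟨0, d j x⟩ : Aff K) * zt_E6 (a j) (k j x y) * (⟨0, d j y⟩ : Aff K)⁻¹)
      (g.lam j) hTc ⟨1, one_pos, fun x _ y _ _ => by group⟩ hlam
    have hFn : Nr2 (g.A ∩ g.B j)
        (fun x y => (⟨0, d j x⟩ : Aff K) * zt_E6 (a j) (k j x y) * (⟨0, d j y⟩ : Aff K)⁻¹)
        (fun x y => (⟨ze j x y, e x y⟩ : Aff K)) := by
      obtain ⟨δ, hδ, h7⟩ := hd j
      refine ⟨δ, hδ, fun x hx y hy hxy => ?_⟩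
      have e2 := h7 x hx.2 y hy.2 hxy
      rw [mul_one] at e2
      rw [hze]
      ext
      · simp [zt_E6]
      · simp only [Aff.mul_u, Aff.inv_u, zt_E6, MonoidHom.coe_mk, OneHom.coe_mk, mul_one]
        rw [e2, mul_assoc, mul_inv_cancel, mul_one]
    obtain ⟨hZ, hZp⟩ := (h3 V (Aff K) (g.A ∩ g.B j) _ hF).2.2.2.2.2 _ (g.lam j) hFn hlam
    refine ⟨hZ, ?_⟩
    unfold integ
    rw [hZp]
    rw [hTp, hlam1, hk1 j] at hFp
    have e5 : PP (fun x y => (⟨0, d j x⟩ : Aff K) * zt_E6 (a j) (k j x y) *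
        (⟨0, d j y⟩ : Aff K)⁻¹) (g.lam j) = (⟨0, d j (g.lam j 0)⟩ : Aff K) *
          zt_E6 (a j) (Multiplicative.ofAdd 1) * (⟨0, d j (g.lam j 0)⟩ : Aff K)⁻¹ := by
      rw [mul_assoc, ← hFp]
      group
    rw [e5]
    simp [zt_E6]
  have hZ1 : ∀ j, Z1 (g.A ∩ g.B j) e (ze j) := fun j =>
    ((hb1 V K (g.A ∩ g.B j) e (coc_mono_E6 inter_subset_right (heB j))).2.2.2.2.2.2 (ze j)).2
      (hint j).1
  obtain ⟨ω, hω⟩ : ∃ ω : V → V → V → K, ω = fun x y z =>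
    if x ∈ g.A ∧ y ∈ g.A ∧ z ∈ g.A then 0 else
      if h : ∃ j, x ∈ g.B j ∧ y ∈ g.B j ∧ z ∈ g.B j then d1 e (ze h.choose) x y z else 0 :=
    ⟨_, rfl⟩
  have hωA : Nr3 g.A ω (d1 e (fun _ _ => 0)) := by
    refine ⟨1, one_pos, fun x hx y hy z hz _ _ => ?_⟩
    rw [hω]
    simp [hx, hy, hz, d1]
  have hωB : ∀ j, Nr3 (g.B j) ω (d1 e (ze j)) := by
    intro j
    obtain ⟨ε, hε, h1⟩ := hZ1 j
    refine ⟨ε, hε, fun x hx y hy z hz hxy hxz => ?_⟩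
    rw [hω]
    simp only
    split_ifs with h2 h6
    · exact (h1 x ⟨h2.1, hx⟩ y ⟨h2.2.1, hy⟩ z ⟨h2.2.2, hz⟩ hxy hxz).symm
    · have h7 : h6.choose = j := by
        by_contra h8
        exact disjoint_left.1 (g.disj _ _ h8) h6.choose_spec.1 hx
      rw [h7]
    · exact absurd ⟨j, hx, hy, hz⟩ h6
  refine ⟨ω, glue_E6 g ?_ fun j => ?_, fun _ _ => 0, ze, hωA, hωB, fun j => ?_⟩
  · have h6 := hb1 V K g.A e heA
    exact h6.2.2.1 _ _ (nr3_symm_E6 hωA) (h6.2.1 _)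
  · have h6 := hb1 V K (g.B j) e (heB j)
    exact h6.2.2.1 _ _ (nr3_symm_E6 (hωB j)) (h6.2.1 _)
  · simp only [sub_zero]
    rw [(hint j).2, ha]
    simp only
    rw [← mul_assoc, ← mul_assoc, ← Units.val_mul, Units.mul_inv, one_mul]

end Pool.Agent.Helper74.SS
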