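import Pool.Agent.Helper74.SS.St

/-! Project SS: E7. -/

set_option autoImplicit false

open Set Metric Filter Topology

namespace Pool.Agent.Helper74.SS

private theorem coc_mono_E7 {V G : Type} [PseudoMetricSpace V] [Group G] {S T : Set V}
    {E : V → V → G} (h : Coc T E) (hST : S ⊆ T) : Coc S E := by
  obtain ⟨ε, hε, h⟩ := h
  exact ⟨ε, hε, fun x hx y hy z hz => h x (hST hx) y (hST hy) z (hST hz)⟩

private theorem nr3_map_E7 {V K K' : Type} [PseudoMetricSpace V] [CommRing K] [CommRing K']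
    (f : K →+* K') {S : Set V} {e : V → V → Kˣ} {ω : V → V → V → K} {η : V → V → K}
    (h : Nr3 S ω (d1 e η)) :
    Nr3 S (fun x y z => f (ω x y z))
      (d1 (fun x y => Units.map (f : K →* K') (e x y)) (fun x y => f (η x y))) := by
  obtain ⟨ε, hε, h⟩ := h
  refine ⟨ε, hε, fun x hx y hy z hz h1 h2 => ?_⟩
  simp only [h x hx y hy z hz h1 h2, d1, map_add, map_sub, map_mul, Units.coe_map,
    MonoidHom.coe_coe]

private theorem z1_sub_E7 {V K : Type} [PseudoMetricSpace V] [CommRing K]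
    {S S' : Set V} {e : V → V → Kˣ} {ω : V → V → V → K} {η ψ : V → V → K}
    (h : Nr3 S ω (d1 e η)) (h' : Nr3 S' ω (d1 e ψ)) :
    Z1 (S ∩ S') e (fun x y => ψ x y - η x y) := by
  obtain ⟨ε, hε, h⟩ := h
  obtain ⟨ε', hε', h'⟩ := h'
  refine ⟨min ε ε', lt_min hε hε', fun x hx y hy z hz h1 h2 => ?_⟩
  have e1 := h x hx.1 y hy.1 z hz.1 (h1.trans_le (min_le_left _ _)) (h2.trans_le (min_le_left _ _))
  have e2 := h' x hx.2 y hy.2 z hz.2 (h1.trans_le (min_le_right _ _))
    (h2.trans_le (min_le_right _ _))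
  simp only [d1] at e1 e2 ⊢
  linear_combination e1 - e2

theorem pE7 (h4 : StA4) (h7 : StB7) : StE7 := by
  intro ι κ V K K' _ _ _ _ R g f e ω c he hω hR
  obtain ⟨η, ψ, hη, hψ, hc⟩ := hR
  refine ⟨fun x y => f (η x y), fun j x y => f (ψ j x y), nr3_map_E7 f hη,
    fun j => nr3_map_E7 f (hψ j), fun j => ?_⟩
  have h1 := (h4.1 V Kˣ K'ˣ g.A e (Units.map (f : K →* K')) (g.rad j) (coc_mono_E7 he g.AX)
    (g.radP j).1).2
  have h2 := (h7 V K (g.A ∩ g.B j) e (g.lam j)
    (coc_mono_E7 he (inter_subset_left.trans g.AX)) (g.lamP j).1).2.2.2.2.2 K' f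
    (fun x y => ψ j x y - η x y) (z1_sub_E7 hη (hψ j))
  beta_reduce
  rw [hc j, map_mul]
  have h3 : (fun x y => f (ψ j x y) - f (η x y)) = fun x y => f (ψ j x y - η x y) := by
    funext x y
    rw [map_sub]
  rw [h3, h2.2, h1]
  rfl

end Pool.Agent.Helper74.SS
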