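import Pool.Agent.Helper74.SS.StA
import Pool.Agent.Helper74.SS.Geo

/-! Project SS, module E8 (helper68): cup products. -/

set_option autoImplicit false

open Set Metric Filter Topology

namespace Pool.Agent.Helper74.SS

theorem coc_mono_E8 {V G : Type} [PseudoMetricSpace V] [Group G] {S S' : Set V} (h : S ⊆ S')
    {E : V → V → G} (hE : Coc S' E) : Coc S E := by
  obtain ⟨ε, hε, h1⟩ := hE
  exact ⟨ε, hε, fun x hx y hy z hz => h1 x (h hx) y (h hy) z (h hz)⟩

/-- the central elements -/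
def cen_E8 (K : Type) [CommRing K] : Multiplicative K →* Hei K where
  toFun b := ⟨b.toAdd, 0, 1, 0⟩
  map_one' := rfl
  map_mul' a b := by
    ext <;> simp

/-- the translations -/
def trs_E8 (K : Type) [CommRing K] : Multiplicative K →* Aff K where
  toFun b := ⟨b.toAdd, 1⟩
  map_one' := rfl
  map_mul' a b := by
    ext <;> simp

theorem conj_cen_E8 {K : Type} [CommRing K] (X : Hei K) (b : K) :
    X * cen_E8 K (Multiplicative.ofAdd b) * X⁻¹ =
      cen_E8 K (Multiplicative.ofAdd ((X.u : K) * b)) := by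
  have h : X * cen_E8 K (Multiplicative.ofAdd b) =
      cen_E8 K (Multiplicative.ofAdd ((X.u : K) * b)) * X := by
    ext
    · simp [cen_E8]
      ring
    · simp [cen_E8]
    · simp [cen_E8]
    · simp [cen_E8]
  rw [h, mul_assoc, mul_inv_cancel, mul_one]

theorem lift_one_E8 {K : Type} [CommRing K] : (1 : Heq K).lift = 1 := rfl

theorem toHeq_lift_E8 {K : Type} [CommRing K] (a : Heq K) : Hei.toHeq K a.lift = a := rfl

theorem nr3_E8 {V K : Type} [MetricSpace V] [CommRing K] {S : Set V} {E : V → V → Heq K}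
    {E2 : V → V → Hei K} (h2 : Coc S E2) (h : Nr2 S (fun x y => Hei.toHeq K (E2 x y)) E) :
    Nr3 S (fun x y z => ((E x y).n : K) * (((E x y).u : K) * (E y z).m))
      (d1 (fun x y => (E x y).u) (fun x y => -(E2 x y).c)) := by
  obtain ⟨ε, hε, h2⟩ := h2
  obtain ⟨δ, hδ, h⟩ := h
  refine ⟨min ε (δ / 2), lt_min hε (half_pos hδ), ?_⟩
  intro x hx y hy z hz hxy hxz
  have hxy1 := lt_min_iff.1 hxy
  have hxz1 := lt_min_iff.1 hxz
  have hyz : dist y z < δ := by
    have h3 := dist_triangle_left y z x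
    linarith [hxy1.2, hxz1.2]
  have e1 := h2 x hx y hy z hz hxy1.1 hxz1.1
  have e2 := h x hx y hy (by linarith [hxy1.2])
  have e3 := h y hy z hz hyz
  simp only [← e2, ← e3, d1]
  have e4 := congrArg Hei.c e1
  rw [Hei.mul_c] at e4
  change ((E2 x y).n : K) * (((E2 x y).u : K) * (E2 y z).m) =
    ((E2 x y).u : K) * (-(E2 y z).c) - (-(E2 x z).c) + (-(E2 x y).c)
  linear_combination e4

theorem z2_E8 {V K : Type} [MetricSpace V] [CommRing K] {S : Set V} {E : V → V → Heq K}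
    (h : Coc S E) : Z2 S (fun x y => (E x y).u)
      (fun x y z => ((E x y).n : K) * (((E x y).u : K) * (E y z).m)) := by
  obtain ⟨ε, hε, h⟩ := h
  refine ⟨ε / 2, half_pos hε, ?_⟩
  intro w hw x hx y hy z hz hwx hwy hwz
  have hxy : dist x y < ε := by
    have h3 := dist_triangle_left x y w
    linarith
  have hxz : dist x z < ε := by
    have h3 := dist_triangle_left x z w
    linarith
  have e1 := h w hw x hx y hy (by linarith) (by linarith)
  have e3 := h x hx y hy z hz hxy hxz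
  have f1 := congrArg Heq.n e1
  have f2 := congrArg (fun X : Heq K => (X.u : K)) e1
  have f3 := congrArg Heq.m e3
  simp only [Heq.mul_n, Heq.mul_u, Heq.mul_m, Units.val_mul] at f1 f2 f3
  have f1' : ((E w y).n : K) = (E w x).n + (E x y).n := by
    rw [← f1]
    push_cast
    rfl
  simp only
  rw [f1', ← f2, ← f3]
  ring

theorem pE8 (h3 : StA3) (h4 : StA4) (h5 : StA5) (h9 : StA9) : StE8 := by
  intro ι κ V K _ _ _ R g E hE
  refine ⟨z2_E8 hE, ?_⟩
  have hEA : Coc g.A E := coc_mono_E8 g.AX hE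
  -- the lift on `A`
  obtain ⟨Et, hEt, hEt1⟩ := g.Aex (Hei K) (fun i => (PP E (g.wp i)).lift)
  have hp : ∀ i, PP E (g.wp i) = PP (fun x y => Hei.toHeq K (Et x y)) (g.wp i) := by
    intro i
    rw [(h4.1 V (Hei K) (Heq K) g.A Et (Hei.toHeq K) (g.wp i) hEt (g.wpP i).1).2, hEt1 i,
      toHeq_lift_E8]
  have hconst : IsPath g.A (fun _ => g.o) := ⟨continuousOn_const, fun _ _ => g.oA⟩
  have hE' := (h4.1 V (Hei K) (Heq K) g.A Et (Hei.toHeq K) (fun _ => g.o) hEt hconst).1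
  obtain ⟨c0, hc0, hg0⟩ := g.Auniq (Heq K) E (fun x y => Hei.toHeq K (Et x y)) hEA hE' hp
  obtain ⟨E2, hE2def⟩ : ∃ E2 : V → V → Hei K,
    E2 = fun x y => (c0 x).lift * Et x y * ((c0 y).lift)⁻¹ := ⟨_, rfl⟩
  have hgau : Gau g.A (fun x => ((c0 x).lift)⁻¹) Et E2 := by
    refine ⟨1, one_pos, fun x _ y _ _ => ?_⟩
    rw [hE2def]
    simp only [mul_assoc, inv_mul_cancel_left]
  have hE2 : Coc g.A E2 := (h5 V (Hei K) g.A _ Et E2 (fun _ => g.o) hEt hgau hconst).1
  have hE2wp : ∀ i, PP E2 (g.wp i) = (PP E (g.wp i)).lift := by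
    intro i
    obtain ⟨hw1, hw2, hw3⟩ := g.wpP i
    have h6 := (h5 V (Hei K) g.A _ Et E2 (g.wp i) hEt hgau hw1).2
    rw [hw2, hw3, hc0, lift_one_E8, inv_one, one_mul, mul_one, hEt1 i] at h6
    exact h6
  have hnr : Nr2 g.A (fun x y => Hei.toHeq K (E2 x y)) E := by
    obtain ⟨ε, hε, h6⟩ := hg0
    refine ⟨ε, hε, fun x hx y hy hxy => ?_⟩
    have h7 := h6 x hx y hy hxy
    rw [hE2def]
    simp only [map_mul, map_inv, toHeq_lift_E8]
    rw [h7, mul_assoc, mul_inv_cancel, mul_one]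
  -- the lifts on the discs
  have hBj : ∀ j, ∃ d : V → Heq K, Gau (g.B j) d E (fun _ _ => 1) := fun j =>
    h9.1 V (Heq K) (g.B j) E (g.Bcon j) (coc_mono_E8 (g.BX j) hE)
  choose d hd using hBj
  have hcocj : ∀ j, Coc (g.B j) (fun x y => (d j x).lift * ((d j y).lift)⁻¹) := by
    intro j
    refine ⟨1, one_pos, fun x _ y _ z _ _ _ => ?_⟩
    group
  have hnrj : ∀ j, Nr2 (g.B j)
      (fun x y => Hei.toHeq K ((d j x).lift * ((d j y).lift)⁻¹)) E := by
    intro j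
    obtain ⟨ε, hε, h6⟩ := hd j
    refine ⟨ε, hε, fun x hx y hy hxy => ?_⟩
    have h7 := h6 x hx y hy hxy
    rw [mul_one] at h7
    simp only [map_mul, map_inv, toHeq_lift_E8]
    rw [h7, mul_assoc, mul_inv_cancel, mul_one]
  refine ⟨fun x y => -(E2 x y).c, fun j x y => -((d j x).lift * ((d j y).lift)⁻¹).c,
    nr3_E8 hE2 hnr, fun j => nr3_E8 (hcocj j) (hnrj j), fun j => ?_⟩
  -- the annulus
  obtain ⟨hlam, hlam1⟩ := g.lamP j
  obtain ⟨hrad, hrad0, hrad1⟩ := g.radP j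
  obtain ⟨w, hw⟩ : ∃ w : V → V → Multiplicative K, w = fun x y => Multiplicative.ofAdd
    (((((d j x).u)⁻¹ : Kˣ) : K) *
      (-((d j x).lift * ((d j y).lift)⁻¹).c - -(E2 x y).c)) := ⟨_, rfl⟩
  have hsub1 : g.A ∩ g.B j ⊆ g.A := inter_subset_left
  have hsub2 : g.A ∩ g.B j ⊆ g.B j := inter_subset_right
  -- the gauge transformed cocycle
  obtain ⟨hE3, hE3p⟩ := h5 V (Hei K) (g.A ∩ g.B j) (fun x => (d j x).lift) E2
    (fun x y => ((d j x).lift)⁻¹ * E2 x y * (d j y).lift) (g.lam j) (coc_mono_E8 hsub1 hE2)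
    ⟨1, one_pos, fun x _ y _ _ => by group⟩ hlam
  have hE3n : Nr2 (g.A ∩ g.B j) (fun x y => ((d j x).lift)⁻¹ * E2 x y * (d j y).lift)
      (fun x y => cen_E8 K (w x y)) := by
    obtain ⟨ε, hε, h6⟩ := hnr
    obtain ⟨δ, hδ, h7⟩ := hnrj j
    refine ⟨min ε δ, lt_min hε hδ, fun x hx y hy hxy => ?_⟩
    have e1 := h6 x (hsub1 hx) y (hsub1 hy) (lt_of_lt_of_le hxy (min_le_left _ _))
    have e2 := h7 x (hsub2 hx) y (hsub2 hy) (lt_of_lt_of_le hxy (min_le_right _ _))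
    rw [← e2] at e1
    have e3 : E2 x y = cen_E8 K (Multiplicative.ofAdd
        (-((d j x).lift * ((d j y).lift)⁻¹).c - -(E2 x y).c)) *
          ((d j x).lift * ((d j y).lift)⁻¹) := by
      have f1 := congrArg Heq.m e1
      have f2 := congrArg Heq.u e1
      have f3 := congrArg Heq.n e1
      ext
      · rw [Hei.mul_c]
        simp only [cen_E8, MonoidHom.coe_mk, OneHom.coe_mk, Units.val_one, one_mul,
          Int.cast_zero, zero_mul, add_zero, toAdd_ofAdd]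
        ring
      · rw [Hei.mul_m]
        simp only [cen_E8, MonoidHom.coe_mk, OneHom.coe_mk, Units.val_one, one_mul, zero_add]
        exact f1
      · rw [Hei.mul_u]
        simp only [cen_E8, MonoidHom.coe_mk, OneHom.coe_mk, one_mul]
        exact congrArg Units.val f2
      · rw [Hei.mul_n]
        simp only [cen_E8, MonoidHom.coe_mk, OneHom.coe_mk, zero_add]
        exact f3
    have e4 : ((d j x).lift)⁻¹ * E2 x y * (d j y).lift = ((d j x).lift)⁻¹ *
        cen_E8 K (Multiplicative.ofAdd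
          (-((d j x).lift * ((d j y).lift)⁻¹).c - -(E2 x y).c)) * (((d j x).lift)⁻¹)⁻¹ := by
      rw [inv_inv]
      conv_lhs => rw [e3]
      group
    change ((d j x).lift)⁻¹ * E2 x y * (d j y).lift = cen_E8 K (w x y)
    rw [e4, conj_cen_E8, hw]
    rfl
  obtain ⟨hcw, hPw⟩ := (h3 V (Hei K) (g.A ∩ g.B j) _ hE3).2.2.2.2.2
    (fun x y => cen_E8 K (w x y)) (g.lam j) hE3n hlam
  have hw1 : Coc (g.A ∩ g.B j) w := by
    obtain ⟨ε, hε, h6⟩ := hcw
    refine ⟨ε, hε, fun x hx y hy z hz hxy hxz => ?_⟩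
    have h7 := h6 x hx y hy z hz hxy hxz
    rw [← map_mul] at h7
    exact congrArg (fun X : Hei K => Multiplicative.ofAdd X.c) h7
  have hPw2 := (h4.1 V (Multiplicative K) (Hei K) (g.A ∩ g.B j) w (cen_E8 K) (g.lam j) hw1
    hlam).2
  obtain ⟨hTc, hTp⟩ := h4.1 V (Multiplicative K) (Aff K) (g.A ∩ g.B j) w (trs_E8 K) (g.lam j)
    hw1 hlam
  obtain ⟨hF, hFp⟩ := h5 V (Aff K) (g.A ∩ g.B j) (fun x => (⟨0, (d j x).u⟩ : Aff K)⁻¹)
    (fun x y => trs_E8 K (w x y))
    (fun x y => (⟨0, (d j x).u⟩ : Aff K) * trs_E8 K (w x y) * (⟨0, (d j y).u⟩ : Aff K)⁻¹)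
    (g.lam j) hTc ⟨1, one_pos, fun x _ y _ _ => by group⟩ hlam
  have hFn : Nr2 (g.A ∩ g.B j)
      (fun x y => (⟨0, (d j x).u⟩ : Aff K) * trs_E8 K (w x y) * (⟨0, (d j y).u⟩ : Aff K)⁻¹)
      (fun x y => (⟨-((d j x).lift * ((d j y).lift)⁻¹).c - -(E2 x y).c, (E x y).u⟩ : Aff K)) := by
    obtain ⟨δ, hδ, h7⟩ := hnrj j
    refine ⟨δ, hδ, fun x hx y hy hxy => ?_⟩
    have e2 := congrArg Heq.u (h7 x (hsub2 hx) y (hsub2 hy) hxy)
    have e3 : (d j x).u * ((d j y).u)⁻¹ = (E x y).u := e2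
    rw [hw]
    ext
    · simp only [Aff.mul_m, Aff.mul_u, Aff.inv_m, trs_E8, MonoidHom.coe_mk, OneHom.coe_mk,
        toAdd_ofAdd, mul_zero, neg_zero, add_zero, zero_add]
      rw [← mul_assoc, Units.mul_inv, one_mul]
    · simp only [Aff.mul_u, Aff.inv_u, trs_E8, MonoidHom.coe_mk, OneHom.coe_mk, mul_one]
      rw [e3]
  have hPF := ((h3 V (Aff K) (g.A ∩ g.B j) _ hF).2.2.2.2.2 _ (g.lam j) hFn hlam).2
  have hint : integ (fun x y => (E x y).u)
      (fun x y => -((d j x).lift * ((d j y).lift)⁻¹).c - -(E2 x y).c) (g.lam j) =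
      ((d j (g.lam j 0)).u : K) * (PP w (g.lam j)).toAdd := by
    unfold integ
    rw [hPF]
    rw [hTp, hlam1] at hFp
    have e5 : PP (fun x y => (⟨0, (d j x).u⟩ : Aff K) * trs_E8 K (w x y) *
        (⟨0, (d j y).u⟩ : Aff K)⁻¹) (g.lam j) = (⟨0, (d j (g.lam j 0)).u⟩ : Aff K) *
          trs_E8 K (PP w (g.lam j)) * (⟨0, (d j (g.lam j 0)).u⟩ : Aff K)⁻¹ := by
      rw [mul_assoc, ← hFp]
      group
    rw [e5]
    simp [trs_E8]
  have hPE2 : PP E2 (g.lam j) = cen_E8 K (Multiplicative.ofAdd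
      (((d j (g.lam j 0)).u : K) * (PP w (g.lam j)).toAdd)) := by
    rw [hlam1, ← hPw, hPw2] at hE3p
    have e5 : PP E2 (g.lam j) = (d j (g.lam j 0)).lift * cen_E8 K (PP w (g.lam j)) *
        ((d j (g.lam j 0)).lift)⁻¹ := by
      rw [hE3p]
      group
    rw [e5]
    exact conj_cen_E8 _ _
  -- the relation
  have hrel := g.Arel (Hei K) E2 hE2 j
  have hu := (h4.1 V (Hei K) Kˣ g.A E2 ((Heq.uHom K).comp (Hei.toHeq K)) (g.rad j) hE2 hrad)
  have hun : Nr2 g.A (fun x y => ((Heq.uHom K).comp (Hei.toHeq K)) (E2 x y))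
      (fun x y => (E x y).u) := by
    obtain ⟨ε, hε, h6⟩ := hnr
    exact ⟨ε, hε, fun x hx y hy hxy => congrArg Heq.u (h6 x hx y hy hxy)⟩
  have hu2 := ((h3 V Kˣ g.A _ hu.1).2.2.2.2.2 _ (g.rad j) hun hrad).2
  rw [hu.2] at hu2
  have hu3 : PP (fun x y => (E x y).u) (g.rad j) = (PP E2 (g.rad j)).u := hu2
  rw [hPE2, conj_cen_E8] at hrel
  have hc := congrArg Hei.c hrel
  rw [hint, hu3]
  have hwev : wev (fun i => PP E2 (g.wp i)) (R j) =
      wev (fun i => (PP E (g.wp i)).lift) (R j) := by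
    have : (fun i => PP E2 (g.wp i)) = fun i => (PP E (g.wp i)).lift := funext hE2wp
    rw [this]
  rw [hwev] at hc
  exact hc.symm

end Pool.Agent.Helper74.SS
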