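import Pool.Agent.Helper74.SS.StA
import Pool.Agent.Helper74.SS.Geo

/-! Project SS, module F (helper68): a homotopy equivalence gives the data `TopD`. -/

set_option autoImplicit false

open Set Metric Filter Topology

namespace Pool.Agent.Helper74.SS

theorem wev_map_F {ι G H : Type} [Group G] [Group H] (f : G →* H) (g : ι → G) (w : Wd ι) :
    f (wev g w) = wev (fun i => f (g i)) w := by
  unfold wev
  rw [map_list_prod, List.map_map]
  congr 1
  refine List.map_congr_left fun a _ => ?_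
  simp only [Function.comp]
  split_ifs
  · rfl
  · rw [map_inv]

theorem wev_gen_F {ι κ : Type} (R : κ → Wd ι) (w : Wd ι) :
    wev (gen R) w = PresentedGroup.mk _ (FreeGroup.mk w) := by
  have h1 : PresentedGroup.mk (Set.range fun j => FreeGroup.mk (R j)) =
      FreeGroup.lift (gen R) := by
    refine FreeGroup.ext_hom _ _ fun i => ?_
    rw [FreeGroup.lift_apply_of]
    rfl
  rw [h1, FreeGroup.lift_mk]
  unfold wev
  congr 1
  refine List.map_congr_left fun a _ => ?_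
  cases a.2 <;> simp

theorem wev_rel_F {ι κ : Type} (R : κ → Wd ι) (j : κ) : wev (gen R) (R j) = 1 := by
  rw [wev_gen_F]
  exact PresentedGroup.one_of_mem ⟨j, rfl⟩

/-- negation as an automorphism of the affine group -/
def neg_F (A : Type) [CommRing A] : Aff A →* Aff A where
  toFun a := ⟨-a.m, a.u⟩
  map_one' := by ext <;> simp
  map_mul' a b := by
    ext
    · simp
      ring
    · simp

theorem bd_neg_F {ι κ A : Type} [CommRing A] {R : κ → Wd ι} {χ : ι → Aˣ} {c : κ → A}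
    (h : Bd R χ c) : Bd R χ (fun j => -c j) := by
  obtain ⟨m, hm⟩ := h
  refine ⟨fun i => -m i, fun j => ?_⟩
  have h2 := hm j
  have h1 := wev_map_F (neg_F A) (fun i => (⟨m i, χ i⟩ : Aff A)) (R j)
  change -c j = _
  rw [h2]
  exact congrArg Aff.m h1

theorem pF (hA4 : StA4) (hB1 : StB1) (hB2 : StB2) (hD1 : StD1) (hD2 : StD2) (hE1 : StE1)
    (hE2 : StE2) (hE3 : StE3) (hE4 : StE4) (hE5 : StE5) (hE6 : StE6) (hE7 : StE7) (hE8 : StE8)
    (hF1 : StF1) (hF2 : StF2) : StF := by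
  intro ι κ ι' κ' V V' _ _ _ _ R R' g g' F G h k hHE
  have hF := hHE.hF
  have hoX : IsPath g.X (fun _ => g.o) := ⟨continuousOn_const, fun _ _ => g.AX g.oA⟩
  have hoX' : IsPath g'.X (fun _ => g'.o) := ⟨continuousOn_const, fun _ _ => g'.AX g'.oA⟩
  have hwp : ∀ i, IsPath g.X (g.wp i) := fun i =>
    ⟨(g.wpP i).1.1, fun t ht => g.AX ((g.wpP i).1.2 ht)⟩
  have hwp' : ∀ i, IsPath g'.X (g'.wp i) := fun i =>
    ⟨(g'.wpP i).1.1, fun t ht => g'.AX ((g'.wpP i).1.2 ht)⟩
  -- the universal cocycle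
  obtain ⟨E', hE', hE'1⟩ := hD2 ι' κ' V' (PG R') R' g' (gen R') (wev_rel_F R')
  have hpull : ∀ {H : Type} [Group H] (E : V' → V' → H), Coc g'.X E →
      Coc g.X (fun x y => E (F x) (F y)) := fun E hE =>
    (hA4.2 V V' _ g.X g'.X E F (fun _ => g.o) hE hF hoX).1
  have hhom : ∀ {H H' : Type} [Group H] [Group H'] (E : V' → V' → H) (f : H →* H'),
      Coc g'.X E → Coc g'.X (fun x y => f (E x y)) := fun E f hE =>
    (hA4.1 V' _ _ g'.X E f (fun _ => g'.o) hE hoX').1
  have hhomP : ∀ {H H' : Type} [Group H] [Group H'] (E : V' → V' → H) (f : H →* H'),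
      Coc g'.X E → ∀ i, PP (fun x y => f (E x y)) (g'.wp i) = f (PP E (g'.wp i)) :=
    fun E f hE i => (hA4.1 V' _ _ g'.X E f (g'.wp i) hE (hwp' i)).2
  have hhomQ : ∀ {H H' : Type} [Group H] [Group H'] (E : V' → V' → H) (f : H →* H'),
      Coc g'.X E → ∀ i, PP (fun x y => f (E (F x) (F y))) (g.wp i) =
        f (PP (fun x y => E (F x) (F y)) (g.wp i)) :=
    fun E f hE i => (hA4.1 V _ _ g.X (fun x y => E (F x) (F y)) f (g.wp i) (hpull E hE)
      (hwp i)).2
  have hFE := hpull E' hE'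
  obtain ⟨th, hth⟩ := hD1 ι κ V (PG R') R g (fun x y => E' (F x) (F y)) hFE
  have hbij := hF1 ι κ ι' κ' V V' R R' g g' F G h k E' th hHE hE' hE'1 hth
  have hZpull : ∀ {A : Type} [CommRing A] (e : V' → V' → Aˣ) (ω : V' → V' → V' → A),
      Z2 g'.X e ω → Z2 g.X (fun x y => e (F x) (F y)) (fun x y z => ω (F x) (F y) (F z)) :=
    fun e ω hω => (hB2.2.1 V V' _ g.X g'.X F e ω hF).1 hω
  refine ⟨MulEquiv.ofBijective th hbij, fun A _ χ c' c => ∃ ω' : V' → V' → V' → A,
    Z2 g'.X (fun x y => χ (E' x y)) ω' ∧ Rep g' (fun x y => χ (E' x y)) ω' c' ∧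
    Rep g (fun x y => χ (E' (F x) (F y))) (fun x y z => ω' (F x) (F y) (F z)) c, ?_⟩
  have hwpχ : ∀ {A : Type} [CommRing A] (χ : PG R' →* Aˣ),
      (fun i => PP (fun x y => χ (E' x y)) (g'.wp i)) = fun i => χ (gen R' i) := by
    intro A _ χ
    funext i
    rw [hhomP E' χ hE' i, hE'1 i]
  have hwpχ2 : ∀ {A : Type} [CommRing A] (χ : PG R' →* Aˣ),
      (fun i => PP (fun x y => χ (E' (F x) (F y))) (g.wp i)) = fun i => χ (th (gen R i)) := by
    intro A _ χ
    funext i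
    rw [hhomQ E' χ hE' i, hth i]
  refine ⟨?_, ?_, ?_, ?_, ?_, ?_⟩
  · -- linear
    rintro A _ χ c' d' c d a ⟨ω, hω, hr, hs⟩ ⟨ω', hω', hr', hs'⟩
    have he := hhom E' χ hE'
    have heF := hpull _ he
    refine ⟨fun x y z => ω x y z + a * ω' x y z, (hB1 V' A g'.X _ he).2.2.2.1 ω ω' a hω hω',
      hE4 ι' κ' V' A R' g' _ ω ω' c' d' a he hω hω' hr hr', ?_⟩
    exact hE4 ι κ V A R g _ _ _ c d a heF (hZpull _ ω hω) (hZpull _ ω' hω') hs hs'
  · -- total on the left
    intro A _ χ c'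
    have he := hhom E' χ hE'
    obtain ⟨ω, hω, hr⟩ := hE6 ι' κ' V' A R' g' _ c' he
    obtain ⟨c, hc⟩ := hE1 ι κ V A R g _ _ (hpull _ he) (hZpull _ ω hω)
    exact ⟨c, ω, hω, hr, hc⟩
  · -- total on the right
    intro A _ χ c
    have he := hhom E' χ hE'
    have heF := hpull _ he
    obtain ⟨ω, hω, hr⟩ := hE6 ι κ V A R g _ c heF
    obtain ⟨ω', hω', hb⟩ := hF2 ι κ ι' κ' V V' A R R' g g' F G h k _ ω hHE he hω
    obtain ⟨c', hc'⟩ := hE1 ι' κ' V' A R' g' _ ω' he hω'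
    refine ⟨c', ω', hω', hc', ?_⟩
    have hz := (hB1 V A g.X _ heF).2.2.2.2.2.1 _ hb
    have h0 := (hE5 ι κ V A R g _ _ heF hz).2 hb
    have h1 := hE4 ι κ V A R g _ _ _ c _ (-1) heF hω hz hr h0
    have h2 : (fun x y z => ω x y z + -1 * (ω x y z - ω' (F x) (F y) (F z))) =
        fun x y z => ω' (F x) (F y) (F z) := by
      funext x y z
      ring
    have h3 : (fun j => c j + -1 * (0 : A)) = c := by
      funext j
      ring
    rw [h2, h3] at h1
    exact h1
  · -- coboundaries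
    rintro A _ χ c' c ⟨ω, hω, hr, hs⟩ hbd
    have he := hhom E' χ hE'
    have heF := hpull _ he
    rw [← hwpχ χ] at hbd
    have h1 := hE3 ι' κ' V' A R' g' _ ω c' _ he hω hr (bd_neg_F hbd)
    have h2 : (fun j => c' j + -c' j) = fun _ => 0 := by
      funext j
      ring
    rw [h2] at h1
    have h3 := (hE5 ι' κ' V' A R' g' _ ω he hω).1 h1
    have h4 := (hB2.2.1 V V' A g.X g'.X F _ ω hF).2 h3
    have h5 := (hE5 ι κ V A R g _ _ heF (hZpull _ ω hω)).2 h4
    have h6 := hE2 ι κ V A R g _ _ c _ heF (hZpull _ ω hω) hs h5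
    have h7 : (fun j => c j - (0 : A)) = c := by
      funext j
      ring
    rw [h7] at h6
    rw [hwpχ2 χ] at h6
    exact h6
  · -- natural
    rintro A A' _ _ f χ c' c ⟨ω, hω, hr, hs⟩
    have he := hhom E' χ hE'
    have heF := hpull _ he
    refine ⟨fun x y z => f (ω x y z), (hB2.2.2 V' A A' g'.X _ ω f).1 hω,
      hE7 ι' κ' V' A A' R' g' f _ ω c' he hω hr, ?_⟩
    exact hE7 ι κ V A A' R g f _ _ c heF (hZpull _ ω hω) hs
  · -- cup products
    intro A _ μ
    have he := hhom E' μ hE'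
    have heF := hpull _ he
    obtain ⟨hz, hr⟩ := hE8 ι' κ' V' A R' g' (fun x y => μ (E' x y)) he
    obtain ⟨-, hs⟩ := hE8 ι κ V A R g (fun x y => μ (E' (F x) (F y))) heF
    have h1 : (fun i => PP (fun x y => μ (E' x y)) (g'.wp i)) = fun i => μ (gen R' i) := by
      funext i
      rw [hhomP E' μ hE' i, hE'1 i]
    have h2 : (fun i => PP (fun x y => μ (E' (F x) (F y))) (g.wp i)) =
        fun i => μ (th (gen R i)) := by
      funext i
      rw [hhomQ E' μ hE' i, hth i]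
    rw [h1] at hr
    rw [h2] at hs
    exact ⟨_, hz, hr, hs⟩

end Pool.Agent.Helper74.SS
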