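import Pool.Agent.Helper74.SS.St

/-! Project SS: F1. -/

set_option autoImplicit false

open Set Metric Filter Topology

namespace Pool.Agent.Helper74.SS

private theorem coc_mono_F1 {V G : Type} [PseudoMetricSpace V] [Group G] {S T : Set V}
    {E : V → V → G} (h : Coc T E) (hST : S ⊆ T) : Coc S E := by
  obtain ⟨ε, hε, h⟩ := h
  exact ⟨ε, hε, fun x hx y hy z hz => h x (hST hx) y (hST hy) z (hST hz)⟩

private theorem lift_mk_F1 {ι G : Type} [Group G] (a : ι → G) (w : Wd ι) :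
    FreeGroup.lift a (FreeGroup.mk w) = wev a w := by
  rw [FreeGroup.lift_mk, wev]
  congr 1
  refine List.map_congr_left fun x _ => ?_
  rcases x with ⟨i, b⟩
  cases b <;> rfl

private theorem rel_F1 {ι κ : Type} (R : κ → Wd ι) (j : κ) : wev (gen R) (R j) = 1 := by
  rw [← lift_mk_F1]
  have h1 : FreeGroup.lift (gen R) = (PresentedGroup.mk (Set.range fun j => FreeGroup.mk (R j))) := by
    ext i
    rw [FreeGroup.lift_apply_of]
    rfl
  rw [h1]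
  exact PresentedGroup.one_of_mem ⟨j, rfl⟩

/-- one half: if the pull-backs along `F` and `G` are compared, then `θ ∘ θ'` is conjugation -/
private theorem half_F1 (h4 : StA4) (h5 : StA5) (h6 : StA6) (h7 : StA7) (h3 : StD3)
    {ι κ ι' κ' V V' H : Type} [Finite κ] [Finite κ'] [MetricSpace V] [MetricSpace V'] [Group H]
    (R : κ → Wd ι) (R' : κ' → Wd ι') (g : Geo R V) (g' : Geo R' V') (F : V → V') (G : V' → V)
    (k : V' → ℝ → V') (E' : V' → V' → PG R') (E : V → V → H) (θ : H →* PG R')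
    (hF : Mor g.X g'.X F) (hG : Mor g'.X g.X G) (hk : HMor g'.X g'.X k)
    (k0 : ∀ y ∈ g'.X, k y 0 = y) (k1 : ∀ y ∈ g'.X, k y 1 = F (G y))
    (hE' : Coc g'.X E') (hE : Coc g.X E) (hE'g : ∀ i, PP E' (g'.wp i) = gen R' i)
    (hθ : ∀ i, θ (PP E (g.wp i)) = PP (fun x y => E' (F x) (F y)) (g.wp i)) :
    ∃ u : PG R', ∀ i, u * θ (PP (fun x y => E (G x) (G y)) (g'.wp i)) = gen R' i * u := by
  have hwp : ∀ i, IsPath g.X (g.wp i) := fun i => ⟨(g.wpP i).1.1, fun t ht => g.AX ((g.wpP i).1.2 ht)⟩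
  have hwp' : ∀ i, IsPath g'.X (g'.wp i) := fun i =>
    ⟨(g'.wpP i).1.1, fun t ht => g'.AX ((g'.wpP i).1.2 ht)⟩
  -- the two cocycles on `X`
  have hFE : ∀ i, _ := fun i => h4.2 V V' (PG R') g.X g'.X E' F (g.wp i) hE' hF (hwp i)
  have hθE : ∀ i, _ := fun i => h4.1 V H (PG R') g.X E θ (g.wp i) hE (hwp i)
  have hcF : Coc g.X (fun x y => E' (F x) (F y)) := by
    obtain ⟨ε, hε, hc⟩ := hE'
    obtain ⟨hFu, hFm⟩ := hF
    obtain ⟨δ, hδ, hd⟩ := Metric.uniformContinuousOn_iff.1 hFu ε hε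
    exact ⟨δ, hδ, fun x hx y hy z hz h1 h2 => hc _ (hFm hx) _ (hFm hy) _ (hFm hz)
      (hd x hx y hy h1) (hd x hx z hz h2)⟩
  have hcθ : Coc g.X (fun x y => θ (E x y)) := by
    obtain ⟨ε, hε, hc⟩ := hE
    exact ⟨ε, hε, fun x hx y hy z hz h1 h2 => by
      rw [← map_mul, hc x hx y hy z hz h1 h2]⟩
  obtain ⟨c1, _, hc1⟩ := h3 ι κ V (PG R') R g _ _ hcF hcθ fun i => by
    rw [(hθE i).2, hθ i]
  -- pull back along `G`
  have hg1 := h6.2.2.2.1 V' V (PG R') g'.X g.X c1 _ _ G hc1 hG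
  have hg2 := h7 V' V' (PG R') g'.X g'.X E' k hE' hk
  have hg3 : Gau g'.X (fun y => PP E' (k y)) E' (fun x y => E' (F (G x)) (F (G y))) := by
    obtain ⟨ε, hε, hh⟩ := hg2
    refine ⟨ε, hε, fun x hx y hy hxy => ?_⟩
    have := hh x hx y hy hxy
    simp only [k0 x hx, k0 y hy, k1 x hx, k1 y hy] at this
    exact this
  have hg4 := h6.2.2.1 V' (PG R') g'.X _ _ _ _ _ hg3 hg1
  refine ⟨PP E' (k g'.o) * c1 (G g'.o), fun i => ?_⟩
  have h8 := (h5 V' (PG R') g'.X _ E' _ (g'.wp i) hE' hg4 (hwp' i)).2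
  have h9 := h4.2 V' V H g'.X g.X E G (g'.wp i) hE hG (hwp' i)
  have h10 := (h4.1 V' H (PG R') g'.X (fun x y => E (G x) (G y)) θ (g'.wp i) h9.1 (hwp' i)).2
  simp only [(g'.wpP i).2.1, (g'.wpP i).2.2] at h8
  rw [h10, hE'g i] at h8
  exact h8

theorem pF1 (h4 : StA4) (h5 : StA5) (h6 : StA6) (h7 : StA7) (h1 : StD1) (h2 : StD2)
    (h3 : StD3) : StF1 := by
  intro ι κ ι' κ' V V' _ _ _ _ R R' g g' F G h k E' θ hHE hE' hE'g hθ
  have hwp : ∀ i, IsPath g.X (g.wp i) := fun i => ⟨(g.wpP i).1.1, fun t ht => g.AX ((g.wpP i).1.2 ht)⟩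
  have hwp' : ∀ i, IsPath g'.X (g'.wp i) := fun i =>
    ⟨(g'.wpP i).1.1, fun t ht => g'.AX ((g'.wpP i).1.2 ht)⟩
  obtain ⟨E, hE, hEg⟩ := h2 ι κ V (PG R) R g (gen R) (rel_F1 R)
  have hcG : Coc g'.X (fun x y => E (G x) (G y)) := by
    obtain ⟨ε, hε, hc⟩ := hE
    obtain ⟨hFu, hFm⟩ := hHE.hG
    obtain ⟨δ, hδ, hd⟩ := Metric.uniformContinuousOn_iff.1 hFu ε hε
    exact ⟨δ, hδ, fun x hx y hy z hz h1 h2 => hc _ (hFm hx) _ (hFm hy) _ (hFm hz)
      (hd x hx y hy h1) (hd x hx z hz h2)⟩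
  obtain ⟨θG, hθG⟩ := h1 ι' κ' V' (PG R) R' g' _ hcG
  obtain ⟨u, hu⟩ := half_F1 h4 h5 h6 h7 h3 R R' g g' F G k E' E θ hHE.hF hHE.hG hHE.hk hHE.k0
    hHE.k1 hE' hE hE'g (fun i => by rw [hEg, hθ])
  obtain ⟨w, hw⟩ := half_F1 h4 h5 h6 h7 h3 R' R g' g G F h E E' θG hHE.hG hHE.hF hHE.hh hHE.h0
    hHE.h1 hE hE' hEg (fun i => by rw [hE'g, hθG])
  have e1 : ∀ x : PG R', θ (θG x) = u⁻¹ * x * u := by
    have : θ.comp θG = (MulAut.conj u⁻¹).toMonoidHom := by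
      refine PresentedGroup.ext fun i => ?_
      have h8 := hu i
      rw [← hθG i] at h8
      change θ (θG (gen R' i)) = u⁻¹ * gen R' i * u⁻¹⁻¹
      rw [inv_inv, mul_assoc, ← h8, inv_mul_cancel_left]
    intro x
    have h9 := DFunLike.congr_fun this x
    rw [MonoidHom.comp_apply] at h9
    rw [h9]
    change u⁻¹ * x * u⁻¹⁻¹ = _
    rw [inv_inv]
  have e2 : ∀ x : PG R, θG (θ x) = w⁻¹ * x * w := by
    have : θG.comp θ = (MulAut.conj w⁻¹).toMonoidHom := by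
      refine PresentedGroup.ext fun i => ?_
      have h8 := hw i
      rw [← hθ i] at h8
      change θG (θ (gen R i)) = w⁻¹ * gen R i * w⁻¹⁻¹
      rw [inv_inv, mul_assoc, ← h8, inv_mul_cancel_left]
    intro x
    have h9 := DFunLike.congr_fun this x
    rw [MonoidHom.comp_apply] at h9
    rw [h9]
    change w⁻¹ * x * w⁻¹⁻¹ = _
    rw [inv_inv]
  constructor
  · intro x y hxy
    have h8 := congrArg θG hxy
    rw [e2, e2] at h8
    exact mul_left_cancel (mul_right_cancel h8)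
  · intro x
    refine ⟨θG (u * x * u⁻¹), ?_⟩
    rw [e1]
    group

end Pool.Agent.Helper74.SS
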