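import Pool.Agent.Helper74.SS.St

/-! Project SS, module F2 (helper51): surjectivity of the pull-back on second cohomology. -/

set_option autoImplicit false

open Set Metric Filter Topology

namespace Pool.Agent.Helper74.SS

namespace F2aux

theorem coc_pull {V V' G : Type} [PseudoMetricSpace V] [PseudoMetricSpace V'] [Group G]
    {S : Set V} {S' : Set V'} {E : V' → V' → G} {F : V → V'} (hE : Coc S' E) (hF : Mor S S' F) :
    Coc S (fun x y => E (F x) (F y)) := by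
  obtain ⟨ε, hε, hE⟩ := hE
  obtain ⟨hu, hm⟩ := hF
  obtain ⟨δ, hδ, hu⟩ := Metric.uniformContinuousOn_iff.1 hu ε hε
  exact ⟨δ, hδ, fun x hx y hy z hz hxy hxz =>
    hE _ (hm hx) _ (hm hy) _ (hm hz) (hu x hx y hy hxy) (hu x hx z hz hxz)⟩

theorem gau_congr {V G : Type} [PseudoMetricSpace V] [Group G] {S : Set V} {c : V → G}
    {E E' E1 E1' : V → V → G} (h : Gau S c E E') (hE : ∀ x ∈ S, ∀ y ∈ S, E x y = E1 x y)
    (hE' : ∀ x ∈ S, ∀ y ∈ S, E' x y = E1' x y) : Gau S c E1 E1' := by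
  obtain ⟨ε, hε, h⟩ := h
  refine ⟨ε, hε, fun x hx y hy hxy => ?_⟩
  rw [← hE x hx y hy, ← hE' x hx y hy]
  exact h x hx y hy hxy

theorem b2_congr {V A : Type} [PseudoMetricSpace V] [CommRing A] {S : Set V}
    {e e' : V → V → Aˣ} {ω ω' : V → V → V → A} (h : B2 S e ω)
    (he : ∀ x ∈ S, ∀ y ∈ S, e x y = e' x y)
    (hω : ∀ x ∈ S, ∀ y ∈ S, ∀ z ∈ S, ω x y z = ω' x y z) : B2 S e' ω' := by
  obtain ⟨φ, ε, hε, h⟩ := h
  refine ⟨φ, ε, hε, fun x hx y hy z hz hxy hxz => ?_⟩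
  rw [← hω x hx y hy z hz, h x hx y hy z hz hxy hxz]
  simp only [d1, he x hx y hy]

theorem z2_smul {V A : Type} [PseudoMetricSpace V] [CommRing A] {S : Set V}
    {e : V → V → Aˣ} {ω : V → V → V → A} (h : Z2 S e ω) (a : A) :
    Z2 S e (fun x y z => a * ω x y z) := by
  obtain ⟨ε, hε, h⟩ := h
  refine ⟨ε, hε, fun w hw x hx y hy z hz h1 h2 h3 => ?_⟩
  have := h w hw x hx y hy z hz h1 h2 h3
  linear_combination a * this

end F2aux

open F2aux

theorem pF2 (hA6 : StA6) (hA7 : StA7) (hA10 : StA10) (hB2 : StB2) (hB4 : StB4) : StF2 := by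
  intro ι κ ι' κ' V V' K _ _ _ _ _ R R' g g' F G h k e ω hHE he hω
  obtain ⟨hF, hG, hh, h0, h1, hk, k0, k1⟩ := hHE
  have heF : Coc g.X (fun x y => e (F x) (F y)) := coc_pull he hF
  -- the gauge on `X'`
  have hg1 : Gau g'.X (fun y => PP e (k y)) e (fun x y => e (F (G x)) (F (G y))) := by
    refine gau_congr (hA7 V' V' Kˣ g'.X g'.X e k he hk) ?_ ?_
    · intro x hx y hy
      rw [k0 x hx, k0 y hy]
    · intro x hx y hy
      rw [k1 x hx, k1 y hy]
  -- the gauge on `X`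
  have hl : Gau g.X (fun x => PP (fun x y => e (F x) (F y)) (h x)) (fun x y => e (F x) (F y))
      (fun x y => e (F (G (F x))) (F (G (F y)))) := by
    refine gau_congr (hA7 V V Kˣ g.X g.X (fun x y => e (F x) (F y)) h heF hh) ?_ ?_
    · intro x hx y hy
      simp only [h0 x hx, h0 y hy]
    · intro x hx y hy
      simp only [h1 x hx, h1 y hy]
  have hg1F : Gau g.X (fun x => PP e (k (F x))) (fun x y => e (F x) (F y))
      (fun x y => e (F (G (F x))) (F (G (F y)))) :=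
    hA6.2.2.2.1 V V' Kˣ g.X g'.X (fun y => PP e (k y)) e (fun x y => e (F (G x)) (F (G y))) F hg1 hF
  -- the quotient is constant
  have hq : Gau g.X (fun x => PP (fun x y => e (F x) (F y)) (h x) * (PP e (k (F x)))⁻¹)
      (fun x y => e (F x) (F y)) (fun x y => e (F x) (F y)) :=
    hA6.2.2.1 V Kˣ g.X _ _ _ _ _ hl (hA6.2.1 V Kˣ g.X _ _ _ hg1F)
  have hloc : ∃ ε > 0, ∀ x ∈ g.X, ∀ y ∈ g.X, dist x y < ε →
      PP (fun x y => e (F x) (F y)) (h x) * (PP e (k (F x)))⁻¹ =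
        PP (fun x y => e (F x) (F y)) (h y) * (PP e (k (F y)))⁻¹ := by
    obtain ⟨ε, hε, hq⟩ := hq
    refine ⟨ε, hε, fun x hx y hy hxy => ?_⟩
    have := hq x hx y hy hxy
    rw [mul_comm (e (F x) (F y))] at this
    exact mul_right_cancel this
  have hconst : ∀ x ∈ g.X, PP (fun x y => e (F x) (F y)) (h x) =
      (PP (fun x y => e (F x) (F y)) (h g.o) * (PP e (k (F g.o)))⁻¹) * PP e (k (F x)) := by
    intro x hx
    obtain ⟨γ, hγ, hγ0, hγ1⟩ := g.conn x hx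
    have := hA10 V Kˣ g.X
      (fun x => PP (fun x y => e (F x) (F y)) (h x) * (PP e (k (F x)))⁻¹) γ hloc hγ
    simp only [hγ0, hγ1] at this
    rw [this]
    simp
  -- the cocycle on `X'`
  have hz1 : Z2 g'.X (fun x y => e (F (G x)) (F (G y))) (fun x y z => ω (G x) (G y) (G z)) :=
    (hB2.2.1 V' V K g'.X g.X G (fun x y => e (F x) (F y)) ω hG).1 hω
  have hz2 : Z2 g'.X e (fun x y z => ((PP e (k x) : Kˣ) : K) * ω (G x) (G y) (G z)) :=
    (hB2.1 V' K g'.X e (fun x y => e (F (G x)) (F (G y))) (fun y => PP e (k y))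
      (fun x y z => ω (G x) (G y) (G z)) hg1).1 hz1
  refine ⟨fun x y z => (((PP (fun x y => e (F x) (F y)) (h g.o) * (PP e (k (F g.o)))⁻¹ : Kˣ) : K)) *
    (((PP e (k x) : Kˣ) : K) * ω (G x) (G y) (G z)), z2_smul hz2 _, ?_⟩
  refine b2_congr (hB4 V V K g.X g.X (fun x y => e (F x) (F y)) ω h heF hω hh) ?_ ?_
  · intro x hx y hy
    simp only [h0 x hx, h0 y hy]
  · intro x hx y hy z hz
    simp only [h0 x hx, h0 y hy, h0 z hz, h1 x hx, h1 y hy, h1 z hz]
    rw [hconst x hx, Units.val_mul]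
    ring

end Pool.Agent.Helper74.SS
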