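import Pool.Agent.Helper74.SS.St

/-! Project SS, module G1 (helper84): evaluation of words. -/

set_option autoImplicit false

namespace Pool.Agent.Helper74.SS

theorem pG1 : StG1 := by
  intro ι G _ g
  have happ : ∀ u v : Wd ι, wev g (u ++ v) = wev g u * wev g v := by
    intro u v; simp [wev]
  have hnil : wev g [] = 1 := by simp [wev]
  have hcons : ∀ (x : ι × Bool) (u : Wd ι),
      wev g (x :: u) = (if x.2 then g x.1 else (g x.1)⁻¹) * wev g u := by
    intro x u; simp [wev]
  refine ⟨hnil, happ, ?_, ?_, ?_, ?_⟩
  · intro u
    induction u with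
    | nil => simp [wi, wev]
    | cons x u ih =>
      have h1 : wi (x :: u) = wi u ++ [(x.1, !x.2)] := by simp [wi]
      rw [h1, happ, ih, hcons x u, mul_inv_rev, hcons (x.1, !x.2) [], hnil, mul_one]
      cases h : x.2 <;> simp
  · intro x; simp [lt, wev]
  · intro u
    rw [FreeGroup.lift_mk]
    simp only [wev, cond_eq_ite]
  · intro H _ f u
    simp only [wev, map_list_prod, List.map_map]
    congr 1
    apply List.map_congr_left
    intro a _
    cases h : a.2 <;> simp [h]

end Pool.Agent.Helper74.SS
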