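import Pool.Agent.Helper74.SS.St

set_option autoImplicit false

open Set Metric Filter Topology

namespace Pool.Agent.Helper74.SS

theorem ell_add_G10 {A : Type} [CommRing A] (u : Gn → Aˣ) (c d : Rl ⊕ Unit → A) (a : A)
    (i : I6 ⊕ Unit) : ell u (fun j => c j + a * d j) i = ell u c i + a * ell u d i := by
  rcases i with ⟨i, k⟩ | ⟨⟩
  · fin_cases k
    · simp [ell]
    · simp [ell]
    · simp only [ell]
      ring
  · simp [ell]

theorem ell_zero_G10 {A : Type} [CommRing A] (u : Gn → Aˣ)
    (i : I6 ⊕ Unit) : ell u (fun _ => (0 : A)) i = 0 := by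
  rcases i with ⟨i, k⟩ | ⟨⟩
  · fin_cases k <;> simp [ell]
  · simp [ell]

theorem ell_mul_G10 {A : Type} [CommRing A] (u : Gn → Aˣ) (d : Rl ⊕ Unit → A) (a : A)
    (i : I6 ⊕ Unit) : ell u (fun j => a * d j) i = a * ell u d i := by
  have := ell_add_G10 u (fun _ => (0 : A)) d a i
  simp only [zero_add, ell_zero_G10] at this
  exact this

theorem ell_sum_G10 {A K : Type} [CommRing A] (u : Gn → Aˣ) (c : Rl ⊕ Unit → A) (s : Finset K)
    (a : K → A) (d : K → Rl ⊕ Unit → A) (i : I6 ⊕ Unit) :
    ell u (fun j => c j + ∑ k ∈ s, a k * d k j) i = ell u c i + ∑ k ∈ s, a k * ell u (d k) i := by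
  classical
  induction s using Finset.induction_on with
  | empty => simp
  | insert k s hk ih =>
    rw [Finset.sum_insert hk]
    have e : (fun j => c j + ∑ k ∈ insert k s, a k * d k j)
        = fun j => (c j + ∑ k ∈ s, a k * d k j) + a k * d k j := by
      funext j
      rw [Finset.sum_insert hk]
      ring
    rw [e, ell_add_G10 u (fun j => c j + ∑ k ∈ s, a k * d k j) (d k) (a k), ih]
    ring

theorem T_sum_G10 {A K : Type} [CommRing A]
    (T : (Rl ⊕ Unit → A) → (Rl ⊕ Unit → A) → Prop)
    (hT : ∀ (c' d' c d : Rl ⊕ Unit → A) (a : A), T c' c → T d' d →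
      T (fun j => c' j + a * d' j) (fun j => c j + a * d j))
    (c' c : Rl ⊕ Unit → A) (hc : T c' c) (s : Finset K) (a : K → A) (P Q : K → Rl ⊕ Unit → A)
    (hPQ : ∀ k, T (P k) (Q k)) :
    T (fun j => c' j + ∑ k ∈ s, a k * P k j) (fun j => c j + ∑ k ∈ s, a k * Q k j) := by
  classical
  induction s using Finset.induction_on with
  | empty => simpa using hc
  | insert k s hk ih =>
    have e : ∀ (x : Rl ⊕ Unit → A) (d : K → Rl ⊕ Unit → A),
        (fun j => x j + ∑ k ∈ insert k s, a k * d k j)
        = fun j => (x j + ∑ k ∈ s, a k * d k j) + a k * d k j := by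
      intro x d
      funext j
      rw [Finset.sum_insert hk]
      ring
    rw [e, e]
    exact hT _ _ _ _ (a k) ih (hPQ k)

theorem pG10 (hG8 : StG8) (hG9 : StG9) : StG10 := by
  classical
  intro A _ T uL uK hLa hLb hKa hKb hL hK hreg hT htotl htotr hbd
  obtain ⟨sL, kL⟩ := hG9 A uL hLa hLb hL
  obtain ⟨sK, _⟩ := hG9 A uK hKa hKb hK
  have hT0 : T (fun _ => 0) (fun _ => 0) := by
    obtain ⟨c, hc⟩ := htotl (fun _ => 0)
    have := hT _ _ _ _ (-1) hc hc
    have e1 : (fun j => (fun _ => (0 : A)) j + (-1) * (fun _ : Rl ⊕ Unit => (0 : A)) j)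
        = fun _ => (0 : A) := by funext j; simp
    have e2 : (fun j => c j + (-1) * c j) = fun _ => (0 : A) := by funext j; ring
    rw [e1, e2] at this
    exact this
  choose P hP using fun k : I6 ⊕ Unit => sL (Pi.single k 1)
  choose Q hQ using fun k : I6 ⊕ Unit => htotl (P k)
  have main : ∀ c' c, T c' c → ∀ i, ell uK c i = ∑ k, ell uL c' k * ell uK (Q k) i := by
    intro c' c hc
    have h1 := T_sum_G10 T hT c' c hc Finset.univ (fun k => -(ell uL c' k)) P Q hQ
    set d' : Rl ⊕ Unit → A := fun j => c' j + ∑ k, -(ell uL c' k) * P k j with hd'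
    set d : Rl ⊕ Unit → A := fun j => c j + ∑ k, -(ell uL c' k) * Q k j with hd
    have h2 : ell uL d' = 0 := by
      funext i
      rw [hd', ell_sum_G10]
      have : ∀ k, -(ell uL c' k) * ell uL (P k) i = if k = i then -(ell uL c' k) else 0 := by
        intro k
        rw [hP k, Pi.single_apply]
        by_cases h : i = k
        · rw [if_pos h, if_pos h.symm, mul_one]
        · rw [if_neg h, if_neg (Ne.symm h), mul_zero]
      rw [Finset.sum_congr rfl (fun k _ => this k)]
      simp
    have h3 := kL d' h2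
    have h4 := hT _ _ _ _ (ff uL) hT0 h1
    simp only [zero_add] at h4
    have h5 := hbd _ _ h4 h3
    have h6 := hG8 A uK _ hKa hKb (Or.inl h5)
    intro i
    have h7 : ff uL * ell uK d i = 0 := by
      rw [← ell_mul_G10]
      exact congrFun h6 i
    have h8 := hreg _ h7
    rw [hd, ell_sum_G10] at h8
    have h9 : ell uK c i = - ∑ k, -(ell uL c' k) * ell uK (Q k) i := eq_neg_of_add_eq_zero_left h8
    rw [h9, ← Finset.sum_neg_distrib]
    apply Finset.sum_congr rfl
    intro k _
    ring
  refine ⟨Matrix.of (fun l k => ell uK (Q k) l), ?_, ?_⟩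
  · choose c hc using fun k : I6 ⊕ Unit => sK (Pi.single k 1)
    choose c' hc' using fun k : I6 ⊕ Unit => htotr (c k)
    apply Matrix.isUnit_det_of_right_inverse (B := Matrix.of (fun l k => ell uL (c' k) l))
    ext l k
    rw [Matrix.mul_apply]
    have h1 := main (c' k) (c k) (hc' k) l
    rw [hc k] at h1
    have e : ∀ m, (Matrix.of (fun l k => ell uK (Q k) l)) l m
        * (Matrix.of (fun l k => ell uL (c' k) l)) m k = ell uL (c' k) m * ell uK (Q m) l := by
      intro m
      rw [Matrix.of_apply, Matrix.of_apply, mul_comm]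
    rw [Finset.sum_congr rfl (fun m _ => e m), ← h1, Matrix.one_apply, Pi.single_apply]
  · intro c' c hc
    funext i
    rw [main c' c hc i]
    unfold Matrix.mulVec dotProduct
    apply Finset.sum_congr rfl
    intro k _
    show ell uL c' k * ell uK (Q k) i = ell uK (Q k) i * ell uL c' k
    rw [mul_comm]

end Pool.Agent.Helper74.SS
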