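import Pool.Agent.Helper74.SS.St

set_option autoImplicit false

open Set Metric Filter Topology

namespace Pool.Agent.Helper74.SS

theorem pG11 (hG3 : StG3) (hG4 : StG4) (hG7 : StG7) : StG11 := by
  intro A _ θ μ ha hb hm hpq
  obtain ⟨hK, hL⟩ := hG4
  obtain ⟨h1, h2⟩ := hG7 (PG RKs) (PG RLs) (gen RKs) (gen RLs) θ hK hL A
    ((Heq.uHom A).comp μ) ha hb
  have hbu : ∀ i, (μ (θ (gen RKs (.b i)))).u = 1 := h1
  have hau : ∀ j, (μ (θ (gen RKs (.a j)))).u = 1 := h2
  have hbm : ∀ i, (μ (θ (gen RKs (.b i)))).m = 0 := by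
    intro i
    have hcomm : ∀ k, (1 - ((μ (θ (gen RKs (.st k)))).u : A)) *
        (μ (θ (gen RKs (.b i)))).m = 0 := by
      intro k
      have h3 := hK.bs i k
      have h4 : μ (θ (gen RKs (.b i))) * μ (θ (gen RKs (.st k))) =
          μ (θ (gen RKs (.st k))) * μ (θ (gen RKs (.b i))) := by
        rw [← map_mul, ← map_mul, ← map_mul, ← map_mul, h3.eq]
      have h5 := congrArg Heq.m h4
      rw [Heq.mul_m, Heq.mul_m, hbu i] at h5
      simp only [Units.val_one, one_mul] at h5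
      linear_combination h5
    obtain ⟨p, q, hpq⟩ := hpq
    have h6 := hcomm 0
    have h7 := hcomm 1
    linear_combination p * h6 + q * h7 - (μ (θ (gen RKs (.b i)))).m * hpq
  obtain ⟨_, _, _, l1, l2, l3⟩ := hG3 A (fun x => μ (gen RLs x)) ha hb hm
  obtain ⟨k1, k2, k3, _, _, _⟩ := hG3 A (fun x => μ (θ (gen RKs x))) hau hbu hbm
  refine ⟨hau, hbu, ?_, ?_, ?_, ?_⟩
  · intro i k
    fin_cases k
    · change Cup RLs (fun x => μ (gen RLs x)) (.inl (.ba i 0)) = _
      rw [l2]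
      rfl
    · change Cup RLs (fun x => μ (gen RLs x)) (.inl (.ba i 1)) = _
      rw [l2]
      rfl
    · change (1 - ((μ (gen RLs (.st 1))).u : A)) * Cup RLs (fun x => μ (gen RLs x)) (.inl (.st i 0)) -
        (1 - ((μ (gen RLs (.st 0))).u : A)) * Cup RLs (fun x => μ (gen RLs x)) (.inl (.st i 1)) =
        ((μ (gen RLs (.b i))).n : A) * ((1 - ((μ (gen RLs (.st 1))).u : A)) *
          (μ (gen RLs (.st 0))).m - (1 - ((μ (gen RLs (.st 0))).u : A)) * (μ (gen RLs (.st 1))).m)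
      rw [l1, l1]
      ring
  · exact l3
  · intro i k
    fin_cases k
    · change Cup RKs (fun x => μ (θ (gen RKs x))) (.inl (.ba i 0)) = _
      rw [k2]
      rfl
    · change Cup RKs (fun x => μ (θ (gen RKs x))) (.inl (.ba i 1)) = _
      rw [k2]
      rfl
    · change (1 - ((μ (θ (gen RKs (.st 1)))).u : A)) *
          Cup RKs (fun x => μ (θ (gen RKs x))) (.inl (.st i 0)) -
        (1 - ((μ (θ (gen RKs (.st 0)))).u : A)) *
          Cup RKs (fun x => μ (θ (gen RKs x))) (.inl (.st i 1)) =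
        ((μ (θ (gen RKs (.b i)))).n : A) * ((1 - ((μ (θ (gen RKs (.st 1)))).u : A)) *
          (μ (θ (gen RKs (.st 0)))).m -
          (1 - ((μ (θ (gen RKs (.st 0)))).u : A)) * (μ (θ (gen RKs (.st 1)))).m)
      rw [k1, k1]
      ring
  · exact k3

end Pool.Agent.Helper74.SS
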