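import Pool.Agent.Helper74.SS.St

/-! Project SS, module G3 (helper84): the values of the relators under `Cup`. -/

set_option autoImplicit false

namespace Pool.Agent.Helper74.SS

theorem pG3 (hG1 : StG1) (hG2 : StG2) : StG3 := by
  intro A _ μ ha hb hbm
  obtain ⟨hnil, happ, hwi, hlt, -, -⟩ := hG1 Gn (Hei A) (fun i => (μ i).lift)
  have hC : ∀ v w : Wd Gn, wev (fun i => (μ i).lift) (Cw v w) =
      wev (fun i => (μ i).lift) v * wev (fun i => (μ i).lift) w *
      (wev (fun i => (μ i).lift) v)⁻¹ *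
      (wev (fun i => (μ i).lift) w)⁻¹ := by
    intro v w; simp only [Cw, happ, hwi]
  -- projection of `Hei` to `Aff`
  let P : Hei A →* Aff A :=
    { toFun := fun a => ⟨a.m, a.u⟩
      map_one' := rfl
      map_mul' := fun _ _ => rfl }
  have hP : ∀ w : Wd Gn, P (wev (fun i => (μ i).lift) w) =
      wev (fun i => (⟨(μ i).m, (μ i).u⟩ : Aff A)) w := by
    intro w
    obtain ⟨-, -, -, -, -, h⟩ := hG1 Gn (Hei A) (fun i => (μ i).lift)
    exact h (Aff A) P w
  have hkey : ∀ (i : Fin 2) (w : Wd Gn), (wev (fun i => (μ i).lift) (Cw (lt (.b i)) w)).c =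
      ((μ (.b i)).n : A) * (wev (fun i => (μ i).lift) w).m := by
    intro i w
    rw [hC, hlt]
    generalize wev (fun i => (μ i).lift) w = y
    have e1 : (μ (.b i)).lift = ⟨0, 0, 1, (μ (.b i)).n⟩ := by
      ext
      · rfl
      · exact hbm i
      · show (((μ (.b i)).u : Aˣ) : A) = _
        rw [hb]
      · rfl
    rw [e1]
    generalize (μ (.b i)).n = β
    have h := Units.mul_inv y.u
    simp only [Hei.mul_c, Hei.mul_u, Hei.mul_n, Hei.inv_c, Hei.inv_m, Hei.inv_u,
      Hei.inv_n, Units.val_one, inv_one, one_mul, mul_one, mul_zero, add_zero, zero_add,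
      neg_zero, Int.cast_add, Int.cast_neg]
    linear_combination (-y.c - (β : A) * y.m + (y.n : A) * y.m - (y.n : A) * y.m + (β : A) * y.m) * h
  have hm : ∀ w : Wd Gn, (wev (fun i => (μ i).lift) w).m =
      (wev (fun i => (⟨(μ i).m, (μ i).u⟩ : Aff A)) w).m := by
    intro w
    have := congrArg Aff.m (hP w)
    exact this
  obtain ⟨hUU, -⟩ := hG2 A (fun x => (μ x).u) (fun x => (μ x).m) ha
  have hz : Cup RKs μ (.inr ()) = 0 := by
    show (wev (fun i => (μ i).lift) []).c = 0
    rw [hnil]; rfl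
  have hst : ∀ i k, (wev (fun i => (μ i).lift) (Cw (lt (.b i)) (lt (.st k)))).c =
      ((μ (.b i)).n : A) * (μ (.st k)).m := by
    intro i k; rw [hkey, hlt]; rfl
  have hba : ∀ i j, (wev (fun i => (μ i).lift) (Cw (lt (.b i)) (lt (.a j)))).c =
      ((μ (.b i)).n : A) * (μ (.a j)).m := by
    intro i k; rw [hkey, hlt]; rfl
  refine ⟨hst, hba, hz, hst, ?_, hz⟩
  intro i j
  show (wev (fun i => (μ i).lift)
    (if i = 0 then Cw (lt (.b 0)) (UU j) else Cw (lt (.b i)) (lt (.a j)))).c = _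
  split_ifs with hi
  · subst hi
    rw [hkey, hm, hUU]
  · exact hba i j

end Pool.Agent.Helper74.SS
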