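import Pool.Agent.Helper74.SS.St

/-!
Project SS, module G4: both groups satisfy `Sys`.
-/

set_option autoImplicit false

open Set Metric Filter Topology

namespace Pool.Agent.Helper74.SS

section G4

variable {G : Type} [Group G]

private theorem wev_Qw_G4 (hG1 : StG1) {ι : Type} (g : ι → G) (u v : Wd ι) :
    wev g (Qw u v) = wev g u * wev g v * (wev g u)⁻¹ * (wev g v)⁻¹ * (wev g v)⁻¹ := by
  obtain ⟨-, app, inv, -, -, -⟩ := hG1 ι G g
  rw [Qw, app, app, app, app, inv, inv]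

private theorem wev_Cw_G4 (hG1 : StG1) {ι : Type} (g : ι → G) (u v : Wd ι) :
    wev g (Cw u v) = 1 ↔ Commute (wev g u) (wev g v) := by
  obtain ⟨-, app, inv, -, -, -⟩ := hG1 ι G g
  rw [Cw, app, app, app, inv, inv, mul_inv_eq_one, mul_inv_eq_iff_eq_mul]
  rfl

private theorem comm_Qw_G4 (hG1 : StG1) {ι : Type} (g : ι → G) (u v : Wd ι) {x : G}
    (hu : Commute x (wev g u)) (hv : Commute x (wev g v)) : Commute x (wev g (Qw u v)) := by
  rw [wev_Qw_G4 hG1]
  exact (((hu.mul_right hv).mul_right hu.inv_right).mul_right hv.inv_right).mul_right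
    hv.inv_right

private theorem comm_WW2_G4 (hG1 : StG1) (g : Gn → G) (u : Fin 2 → Wd Gn) (j : Fin 2) {x : G}
    (hs : ∀ k, Commute x (g (.st k))) (hu : ∀ k, Commute x (wev g (u k))) :
    Commute x (wev g (WW2 u j)) := by
  obtain ⟨-, app, inv, hlt, -, -⟩ := hG1 Gn G g
  have hs' : ∀ k, Commute x (wev g (lt (.st k))) := by
    intro k
    rw [hlt]
    exact hs k
  unfold WW2
  split_ifs
  · rw [app, inv]
    exact (comm_Qw_G4 hG1 g _ _ (hs' _) (hu _)).mul_right
      (comm_Qw_G4 hG1 g _ _ (hs' _) (hu _)).inv_right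
  · rw [app]
    exact (comm_Qw_G4 hG1 g _ _ (hs' _) (hu _)).mul_right
      (comm_Qw_G4 hG1 g _ _ (hs' _) (hu _))

private theorem comm_UU_G4 (hG1 : StG1) (g : Gn → G) (j : Fin 2) {x : G}
    (hs : ∀ k, Commute x (g (.st k))) (ha : ∀ k, Commute x (g (.a k))) :
    Commute x (wev g (UU j)) := by
  obtain ⟨-, app, inv, hlt, -, -⟩ := hG1 Gn G g
  have hs' : ∀ k, Commute x (wev g (lt (.st k))) := by
    intro k
    rw [hlt]
    exact hs k
  have ha' : ∀ k, Commute x (wev g (lt (.a k))) := by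
    intro k
    rw [hlt]
    exact ha k
  unfold UU
  split_ifs
  · rw [app]
    exact (comm_Qw_G4 hG1 g _ _ (hs' _) (ha' _)).mul_right
      (comm_Qw_G4 hG1 g _ _ (hs' _) (ha' _))
  · rw [app, inv]
    exact (comm_Qw_G4 hG1 g _ _ (hs' _) (ha' _)).inv_right.mul_right
      (comm_Qw_G4 hG1 g _ _ (hs' _) (ha' _))

private theorem rel_G4 (hG1 : StG1) {ι κ : Type} (R : κ → Wd ι) (j : κ) :
    wev (gen R) (R j) = 1 := by
  obtain ⟨-, -, -, -, hl, -⟩ := hG1 ι (PG R) (gen R)
  rw [hl]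
  have h1 : FreeGroup.lift (gen R) =
      PresentedGroup.mk (Set.range fun j => FreeGroup.mk (R j)) := by
    ext i
    simp [gen, PresentedGroup.of]
  rw [h1]
  exact PresentedGroup.one_of_mem ⟨j, rfl⟩

private theorem univ_G4 (hG1 : StG1) {ι κ : Type} (R : κ → Wd ι) (h : ι → G)
    (hR : ∀ j, wev h (R j) = 1) : ∃ f : PG R →* G, ∀ x, f (gen R x) = h x := by
  obtain ⟨-, -, -, -, hl, -⟩ := hG1 ι G h
  have hr : ∀ r ∈ Set.range (fun j => FreeGroup.mk (R j)), FreeGroup.lift h r = 1 := by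
    rintro r ⟨j, rfl⟩
    rw [← hl]
    exact hR j
  exact ⟨PresentedGroup.toGroup hr, fun x => PresentedGroup.toGroup.of hr⟩

end G4

/-- G4: both groups satisfy `Sys`. -/
theorem pG4 (hG1 : StG1) : StG4 := by
  constructor
  · -- the group of `K`
    have hlt : ∀ x, wev (gen RKs) (lt x) = gen RKs x := (hG1 Gn _ (gen RKs)).2.2.2.1
    have hph : ∀ j, wev (gen RKs) (phiW j) = 1 := fun j => rel_G4 hG1 RKs (.inl (.phi j))
    have hbs : ∀ i k, Commute (gen RKs (.b i)) (gen RKs (.st k)) := by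
      intro i k
      have h1 := rel_G4 hG1 RKs (.inl (.st i k))
      have h2 := (wev_Cw_G4 hG1 (gen RKs) (lt (.b i)) (lt (.st k))).1 h1
      rwa [hlt, hlt] at h2
    have hba : ∀ i j, Commute (gen RKs (.b i)) (gen RKs (.a j)) := by
      intro i k
      have h1 := rel_G4 hG1 RKs (.inl (.ba i k))
      have h2 := (wev_Cw_G4 hG1 (gen RKs) (lt (.b i)) (lt (.a k))).1 h1
      rwa [hlt, hlt] at h2
    refine ⟨PresentedGroup.closure_range_of _, hbs, hba, hph, ?_⟩
    intro H _ h h1 h2 h3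
    refine univ_G4 hG1 RKs h ?_
    have hlt' : ∀ x, wev h (lt x) = h x := (hG1 Gn _ h).2.2.2.1
    rintro ((j | ⟨i, k⟩ | ⟨i, k⟩) | _)
    · exact h3 j
    · refine (wev_Cw_G4 hG1 h (lt (.b i)) (lt (.st k))).2 ?_
      rw [hlt', hlt']
      exact h1 i k
    · refine (wev_Cw_G4 hG1 h (lt (.b i)) (lt (.a k))).2 ?_
      rw [hlt', hlt']
      exact h2 i k
    · exact (hG1 Gn _ h).1
  · -- the group of `L`
    have hlt : ∀ x, wev (gen RLs) (lt x) = gen RLs x := (hG1 Gn _ (gen RLs)).2.2.2.1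
    have hph : ∀ j, wev (gen RLs) (phiW j) = 1 := fun j => rel_G4 hG1 RLs (.inl (.phi j))
    have hbs : ∀ i k, Commute (gen RLs (.b i)) (gen RLs (.st k)) := by
      intro i k
      have h1 := rel_G4 hG1 RLs (.inl (.st i k))
      have h2 := (wev_Cw_G4 hG1 (gen RLs) (lt (.b i)) (lt (.st k))).1 h1
      rwa [hlt, hlt] at h2
    have hU : ∀ j, Commute (gen RLs (.b 0)) (wev (gen RLs) (UU j)) := by
      intro j
      have h1 := rel_G4 hG1 RLs (.inl (.ba 0 j))
      have h2 := (wev_Cw_G4 hG1 (gen RLs) (lt (.b 0)) (UU j)).1 h1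
      rwa [hlt] at h2
    have hW : ∀ j, wev (gen RLs) (WW2 UU j) = gen RLs (.a j) := by
      intro j
      have h1 := hph j
      rw [phiW, (hG1 Gn _ (gen RLs)).2.1, (hG1 Gn _ (gen RLs)).2.2.1, hlt] at h1
      exact (inv_mul_eq_one.1 h1).symm
    have hba : ∀ i j, Commute (gen RLs (.b i)) (gen RLs (.a j)) := by
      intro i j
      by_cases hi : i = 0
      · subst hi
        rw [← hW j]
        exact comm_WW2_G4 hG1 (gen RLs) UU j (hbs 0) hU
      · have h1 := rel_G4 hG1 RLs (.inl (.ba i j))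
        have h0 : RLs (.inl (.ba i j)) = Cw (lt (.b i)) (lt (.a j)) := by
          show RL (.ba i j) = _
          simp [RL, hi]
        rw [h0] at h1
        have h2 := (wev_Cw_G4 hG1 (gen RLs) (lt (.b i)) (lt (.a j))).1 h1
        rwa [hlt, hlt] at h2
    refine ⟨PresentedGroup.closure_range_of _, hbs, hba, hph, ?_⟩
    intro H _ h h1 h2 h3
    refine univ_G4 hG1 RLs h ?_
    have hlt' : ∀ x, wev h (lt x) = h x := (hG1 Gn _ h).2.2.2.1
    rintro ((j | ⟨i, k⟩ | ⟨i, k⟩) | _)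
    · exact h3 j
    · refine (wev_Cw_G4 hG1 h (lt (.b i)) (lt (.st k))).2 ?_
      rw [hlt', hlt']
      exact h1 i k
    · by_cases hi : i = 0
      · subst hi
        refine (wev_Cw_G4 hG1 h (lt (.b 0)) (UU k)).2 ?_
        rw [hlt']
        exact comm_UU_G4 hG1 h k (h1 0) (h2 0)
      · have h0 : RLs (.inl (.ba i k)) = Cw (lt (.b i)) (lt (.a k)) := by
          show RL (.ba i k) = _
          simp [RL, hi]
        rw [h0]
        refine (wev_Cw_G4 hG1 h (lt (.b i)) (lt (.a k))).2 ?_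
        rw [hlt', hlt']
        exact h2 i k
    · exact (hG1 Gn _ h).1

end Pool.Agent.Helper74.SS
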