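import Pool.Agent.Helper74.SS.St

/-! Project SS, module G5 (helper84): real characters with many crossed homomorphisms. -/

set_option autoImplicit false

namespace Pool.Agent.Helper74.SS

/-- In a commutative group the relator `phiW j` has the value `h (a j)`. -/
theorem G5_comm (hG1 : StG1) (h : Gn → ℝˣ) (j : Fin 2) : wev h (phiW j) = h (.a j) := by
  obtain ⟨hnil, happ, hwi, hlt, -, -⟩ := hG1 Gn ℝˣ h
  have hQ : ∀ v w : Wd Gn, wev h (Qw v w) = (wev h w)⁻¹ := by
    intro v w
    simp only [Qw, happ, hwi]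
    rw [mul_right_comm (wev h v) (wev h w) (wev h v)⁻¹, mul_inv_cancel, one_mul, mul_inv_cancel,
      one_mul]
  have u0 : wev h (UU 0) = (h (.a 0))⁻¹ * (h (.a 1))⁻¹ := by
    show wev h (Qw (lt (.st 0)) (lt (.a 0)) ++ Qw (lt (.st 1)) (lt (.a 1))) = _
    rw [happ, hQ, hQ, hlt, hlt]
  have u1 : wev h (UU 1) = h (.a 0) * (h (.a 1))⁻¹ := by
    show wev h (wi (Qw (lt (.st 1)) (lt (.a 0))) ++ Qw (lt (.st 0)) (lt (.a 1))) = _
    rw [happ, hwi, hQ, hQ, hlt, hlt, inv_inv]
  unfold phiW WW2
  rw [happ, hwi, hlt]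
  split_ifs with hj
  · subst hj
    rw [happ, hwi, hQ, hQ, u0, u1]
    generalize h (.a 0) = x
    generalize h (.a 1) = y
    rw [mul_inv, inv_inv, inv_inv, inv_inv]
    calc x⁻¹ * (x * y * (x * y⁻¹)) = (x⁻¹ * x) * (y * y⁻¹) * x := by
          simp only [mul_assoc, mul_left_comm, mul_comm]
      _ = x := by simp
  · have hj1 : j = 1 := by omega
    subst hj1
    rw [happ, hQ, hQ, u0, u1]
    generalize h (.a 0) = x
    generalize h (.a 1) = y
    rw [mul_inv, mul_inv, inv_inv, inv_inv]
    calc y⁻¹ * (x * y * (x⁻¹ * y)) = (x * x⁻¹) * (y * y⁻¹) * y := by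
          simp only [mul_assoc, mul_left_comm, mul_comm]
      _ = y := by simp

/-- A crossed homomorphism as a homomorphism to the affine group. -/
theorem G5_hom {π : Type} [Group π] {χ : π →* ℝˣ} {m : π → ℝ} (hm : CH χ m) :
    ∃ M : π →* Aff ℝ, ∀ x, M x = ⟨m x, χ x⟩ := by
  have h1 : m 1 = 0 := by
    have := hm 1 1
    rw [mul_one, map_one, Units.val_one, one_mul] at this
    linarith
  refine ⟨{ toFun := fun x => ⟨m x, χ x⟩, map_one' := ?_, map_mul' := ?_ }, fun x => rfl⟩
  · ext
    · exact h1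
    · simp
  · intro x y
    ext
    · exact hm x y
    · simp

/-- A crossed homomorphism which vanishes on the generators vanishes. -/
theorem G5_zero {π : Type} [Group π] {g : Gn → π} {χ : π →* ℝˣ} {m : π → ℝ} (hm : CH χ m)
    (hg : Subgroup.closure (Set.range g) = ⊤) (h : ∀ x, m (g x) = 0) : m = 0 := by
  have h1 : m 1 = 0 := by
    have := hm 1 1
    rw [mul_one, map_one, Units.val_one, one_mul] at this
    linarith
  funext x
  have hx : x ∈ Subgroup.closure (Set.range g) := by rw [hg]; trivial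
  show m x = 0
  induction hx using Subgroup.closure_induction with
  | mem y hy => obtain ⟨z, rfl⟩ := hy; exact h z
  | one => exact h1
  | mul a b _ _ ha hb => rw [hm, ha, hb]; simp
  | inv a _ ha =>
    have := hm a⁻¹ a
    rw [inv_mul_cancel, h1, ha, mul_zero, add_zero] at this
    exact this.symm

theorem G5_exists {π : Type} [Group π] {χ : π →* ℝˣ} (hM : Many χ) (x y : π) :
    ∃ m : π → ℝ, CH χ m ∧ m ≠ 0 ∧ m x = 0 ∧ m y = 0 := by
  obtain ⟨m, hm, hl⟩ := hM
  let f : (Fin 3 → ℝ) →ₗ[ℝ] (Fin 2 → ℝ) :=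
    Matrix.mulVecLin (Matrix.of ![fun i => m i x, fun i => m i y])
  have hf : LinearMap.ker f ≠ ⊥ := by
    apply LinearMap.ker_ne_bot_of_finrank_lt
    simp
  obtain ⟨c, hc, hc0⟩ := Submodule.exists_mem_ne_zero_of_ne_bot hf
  rw [LinearMap.mem_ker] at hc
  refine ⟨∑ i, c i • m i, ?_, ?_, ?_, ?_⟩
  · intro a b
    simp only [Finset.sum_apply, Pi.smul_apply, smul_eq_mul]
    rw [Finset.mul_sum, ← Finset.sum_add_distrib]
    refine Finset.sum_congr rfl fun i _ => ?_
    rw [hm i a b]; ring
  · intro h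
    apply hc0
    funext i
    exact (Fintype.linearIndependent_iff.1 hl) c h i
  · have := congrFun hc 0
    simp only [f, Matrix.mulVecLin_apply, Matrix.mulVec, dotProduct, Matrix.of_apply,
      Matrix.cons_val_zero, Pi.zero_apply] at this
    simp only [Finset.sum_apply, Pi.smul_apply, smul_eq_mul]
    rw [← this]
    exact Finset.sum_congr rfl fun i _ => mul_comm _ _
  · have := congrFun hc 1
    simp only [f, Matrix.mulVecLin_apply, Matrix.mulVec, dotProduct, Matrix.of_apply,
      Matrix.cons_val_one, Pi.zero_apply] at this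
    simp only [Finset.sum_apply, Pi.smul_apply, smul_eq_mul]
    rw [← this]
    exact Finset.sum_congr rfl fun i _ => mul_comm _ _

/-- The relations between the values of a crossed homomorphism on the generators. -/
theorem G5_rel (hG1 : StG1) (hG2 : StG2) {π : Type} [Group π] {g : Gn → π} {χ : π →* ℝˣ}
    {m : π → ℝ} (hS : Sys π g) (ha : ∀ j, χ (g (.a j)) = 1) (hm : CH χ m) :
    (∀ j, ff (fun x => χ (g x)) * m (g (.a j)) = 0) ∧
    (∀ i k, (1 - (χ (g (.st k)) : ℝ)) * m (g (.b i)) +
      ((χ (g (.b i)) : ℝ) - 1) * m (g (.st k)) = 0) ∧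
    (∀ i j, ((χ (g (.b i)) : ℝ) - 1) * m (g (.a j)) = 0) := by
  obtain ⟨M, hMv⟩ := G5_hom hm
  obtain ⟨-, happ, hwi, hlt, -, hmap⟩ := hG1 Gn π g
  have hMw : ∀ w : Wd Gn, wev g w = 1 →
      (wev (fun i => (⟨m (g i), χ (g i)⟩ : Aff ℝ)) w).m = 0 := by
    intro w hw
    have h1 := hmap (Aff ℝ) M w
    rw [hw, map_one] at h1
    have h2 : (fun i => M (g i)) = fun i => (⟨m (g i), χ (g i)⟩ : Aff ℝ) := by
      funext i; exact hMv _
    rw [h2] at h1
    rw [← h1]; rfl
  have hcomm : ∀ x y : Gn, Commute (g x) (g y) → wev g (Cw (lt x) (lt y)) = 1 := by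
    intro x y hxy
    simp only [Cw, happ, hwi, hlt]
    rw [hxy.eq]; group
  obtain ⟨-, hp, hst, hba, -, -, -⟩ := hG2 ℝ (fun x => χ (g x)) (fun x => m (g x)) ha
  refine ⟨?_, ?_, ?_⟩
  · intro j
    have h := hMw _ (hS.ph j)
    have h' := hp j
    change wev _ (phiW j) = _ at h'
    rw [h'] at h
    exact h
  · intro i k
    have h := hMw _ (hcomm _ _ (hS.bs i k))
    have h' := hst i k
    change wev _ (Cw (lt (Gn.b i)) (lt (Gn.st k))) = _ at h'
    rw [h'] at h
    exact h
  · intro i j
    have h := hMw _ (hcomm _ _ (hS.ba i j))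
    have h' := hba i j
    change wev _ (Cw (lt (Gn.b i)) (lt (Gn.a j))) = _ at h'
    rw [h'] at h
    exact h

theorem pG5 (hG1 : StG1) (hG2 : StG2) : StG5 := by
  intro π _ g χ hS hχ hM
  have ha : ∀ j, χ (g (.a j)) = 1 := by
    intro j
    obtain ⟨-, -, -, -, -, hmap⟩ := hG1 Gn π g
    have h1 := hmap ℝˣ χ (phiW j)
    rw [hS.ph j, map_one, G5_comm hG1] at h1
    exact h1.symm
  -- it suffices to exclude two generators on which the crossed homomorphisms are determined
  have hno : ∀ x y : Gn, (∀ m : π → ℝ, CH χ m → m (g x) = 0 → m (g y) = 0 →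
      ∀ z, m (g z) = 0) → False := by
    intro x y h
    obtain ⟨m, h1, h2, h3, h4⟩ := G5_exists hM (g x) (g y)
    exact h2 (G5_zero h1 hS.gens (h m h1 h3 h4))
  have hb : ∀ i, χ (g (.b i)) = 1 := by
    by_contra hcon
    push Not at hcon
    obtain ⟨i, hi⟩ := hcon
    have hi' : ((χ (g (.b i)) : ℝ) - 1) ≠ 0 := by
      intro h0
      apply hi
      ext
      rw [Units.val_one]; linarith
    by_cases hst : ∀ k, χ (g (.st k)) = 1
    · refine hno (.b 0) (.b 1) ?_
      intro m hm h0 h1
      obtain ⟨-, r2, r3⟩ := G5_rel hG1 hG2 hS ha hm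
      have hbb : ∀ i, m (g (.b i)) = 0 := by
        intro i'
        fin_cases i'
        · exact h0
        · exact h1
      intro z
      rcases z with k | j | i'
      · have := r2 i k
        rw [hst k, Units.val_one, sub_self, zero_mul, zero_add] at this
        exact (mul_eq_zero.1 this).resolve_left hi'
      · exact (mul_eq_zero.1 (r3 i j)).resolve_left hi'
      · exact hbb i'
    · push Not at hst
      obtain ⟨k, hk⟩ := hst
      have hk' : (1 - (χ (g (.st k)) : ℝ)) ≠ 0 := by
        intro h0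
        apply hk
        ext
        rw [Units.val_one]; linarith
      refine hno (.b i) (.b i) ?_
      intro m hm h0 _
      obtain ⟨-, r2, r3⟩ := G5_rel hG1 hG2 hS ha hm
      have hs : ∀ k', m (g (.st k')) = 0 := by
        intro k'
        have := r2 i k'
        rw [h0, mul_zero, zero_add] at this
        exact (mul_eq_zero.1 this).resolve_left hi'
      intro z
      rcases z with k' | j | i'
      · exact hs k'
      · exact (mul_eq_zero.1 (r3 i j)).resolve_left hi'
      · have := r2 i' k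
        rw [hs k, mul_zero, add_zero] at this
        exact (mul_eq_zero.1 this).resolve_left hk'
  refine ⟨ha, hb, ?_⟩
  by_contra hf
  -- some `χ (st k)` is different from `1`
  have hex : ∃ k, χ (g (.st k)) ≠ 1 := by
    by_contra hcon
    push Not at hcon
    apply hχ
    ext x
    have hx : x ∈ Subgroup.closure (Set.range g) := by rw [hS.gens]; trivial
    have : χ x = 1 := by
      induction hx using Subgroup.closure_induction with
      | mem y hy =>
        obtain ⟨z, rfl⟩ := hy
        rcases z with k' | j | i'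
        · exact hcon k'
        · exact ha j
        · exact hb i'
      | one => exact map_one χ
      | mul a b _ _ ha hb => rw [map_mul, ha, hb, mul_one]
      | inv a _ ha => rw [map_inv, ha, inv_one]
    rw [this]; rfl
  obtain ⟨k, hk⟩ := hex
  have hk' : (1 - (χ (g (.st k)) : ℝ)) ≠ 0 := by
    intro h0
    apply hk
    ext
    rw [Units.val_one]; linarith
  refine hno (.st 0) (.st 1) ?_
  intro m hm h0 h1
  obtain ⟨r1, r2, -⟩ := G5_rel hG1 hG2 hS ha hm
  intro z
  rcases z with k' | j | i'
  · fin_cases k'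
    · exact h0
    · exact h1
  · exact (mul_eq_zero.1 (r1 j)).resolve_left hf
  · have := r2 i' k
    rw [hb i', Units.val_one, sub_self, zero_mul, add_zero] at this
    exact (mul_eq_zero.1 this).resolve_left hk'

end Pool.Agent.Helper74.SS
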