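import Pool.Agent.Helper74.SS.St

/-! Project SS, module G6: the characters on the circle have many crossed homomorphisms. -/

set_option autoImplicit false

open Set Metric Filter Topology

namespace Pool.Agent.Helper74.SS

/-- Every assignment of values on the generators which vanishes on the `b i` extends to a crossed
homomorphism. -/
private theorem ext_G6 (hG2 : StG2) {π : Type} [Group π] (g : Gn → π) (χ : π →* ℝˣ)
    (hS : Sys π g) (ha : ∀ j, χ (g (.a j)) = 1) (hb : ∀ i, χ (g (.b i)) = 1)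
    (hf : ff (fun x => χ (g x)) = 0) (m0 : Gn → ℝ) (hm : ∀ i, m0 (.b i) = 0) :
    ∃ m : π → ℝ, CH χ m ∧ ∀ x, m (g x) = m0 x := by
  have h1 : ∀ i, (⟨m0 (.b i), χ (g (.b i))⟩ : Aff ℝ) = 1 := by
    intro i
    rw [hm i, hb i]
    rfl
  obtain ⟨f, hfg⟩ := hS.univ (Aff ℝ) (fun x => ⟨m0 x, χ (g x)⟩)
    (fun i k => by
      show Commute (⟨m0 (.b i), χ (g (.b i))⟩ : Aff ℝ) _
      rw [h1 i]; exact Commute.one_left _)
    (fun i j => by
      show Commute (⟨m0 (.b i), χ (g (.b i))⟩ : Aff ℝ) _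
      rw [h1 i]; exact Commute.one_left _)
    (fun j => by
      have := (hG2 ℝ (fun x => χ (g x)) m0 ha).2.1 j
      rw [hf, zero_mul] at this
      exact this)
  have hu : (Aff.uHom ℝ).comp f = χ := by
    apply MonoidHom.eq_of_eqOn_dense hS.gens
    rintro _ ⟨x, rfl⟩
    show (f (g x)).u = χ (g x)
    rw [hfg x]
  refine ⟨fun x => (f x).m, ?_, fun x => by
    show (f (g x)).m = _
    rw [hfg x]⟩
  intro x y
  have h2 : (f x).u = χ x := DFunLike.congr_fun hu x
  show (f (x * y)).m = (f x).m + (χ x : ℝ) * (f y).m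
  rw [map_mul, Aff.mul_m, h2]

theorem pG6 (hG2 : StG2) : StG6 := by
  intro π _ g χ hS ha hb hf
  obtain ⟨m1, hc1, hv1⟩ := ext_G6 hG2 g χ hS ha hb hf
    (fun x => if x = .a 0 then 1 else 0) (fun i => by simp)
  obtain ⟨m2, hc2, hv2⟩ := ext_G6 hG2 g χ hS ha hb hf
    (fun x => if x = .a 1 then 1 else 0) (fun i => by simp)
  obtain ⟨m3, hc3, hv3⟩ := ext_G6 hG2 g χ hS ha hb hf
    (fun x => if x = .st 0 then 1 else 0) (fun i => by simp)
  refine ⟨![m1, m2, m3], ?_, ?_⟩
  · intro i
    fin_cases i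
    · exact hc1
    · exact hc2
    · exact hc3
  · rw [Fintype.linearIndependent_iff]
    intro c hc
    have hx : ∀ x : Gn, c 0 * m1 (g x) + c 1 * m2 (g x) + c 2 * m3 (g x) = 0 := by
      intro x
      have := congrFun hc (g x)
      simpa [Fin.sum_univ_three] using this
    have e1 := hx (.a 0)
    have e2 := hx (.a 1)
    have e3 := hx (.st 0)
    rw [hv1, hv2, hv3] at e1 e2 e3
    simp at e1 e2 e3
    intro i
    fin_cases i
    · exact e1
    · exact e2
    · exact e3

end Pool.Agent.Helper74.SS
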