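import Pool.Agent.Helper74.SS.St

/-! Project SS, module G7: characters trivial on `a_j`, `b_i` are trivial on `θ(a_j)`, `θ(b_i)`. -/

set_option autoImplicit false

open Set Metric Filter Topology

namespace Pool.Agent.Helper74.SS

/-- in a commutative group `u v u⁻¹ v⁻²` is `v⁻¹` -/
private theorem Qw_G7 (hG1 : StG1) {C : Type} [CommGroup C] (h : Gn → C) (u v : Wd Gn) :
    wev h (Qw u v) = (wev h v)⁻¹ := by
  obtain ⟨_, happ, hwi, _, _, _⟩ := hG1 Gn C h
  unfold Qw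
  rw [happ, happ, happ, happ, hwi, hwi]
  rw [mul_comm (wev h u) (wev h v), mul_assoc (wev h v), mul_inv_cancel, mul_one,
    mul_inv_cancel, one_mul]

private theorem phi_G7 (hG1 : StG1) {C : Type} [CommGroup C] (h : Gn → C) (j : Fin 2) :
    wev h (phiW j) = h (.a j) := by
  obtain ⟨_, happ, hwi, hlt, _, _⟩ := hG1 Gn C h
  have hU0 : wev h (UU 0) = (h (.a 0))⁻¹ * (h (.a 1))⁻¹ := by
    unfold UU
    rw [if_pos rfl, happ, Qw_G7 hG1, Qw_G7 hG1, hlt, hlt]
  have hU1 : wev h (UU 1) = h (.a 0) * (h (.a 1))⁻¹ := by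
    unfold UU
    rw [if_neg (by decide), happ, hwi, Qw_G7 hG1, Qw_G7 hG1, hlt, hlt, inv_inv]
  have hW0 : wev h (WW2 UU 0) = h (.a 0) * h (.a 0) := by
    unfold WW2
    rw [if_pos rfl, happ, hwi, Qw_G7 hG1, Qw_G7 hG1, hU0, hU1, inv_inv, mul_inv, inv_inv, inv_inv]
    rw [mul_assoc, mul_comm (h (.a 0)) (h (.a 1))⁻¹, mul_inv_cancel_left]
  have hW1 : wev h (WW2 UU 1) = h (.a 1) * h (.a 1) := by
    unfold WW2
    rw [if_neg (by decide), happ, Qw_G7 hG1, Qw_G7 hG1, hU0, hU1, mul_inv, mul_inv, inv_inv,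
      inv_inv]
    rw [mul_comm (h (.a 0)) (h (.a 1)), mul_assoc, mul_inv_cancel_left]
  unfold phiW
  rw [happ, hwi, hlt]
  fin_cases j
  · show (h (.a 0))⁻¹ * wev h (WW2 UU 0) = h (.a 0)
    rw [hW0, inv_mul_cancel_left]
  · show (h (.a 1))⁻¹ * wev h (WW2 UU 1) = h (.a 1)
    rw [hW1, inv_mul_cancel_left]

/-- values on the generators: `st 0 ↦ p`, `st 1 ↦ q`, the others to `1` -/
private def gv_G7 {C : Type} [CommGroup C] (p q : C) : Gn → C
  | .st k => if k = 0 then p else q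
  | .a _ => 1
  | .b _ => 1

private theorem ex_G7 (hG1 : StG1) {π : Type} [Group π] {g : Gn → π} (hs : Sys π g) {C : Type}
    [CommGroup C] (p q : C) : ∃ f : π →* C, f (g (.st 0)) = p ∧ f (g (.st 1)) = q ∧
      (∀ j, f (g (.a j)) = 1) ∧ ∀ i, f (g (.b i)) = 1 := by
  obtain ⟨f, hf⟩ := hs.univ C (gv_G7 p q) (fun _ _ => Commute.all _ _) (fun _ _ => Commute.all _ _)
    (fun j => by rw [phi_G7 hG1]; rfl)
  refine ⟨f, ?_, ?_, ?_, ?_⟩
  · rw [hf]; rfl
  · rw [hf]; rfl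
  · intro j; rw [hf]; rfl
  · intro j; rw [hf]; rfl

private theorem hom_ext_G7 {π : Type} [Group π] {g : Gn → π} (hs : Sys π g) {C : Type}
    [Group C] (f f' : π →* C) (h : ∀ x, f (g x) = f' (g x)) : f = f' := by
  apply MonoidHom.eq_of_eqOn_dense hs.gens
  rintro _ ⟨x, rfl⟩
  exact h x

private theorem many_G7 {π π' : Type} [Group π] [Group π'] (θ : π ≃* π') (χ : π' →* ℝˣ)
    (h : Many χ) : Many (χ.comp θ.toMonoidHom) := by
  obtain ⟨m, hm, hli⟩ := h
  refine ⟨fun i x => m i (θ x), ?_, ?_⟩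
  · intro i x y
    show m i (θ (x * y)) = m i (θ x) + (χ (θ x) : ℝ) * m i (θ y)
    rw [map_mul, hm i]
  · have h2 := hli.map' (LinearMap.funLeft ℝ ℝ (θ : π → π'))
      (LinearMap.ker_eq_bot.2 (LinearMap.funLeft_injective_of_surjective ℝ ℝ _ θ.surjective))
    exact h2

theorem pG7 (hG1 : StG1) (hG5 : StG5) (hG6 : StG6) : StG7 := by
  intro π π' _ _ g g' θ hs hs' A _ χ ha hb
  -- the key point: a real character on the circle is trivial at `θ (b i)`
  have key : ∀ (χ0 : π' →* ℝˣ), (∀ j, χ0 (g' (.a j)) = 1) → (∀ i, χ0 (g' (.b i)) = 1) →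
      ff (fun x => χ0 (g' x)) = 0 → χ0 ≠ 1 → ∀ i, χ0 (θ (g (.b i))) = 1 := by
    intro χ0 h1 h2 h3 h4 i
    have h5 := hG6 π' g' χ0 hs' h1 h2 h3
    have h6 := many_G7 θ χ0 h5
    have h7 : χ0.comp θ.toMonoidHom ≠ 1 := by
      intro h8
      apply h4
      ext x
      have h9 := DFunLike.congr_fun h8 (θ.symm x)
      have h10 : χ0 x = 1 := by
        have e : (χ0.comp θ.toMonoidHom) (θ.symm x) = χ0 x := by
          show χ0 (θ (θ.symm x)) = χ0 x
          rw [MulEquiv.apply_symm_apply]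
        rw [← e, h9]
        rfl
      rw [h10]
      rfl
    exact (hG5 π g (χ0.comp θ.toMonoidHom) hs h7 h6).2.1 i
  -- the exponent homomorphisms
  obtain ⟨τ1, hτ10, hτ11, hτ1a, hτ1b⟩ := ex_G7 hG1 hs' (C := Multiplicative ℤ)
    (Multiplicative.ofAdd 1) 1
  obtain ⟨τ2, hτ20, hτ21, hτ2a, hτ2b⟩ := ex_G7 hG1 hs' (C := Multiplicative ℤ)
    1 (Multiplicative.ofAdd 1)
  -- a character trivial on `a`, `b` is determined by the exponents
  have hdet : ∀ (C : Type) [CommGroup C] (f : π' →* C), (∀ j, f (g' (.a j)) = 1) →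
      (∀ i, f (g' (.b i)) = 1) → ∀ x, f x =
        f (g' (.st 0)) ^ (Multiplicative.toAdd (τ1 x)) *
          f (g' (.st 1)) ^ (Multiplicative.toAdd (τ2 x)) := by
    intro C _ f hfa hfb x
    have e : f = ((zpowersHom C (f (g' (.st 0)))).comp τ1) *
        ((zpowersHom C (f (g' (.st 1)))).comp τ2) := by
      apply hom_ext_G7 hs'
      intro y
      rw [MonoidHom.mul_apply, MonoidHom.comp_apply, MonoidHom.comp_apply, zpowersHom_apply,
        zpowersHom_apply]
      rcases y with k | j | i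
      · fin_cases k
        · show f (g' (.st 0)) = f (g' (.st 0)) ^ (Multiplicative.toAdd (τ1 (g' (.st 0)))) *
            f (g' (.st 1)) ^ (Multiplicative.toAdd (τ2 (g' (.st 0))))
          rw [hτ10, hτ20]
          simp
        · show f (g' (.st 1)) = f (g' (.st 0)) ^ (Multiplicative.toAdd (τ1 (g' (.st 1)))) *
            f (g' (.st 1)) ^ (Multiplicative.toAdd (τ2 (g' (.st 1))))
          rw [hτ11, hτ21]
          simp
      · rw [hτ1a, hτ2a, hfa]
        simp
      · rw [hτ1b, hτ2b, hfb]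
        simp
    have h2 := DFunLike.congr_fun e x
    rw [MonoidHom.mul_apply, MonoidHom.comp_apply, MonoidHom.comp_apply, zpowersHom_apply,
      zpowersHom_apply] at h2
    exact h2
  have h2z : ∀ n : ℤ, (Units.mk0 (2 : ℝ) two_ne_zero) ^ n = 1 → n = 0 := by
    intro n hn
    have h := congrArg (fun u : ℝˣ => (u : ℝ)) hn
    simp only [Units.val_zpow_eq_zpow_val, Units.val_mk0, Units.val_one] at h
    exact (zpow_eq_one_iff_right₀ (by norm_num) (by norm_num)).1 h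
  have hne : (Units.mk0 (2 : ℝ) two_ne_zero) ≠ 1 := by
    intro h
    have h2 := congrArg (fun u : ℝˣ => (u : ℝ)) h
    norm_num at h2
  have hz2 : ∀ i, Multiplicative.toAdd (τ2 (θ (g (.b i)))) = 0 := by
    intro i
    obtain ⟨χ0, h0, h1, h2, h3⟩ := ex_G7 hG1 hs' (C := ℝˣ) 1 (Units.mk0 (2 : ℝ) two_ne_zero)
    have h4 : ff (fun x => χ0 (g' x)) = 0 := by
      unfold ff
      beta_reduce
      rw [h0, h1, Units.val_one, Units.val_mk0]
      norm_num
    have h5 : χ0 ≠ 1 := by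
      intro h
      rw [h] at h1
      exact hne h1.symm
    have h6 := key χ0 h2 h3 h4 h5 i
    rw [hdet ℝˣ χ0 h2 h3 (θ (g (.b i))), h0, h1, one_zpow, one_mul] at h6
    exact h2z _ h6
  have hz1 : ∀ i, Multiplicative.toAdd (τ1 (θ (g (.b i)))) = 0 := by
    intro i
    obtain ⟨χ0, h0, h1, h2, h3⟩ := ex_G7 hG1 hs' (C := ℝˣ) (Units.mk0 (2 : ℝ) two_ne_zero) 1
    have h4 : ff (fun x => χ0 (g' x)) = 0 := by
      unfold ff
      beta_reduce
      rw [h0, h1, Units.val_one, Units.val_mk0]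
      norm_num
    have h5 : χ0 ≠ 1 := by
      intro h
      rw [h] at h0
      exact hne h0.symm
    have h6 := key χ0 h2 h3 h4 h5 i
    rw [hdet ℝˣ χ0 h2 h3 (θ (g (.b i))), h0, h1, one_zpow, mul_one] at h6
    exact h2z _ h6
  constructor
  · intro i
    rw [hdet Aˣ χ ha hb (θ (g (.b i))), hz1 i, hz2 i, zpow_zero, zpow_zero, mul_one]
  · intro j
    have h1 := phi_G7 hG1 (fun x => (χ.comp θ.toMonoidHom) (g x)) j
    have h2 := (hG1 Gn π g).2.2.2.2.2 Aˣ (χ.comp θ.toMonoidHom) (phiW j)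
    rw [← h2, hs.ph j, map_one] at h1
    exact h1.symm

end Pool.Agent.Helper74.SS
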