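import Pool.Agent.Helper74.SS.St

/-! Project SS, module G8 (helper84): `ell` kills coboundaries. -/

set_option autoImplicit false

namespace Pool.Agent.Helper74.SS

theorem pG8 (hG2 : StG2) : StG8 := by
  intro A _ u c ha hb hc
  have key : (∀ i j, c (.inl (.ba i j)) = 0) ∧ c (.inr ()) = 0 ∧
      ∃ g : Fin 2 → A, ∀ i k, c (.inl (.st i k)) = (1 - (u (.st k) : A)) * g i := by
    rcases hc with ⟨m, hm⟩ | ⟨m, hm⟩
    · obtain ⟨-, -, h1, h2, -, -, -⟩ := hG2 A u m ha
      refine ⟨?_, ?_, fun i => m (.b i), ?_⟩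
      · intro i j
        rw [hm]
        show (wev (fun i => (⟨m i, u i⟩ : Aff A)) (RK (.ba i j))).m = 0
        rw [h2, hb]; simp
      · rw [hm]; rfl
      · intro i k
        rw [hm]
        show (wev (fun i => (⟨m i, u i⟩ : Aff A)) (RK (.st i k))).m = _
        rw [h1, hb]; simp
    · obtain ⟨-, -, -, -, -, h1, h2⟩ := hG2 A u m ha
      refine ⟨?_, ?_, fun i => m (.b i), ?_⟩
      · intro i j
        rw [hm]
        show (wev (fun i => (⟨m i, u i⟩ : Aff A)) (RL (.ba i j))).m = 0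
        rw [h2, hb]; simp
      · rw [hm]; rfl
      · intro i k
        rw [hm]
        show (wev (fun i => (⟨m i, u i⟩ : Aff A)) (RL (.st i k))).m = _
        rw [h1, hb]; simp
  obtain ⟨h1, h2, g, h3⟩ := key
  funext p
  rcases p with ⟨i, k⟩ | ⟨⟩
  · fin_cases k
    · exact h1 i 0
    · exact h1 i 1
    · show (1 - (u (.st 1) : A)) * c (.inl (.st i 0)) -
        (1 - (u (.st 0) : A)) * c (.inl (.st i 1)) = 0
      rw [h3, h3]; ring
  · exact h2

end Pool.Agent.Helper74.SS
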