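import Pool.Agent.Helper74.SS.St

/-! Project SS, module G9 (helper84): surjectivity of `ell` and its kernel. -/

set_option autoImplicit false

namespace Pool.Agent.Helper74.SS

theorem pG9 (hG2 : StG2) : StG9 := by
  intro A _ u ha hb hpq
  obtain ⟨p, q, hpq⟩ := hpq
  refine ⟨?_, ?_⟩
  · intro d
    let c : Rl ⊕ Unit → A
      | .inl (.phi _) => 0
      | .inl (.st i k) => if k = 0 then q * d (.inl (i, 2)) else -(p * d (.inl (i, 2)))
      | .inl (.ba i j) => if j = 0 then d (.inl (i, 0)) else d (.inl (i, 1))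
      | .inr () => d (.inr ())
    refine ⟨c, ?_⟩
    funext x
    rcases x with ⟨i, k⟩ | ⟨⟩
    · fin_cases k
      · rfl
      · rfl
      · show (1 - (u (.st 1) : A)) * c (.inl (.st i 0)) -
          (1 - (u (.st 0) : A)) * c (.inl (.st i 1)) = d (.inl (i, 2))
        show (1 - (u (.st 1) : A)) * (q * d (.inl (i, 2))) -
          (1 - (u (.st 0) : A)) * (-(p * d (.inl (i, 2)))) = d (.inl (i, 2))
        linear_combination (d (.inl (i, 2))) * hpq
    · rfl
  · intro c hc
    let gg : Fin 2 → A := fun i => p * c (.inl (.st i 0)) + q * c (.inl (.st i 1))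
    have h0 : ∀ i, c (.inl (.ba i 0)) = 0 := fun i => congrFun hc (.inl (i, 0))
    have h1 : ∀ i, c (.inl (.ba i 1)) = 0 := fun i => congrFun hc (.inl (i, 1))
    have h2 : ∀ i, (1 - (u (.st 1) : A)) * c (.inl (.st i 0)) -
        (1 - (u (.st 0) : A)) * c (.inl (.st i 1)) = 0 := fun i => congrFun hc (.inl (i, 2))
    have h3 : c (.inr ()) = 0 := congrFun hc (.inr ())
    have hs : ∀ i k, c (.inl (.st i k)) = (1 - (u (.st k) : A)) * gg i := by
      intro i k
      fin_cases k
      · show c (.inl (.st i 0)) = (1 - (u (.st 0) : A)) *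
          (p * c (.inl (.st i 0)) + q * c (.inl (.st i 1)))
        linear_combination (-(c (.inl (.st i 0)))) * hpq + q * h2 i
      · show c (.inl (.st i 1)) = (1 - (u (.st 1) : A)) *
          (p * c (.inl (.st i 0)) + q * c (.inl (.st i 1)))
        linear_combination (-(c (.inl (.st i 1)))) * hpq - p * h2 i
    let m : Gn → A
      | .st _ => 0
      | .a j => c (.inl (.phi j))
      | .b i => ff u * gg i
    obtain ⟨-, -, -, -, hp, hst, hba⟩ := hG2 A u m ha
    refine ⟨m, ?_⟩
    intro x
    rcases x with (j | ⟨i, k⟩ | ⟨i, j⟩) | ⟨⟩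
    · show ff u * c (.inl (.phi j)) = (wev (fun i => (⟨m i, u i⟩ : Aff A)) (RL (.phi j))).m
      rw [hp]
    · show ff u * c (.inl (.st i k)) = (wev (fun i => (⟨m i, u i⟩ : Aff A)) (RL (.st i k))).m
      rw [hst, hs]
      show ff u * ((1 - (u (.st k) : A)) * gg i) =
        (1 - (u (.st k) : A)) * (ff u * gg i) + ((u (.b i) : A) - 1) * 0
      ring
    · show ff u * c (.inl (.ba i j)) = (wev (fun i => (⟨m i, u i⟩ : Aff A)) (RL (.ba i j))).m
      rw [hba, hb]
      have : c (.inl (.ba i j)) = 0 := by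
        fin_cases j
        · exact h0 i
        · exact h1 i
      rw [this]; simp
    · show ff u * c (.inr ()) = 0
      rw [h3, mul_zero]

end Pool.Agent.Helper74.SS
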