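import Pool.Agent.Helper74.SS.St

/-! Project SS, module H1: the octonionic gamma matrices. -/

set_option autoImplicit false

open Matrix

namespace Pool.Agent.Helper74.SS

namespace H1

/-- the signs of the multiplication table of the octonions -/
def sgT : List (List ℤ) :=
  [[1, 1, 1, 1, 1, 1, 1, 1], [1, -1, 1, -1, 1, -1, -1, 1], [1, -1, -1, 1, 1, 1, -1, -1],
   [1, 1, -1, -1, 1, -1, 1, -1], [1, -1, -1, -1, -1, 1, 1, 1], [1, 1, -1, 1, -1, -1, -1, 1],
   [1, 1, 1, -1, -1, 1, -1, -1], [1, -1, 1, 1, -1, -1, 1, -1]]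

/-- sign of `e k * e j` -/
def sg (k j : Fin 8) : ℤ := (sgT.getD k.val []).getD j.val 0

/-- addition of labels -/
def xo (k j : Fin 8) : Fin 8 := ⟨(k.val ^^^ j.val) % 8, Nat.mod_lt _ (by norm_num)⟩

/-- left multiplication by `e k` -/
def LL (k : Fin 8) : Matrix (Fin 8) (Fin 8) ℤ := fun i j => if i = xo k j then sg k j else 0

/-- labels of the seven matrices -/
def ix : N7 → Fin 8
  | Sum.inl (a, b) => ⟨(1 + 3 * a.val + b.val) % 8, Nat.mod_lt _ (by norm_num)⟩
  | Sum.inr _ => 7

/-- the real matrices -/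
noncomputable def ga (q : N7) : M8 := (LL (ix q)).map (Int.castRingHom ℝ)

lemma LL_tr : ∀ q : N7, ∀ i j, LL (ix q) j i = -LL (ix q) i j := by decide +kernel

lemma LL_sq : ∀ q : N7, ∀ i j, (LL (ix q) * LL (ix q)) i j = (-1 : Matrix (Fin 8) (Fin 8) ℤ) i j := by
  decide +kernel

lemma LL_anti : ∀ q r : N7, q ≠ r →
    ∀ i j, (LL (ix q) * LL (ix r)) i j = (-(LL (ix r) * LL (ix q))) i j := by
  decide +kernel

/-- all labels occur -/
lemma ix_surj : ∀ k : Fin 8, k ≠ 0 → ∃ q : N7, ix q = k := by decide +kernel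

/-- transport sign -/
def tt (k i m : Fin 8) : ℤ := sg k (xo k i) * sg k (xo k m)

lemma path_off : ∀ i m : Fin 8, i ≠ m → ∃ k l p : Fin 8, k ≠ 0 ∧ l ≠ 0 ∧ p ≠ 0 ∧
    xo p (xo l (xo k i)) = i ∧ xo p (xo l (xo k m)) = m ∧
    tt k i m * tt l (xo k i) (xo k m) * tt p (xo l (xo k i)) (xo l (xo k m)) = -1 := by
  decide +kernel

lemma diag_all : ∀ i : Fin 8, i ≠ 0 → ∃ k : Fin 8, k ≠ 0 ∧ xo k 0 = i ∧ tt k 0 0 = 1 := by
  decide +kernel

lemma xo_xo : ∀ k i : Fin 8, xo k (xo k i) = i := by decide +kernel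

lemma sg_sq : ∀ k i : Fin 8, sg k i * sg k i = 1 := by decide +kernel

lemma sg_flip : ∀ k : Fin 8, k ≠ 0 → ∀ i, sg k (xo k i) = -sg k i := by decide +kernel

lemma step (X : M8) (hX : ∀ i, X * ga i = ga i * X) (k : Fin 8) (hk : k ≠ 0) (i m : Fin 8) :
    X (xo k i) (xo k m) = (tt k i m : ℝ) * X i m := by
  obtain ⟨q, rfl⟩ := ix_surj k hk
  have h := congrFun (congrFun (hX q) i) (xo (ix q) m)
  rw [Matrix.mul_apply, Matrix.mul_apply] at h
  have h1 : ∑ x, X i x * ga q x (xo (ix q) m) = X i m * (sg (ix q) (xo (ix q) m) : ℝ) := by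
    rw [Finset.sum_eq_single m]
    · unfold ga LL
      simp [xo_xo]
    · intro b _ hb
      unfold ga LL
      simp [xo_xo, hb]
    · intro h0; exact absurd (Finset.mem_univ _) h0
  have h2 : ∑ x, ga q i x * X x (xo (ix q) m) =
      (sg (ix q) (xo (ix q) i) : ℝ) * X (xo (ix q) i) (xo (ix q) m) := by
    rw [Finset.sum_eq_single (xo (ix q) i)]
    · unfold ga LL
      simp [xo_xo]
    · intro b _ hb
      unfold ga LL
      have : i ≠ xo (ix q) b := by
        intro h0
        apply hb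
        rw [h0, xo_xo]
      simp [this]
    · intro h0; exact absurd (Finset.mem_univ _) h0
  rw [h1, h2] at h
  have h3 : ((sg (ix q) (xo (ix q) i) : ℤ) : ℝ) * ((sg (ix q) (xo (ix q) i) : ℤ) : ℝ) = 1 := by
    exact_mod_cast sg_sq _ _
  unfold tt
  push_cast
  linear_combination (-(sg (ix q) (xo (ix q) i) : ℝ)) * h -
    X (xo (ix q) i) (xo (ix q) m) * h3

lemma gam : Gam ga where
  tr q := by
    ext i j
    unfold ga
    simp only [Matrix.transpose_apply, Matrix.map_apply, Matrix.neg_apply, LL_tr q i j, map_neg]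
  sq q := by
    unfold ga
    rw [← Matrix.map_mul]
    ext i j
    rw [Matrix.map_apply, LL_sq q i j]
    simp only [Matrix.neg_apply, Matrix.one_apply, map_neg]
    split_ifs <;> simp
  anti q r hqr := by
    unfold ga
    rw [← Matrix.map_mul, ← Matrix.map_mul]
    ext i j
    rw [Matrix.map_apply, LL_anti q r hqr i j]
    simp only [Matrix.neg_apply, map_neg, Matrix.map_apply]
  comm X hX := by
    refine ⟨X 0 0, ?_⟩
    ext i m
    by_cases him : i = m
    · subst him
      by_cases hi : i = 0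
      · subst hi; simp
      · obtain ⟨k, hk, h1, h2⟩ := diag_all i hi
        have := step X hX k hk 0 0
        rw [h1, h2] at this
        rw [this]
        simp
    · obtain ⟨k, l, p, hk, hl, hp, e1, e2, e3⟩ := path_off i m him
      have a1 := step X hX k hk i m
      have a2 := step X hX l hl (xo k i) (xo k m)
      have a3 := step X hX p hp (xo l (xo k i)) (xo l (xo k m))
      rw [e1, e2] at a3
      rw [a2, a1] at a3
      have e4 : ((tt k i m * tt l (xo k i) (xo k m) *
        tt p (xo l (xo k i)) (xo l (xo k m)) : ℤ) : ℝ) = -1 := by rw [e3]; simp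
      push_cast at e4
      have : X i m = -X i m := by
        linear_combination a3 + X i m * e4
      have h0 : X i m = 0 := by linarith
      simp [h0, him]

end H1

theorem pH1 : StH1 := ⟨H1.ga, H1.gam⟩

end Pool.Agent.Helper74.SS
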