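import Pool.Agent.Helper74.SS.St

/-! Project SS, module H2: algebra of intertwiners. -/

set_option autoImplicit false

open Matrix

namespace Pool.Agent.Helper74.SS

namespace H2

variable {n : Type} [Fintype n] {γ : n → M8}

lemma gm_tr (hγ : Gam γ) (g : Matrix n n ℝ) (i : n) : (gm γ g i).transpose = -gm γ g i := by
  unfold gm
  rw [Matrix.transpose_sum, ← Finset.sum_neg_distrib]
  refine Finset.sum_congr rfl fun j _ => ?_
  rw [Matrix.transpose_smul, hγ.tr, smul_neg]

/-- `M ᵀ` on the other side -/
lemma tr_gm {g : Matrix n n ℝ} {M : M8} (h : Itw γ g M) (i : n) :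
    M.transpose * gm γ g i = γ i * M.transpose := by
  obtain ⟨h1, h2, h3⟩ := h
  calc M.transpose * gm γ g i = M.transpose * gm γ g i * (M * M.transpose) := by rw [h3, mul_one]
    _ = M.transpose * (gm γ g i * M) * M.transpose := by simp only [mul_assoc]
    _ = M.transpose * (M * γ i) * M.transpose := by rw [h1]
    _ = (M.transpose * M) * γ i * M.transpose := by simp only [mul_assoc]
    _ = γ i * M.transpose := by rw [h2, one_mul]

lemma uniq (hγ : Gam γ) {g : Matrix n n ℝ} {M M' : M8} (h : Itw γ g M) (h' : Itw γ g M') :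
    M' = M ∨ M' = -M := by
  have hc : ∀ i, (M.transpose * M') * γ i = γ i * (M.transpose * M') := by
    intro i
    rw [mul_assoc, ← h'.1 i, ← mul_assoc, tr_gm h i, mul_assoc]
  obtain ⟨c, hc⟩ := hγ.comm _ hc
  have hM : M' = c • M := by
    calc M' = (M * M.transpose) * M' := by rw [h.2.2, one_mul]
      _ = M * (M.transpose * M') := by rw [mul_assoc]
      _ = c • M := by rw [hc]; simp
  have h4 : (c * c) • (1 : M8) = 1 := by
    calc (c * c) • (1 : M8) = (c • M).transpose * (c • M) := by
          rw [Matrix.transpose_smul, Matrix.smul_mul, Matrix.mul_smul, h.2.1, smul_smul]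
      _ = 1 := by rw [← hM]; exact h'.2.1
  have h5 : c * c = 1 := by
    have := congrFun (congrFun h4 0) 0
    simpa using this
  rcases mul_self_eq_one_iff.mp h5 with rfl | rfl
  · left; rw [hM, one_smul]
  · right; rw [hM, neg_smul, one_smul]

lemma gm_mul (g h : Matrix n n ℝ) (i : n) : gm γ (g * h) i = ∑ k, h k i • gm γ g k := by
  unfold gm
  simp only [Matrix.mul_apply, Finset.sum_smul, Finset.smul_sum, smul_smul]
  rw [Finset.sum_comm]
  refine Finset.sum_congr rfl fun k _ => Finset.sum_congr rfl fun j _ => ?_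
  rw [mul_comm]

lemma mul_itw {g h : Matrix n n ℝ} {M M' : M8} (hM : Itw γ g M) (hM' : Itw γ h M') :
    Itw γ (g * h) (M * M') := by
  refine ⟨fun i => ?_, ?_, ?_⟩
  · have e1 : (∑ k, h k i • gm γ g k) * M = M * gm γ h i := by
      rw [Finset.sum_mul]
      unfold gm
      rw [Finset.mul_sum]
      refine Finset.sum_congr rfl fun k _ => ?_
      have := hM.1 k
      unfold gm at this
      rw [Matrix.smul_mul, this, Matrix.mul_smul]
    rw [gm_mul, ← mul_assoc, e1, mul_assoc, hM'.1, ← mul_assoc]
  · rw [Matrix.transpose_mul]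
    calc M'.transpose * M.transpose * (M * M') = M'.transpose * (M.transpose * M) * M' := by
          simp only [mul_assoc]
      _ = 1 := by rw [hM.2.1, mul_one, hM'.2.1]
  · rw [Matrix.transpose_mul]
    calc M * M' * (M'.transpose * M.transpose) = M * (M' * M'.transpose) * M.transpose := by
          simp only [mul_assoc]
      _ = 1 := by rw [hM'.2.2, mul_one, hM.2.2]

lemma gm_one [DecidableEq n] (i : n) : gm γ 1 i = γ i := by
  unfold gm
  rw [Finset.sum_eq_single i]
  · simp
  · intro b _ hb; simp [Matrix.one_apply, hb]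
  · intro h0; exact absurd (Finset.mem_univ _) h0

lemma one_itw [DecidableEq n] : Itw γ (1 : Matrix n n ℝ) 1 := by
  refine ⟨fun i => ?_, by simp, by simp⟩
  rw [gm_one, mul_one, one_mul]

lemma tr_itw [DecidableEq n] {g : Matrix n n ℝ} (hg : g ∈ OO n) {M : M8} (hM : Itw γ g M) :
    Itw γ g.transpose M.transpose := by
  refine ⟨fun i => ?_, ?_, ?_⟩
  · -- `γ i = ∑ j, g i j • gm γ g j`
    have e1 : ∑ j, g i j • gm γ g j = γ i := by
      have := gm_mul (γ := γ) g g.transpose i
      rw [hg.1, gm_one] at this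
      rw [this]
      refine Finset.sum_congr rfl fun j _ => ?_
      rw [Matrix.transpose_apply]
    have e2 : gm γ g.transpose i * M.transpose = M.transpose * γ i := by
      conv_rhs => rw [← e1]
      rw [Finset.mul_sum]
      unfold gm
      rw [Finset.sum_mul]
      refine Finset.sum_congr rfl fun j _ => ?_
      have := tr_gm hM j
      unfold gm at this
      rw [Matrix.mul_smul, this, Matrix.smul_mul, Matrix.transpose_apply]
    exact e2
  · rw [Matrix.transpose_transpose]; exact hM.2.2
  · rw [Matrix.transpose_transpose]; exact hM.2.1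

lemma neg_itw {g : Matrix n n ℝ} {M : M8} (hM : Itw γ g M) : Itw γ g (-M) := by
  refine ⟨fun i => ?_, ?_, ?_⟩
  · rw [Matrix.mul_neg, hM.1, Matrix.neg_mul]
  · rw [Matrix.transpose_neg, neg_mul_neg]; exact hM.2.1
  · rw [Matrix.transpose_neg, neg_mul_neg]; exact hM.2.2

end H2

theorem pH2 : StH2 := by
  intro n _ _ γ hγ
  exact ⟨fun g M M' h h' => H2.uniq hγ h h', fun g h M M' h1 h2 => H2.mul_itw h1 h2, H2.one_itw,
    fun g hg M hM => H2.tr_itw hg hM, fun g M hM => H2.neg_itw hM⟩

end Pool.Agent.Helper74.SS
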