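import Pool.Agent.Helper74.SS.P.H2

/-! Project SS, module H3: intertwiners near the identity. -/

set_option autoImplicit false

open Matrix Filter Topology

namespace Pool.Agent.Helper74.SS

namespace H3

variable {n : Type} [Fintype n] [DecidableEq n] {γ : n → M8}

/-- one averaging step -/
def Tk (γ : n → M8) (g : Matrix n n ℝ) (Y : M8) (k : n) : M8 := Y - gm γ g k * Y * γ k

lemma gm_rel (hγ : Gam γ) {g : Matrix n n ℝ} (hg : g ∈ OO n) (k l : n) :
    gm γ g k * gm γ g l + gm γ g l * gm γ g k = if k = l then -2 else 0 := by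
  unfold gm
  have h1 : ∀ a b : n, (∑ j, g j a • γ j) * (∑ j, g j b • γ j) =
      ∑ i, ∑ j, (g i a * g j b) • (γ i * γ j) := by
    intro a b
    rw [Finset.sum_mul]
    refine Finset.sum_congr rfl fun i _ => ?_
    rw [Finset.mul_sum]
    refine Finset.sum_congr rfl fun j _ => ?_
    rw [Matrix.smul_mul, Matrix.mul_smul, smul_smul]
  rw [h1, h1]
  have h2 : ∑ i, ∑ j, (g i l * g j k) • (γ i * γ j) = ∑ i, ∑ j, (g i k * g j l) • (γ j * γ i) := by
    rw [Finset.sum_comm]
    refine Finset.sum_congr rfl fun i _ => Finset.sum_congr rfl fun j _ => ?_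
    rw [mul_comm]
  rw [h2, ← Finset.sum_add_distrib]
  have h3 : ∀ i, ∑ j, (g i k * g j l) • (γ i * γ j) + ∑ j, (g i k * g j l) • (γ j * γ i) =
      (g i k * g i l) • (-2 : M8) := by
    intro i
    rw [← Finset.sum_add_distrib, Finset.sum_eq_single i]
    · rw [← smul_add, hγ.sq]
      congr 1
      norm_num
    · intro j _ hj
      rw [← smul_add, hγ.anti j i hj]
      simp
    · intro h0; exact absurd (Finset.mem_univ _) h0
  rw [Finset.sum_congr rfl fun i _ => h3 i, ← Finset.sum_smul]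
  have h4 : ∑ i, g i k * g i l = (1 : Matrix n n ℝ) k l := by
    rw [← hg.2, Matrix.mul_apply]
    rfl
  rw [h4, Matrix.one_apply]
  split_ifs <;> simp

lemma gm_sq (hγ : Gam γ) {g : Matrix n n ℝ} (hg : g ∈ OO n) (k : n) :
    gm γ g k * gm γ g k = -1 := by
  have h := gm_rel hγ hg k k
  rw [if_pos rfl] at h
  have h2 : (2 : ℝ) • (gm γ g k * gm γ g k) = (2 : ℝ) • (-1 : M8) := by
    rw [two_smul, two_smul, h]
    norm_num
  exact smul_right_injective _ (two_ne_zero) h2

lemma gm_anti (hγ : Gam γ) {g : Matrix n n ℝ} (hg : g ∈ OO n) {k l : n} (hkl : k ≠ l) :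
    gm γ g k * gm γ g l = -(gm γ g l * gm γ g k) := by
  have h := gm_rel hγ hg k l
  rw [if_neg hkl] at h
  exact eq_neg_of_add_eq_zero_left h

lemma Tk_self (hγ : Gam γ) {g : Matrix n n ℝ} (hg : g ∈ OO n) (Y : M8) (k : n) :
    gm γ g k * Tk γ g Y k = Tk γ g Y k * γ k := by
  unfold Tk
  have h1 : gm γ g k * (gm γ g k * Y * γ k) = -(Y * γ k) := by
    calc gm γ g k * (gm γ g k * Y * γ k) = (gm γ g k * gm γ g k) * Y * γ k := by
          simp only [mul_assoc]
      _ = -(Y * γ k) := by rw [gm_sq hγ hg]; simp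
  have h2 : gm γ g k * Y * γ k * γ k = -(gm γ g k * Y) := by
    rw [mul_assoc, hγ.sq]; simp
  rw [mul_sub, sub_mul, h1, h2]
  abel

lemma Tk_other (hγ : Gam γ) {g : Matrix n n ℝ} (hg : g ∈ OO n) (Y : M8) {k l : n} (hkl : l ≠ k)
    (hY : gm γ g l * Y = Y * γ l) : gm γ g l * Tk γ g Y k = Tk γ g Y k * γ l := by
  unfold Tk
  have h1 : gm γ g l * (gm γ g k * Y * γ k) = gm γ g k * Y * γ k * γ l := by
    calc gm γ g l * (gm γ g k * Y * γ k) = (gm γ g l * gm γ g k) * Y * γ k := by
          simp only [mul_assoc]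
      _ = -(gm γ g k * (gm γ g l * Y) * γ k) := by
          rw [gm_anti hγ hg hkl]; simp only [Matrix.neg_mul, mul_assoc]
      _ = -(gm γ g k * Y * (γ l * γ k)) := by rw [hY]; simp only [mul_assoc]
      _ = gm γ g k * Y * γ k * γ l := by
          rw [hγ.anti l k hkl]; simp only [Matrix.mul_neg, neg_neg, mul_assoc]
  rw [mul_sub, sub_mul, h1, hY]

/-- the averaged intertwiner over a list -/
def Sl (γ : n → M8) (g : Matrix n n ℝ) : List n → M8
  | [] => 1
  | k :: L => Tk γ g (Sl γ g L) k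

lemma Sl_int (hγ : Gam γ) {g : Matrix n n ℝ} (hg : g ∈ OO n) :
    ∀ L : List n, ∀ k ∈ L, gm γ g k * Sl γ g L = Sl γ g L * γ k
  | [], k, hk => absurd hk (List.not_mem_nil)
  | a :: L, k, hk => by
    unfold Sl
    by_cases h : k = a
    · subst h; exact Tk_self hγ hg _ _
    · exact Tk_other hγ hg _ h (Sl_int hγ hg L k ((List.mem_cons.mp hk).resolve_left h))

lemma Sl_one (hγ : Gam γ) : ∀ L : List n, Sl γ (1 : Matrix n n ℝ) L = (2 : ℝ) ^ L.length • (1 : M8)
  | [] => by simp [Sl]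
  | a :: L => by
    unfold Sl Tk
    rw [Sl_one hγ L, H2.gm_one]
    have : γ a * (2 : ℝ) ^ L.length • (1 : M8) * γ a = -((2 : ℝ) ^ L.length • (1 : M8)) := by
      rw [Matrix.mul_smul, mul_one, Matrix.smul_mul, hγ.sq, smul_neg]
    rw [this, List.length_cons, pow_succ, sub_neg_eq_add, ← add_smul]
    congr 1
    ring

lemma gm_cont (i : n) : Continuous fun g : Matrix n n ℝ => gm γ g i := by
  unfold gm
  refine continuous_finsetSum _ fun j _ => ?_
  have h1 : Continuous fun g : Matrix n n ℝ => g j i :=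
    (continuous_apply i).comp (continuous_apply j)
  exact h1.smul continuous_const

lemma Sl_cont : ∀ L : List n, Continuous fun g : Matrix n n ℝ => Sl γ g L
  | [] => by unfold Sl; exact continuous_const
  | a :: L => by
    unfold Sl Tk
    exact (Sl_cont L).sub (((gm_cont a).mul (Sl_cont L)).mul continuous_const)

/-- the scalar -/
noncomputable def cc (γ : n → M8) (g : Matrix n n ℝ) (L : List n) : ℝ :=
  ((Sl γ g L).transpose * Sl γ g L) 0 0

lemma cc_cont (L : List n) : Continuous fun g : Matrix n n ℝ => cc γ g L := by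
  unfold cc
  have h1 : Continuous fun g : Matrix n n ℝ => (Sl γ g L).transpose * Sl γ g L :=
    (Sl_cont L).matrix_transpose.mul (Sl_cont L)
  exact (continuous_apply (0 : Fin 8)).comp ((continuous_apply (0 : Fin 8)).comp h1)

lemma cc_one (hγ : Gam γ) (L : List n) : cc γ (1 : Matrix n n ℝ) L = ((2 : ℝ) ^ L.length) ^ 2 := by
  unfold cc
  rw [Sl_one hγ]
  simp [Matrix.smul_apply]
  ring

lemma trans_mul (hγ : Gam γ) {g : Matrix n n ℝ} (hg : g ∈ OO n) {L : List n} (hL : ∀ k, k ∈ L) :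
    (Sl γ g L).transpose * Sl γ g L = cc γ g L • (1 : M8) := by
  have hc : ∀ i, ((Sl γ g L).transpose * Sl γ g L) * γ i =
      γ i * ((Sl γ g L).transpose * Sl γ g L) := by
    intro i
    have e1 := Sl_int hγ hg L i (hL i)
    have e2 : (Sl γ g L).transpose * gm γ g i = γ i * (Sl γ g L).transpose := by
      have := congrArg Matrix.transpose e1
      rw [Matrix.transpose_mul, Matrix.transpose_mul, H2.gm_tr hγ, hγ.tr, Matrix.mul_neg,
        Matrix.neg_mul] at this
      exact neg_injective this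
    rw [mul_assoc, ← e1, ← mul_assoc, e2, mul_assoc]
  obtain ⟨c, hc⟩ := hγ.comm _ hc
  have : cc γ g L = c := by
    unfold cc
    rw [hc]
    simp
  rw [hc, this]

/-- the normalised intertwiner -/
noncomputable def SN (γ : n → M8) (L : List n) (g : Matrix n n ℝ) : M8 :=
  (Real.sqrt (cc γ g L))⁻¹ • Sl γ g L

lemma SN_itw (hγ : Gam γ) {g : Matrix n n ℝ} (hg : g ∈ OO n) {L : List n} (hL : ∀ k, k ∈ L)
    (hpos : 0 < cc γ g L) : Itw γ g (SN γ L g) := by
  have h1 : (SN γ L g).transpose * SN γ L g = 1 := by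
    unfold SN
    rw [Matrix.transpose_smul, Matrix.smul_mul, Matrix.mul_smul, smul_smul, trans_mul hγ hg hL,
      smul_smul]
    have : (Real.sqrt (cc γ g L))⁻¹ * (Real.sqrt (cc γ g L))⁻¹ * cc γ g L = 1 := by
      rw [← mul_inv, Real.mul_self_sqrt hpos.le]
      exact inv_mul_cancel₀ hpos.ne'
    rw [this, one_smul]
  refine ⟨fun i => ?_, h1, mul_eq_one_comm.mp h1⟩
  unfold SN
  rw [Matrix.mul_smul, Sl_int hγ hg L i (hL i), Matrix.smul_mul]

lemma SN_one (hγ : Gam γ) (L : List n) : SN γ L 1 = 1 := by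
  unfold SN
  rw [cc_one hγ, Sl_one hγ, Real.sqrt_sq (by positivity), smul_smul,
    inv_mul_cancel₀ (by positivity), one_smul]

lemma SN_cont (hγ : Gam γ) (L : List n) : ContinuousAt (fun g : Matrix n n ℝ => SN γ L g) 1 := by
  have h1 : ContinuousAt (fun g : Matrix n n ℝ => (Real.sqrt (cc γ g L))⁻¹) 1 := by
    refine ContinuousAt.inv₀ (Real.continuous_sqrt.comp (cc_cont L)).continuousAt ?_
    rw [cc_one hγ, Real.sqrt_sq (by positivity)]
    positivity
  have h2 : ContinuousAt (fun g : Matrix n n ℝ => Sl γ g L) 1 := (Sl_cont L).continuousAt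
  exact h1.smul h2

lemma ent_cont (hγ : Gam γ) (L : List n) (c d : Fin 8) :
    ContinuousAt (fun g : Matrix n n ℝ => SN γ L g c d) 1 := by
  have h : Continuous fun M : M8 => M c d := continuous_id.matrix_elem c d
  exact ContinuousAt.comp (f := fun g : Matrix n n ℝ => SN γ L g) (g := fun M : M8 => M c d)
    h.continuousAt (SN_cont hγ L)

/-- a neighbourhood of the identity contains a box -/
lemma box {U : Set (Matrix n n ℝ)} (hU : U ∈ 𝓝 (1 : Matrix n n ℝ)) :
    ∃ ε > 0, ∀ g : Matrix n n ℝ, (∀ a b, |g a b - (1 : Matrix n n ℝ) a b| < ε) → g ∈ U := by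
  let : MetricSpace (Matrix n n ℝ) := inferInstanceAs (MetricSpace (n → n → ℝ))
  have hU' : U ∈ 𝓝 (1 : Matrix n n ℝ) := hU
  obtain ⟨ε, hε, h⟩ := Metric.mem_nhds_iff.mp hU'
  refine ⟨ε, hε, fun g hg => h ?_⟩
  rw [Metric.mem_ball]
  refine (dist_pi_lt_iff hε).mpr fun a => (dist_pi_lt_iff hε).mpr fun b => ?_
  rw [Real.dist_eq]
  exact hg a b

end H3

theorem pH3 : StH3 := by
  intro n _ _ γ hγ
  classical
  set L : List n := (Finset.univ : Finset n).toList with hLdef
  have hL : ∀ k, k ∈ L := fun k => by simp [hLdef]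
  refine ⟨H3.SN γ L, ?_, ?_⟩
  · have h1 : ∀ᶠ g in 𝓝 (1 : Matrix n n ℝ), 0 < H3.cc γ g L := by
      apply (H3.cc_cont L).continuousAt.eventually (lt_mem_nhds ?_)
      beta_reduce
      rw [H3.cc_one hγ]; positivity
    have h2 : ∀ᶠ g in 𝓝 (1 : Matrix n n ℝ), 0 < H3.SN γ L g 0 0 := by
      have hc := H3.ent_cont hγ L 0 0
      apply hc.eventually (lt_mem_nhds ?_)
      beta_reduce
      rw [H3.SN_one hγ]; simp
    obtain ⟨ε, hε, h⟩ := H3.box (h1.and h2)
    refine ⟨ε, hε, fun g hg hgε => ?_⟩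
    have := h g hgε
    exact ⟨H3.SN_itw hγ hg hL this.1, this.2⟩
  · intro η hη
    have h1 : ∀ᶠ g in 𝓝 (1 : Matrix n n ℝ), ∀ c d, |H3.SN γ L g c d - (1 : M8) c d| < η := by
      rw [Filter.eventually_all]
      intro c
      rw [Filter.eventually_all]
      intro d
      have hc : ContinuousAt (fun g : Matrix n n ℝ => |H3.SN γ L g c d - (1 : M8) c d|) 1 := by
        have h0 := H3.ent_cont hγ L c d
        exact (h0.sub continuousAt_const).abs
      apply hc.eventually (gt_mem_nhds ?_)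
      beta_reduce
      rw [H3.SN_one hγ]; simpa using hη
    obtain ⟨ε, hε, h⟩ := H3.box h1
    exact ⟨ε, hε, fun g _ hgε => h g hgε⟩

end Pool.Agent.Helper74.SS
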