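import Pool.Agent.Helper74.SS.St

/-! Project SS, module H4: the spin cocycle on the orthogonal group (helper49 for helper74). -/

set_option autoImplicit false

open Set Metric Filter Topology
open scoped Matrix.Norms.Elementwise

namespace Pool.Agent.Helper74.SS

namespace H4

variable {n : Type} [Fintype n] [DecidableEq n]

lemma tr_mul_mem {x y : Matrix n n ℝ} (hx : x ∈ OO n) (hy : y ∈ OO n) :
    x.transpose * y ∈ OO n := by
  constructor
  · rw [Matrix.transpose_mul, Matrix.transpose_transpose]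
    calc x.transpose * y * (y.transpose * x) = x.transpose * (y * y.transpose) * x := by
          simp only [mul_assoc]
      _ = 1 := by rw [hy.1, mul_one, hx.2]
  · rw [Matrix.transpose_mul, Matrix.transpose_transpose]
    calc y.transpose * x * (x.transpose * y) = y.transpose * (x * x.transpose) * y := by
          simp only [mul_assoc]
      _ = 1 := by rw [hx.1, mul_one, hy.2]

lemma entry_le {x : Matrix n n ℝ} (hx : x ∈ OO n) (j a : n) : |x j a| ≤ 1 := by
  have h := congrFun (congrFun hx.2 a) a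
  rw [Matrix.mul_apply, Matrix.one_apply_eq] at h
  simp only [Matrix.transpose_apply] at h
  have h1 : x j a * x j a ≤ ∑ k, x k a * x k a :=
    Finset.single_le_sum (f := fun k => x k a * x k a) (fun k _ => mul_self_nonneg _)
      (Finset.mem_univ j)
  rw [h] at h1
  exact abs_le_one_iff_mul_self_le_one.mpr h1

lemma close {x y : Matrix n n ℝ} (hx : x ∈ OO n) {δ : ℝ} (hδ : dist x y < δ) (a b : n) :
    |(x.transpose * y) a b - (1 : Matrix n n ℝ) a b| ≤ Fintype.card n * δ := by
  have e : (x.transpose * y) a b - (1 : Matrix n n ℝ) a b = ∑ j, x j a * (y j b - x j b) := by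
    rw [← hx.2, Matrix.mul_apply, Matrix.mul_apply, ← Finset.sum_sub_distrib]
    exact Finset.sum_congr rfl (fun j _ => by simp only [Matrix.transpose_apply]; ring)
  rw [e]
  have h0 : ∀ j, |x j a * (y j b - x j b)| ≤ δ := by
    intro j
    rw [abs_mul]
    have h1 := entry_le hx j a
    have h2 : |y j b - x j b| ≤ δ := by
      have h3 : ‖(y - x) j b‖ ≤ ‖y - x‖ := Matrix.norm_entry_le_entrywise_sup_norm (y - x)
      rw [← dist_eq_norm, dist_comm] at h3
      have h4 : ‖(y - x) j b‖ = |y j b - x j b| := rfl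
      rw [h4] at h3
      linarith
    calc |x j a| * |y j b - x j b| ≤ 1 * |y j b - x j b| := by gcongr
      _ ≤ δ := by rw [one_mul]; exact h2
  calc |∑ j, x j a * (y j b - x j b)| ≤ ∑ j, |x j a * (y j b - x j b)| :=
        Finset.abs_sum_le_sum_abs _ _
    _ ≤ ∑ _j : n, δ := Finset.sum_le_sum (fun j _ => h0 j)
    _ = Fintype.card n * δ := by simp

open Classical in
/-- the unit attached to a matrix -/
noncomputable def un (γ : n → M8) (S : Matrix n n ℝ → M8) (g : Matrix n n ℝ) : M8ˣ :=
  if h : Itw γ g (S g) then ⟨S g, (S g).transpose, h.2.2, h.2.1⟩ else 1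

omit [DecidableEq n] in
lemma un_val {γ : n → M8} {S : Matrix n n ℝ → M8} {g : Matrix n n ℝ} (h : Itw γ g (S g)) :
    (un γ S g : M8) = S g := by
  unfold un
  rw [dif_pos h]

lemma prod_pos {M M' : M8} (h : ∀ c d, |M c d - (1 : M8) c d| < 1 / 4)
    (h' : ∀ c d, |M' c d - (1 : M8) c d| < 1 / 4) : 0 < (M * M') 0 0 := by
  rw [Matrix.mul_apply, ← Finset.add_sum_erase _ _ (Finset.mem_univ (0 : Fin 8))]
  have h1 : ∀ c ∈ (Finset.univ : Finset (Fin 8)).erase 0, -(1 / 16) ≤ M 0 c * M' c 0 := by
    intro c hc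
    have hc0 : c ≠ 0 := (Finset.mem_erase.mp hc).1
    have a1 := h 0 c
    have a2 := h' c 0
    rw [Matrix.one_apply_ne (Ne.symm hc0), sub_zero] at a1
    rw [Matrix.one_apply_ne hc0, sub_zero] at a2
    have a3 : |M 0 c * M' c 0| ≤ 1 / 4 * (1 / 4) := by
      rw [abs_mul]
      exact mul_le_mul a1.le a2.le (abs_nonneg _) (by norm_num)
    have := neg_abs_le (M 0 c * M' c 0)
    linarith
  have h2 : ∑ c ∈ (Finset.univ : Finset (Fin 8)).erase 0, (-(1 / 16) : ℝ) ≤
      ∑ c ∈ (Finset.univ : Finset (Fin 8)).erase 0, M 0 c * M' c 0 := Finset.sum_le_sum h1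
  have h3 : ∑ c ∈ (Finset.univ : Finset (Fin 8)).erase 0, (-(1 / 16) : ℝ) = -(7 / 16) := by
    rw [Finset.sum_const, Finset.card_erase_of_mem (Finset.mem_univ _)]
    simp
    norm_num
  rw [h3] at h2
  have b1 := h 0 0
  have b2 := h' 0 0
  rw [Matrix.one_apply_eq] at b1 b2
  have c1 : 3 / 4 < M 0 0 := by have := neg_abs_le (M 0 0 - 1); linarith
  have c2 : 3 / 4 < M' 0 0 := by have := neg_abs_le (M' 0 0 - 1); linarith
  have c3 : 3 / 4 * (3 / 4) < M 0 0 * M' 0 0 := by nlinarith
  linarith

end H4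

open H4 in
theorem pH4 (h2 : StH2) (h3 : StH3) : StH4 := by
  intro n _ _ γ hγ
  obtain ⟨huniq, hmul, hone, htr, hneg⟩ := h2 n γ hγ
  obtain ⟨S, ⟨ε1, hε1, hS1⟩, hS2⟩ := h3 n γ hγ
  obtain ⟨ε2, hε2, hS2'⟩ := hS2 (1 / 4) (by norm_num)
  -- closeness
  set N : ℝ := (Fintype.card n : ℝ) + 1 with hN
  have hN0 : 0 < N := by positivity
  have key : ∀ x ∈ OO n, ∀ y ∈ OO n, ∀ ε, 0 < ε → dist x y < ε / N →
      ∀ a b, |(x.transpose * y) a b - (1 : Matrix n n ℝ) a b| < ε := by
    intro x hx y hy ε hε hd a b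
    have h4 := close hx hd a b
    have h5 : (Fintype.card n : ℝ) * (ε / N) < ε := by
      rw [mul_div_assoc', div_lt_iff₀ hN0, hN]
      nlinarith
    linarith
  have kI : ∀ x ∈ OO n, ∀ y ∈ OO n, dist x y < ε1 / N →
      Itw γ (x.transpose * y) (S (x.transpose * y)) ∧ 0 < S (x.transpose * y) 0 0 := by
    intro x hx y hy hd
    exact hS1 _ (tr_mul_mem hx hy) (key x hx y hy ε1 hε1 hd)
  have kC : ∀ x ∈ OO n, ∀ y ∈ OO n, dist x y < ε2 / N →
      ∀ c d, |S (x.transpose * y) c d - (1 : M8) c d| < 1 / 4 := by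
    intro x hx y hy hd
    exact hS2' _ (tr_mul_mem hx hy) (key x hx y hy ε2 hε2 hd)
  refine ⟨fun x y => un γ S (x.transpose * y), ?_, ?_, ?_⟩
  · refine ⟨min (ε1 / N) (ε2 / N) / 2, by positivity, ?_⟩
    intro x hx y hy z hz hxy hxz
    have hm1 : min (ε1 / N) (ε2 / N) ≤ ε1 / N := min_le_left _ _
    have hm2 : min (ε1 / N) (ε2 / N) ≤ ε2 / N := min_le_right _ _
    have hm0 : 0 < min (ε1 / N) (ε2 / N) := by positivity
    have hyz : dist y z < min (ε1 / N) (ε2 / N) := by
      have := dist_triangle_left y z x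
      linarith
    obtain ⟨i1, p1⟩ := kI x hx y hy (by linarith)
    obtain ⟨i2, p2⟩ := kI y hy z hz (by linarith)
    obtain ⟨i3, p3⟩ := kI x hx z hz (by linarith)
    have c1 := kC x hx y hy (by linarith)
    have c2 := kC y hy z hz (by linarith)
    have i12 := hmul _ _ _ _ i1 i2
    have e : x.transpose * y * (y.transpose * z) = x.transpose * z := by
      calc x.transpose * y * (y.transpose * z) = x.transpose * (y * y.transpose) * z := by
            simp only [mul_assoc]
        _ = x.transpose * z := by rw [hy.1, mul_one]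
    rw [e] at i12
    have hp := prod_pos c1 c2
    apply Units.ext
    rw [Units.val_mul]
    show (un γ S (x.transpose * y) : M8) * (un γ S (y.transpose * z) : M8)
      = (un γ S (x.transpose * z) : M8)
    rw [un_val i1, un_val i2, un_val i3]
    rcases huniq _ _ _ i12 i3 with h | h
    · exact h.symm
    · exfalso
      rw [h, Matrix.neg_apply] at p3
      linarith
  · refine ⟨ε1 / N, by positivity, ?_⟩
    intro x hx y hy hd
    obtain ⟨i1, p1⟩ := kI x hx y hy hd
    show Itw γ (x.transpose * y) (un γ S (x.transpose * y) : M8)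
      ∧ 0 < (un γ S (x.transpose * y) : M8) 0 0
    rw [un_val i1]
    exact ⟨i1, p1⟩
  · intro c hc x y
    show un γ S ((c * x).transpose * (c * y)) = un γ S (x.transpose * y)
    have e : (c * x).transpose * (c * y) = x.transpose * y := by
      rw [Matrix.transpose_mul]
      calc x.transpose * c.transpose * (c * y) = x.transpose * (c.transpose * c) * y := by
            simp only [mul_assoc]
        _ = x.transpose * y := by rw [hc.2, mul_one]
    rw [e]

end Pool.Agent.Helper74.SS
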