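import Pool.Agent.Helper74.SS.St

/-! Project SS: module H5, the invariant of loops in the orthogonal group. -/

set_option autoImplicit false

open Set Metric Filter Topology
open scoped Matrix.Norms.Elementwise

namespace Pool.Agent.Helper74.SS

namespace H5aux

variable {n : Type} [Fintype n] [DecidableEq n]

omit [DecidableEq n] in
theorem cmul {X : Type} [TopologicalSpace X] {f g : X → Matrix n n ℝ} {S : Set X}
    (hf : ContinuousOn f S) (hg : ContinuousOn g S) : ContinuousOn (fun x => f x * g x) S :=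
  (continuous_fst.matrix_mul continuous_snd).comp_continuousOn (hf.prodMk hg)

theorem pp_eq5 {V G : Type} [PseudoMetricSpace V] [Group G] (E : V → V → G) (γ : ℝ → V) (N : ℕ) :
    pp E γ N = ((List.range N).map fun k : ℕ => E (γ ((k : ℝ) / N)) (γ (((k : ℝ) + 1) / N))).prod := by
  unfold pp
  simp only [List.bind_eq_flatMap, List.pure_def, List.map_flatMap, List.map_cons, List.map_nil]
  rw [← List.map_eq_flatMap]

theorem PP_congr {V G : Type} [PseudoMetricSpace V] [Group G] (E : V → V → G) (γ γ' : ℝ → V)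
    (h : pp E γ = pp E γ') : PP E γ = PP E γ' := by
  classical
  have : ∀ (f g : ℕ → G), f = g → (if h : ∃ x, ∀ᶠ N in atTop, f N = x then h.choose else 1) =
      (if h : ∃ x, ∀ᶠ N in atTop, g N = x then h.choose else 1) := by
    rintro _ _ rfl; rfl
  exact this _ _ h

theorem path_itw (h2 : StH2) (hA1 : StA1') {γ : n → M8} {E : Matrix n n ℝ → Matrix n n ℝ → M8ˣ}
    (hγ : Gam γ) (hE : EOK γ E) {δ : ℝ → Matrix n n ℝ} (hδ : IsPath (OO n) δ) :
    Itw γ ((δ 0).transpose * δ 1) ((PP E δ : M8ˣ) : M8) := by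
  obtain ⟨ε, hε, hitw⟩ := hE.itw
  have huc : ∀ ε > 0, ∃ η > 0, ∀ x ∈ Icc (0 : ℝ) 1, ∀ y ∈ Icc (0 : ℝ) 1, dist x y < η →
      dist (δ x) (δ y) < ε :=
    Metric.uniformContinuousOn_iff.1 (isCompact_Icc.uniformContinuousOn_of_continuous hδ.1)
  obtain ⟨η, hη, hu⟩ := huc ε hε
  obtain ⟨N0, hN0⟩ := hA1 _ _ (OO n) E δ hE.coc hδ
  obtain ⟨N1, hN1⟩ := exists_nat_gt (1 / η)
  let N := max (max N0 N1) 1
  have hN0' : N0 ≤ N := le_trans (le_max_left _ _) (le_max_left _ _)
  have hN1' : N1 ≤ N := le_trans (le_max_right _ _) (le_max_left _ _)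
  have hNpos : 1 ≤ N := le_max_right _ _
  have hNr : (0 : ℝ) < N := by exact_mod_cast hNpos
  have hNη : 1 / (N : ℝ) < η := by
    have : (N1 : ℝ) ≤ N := by exact_mod_cast hN1'
    rw [div_lt_iff₀ hNr]
    rw [div_lt_iff₀ hη] at hN1
    nlinarith
  rw [← hN0 N hN0']
  have claim : ∀ m ≤ N, Itw γ ((δ 0).transpose * δ ((m : ℝ) / N))
      ((((List.range m).map fun k : ℕ => E (δ ((k : ℝ) / N)) (δ (((k : ℝ) + 1) / N))).prod : M8ˣ) : M8) := by
    intro m
    induction m with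
    | zero =>
      intro _
      have h0 : δ 0 ∈ OO n := hδ.2 (left_mem_Icc.2 zero_le_one)
      simpa [h0.2] using (h2 n γ hγ).2.2.1
    | succ m ih =>
      intro hm
      have ihm := ih (by omega)
      have hm1 : (m : ℝ) + 1 ≤ N := by exact_mod_cast hm
      have hm0 : (0 : ℝ) ≤ m := Nat.cast_nonneg m
      have i1 : (m : ℝ) / N ∈ Icc (0 : ℝ) 1 :=
        ⟨by positivity, by rw [div_le_one hNr]; linarith⟩
      have i2 : ((m : ℝ) + 1) / N ∈ Icc (0 : ℝ) 1 :=
        ⟨by positivity, by rw [div_le_one hNr]; linarith⟩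
      have hd : dist ((m : ℝ) / N) (((m : ℝ) + 1) / N) < η := by
        rw [Real.dist_eq, ← sub_div, abs_div]
        have : |(m : ℝ) - (m + 1)| = 1 := by
          rw [show (m : ℝ) - (m + 1) = -1 by ring]; simp
        rw [this, abs_of_pos hNr]
        exact hNη
      have hI := (hitw _ (hδ.2 i1) _ (hδ.2 i2) (hu _ i1 _ i2 hd)).1
      rw [List.range_succ, List.map_append, List.prod_append, Units.val_mul]
      have := (h2 n γ hγ).2.1 _ _ _ _ ihm hI
      have e : (δ 0).transpose * δ ((m : ℝ) / N) * ((δ ((m : ℝ) / N)).transpose *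
          δ (((m : ℝ) + 1) / N)) = (δ 0).transpose * δ (((m + 1 : ℕ) : ℝ) / N) := by
        rw [Matrix.mul_assoc, ← Matrix.mul_assoc (δ ((m : ℝ) / N)), (hδ.2 i1).1, Matrix.one_mul]
        push_cast
        rfl
      rw [e] at this
      simpa using this
  have := claim N le_rfl
  rw [div_self hNr.ne'] at this
  rw [pp_eq5]
  exact this

theorem one_ne_neg : (1 : M8ˣ) ≠ -1 := by
  intro h
  have h1 : (1 : M8) = -1 := by
    have := congrArg (fun u : M8ˣ => (u : M8)) h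
    simpa using this
  have h2 := congrFun (congrFun h1 0) 0
  rw [Matrix.neg_apply, Matrix.one_apply_eq] at h2
  norm_num at h2

theorem loop_pm (h2 : StH2) (hA1 : StA1') {γ : n → M8} {E : Matrix n n ℝ → Matrix n n ℝ → M8ˣ}
    (hγ : Gam γ) (hE : EOK γ E) {δ : ℝ → Matrix n n ℝ} (hδ : Lp (OO n) δ) :
    PP E δ = 1 ∨ PP E δ = -1 := by
  have h := path_itw h2 hA1 hγ hE (δ := δ) ⟨hδ.1, hδ.2.1⟩
  have h0 : δ 0 ∈ OO n := hδ.2.1 (left_mem_Icc.2 zero_le_one)
  rw [← hδ.2.2, h0.2] at h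
  rcases (h2 n γ hγ).1 _ _ _ (h2 n γ hγ).2.2.1 h with h | h
  · left; exact Units.ext h
  · right; apply Units.ext; simpa using h

theorem PP_left {γ : n → M8} {E : Matrix n n ℝ → Matrix n n ℝ → M8ˣ}
    (hE : EOK γ E) (c : Matrix n n ℝ) (hc : c ∈ OO n) (δ : ℝ → Matrix n n ℝ) :
    PP E (fun t => c * δ t) = PP E δ := by
  apply PP_congr
  funext N
  simp only [pp, hE.inv c hc]

theorem OO_mul {x y : Matrix n n ℝ} (hx : x ∈ OO n) (hy : y ∈ OO n) : x * y ∈ OO n := by
  constructor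
  · rw [Matrix.transpose_mul, Matrix.mul_assoc, ← Matrix.mul_assoc y, hy.1, Matrix.one_mul, hx.1]
  · rw [Matrix.transpose_mul, Matrix.mul_assoc, ← Matrix.mul_assoc x.transpose, hx.2, Matrix.one_mul, hy.2]

end H5aux

open H5aux

theorem pH5 (h2 : StH2) (hA1 : StA1') (hA2 : StA2) (hA3 : StA3) (hA8 : StA8) : StH5 := by
  intro n _ _ γ E hγ hE
  classical
  have hhom : ∀ h : ℝ → ℝ → Matrix n n ℝ,
    ContinuousOn (fun p : ℝ × ℝ => h p.1 p.2) (Icc 0 1 ×ˢ Icc 0 1) →
    (∀ t ∈ Icc (0 : ℝ) 1, ∀ τ ∈ Icc (0 : ℝ) 1, h t τ ∈ OO n) →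
    (∀ τ ∈ Icc (0 : ℝ) 1, h 0 τ = h 1 τ) →
      PP E (fun t => h t 0) = PP E (fun t => h t 1) := by
    intro h hc hm h01
    have e1 := hA8 _ _ (OO n) E h hE.coc hc hm
    have e2 : PP E (fun τ => h 0 τ) = PP E (fun τ => h 1 τ) :=
      (hA3 _ _ (OO n) E hE.coc).2.2.2.1 _ _ h01
    have hl : Lp (OO n) (fun t => h t 0) := by
      refine ⟨?_, fun t ht => hm t ht 0 (left_mem_Icc.2 zero_le_one), h01 0 (left_mem_Icc.2 zero_le_one)⟩
      exact hc.comp (f := fun t : ℝ => (t, (0 : ℝ))) (by fun_prop)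
        (fun t ht => ⟨ht, left_mem_Icc.2 zero_le_one⟩)
    rw [e2] at e1
    rcases loop_pm h2 hA1 hγ hE hl with h' | h'
    · rw [h', one_mul] at e1
      rw [h']
      exact (mul_eq_left.1 e1).symm
    · rw [h'] at e1 ⊢
      have e3 : PP E (fun τ => h 1 τ) * PP E (fun t => h t 1) = PP E (fun τ => h 1 τ) * (-1) := by
        rw [e1]; simp
      exact (mul_left_cancel e3).symm
  refine ⟨?_, ?_, ?_, ?_⟩
  · intro δ _
    unfold wO
    split_ifs
    · left; rfl
    · right; rfl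
  · intro δ δ' hδ hδ' h0
    let a : ℝ × ℝ → ℝ := fun p => (1 - p.2) * p.1 + p.2 * min 1 (2 * p.1)
    let b : ℝ × ℝ → ℝ := fun p => (1 - p.2) * p.1 + p.2 * max 0 (2 * p.1 - 1)
    have ha : Continuous a := by fun_prop
    have hb : Continuous b := by fun_prop
    have ham : MapsTo a (Icc 0 1 ×ˢ Icc 0 1) (Icc 0 1) := by
      rintro ⟨t, τ⟩ ⟨⟨ht0, ht1⟩, ⟨hτ0, hτ1⟩⟩
      simp only at ht0 ht1 hτ0 hτ1
      have hmin0 : 0 ≤ min 1 (2 * t) := le_min zero_le_one (by linarith)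
      have hmin1 : min 1 (2 * t) ≤ 1 := min_le_left _ _
      constructor
      · show 0 ≤ (1 - τ) * t + τ * min 1 (2 * t)
        have := mul_nonneg (sub_nonneg.2 hτ1) ht0
        have := mul_nonneg hτ0 hmin0
        linarith
      · show (1 - τ) * t + τ * min 1 (2 * t) ≤ 1
        have := mul_le_mul_of_nonneg_left ht1 (sub_nonneg.2 hτ1)
        have := mul_le_mul_of_nonneg_left hmin1 hτ0
        linarith
    have hbm : MapsTo b (Icc 0 1 ×ˢ Icc 0 1) (Icc 0 1) := by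
      rintro ⟨t, τ⟩ ⟨⟨ht0, ht1⟩, ⟨hτ0, hτ1⟩⟩
      simp only at ht0 ht1 hτ0 hτ1
      have hmin0 : 0 ≤ max 0 (2 * t - 1) := le_max_left _ _
      have hmin1 : max 0 (2 * t - 1) ≤ 1 := max_le zero_le_one (by linarith)
      constructor
      · show 0 ≤ (1 - τ) * t + τ * max 0 (2 * t - 1)
        have := mul_nonneg (sub_nonneg.2 hτ1) ht0
        have := mul_nonneg hτ0 hmin0
        linarith
      · show (1 - τ) * t + τ * max 0 (2 * t - 1) ≤ 1
        have := mul_le_mul_of_nonneg_left ht1 (sub_nonneg.2 hτ1)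
        have := mul_le_mul_of_nonneg_left hmin1 hτ0
        linarith
    have hcont : ContinuousOn (fun p : ℝ × ℝ => δ (a p) * δ' (b p)) (Icc 0 1 ×ˢ Icc 0 1) :=
      cmul (hδ.1.comp ha.continuousOn ham) (hδ'.1.comp hb.continuousOn hbm)
    have hmem : ∀ t ∈ Icc (0 : ℝ) 1, ∀ τ ∈ Icc (0 : ℝ) 1, δ (a (t, τ)) * δ' (b (t, τ)) ∈ OO n := by
      intro t ht τ hτ
      exact OO_mul (hδ.2.1 (ham ⟨ht, hτ⟩)) (hδ'.2.1 (hbm ⟨ht, hτ⟩))
    have h01 : ∀ τ ∈ Icc (0 : ℝ) 1, δ (a (0, τ)) * δ' (b (0, τ)) = δ (a (1, τ)) * δ' (b (1, τ)) := by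
      intro τ _
      have a0 : a (0, τ) = 0 := by simp [a]
      have b0 : b (0, τ) = 0 := by simp [b]
      have a1 : a (1, τ) = 1 := by
        show (1 - τ) * 1 + τ * min 1 (2 * 1) = 1
        rw [min_eq_left (by norm_num)]; ring
      have b1 : b (1, τ) = 1 := by
        show (1 - τ) * 1 + τ * max 0 (2 * 1 - 1) = 1
        rw [max_eq_right (by norm_num)]; ring
      rw [a0, b0, a1, b1, hδ.2.2, hδ'.2.2]
    have hk := hhom (fun t τ => δ (a (t, τ)) * δ' (b (t, τ))) hcont hmem h01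
    have e0 : (fun t => δ (a (t, 0)) * δ' (b (t, 0))) = fun t => δ t * δ' t := by
      funext t
      have a0 : a (t, 0) = t := by simp [a]
      have b0 : b (t, 0) = t := by simp [b]
      rw [a0, b0]
    have e1 : PP E (fun t => δ (a (t, 1)) * δ' (b (t, 1))) = PP E δ * PP E (fun t => δ 1 * δ' t) := by
      have hδ1 : δ 1 ∈ OO n := hδ.2.1 (right_mem_Icc.2 zero_le_one)
      refine (hA2 _ _ (OO n) E δ (fun t => δ 1 * δ' t) (fun t => δ (a (t, 1)) * δ' (b (t, 1))) hE.coc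
        ⟨hδ.1, hδ.2.1⟩ ⟨cmul continuousOn_const hδ'.1, fun t ht => OO_mul hδ1 (hδ'.2.1 ht)⟩ ?_ ?_ ?_).2
      · show δ 1 = δ 1 * δ' 0
        rw [h0, Matrix.mul_one]
      · intro t ht
        have ea : a (t, 1) = 2 * t := by
          show (1 - 1) * t + 1 * min 1 (2 * t) = 2 * t
          rw [min_eq_right (by linarith [ht.2])]; ring
        have eb : b (t, 1) = 0 := by
          show (1 - 1) * t + 1 * max 0 (2 * t - 1) = 0
          rw [max_eq_left (by linarith [ht.2])]; ring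
        show δ (a (t, 1)) * δ' (b (t, 1)) = δ (2 * t)
        rw [ea, eb, h0, Matrix.mul_one]
      · intro t ht
        have ea : a (t, 1) = 1 := by
          show (1 - 1) * t + 1 * min 1 (2 * t) = 1
          rw [min_eq_left (by linarith [ht.1])]; ring
        have eb : b (t, 1) = 2 * t - 1 := by
          show (1 - 1) * t + 1 * max 0 (2 * t - 1) = 2 * t - 1
          rw [max_eq_right (by linarith [ht.1])]; ring
        show δ (a (t, 1)) * δ' (b (t, 1)) = δ 1 * δ' (2 * t - 1)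
        rw [ea, eb]
    rw [PP_left hE (δ 1) (hδ.2.1 (right_mem_Icc.2 zero_le_one))] at e1
    have e2 : PP E (fun t => δ t * δ' t) = PP E δ * PP E δ' := by
      rw [← e0, ← e1]; exact hk
    unfold wO
    rw [e2]
    rcases loop_pm h2 hA1 hγ hE hδ with h | h <;> rcases loop_pm h2 hA1 hγ hE hδ' with h' | h' <;>
      rw [h, h'] <;> simp [one_ne_neg.symm]
  · intro c hc δ _
    unfold wO
    rw [PP_left hE c hc]
  · intro h hc hm h01
    unfold wO
    rw [hhom h hc hm h01]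

end Pool.Agent.Helper74.SS
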