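import Pool.Agent.Helper74.SS.St

/-! Project SS, module H7: the polar retraction of the general linear group onto the orthogonal
group. -/

set_option autoImplicit false

open Set Metric Filter Topology
open scoped Matrix.Norms.Elementwise

namespace Pool.Agent.Helper74.SS

open scoped MatrixOrder

namespace H7

variable {n : Type} [Fintype n] [DecidableEq n]

/-- the positive square root of `gᵀ g` -/
noncomputable def P (g : Matrix n n ℝ) : Matrix n n ℝ := CFC.sqrt (g.conjTranspose * g)

theorem gg_psd (g : Matrix n n ℝ) : (g.conjTranspose * g).PosSemidef :=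
  Matrix.posSemidef_conjTranspose_mul_self g

theorem P_psd (g : Matrix n n ℝ) : (P g).PosSemidef :=
  Matrix.nonneg_iff_posSemidef.mp (CFC.sqrt_nonneg _)

theorem P_sq (g : Matrix n n ℝ) : P g * P g = g.transpose * g := by
  have h := CFC.sqrt_mul_sqrt_self (g.conjTranspose * g) (gg_psd g).nonneg
  unfold P
  rw [h, Matrix.conjTranspose_eq_transpose_of_trivial]

theorem P_tr (g : Matrix n n ℝ) : (P g).transpose = P g := by
  have h := (P_psd g).isHermitian
  rw [Matrix.IsHermitian, Matrix.conjTranspose_eq_transpose_of_trivial] at h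
  exact h

theorem P_det {g : Matrix n n ℝ} (hg : g.det ≠ 0) : (P g).det ≠ 0 := by
  intro h
  have h1 := congrArg Matrix.det (P_sq g)
  rw [Matrix.det_mul, Matrix.det_mul, Matrix.det_transpose, h] at h1
  apply hg
  have : g.det * g.det = 0 := by rw [← h1]; ring
  exact mul_self_eq_zero.mp this

theorem P_uniq {g p : Matrix n n ℝ} (hp : p.PosSemidef) (h : p * p = g.transpose * g) :
    p = P g := by
  unfold P
  rw [eq_comm]
  apply CFC.sqrt_unique _ hp.nonneg
  rw [h, Matrix.conjTranspose_eq_transpose_of_trivial]

theorem P_entry (g : Matrix n n ℝ) (i j : n) : (P g i j) ^ 2 ≤ ∑ k, (g.transpose * g) k k := by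
  have h1 : (P g * P g) i i = ∑ k, (P g i k) ^ 2 := by
    rw [Matrix.mul_apply]
    apply Finset.sum_congr rfl
    intro k _
    have : P g k i = P g i k := by
      conv_lhs => rw [← P_tr g]
      rfl
    rw [this, sq]
  have h2 : (P g i j) ^ 2 ≤ (P g * P g) i i := by
    rw [h1]
    exact Finset.single_le_sum (f := fun k => (P g i k) ^ 2) (fun k _ => sq_nonneg _)
      (Finset.mem_univ j)
  have h3 : ∀ k, 0 ≤ (g.transpose * g) k k := by
    intro k
    rw [Matrix.mul_apply]
    apply Finset.sum_nonneg
    intro l _
    rw [Matrix.transpose_apply]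
    exact mul_self_nonneg _
  rw [P_sq] at h2
  exact h2.trans (Finset.single_le_sum (f := fun k => (g.transpose * g) k k) (fun k _ => h3 k)
    (Finset.mem_univ i))

theorem psd_closed : IsClosed {p : Matrix n n ℝ | p.PosSemidef} := by
  have : {p : Matrix n n ℝ | p.PosSemidef} = {p | p.transpose = p} ∩
      ⋂ x : n → ℝ, {p | 0 ≤ x ⬝ᵥ p.mulVec x} := by
    ext p
    simp only [mem_ofPred_eq, mem_inter_iff, mem_iInter]
    constructor
    · intro h
      refine ⟨?_, fun x => ?_⟩
      · have h1 := h.isHermitian
        rw [Matrix.IsHermitian, Matrix.conjTranspose_eq_transpose_of_trivial] at h1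
        exact h1
      · have := h.dotProduct_mulVec_nonneg x
        simpa using this
    · rintro ⟨h1, h2⟩
      refine Matrix.PosSemidef.of_dotProduct_mulVec_nonneg ?_ (fun x => ?_)
      · rw [Matrix.IsHermitian, Matrix.conjTranspose_eq_transpose_of_trivial]
        exact h1
      · simpa using h2 x
  rw [this]
  apply IsClosed.inter
  · exact isClosed_eq (continuous_id.matrix_transpose) continuous_id
  · apply isClosed_iInter
    intro x
    apply isClosed_le continuous_const
    exact continuous_const.dotProduct (continuous_id.matrix_mulVec continuous_const)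

theorem P_cont : Continuous (P : Matrix n n ℝ → Matrix n n ℝ) := by
  rw [continuous_iff_continuousAt]
  intro g0
  have hf : Continuous fun g : Matrix n n ℝ => ∑ k, (g.transpose * g) k k := by
    apply continuous_finsetSum
    intro k _
    exact ((continuous_id.matrix_transpose.matrix_mul continuous_id).matrix_elem k k)
  set C : ℝ := Real.sqrt ((∑ k, (g0.transpose * g0) k k) + 1) with hC
  apply (isCompact_closedBall (0 : Matrix n n ℝ) C).tendsto_nhds_of_unique_mapClusterPt
  · have h1 : ∀ᶠ g in 𝓝 g0, ∑ k, (g.transpose * g) k k < (∑ k, (g0.transpose * g0) k k) + 1 :=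
      (hf.continuousAt (x := g0)).eventually_lt continuousAt_const (by linarith)
    filter_upwards [h1] with g hg
    rw [mem_closedBall_zero_iff, Matrix.norm_le_iff (Real.sqrt_nonneg _)]
    intro i j
    rw [Real.norm_eq_abs]
    apply Real.abs_le_sqrt
    exact (P_entry g i j).trans hg.le
  · intro p _ hp
    rw [mapClusterPt_iff_ultrafilter] at hp
    obtain ⟨U, hU, hUp⟩ := hp
    apply P_uniq
    · exact psd_closed.mem_of_tendsto hUp (Eventually.of_forall fun g => P_psd g)
    · have h1 : Tendsto (fun g => P g * P g) U (𝓝 (p * p)) :=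
        ((continuous_fst.matrix_mul continuous_snd).tendsto (p, p)).comp (hUp.prodMk_nhds hUp)
      have h2 : Tendsto (fun g : Matrix n n ℝ => g.transpose * g) U
          (𝓝 (g0.transpose * g0)) :=
        ((continuous_id.matrix_transpose.matrix_mul continuous_id).continuousAt
          (x := g0)).tendsto.mono_left hU
      have h3 : (fun g : Matrix n n ℝ => P g * P g) = fun g => g.transpose * g := by
        funext g; exact P_sq g
      rw [h3] at h1
      exact tendsto_nhds_unique h1 h2

/-- the polar retraction -/
noncomputable def Q (g : Matrix n n ℝ) : Matrix n n ℝ := g * (P g)⁻¹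

end H7

open H7 in
theorem pH7 : StH7 := by
  intro n _ _
  refine ⟨Q, ?_, ?_⟩
  · intro g hg
    apply ContinuousAt.continuousWithinAt
    have h1 : ContinuousAt (fun g : Matrix n n ℝ => (P g)⁻¹) g := by
      have : (fun g : Matrix n n ℝ => (P g)⁻¹) = fun g => ((P g).det)⁻¹ • (P g).adjugate := by
        funext x
        rw [Matrix.inv_def, Ring.inverse_eq_inv']
      rw [this]
      exact ((P_cont.matrix_det.continuousAt).inv₀ (P_det hg)).fun_smul
        P_cont.matrix_adjugate.continuousAt
    have h2 : Continuous fun p : Matrix n n ℝ × Matrix n n ℝ => p.1 * p.2 :=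
      continuous_fst.matrix_mul continuous_snd
    exact ContinuousAt.comp (f := fun g : Matrix n n ℝ => (g, (P g)⁻¹))
      (g := fun p : Matrix n n ℝ × Matrix n n ℝ => p.1 * p.2) h2.continuousAt
      (continuousAt_id.prodMk h1)
  · intro g hg
    have hd : g.det ≠ 0 := hg
    have hP := P_det hd
    have hPu : IsUnit (P g).det := isUnit_iff_ne_zero.mpr hP
    have hinvT : ((P g)⁻¹).transpose = (P g)⁻¹ := by
      rw [Matrix.transpose_nonsing_inv, P_tr]
    have hQQ : (Q g).transpose * Q g = 1 := by
      unfold Q
      rw [Matrix.transpose_mul, hinvT]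
      calc (P g)⁻¹ * g.transpose * (g * (P g)⁻¹) = (P g)⁻¹ * (g.transpose * g) * (P g)⁻¹ := by
            simp only [Matrix.mul_assoc]
        _ = (P g)⁻¹ * (P g * P g) * (P g)⁻¹ := by rw [P_sq]
        _ = ((P g)⁻¹ * P g) * (P g * (P g)⁻¹) := by simp only [Matrix.mul_assoc]
        _ = 1 := by
            rw [Matrix.nonsing_inv_mul _ hPu, Matrix.mul_nonsing_inv _ hPu, Matrix.one_mul]
    refine ⟨⟨mul_eq_one_comm.mp hQQ, hQQ⟩, ?_, ?_⟩
    · intro τ hτ
      have hpd : (P g).PosDef := (P_psd g).posDef_iff_det_ne_zero.mpr hP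
      have hsum : ((1 - τ) • P g + τ • (1 : Matrix n n ℝ)).PosDef := by
        rcases eq_or_lt_of_le hτ.1 with h0 | h0
        · rw [← h0]; simpa using hpd
        · have h1 : ((1 - τ) • P g).PosSemidef := (P_psd g).smul (by linarith [hτ.2])
          have h2 : (τ • (1 : Matrix n n ℝ)).PosDef := Matrix.PosDef.one.smul h0
          exact Matrix.PosDef.posSemidef_add h1 h2
      have heq : (1 - τ) • g + τ • Q g = Q g * ((1 - τ) • P g + τ • (1 : Matrix n n ℝ)) := by
        have : Q g * P g = g := by
          unfold Q
          rw [Matrix.mul_assoc, Matrix.nonsing_inv_mul _ hPu, Matrix.mul_one]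
        rw [Matrix.mul_add, Matrix.mul_smul, Matrix.mul_smul, this, Matrix.mul_one]
      change Matrix.det _ ≠ 0
      rw [heq, Matrix.det_mul]
      apply mul_ne_zero
      · intro h0
        have := congrArg Matrix.det hQQ
        rw [Matrix.det_mul, h0, mul_zero, Matrix.det_one] at this
        exact zero_ne_one this
      · exact hsum.det_pos.ne'
    · intro ho
      have : (1 : Matrix n n ℝ) = P g := P_uniq Matrix.PosSemidef.one (by rw [ho.2, Matrix.mul_one])
      unfold Q
      rw [← this, inv_one, Matrix.mul_one]

end Pool.Agent.Helper74.SS
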