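import Pool.Agent.Helper74.SS.St

/-! Project SS (MP_2a19da_gt), module H8: the invariant of loops in the general linear group. -/

set_option autoImplicit false

open Set Metric Filter Topology

namespace Pool.Agent.Helper74.SS

section

variable {n : Type} [Fintype n] [DecidableEq n]

/-- The invariant only depends on the values on `[0,1]`. -/
private theorem congr_H8 {S : Set (Matrix n n ℝ)} {w : (ℝ → Matrix n n ℝ) → ℤ} (hw : WOK S w)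
    {δ δ' : ℝ → Matrix n n ℝ} (hδ : Lp S δ) (h : ∀ t ∈ Icc (0 : ℝ) 1, δ t = δ' t) :
    w δ = w δ' := by
  classical
  have h1 := hw.hom (fun t τ => if τ = 0 then δ t else δ' t) ?_ ?_ ?_
  · simpa using h1
  · have h2 : ContinuousOn (fun p : ℝ × ℝ => δ p.1) (Icc 0 1 ×ˢ Icc 0 1) :=
      hδ.1.comp continuousOn_fst fun p hp => hp.1
    refine h2.congr fun p hp => ?_
    show (if p.2 = 0 then δ p.1 else δ' p.1) = δ p.1
    split_ifs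
    · rfl
    · exact (h _ hp.1).symm
  · intro t ht τ _
    split_ifs
    · exact hδ.2.1 ht
    · rw [← h t ht]; exact hδ.2.1 ht
  · intro τ _
    have e0 : (0 : ℝ) ∈ Icc (0 : ℝ) 1 := ⟨le_rfl, zero_le_one⟩
    have e1 : (1 : ℝ) ∈ Icc (0 : ℝ) 1 := ⟨zero_le_one, le_rfl⟩
    split_ifs
    · exact hδ.2.2
    · rw [← h 0 e0, ← h 1 e1]; exact hδ.2.2

private theorem OO_mul_H8 {a b : Matrix n n ℝ} (ha : a ∈ OO n) (hb : b ∈ OO n) : a * b ∈ OO n := by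
  refine ⟨?_, ?_⟩
  · rw [Matrix.transpose_mul, Matrix.mul_assoc, ← Matrix.mul_assoc b, hb.1, Matrix.one_mul, ha.1]
  · rw [Matrix.transpose_mul, Matrix.mul_assoc, ← Matrix.mul_assoc _ a, ha.2, Matrix.one_mul, hb.2]

private theorem GG_mul_H8 {a b : Matrix n n ℝ} (ha : a ∈ GG n) (hb : b ∈ GG n) : a * b ∈ GG n := by
  show (a * b).det ≠ 0
  rw [Matrix.det_mul]
  exact mul_ne_zero ha hb

/-- Pulling back an invariant along a retraction. -/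
private theorem wok_H8 {w : (ℝ → Matrix n n ℝ) → ℤ} (hw : WOK (OO n) w)
    (Q : Matrix n n ℝ → Matrix n n ℝ) (hQ : ContinuousOn Q (GG n))
    (hQ1 : ∀ g ∈ GG n, Q g ∈ OO n) (hQ2 : ∀ g ∈ GG n, ∀ τ ∈ Icc (0 : ℝ) 1,
      (1 - τ) • g + τ • Q g ∈ GG n) (hQ3 : ∀ g ∈ GG n, g ∈ OO n → Q g = g)
    (hOG : ∀ g ∈ OO n, g ∈ GG n) :
    WOK (GG n) (fun δ => w (fun t => Q (δ t))) := by
  have hLQ : ∀ δ, Lp (GG n) δ → Lp (OO n) (fun t => Q (δ t)) := by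
    intro δ hδ
    refine ⟨hQ.comp hδ.1 hδ.2.1, fun t ht => hQ1 _ (hδ.2.1 ht), ?_⟩
    show Q (δ 0) = Q (δ 1)
    rw [hδ.2.2]
  have hpath : ∀ δ, Lp (GG n) δ → ContinuousOn (fun p : ℝ × ℝ => (1 - p.2) • δ p.1 + p.2 • Q (δ p.1))
      (Icc 0 1 ×ˢ Icc 0 1) := by
    intro δ hδ
    have h1 : ContinuousOn (fun p : ℝ × ℝ => δ p.1) (Icc 0 1 ×ˢ Icc 0 1) :=
      hδ.1.comp continuousOn_fst fun p hp => hp.1
    have h2 : ContinuousOn (fun p : ℝ × ℝ => Q (δ p.1)) (Icc 0 1 ×ˢ Icc 0 1) :=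
      (hLQ δ hδ).1.comp continuousOn_fst fun p hp => hp.1
    have h3 : ContinuousOn (fun p : ℝ × ℝ => p.2) (Icc (0 : ℝ) 1 ×ˢ Icc (0 : ℝ) 1) :=
      continuousOn_snd
    exact ((continuousOn_const.sub h3).smul h1).add (h3.smul h2)
  -- the main homotopy
  have hmain : ∀ δ δ', Lp (GG n) δ → Lp (GG n) δ' →
      w (fun t => Q (δ t * δ' t)) = w (fun t => Q (δ t) * Q (δ' t)) := by
    intro δ δ' hδ hδ'
    have h1 := hw.hom (fun t τ => Q (((1 - τ) • δ t + τ • Q (δ t)) *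
      ((1 - τ) • δ' t + τ • Q (δ' t)))) ?_ ?_ ?_
    · simp only [sub_zero, one_smul, zero_smul, add_zero, sub_self, zero_add] at h1
      rw [h1]
      refine congr_H8 hw ⟨?_, ?_, ?_⟩ ?_
      · refine hQ.comp ((hLQ δ hδ).1.mul (hLQ δ' hδ').1) fun t ht => ?_
        exact hOG _ (OO_mul_H8 ((hLQ δ hδ).2.1 ht) ((hLQ δ' hδ').2.1 ht))
      · intro t ht
        exact hQ1 _ (hOG _ (OO_mul_H8 ((hLQ δ hδ).2.1 ht) ((hLQ δ' hδ').2.1 ht)))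
      · show Q (Q (δ 0) * Q (δ' 0)) = Q (Q (δ 1) * Q (δ' 1))
        rw [hδ.2.2, hδ'.2.2]
      · intro t ht
        have h2 := OO_mul_H8 ((hLQ δ hδ).2.1 ht) ((hLQ δ' hδ').2.1 ht)
        exact hQ3 _ (hOG _ h2) h2
    · refine hQ.comp ((hpath δ hδ).mul (hpath δ' hδ')) ?_
      rintro ⟨t, τ⟩ ⟨ht, hτ⟩
      exact GG_mul_H8 (hQ2 _ (hδ.2.1 ht) τ hτ) (hQ2 _ (hδ'.2.1 ht) τ hτ)
    · intro t ht τ hτ
      exact hQ1 _ (GG_mul_H8 (hQ2 _ (hδ.2.1 ht) τ hτ) (hQ2 _ (hδ'.2.1 ht) τ hτ))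
    · intro τ _
      simp only [hδ.2.2, hδ'.2.2]
  have h1G : (1 : Matrix n n ℝ) ∈ GG n := by simp [GG]
  have h1O : (1 : Matrix n n ℝ) ∈ OO n := by simp [OO]
  refine ⟨fun δ hδ => hw.pm _ (hLQ δ hδ), fun δ δ' hδ hδ' h0 => ?_, fun c hc δ hδ => ?_, ?_⟩
  · show w (fun t => Q (δ t * δ' t)) = w (fun t => Q (δ t)) * w (fun t => Q (δ' t))
    rw [hmain δ δ' hδ hδ']
    refine hw.mul _ _ (hLQ δ hδ) (hLQ δ' hδ') ?_
    show Q (δ' 0) = 1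
    rw [h0, hQ3 1 h1G h1O]
  · show w (fun t => Q (c * δ t)) = w (fun t => Q (δ t))
    rw [hmain (fun _ => c) δ ⟨continuousOn_const, fun _ _ => hc, rfl⟩ hδ]
    exact hw.left _ (hQ1 c hc) _ (hLQ δ hδ)
  · intro h hc hm he
    refine hw.hom (fun t τ => Q (h t τ)) ?_ (fun t ht τ hτ => hQ1 _ (hm t ht τ hτ)) ?_
    · exact hQ.comp hc fun p hp => hm p.1 hp.1 p.2 hp.2
    · intro τ hτ
      show Q (h 0 τ) = Q (h 1 τ)
      rw [he τ hτ]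

end

theorem pH8 (h1 : StH1) (h4 : StH4) (h5 : StH5) (h6 : StH6) (h7 : StH7) : StH8 := by
  obtain ⟨γ, hγ⟩ := h1
  obtain ⟨E, hE⟩ := h4 N7 γ hγ
  have hw := h5 N7 γ E hγ hE
  obtain ⟨Q, hQ, hQ'⟩ := h7 N7
  have hOG : ∀ g ∈ OO N7, g ∈ GG N7 := by
    intro g hg h0
    have h2 := congrArg Matrix.det hg.1
    rw [Matrix.det_mul, h0, zero_mul, Matrix.det_one] at h2
    exact zero_ne_one h2
  have hab : (Sum.inl (0, 0) : N7) ≠ Sum.inl (0, 1) := by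
    intro h
    have h2 := congrArg Prod.snd (Sum.inl.inj h)
    exact absurd h2 (by decide)
  obtain ⟨hLr, hwr⟩ := h6 N7 γ E _ _ hγ hE hab
  refine ⟨fun δ => wO E (fun t => Q (δ t)), wok_H8 hw Q hQ (fun g hg => (hQ' g hg).1)
    (fun g hg => (hQ' g hg).2.1) (fun g hg => (hQ' g hg).2.2) hOG, ?_⟩
  rw [← hwr]
  refine (congr_H8 hw hLr fun t ht => ?_).symm
  exact ((hQ' _ (hOG _ (hLr.2.1 ht))).2.2 (hLr.2.1 ht)).symm

end Pool.Agent.Helper74.SS
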