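import Pool.Agent.Helper74.SS.St

/-! Project SS, module H9: the invariant of the block loops. -/

set_option autoImplicit false

open Set Metric Filter Topology
open scoped Matrix.Norms.Elementwise

namespace Pool.Agent.Helper74.SS

namespace H9

/-- Kronecker product -/
abbrev kr {l m : Type} (A : Matrix l l ℝ) (X : Matrix m m ℝ) : Matrix (l × m) (l × m) ℝ :=
  Matrix.kroneckerMap (· * ·) A X

/-- the block matrices in which all homotopies take place -/
noncomputable def F (A : Matrix (Fin 2) (Fin 2) ℝ) (X : Matrix (Fin 3) (Fin 3) ℝ)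
    (B : Matrix (Fin 2) (Fin 2) ℝ) (Y : Matrix (Fin 3) (Fin 3) ℝ) (V : Matrix I6 Unit ℝ)
    (E : Matrix Unit Unit ℝ) : Matrix N7 N7 ℝ :=
  Matrix.fromBlocks (kr A X + kr B Y) V 0 E

theorem cF : Continuous fun p : (Matrix (Fin 2) (Fin 2) ℝ × Matrix (Fin 3) (Fin 3) ℝ) ×
    (Matrix (Fin 2) (Fin 2) ℝ × Matrix (Fin 3) (Fin 3) ℝ) × Matrix I6 Unit ℝ ×
      Matrix Unit Unit ℝ => F p.1.1 p.1.2 p.2.1.1 p.2.1.2 p.2.2.1 p.2.2.2 := by
  unfold F
  apply Continuous.matrix_fromBlocks
  · apply Continuous.add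
    · apply continuous_matrix
      intro i j
      exact ((continuous_fst.comp continuous_fst).matrix_elem i.1 j.1).mul
        ((continuous_snd.comp continuous_fst).matrix_elem i.2 j.2)
    · apply continuous_matrix
      intro i j
      exact ((continuous_fst.comp (continuous_fst.comp continuous_snd)).matrix_elem i.1 j.1).mul
        ((continuous_snd.comp (continuous_fst.comp continuous_snd)).matrix_elem i.2 j.2)
  · exact continuous_fst.comp (continuous_snd.comp continuous_snd)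
  · exact continuous_const
  · exact continuous_snd.comp (continuous_snd.comp continuous_snd)

theorem cOn {T : Type} [TopologicalSpace T] {s : Set T} {A B : T → Matrix (Fin 2) (Fin 2) ℝ}
    {X Y : T → Matrix (Fin 3) (Fin 3) ℝ} {V : T → Matrix I6 Unit ℝ} {E : T → Matrix Unit Unit ℝ}
    (hA : ContinuousOn A s) (hX : ContinuousOn X s) (hB : ContinuousOn B s)
    (hY : ContinuousOn Y s) (hV : ContinuousOn V s) (hE : ContinuousOn E s) :
    ContinuousOn (fun x => F (A x) (X x) (B x) (Y x) (V x) (E x)) s :=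
  cF.comp_continuousOn ((hA.prodMk hX).prodMk ((hB.prodMk hY).prodMk (hV.prodMk hE)))

theorem mem_of_inv {m : Type} [Fintype m] [DecidableEq m] {a b : Matrix m m ℝ} (h : a * b = 1) :
    a ∈ GG m := by
  intro h0
  have := congrArg Matrix.det h
  rw [Matrix.det_mul, h0, zero_mul, Matrix.det_one] at this
  exact zero_ne_one this

theorem det1 (M : Matrix Unit Unit ℝ) : M.det = M () () := Matrix.det_unique M

/-- the two projections -/
def e0 : Matrix (Fin 2) (Fin 2) ℝ := !![1, 0; 0, 0]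
def e1 : Matrix (Fin 2) (Fin 2) ℝ := !![0, 0; 0, 1]

/-- the rotation -/
noncomputable def Rt (τ : ℝ) : Matrix (Fin 2) (Fin 2) ℝ :=
  !![Real.cos (τ * (Real.pi / 2)), Real.sin (τ * (Real.pi / 2));
    -Real.sin (τ * (Real.pi / 2)), Real.cos (τ * (Real.pi / 2))]

/-- the rotated projections -/
noncomputable def f0 (τ : ℝ) : Matrix (Fin 2) (Fin 2) ℝ := Rt τ * e0 * (Rt τ).transpose
noncomputable def f1 (τ : ℝ) : Matrix (Fin 2) (Fin 2) ℝ := Rt τ * e1 * (Rt τ).transpose

theorem RtT (τ : ℝ) : (Rt τ).transpose * Rt τ = 1 := by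
  have h := Real.sin_sq_add_cos_sq (τ * (Real.pi / 2))
  unfold Rt
  generalize Real.sin (τ * (Real.pi / 2)) = s at *
  generalize Real.cos (τ * (Real.pi / 2)) = c at *
  ext i j
  fin_cases i <;> fin_cases j <;>
    simp [Matrix.mul_apply, Fin.sum_univ_two, Matrix.transpose_apply] <;>
    nlinarith [h]

theorem RtT' (τ : ℝ) : Rt τ * (Rt τ).transpose = 1 := mul_eq_one_comm.mp (RtT τ)

theorem e00 : e0 * e0 = e0 := by
  ext i j; fin_cases i <;> fin_cases j <;> simp [e0, Matrix.mul_apply, Fin.sum_univ_two]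
theorem e11 : e1 * e1 = e1 := by
  ext i j; fin_cases i <;> fin_cases j <;> simp [e1, Matrix.mul_apply, Fin.sum_univ_two]
theorem e01 : e0 * e1 = 0 := by
  ext i j; fin_cases i <;> fin_cases j <;> simp [e0, e1, Matrix.mul_apply, Fin.sum_univ_two]
theorem e10 : e1 * e0 = 0 := by
  ext i j; fin_cases i <;> fin_cases j <;> simp [e0, e1, Matrix.mul_apply, Fin.sum_univ_two]
theorem e_add : e0 + e1 = 1 := by
  ext i j; fin_cases i <;> fin_cases j <;> simp [e0, e1]

theorem f_mul (τ : ℝ) (a b : Matrix (Fin 2) (Fin 2) ℝ) :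
    (Rt τ * a * (Rt τ).transpose) * (Rt τ * b * (Rt τ).transpose) =
      Rt τ * (a * b) * (Rt τ).transpose := by
  calc (Rt τ * a * (Rt τ).transpose) * (Rt τ * b * (Rt τ).transpose)
      = Rt τ * a * ((Rt τ).transpose * Rt τ) * b * (Rt τ).transpose := by
        simp only [Matrix.mul_assoc]
    _ = _ := by rw [RtT, Matrix.mul_one]; simp only [Matrix.mul_assoc]

theorem f00 (τ : ℝ) : f0 τ * f0 τ = f0 τ := by unfold f0; rw [f_mul, e00]
theorem f11 (τ : ℝ) : f1 τ * f1 τ = f1 τ := by unfold f1; rw [f_mul, e11]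
theorem f01 (τ : ℝ) : f0 τ * f1 τ = 0 := by unfold f0 f1; rw [f_mul, e01]; simp
theorem f10 (τ : ℝ) : f1 τ * f0 τ = 0 := by unfold f0 f1; rw [f_mul, e10]; simp
theorem f_add (τ : ℝ) : f0 τ + f1 τ = 1 := by
  unfold f0 f1
  rw [← Matrix.add_mul, ← Matrix.mul_add, e_add, Matrix.mul_one, RtT']

theorem Rt0 : Rt 0 = 1 := by
  ext i j; fin_cases i <;> fin_cases j <;> simp [Rt]
theorem f0_zero : f0 0 = e0 := by unfold f0; rw [Rt0]; simp
theorem f1_zero : f1 0 = e1 := by unfold f1; rw [Rt0]; simp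
theorem f0_one : f0 1 = e1 := by
  unfold f0
  ext i j
  fin_cases i <;> fin_cases j <;>
    simp [Rt, e0, e1, Matrix.mul_apply, Fin.sum_univ_two, Matrix.transpose_apply]
theorem f1_one : f1 1 = e0 := by
  unfold f1
  ext i j
  fin_cases i <;> fin_cases j <;>
    simp [Rt, e0, e1, Matrix.mul_apply, Fin.sum_univ_two, Matrix.transpose_apply]

theorem Rt_cont : Continuous Rt := by
  apply continuous_matrix
  intro i j
  fin_cases i <;> fin_cases j <;> simp [Rt] <;> fun_prop

theorem f0_cont : Continuous f0 :=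
  (Rt_cont.matrix_mul continuous_const).matrix_mul Rt_cont.matrix_transpose
theorem f1_cont : Continuous f1 :=
  (Rt_cont.matrix_mul continuous_const).matrix_mul Rt_cont.matrix_transpose

theorem kr_mul {l m : Type} [Fintype l] [Fintype m] (A B : Matrix l l ℝ) (X Y : Matrix m m ℝ) :
    kr A X * kr B Y = kr (A * B) (X * Y) :=
  (Matrix.mul_kronecker_mul A B X Y).symm

theorem kr_zero {l m : Type} (X : Matrix m m ℝ) : kr (0 : Matrix l l ℝ) X = 0 := by
  ext i j; simp

theorem kr_one : kr (1 : Matrix (Fin 2) (Fin 2) ℝ) (1 : Matrix (Fin 3) (Fin 3) ℝ) = 1 :=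
  Matrix.one_kronecker_one

/-- product of the block matrices of a pair of complementary projections -/
theorem F_mul {a b : Matrix (Fin 2) (Fin 2) ℝ} (haa : a * a = a) (hbb : b * b = b)
    (hab : a * b = 0) (hba : b * a = 0) (X Y X' Y' : Matrix (Fin 3) (Fin 3) ℝ) :
    F a X b Y 0 1 * F a X' b Y' 0 1 = F a (X * X') b (Y * Y') 0 1 := by
  unfold F
  rw [Matrix.fromBlocks_multiply]
  congr 1
  · rw [Matrix.add_mul, Matrix.mul_add, Matrix.mul_add, kr_mul, kr_mul, kr_mul, kr_mul, haa, hbb,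
      hab, hba, kr_zero, kr_zero]
    simp
  all_goals simp

theorem F_one {a b : Matrix (Fin 2) (Fin 2) ℝ} (h : a + b = 1) :
    F a 1 b 1 0 1 = 1 := by
  unfold F
  have : kr a (1 : Matrix (Fin 3) (Fin 3) ℝ) + kr b 1 = 1 := by
    rw [← kr_one, ← h]
    ext i j
    simp [Matrix.kroneckerMap_apply, Matrix.add_apply, add_mul]
  rw [this, Matrix.fromBlocks_one]

end H9

open H9 in
theorem pH9 : StH9 := by
  intro w H C v D hw hH hv hD hH01 hv01 hD01 hdet
  have hI0 : (0 : ℝ) ∈ Icc (0 : ℝ) 1 := ⟨le_refl _, zero_le_one⟩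
  have hI1 : (1 : ℝ) ∈ Icc (0 : ℝ) 1 := ⟨zero_le_one, le_refl _⟩
  -- the value on the constant loop
  have hone : (1 : Matrix N7 N7 ℝ) ∈ GG N7 := mem_of_inv (b := 1) (by simp)
  have hLone : Lp (GG N7) (fun _ => (1 : Matrix N7 N7 ℝ)) :=
    ⟨continuousOn_const, fun _ _ => hone, rfl⟩
  have hw1 : w (fun _ => 1) = 1 := by
    have h1 := hw.mul _ _ hLone hLone rfl
    rcases hw.pm _ hLone with h | h
    · exact h
    · simp only [Matrix.mul_one] at h1
      rw [h] at h1
      norm_num at h1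
  -- determinants
  have hd : ∀ t ∈ Icc (0 : ℝ) 1, (kr C (H t)).det ≠ 0 ∧ (D t) () () ≠ 0 := by
    intro t ht
    have h := hdet t ht
    rw [Matrix.det_fromBlocks_zero₂₁] at h
    refine ⟨left_ne_zero_of_mul h, ?_⟩
    have h2 := right_ne_zero_of_mul h
    rwa [det1] at h2
  have hCH : ∀ t ∈ Icc (0 : ℝ) 1, C.det ≠ 0 ∧ (H t).det ≠ 0 := by
    intro t ht
    have h := (hd t ht).1
    have h2 := Matrix.det_kronecker C (H t)
    change (kr C (H t)).det = _ at h2
    rw [h2] at h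
    refine ⟨fun h0 => h ?_, fun h0 => h ?_⟩
    · rw [h0]; simp
    · rw [h0]; simp
  have hC : C.det ≠ 0 := (hCH 0 hI0).1
  -- the sign
  obtain ⟨ε, hε, hεd⟩ : ∃ ε : ℝ, ε ≠ 0 ∧ ∀ t ∈ Icc (0 : ℝ) 1, 0 < ε * (D t) () () := by
    have hcont : ContinuousOn (fun t => (D t) () ()) (Icc 0 1) := by
      intro t ht
      exact ((continuous_id.matrix_elem () ()).continuousAt (x := D t)).comp_continuousWithinAt
        (hD t ht)
    have hpre : IsPreconnected ((fun t => (D t) () ()) '' Icc (0 : ℝ) 1) :=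
      isPreconnected_Icc.image _ hcont
    rcases lt_or_gt_of_ne (hd 0 hI0).2 with h0 | h0
    · refine ⟨-1, by norm_num, fun t ht => ?_⟩
      by_contra hc
      have h1 : 0 ≤ (D t) () () := by linarith
      have := hpre.Icc_subset ⟨0, hI0, rfl⟩ ⟨t, ht, rfl⟩ ⟨h0.le, h1⟩
      obtain ⟨s, hs, hs0⟩ := this
      exact (hd s hs).2 hs0
    · refine ⟨1, by norm_num, fun t ht => ?_⟩
      by_contra hc
      have h1 : (D t) () () ≤ 0 := by linarith
      have := hpre.Icc_subset ⟨t, ht, rfl⟩ ⟨0, hI0, rfl⟩ ⟨h1, h0.le⟩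
      obtain ⟨s, hs, hs0⟩ := this
      exact (hd s hs).2 hs0
  -- step 1 and 2: homotopy to `fromBlocks (C ⊗ H) 0 0 ε`
  have hfst : ContinuousOn (fun p : ℝ × ℝ => p.1) (Icc (0 : ℝ) 1 ×ˢ Icc (0 : ℝ) 1) :=
    continuousOn_fst
  have hmaps : MapsTo (fun p : ℝ × ℝ => p.1) (Icc (0 : ℝ) 1 ×ˢ Icc (0 : ℝ) 1) (Icc 0 1) :=
    fun p hp => hp.1
  have hHp : ContinuousOn (fun p : ℝ × ℝ => H p.1) (Icc (0 : ℝ) 1 ×ˢ Icc (0 : ℝ) 1) :=
    hH.comp hfst hmaps
  have hvp : ContinuousOn (fun p : ℝ × ℝ => v p.1) (Icc (0 : ℝ) 1 ×ˢ Icc (0 : ℝ) 1) :=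
    hv.comp hfst hmaps
  have hDp : ContinuousOn (fun p : ℝ × ℝ => D p.1) (Icc (0 : ℝ) 1 ×ˢ Icc (0 : ℝ) 1) :=
    hD.comp hfst hmaps
  have s1 := hw.hom (fun t τ => F C (H t) 0 1 ((1 - τ) • v t) ((1 - τ) • D t + τ • (ε • 1)))
    (by
      apply cOn continuousOn_const hHp continuousOn_const continuousOn_const
      · exact (continuousOn_const.sub continuousOn_snd).smul hvp
      · exact ((continuousOn_const.sub continuousOn_snd).smul hDp).add
          (continuousOn_snd.smul continuousOn_const))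
    (by
      intro t ht τ hτ
      change Matrix.det _ ≠ 0
      unfold F
      rw [Matrix.det_fromBlocks_zero₂₁, kr_zero, add_zero, det1]
      apply mul_ne_zero (hd t ht).1
      simp only [Matrix.add_apply, Matrix.smul_apply, smul_eq_mul]
      have hu : (1 : Matrix Unit Unit ℝ) () () = 1 := by simp
      rw [hu, mul_one]
      have hpos : 0 < ε * ((1 - τ) * (D t) () () + τ * ε) := by
        have h1 := hεd t ht
        have h2 : 0 < ε * ε := mul_self_pos.mpr hε
        have : ε * ((1 - τ) * (D t) () () + τ * ε) = (1 - τ) * (ε * (D t) () ()) + τ * (ε * ε) := by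
          ring
        rw [this]
        rcases eq_or_lt_of_le hτ.1 with h0 | h0
        · rw [← h0]; linarith
        · have := mul_pos h0 h2
          have := mul_nonneg (sub_nonneg.mpr hτ.2) h1.le
          linarith
      intro hz
      have hz' : (1 - τ) * (D t) () () + τ * ε = 0 := hz
      rw [hz'] at hpos
      simp at hpos)
    (by intro τ _; simp only [hH01, hv01, hD01])
  have s1a : (fun t => F C (H t) 0 1 ((1 - (0 : ℝ)) • v t)
      ((1 - (0 : ℝ)) • D t + (0 : ℝ) • (ε • 1))) =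
      fun t => Matrix.fromBlocks (Matrix.kroneckerMap (· * ·) C (H t)) (v t) 0 (D t) := by
    funext t
    unfold F
    rw [kr_zero]
    simp
  have s1b : (fun t => F C (H t) 0 1 ((1 - (1 : ℝ)) • v t)
      ((1 - (1 : ℝ)) • D t + (1 : ℝ) • (ε • 1))) = fun t => F C (H t) 0 1 0 (ε • 1) := by
    funext t
    simp
  rw [s1a, s1b] at s1
  rw [s1]
  -- step 3: split off the constant
  have hH0 : IsUnit (H 0).det := isUnit_iff_ne_zero.mpr (hCH 0 hI0).2
  set K : ℝ → Matrix (Fin 3) (Fin 3) ℝ := fun t => (H 0)⁻¹ * H t with hK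
  have hHK : ∀ t, H 0 * K t = H t := by
    intro t
    rw [hK]
    simp only
    rw [← Matrix.mul_assoc, Matrix.mul_nonsing_inv _ hH0, Matrix.one_mul]
  have hK0 : K 0 = 1 := by rw [hK]; exact Matrix.nonsing_inv_mul _ hH0
  have hK1 : K 1 = 1 := by rw [hK]; simp only; rw [← hH01]; exact Matrix.nonsing_inv_mul _ hH0
  have hKc : ContinuousOn K (Icc 0 1) := by
    rw [hK]
    exact (continuous_const.matrix_mul continuous_id).comp_continuousOn hH
  have hKdet : ∀ t ∈ Icc (0 : ℝ) 1, IsUnit (K t).det := by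
    intro t ht
    have h1 := congrArg Matrix.det (hHK t)
    rw [Matrix.det_mul] at h1
    rw [isUnit_iff_ne_zero]
    intro h0
    rw [h0, mul_zero] at h1
    exact (hCH t ht).2 h1.symm
  have hKp : ContinuousOn (fun p : ℝ × ℝ => K p.1) (Icc (0 : ℝ) 1 ×ˢ Icc (0 : ℝ) 1) :=
    hKc.comp hfst hmaps
  -- the loops with two complementary projections
  have hmem : ∀ τ : ℝ, ∀ X Y : Matrix (Fin 3) (Fin 3) ℝ, IsUnit X.det → IsUnit Y.det →
      F (f0 τ) X (f1 τ) Y 0 1 ∈ GG N7 := by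
    intro τ X Y hX hY
    apply mem_of_inv (b := F (f0 τ) X⁻¹ (f1 τ) Y⁻¹ 0 1)
    rw [F_mul (f00 τ) (f11 τ) (f01 τ) (f10 τ), Matrix.mul_nonsing_inv _ hX,
      Matrix.mul_nonsing_inv _ hY, F_one (f_add τ)]
  have hu1 : IsUnit (1 : Matrix (Fin 3) (Fin 3) ℝ).det := by simp
  have hc : F C (H 0) 0 1 0 (ε • 1) ∈ GG N7 := by
    change Matrix.det _ ≠ 0
    unfold F
    rw [Matrix.det_fromBlocks_zero₂₁, kr_zero, add_zero, det1]
    apply mul_ne_zero (hd 0 hI0).1
    simpa using hε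
  have hL : ∀ X Y : ℝ → Matrix (Fin 3) (Fin 3) ℝ, ContinuousOn X (Icc 0 1) →
      ContinuousOn Y (Icc 0 1) → (∀ t ∈ Icc (0 : ℝ) 1, IsUnit (X t).det) →
      (∀ t ∈ Icc (0 : ℝ) 1, IsUnit (Y t).det) → X 0 = X 1 → Y 0 = Y 1 → 
      Lp (GG N7) (fun t => F e0 (X t) e1 (Y t) 0 1) := by
    intro X Y hX hY hXd hYd hX1 hY1
    refine ⟨cOn continuousOn_const hX continuousOn_const hY continuousOn_const continuousOn_const,
      fun t ht => ?_, ?_⟩
    · have := hmem 0 (X t) (Y t) (hXd t ht) (hYd t ht)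
      rwa [f0_zero, f1_zero] at this
    · simp only [hX1, hY1]
  have hLKK := hL K K hKc hKc hKdet hKdet (by rw [hK0, hK1]) (by rw [hK0, hK1])
  have hLK1 := hL K (fun _ => 1) hKc continuousOn_const hKdet (fun _ _ => hu1)
    (by rw [hK0, hK1]) rfl
  have hL1K := hL (fun _ => 1) K continuousOn_const hKc (fun _ _ => hu1) hKdet rfl
    (by rw [hK0, hK1])
  have s2 : (fun t => F C (H t) 0 1 0 (ε • 1)) =
      fun t => F C (H 0) 0 1 0 (ε • 1) * F e0 (K t) e1 (K t) 0 1 := by
    funext t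
    unfold F
    rw [Matrix.fromBlocks_multiply]
    have h1 : kr e0 (K t) + kr e1 (K t) = kr 1 (K t) := by
      rw [← e_add]
      ext i j
      simp [Matrix.kroneckerMap_apply, Matrix.add_apply, add_mul]
    rw [kr_zero, add_zero, add_zero, h1, kr_mul, Matrix.mul_one, hHK t]
    congr 1
    all_goals simp
  rw [s2, hw.left _ hc _ hLKK]
  -- step 4: product of two loops
  have s3 : (fun t => F e0 (K t) e1 (K t) 0 1) =
      fun t => F e0 (K t) e1 1 0 1 * F e0 1 e1 (K t) 0 1 := by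
    funext t
    rw [F_mul e00 e11 e01 e10, Matrix.mul_one, Matrix.one_mul]
  have hstart : F e0 1 e1 (K 0) 0 1 = 1 := by rw [hK0]; exact F_one e_add
  rw [s3, hw.mul _ _ hLK1 hL1K hstart]
  -- step 5: rotation
  have s4 := hw.hom (fun t τ => F (f0 τ) (K t) (f1 τ) 1 0 1)
    (by
      apply cOn (f0_cont.comp_continuousOn continuousOn_snd) hKp
        (f1_cont.comp_continuousOn continuousOn_snd) continuousOn_const continuousOn_const
        continuousOn_const)
    (fun t ht τ _ => hmem τ (K t) 1 (hKdet t ht) hu1)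
    (by intro τ _; simp only [hK0, hK1])
  simp only [f0_zero, f1_zero, f0_one, f1_one] at s4
  have s5 : (fun t => F e1 (K t) e0 1 0 1) = fun t => F e0 1 e1 (K t) 0 1 := by
    funext t
    unfold F
    rw [add_comm]
  rw [s5] at s4
  rw [s4]
  rcases hw.pm _ hL1K with h | h <;> rw [h] <;> norm_num

end Pool.Agent.Helper74.SS
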