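import Pool.Agent.Helper74.SS.St

/-!
Project SS, module I1: characteristic maps from maps of closed balls.
-/

set_option autoImplicit false

open Set Metric Filter Topology

namespace Pool.Agent.Helper74.SS

/-- I1: characteristic maps from maps of closed balls. -/
theorem pI1 : StI1 := by
  intro n X _ _ f hf hinj hsep
  have hbij : BijOn f (ball 0 1) (f '' ball 0 1) := hinj.bijOn_image
  refine ⟨hbij.toPartialEquiv f (ball 0 1) (f '' ball 0 1), fun x => rfl, rfl, ?_⟩
  have hleft : ∀ y ∈ ball (0 : Fin n → ℝ) 1,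
      (hbij.toPartialEquiv f (ball 0 1) (f '' ball 0 1)).symm (f y) = y := fun y hy =>
    (hbij.toPartialEquiv f (ball 0 1) (f '' ball 0 1)).left_inv hy
  rw [continuousOn_iff_isClosed]
  intro C hC
  refine ⟨f '' (C ∩ closedBall 0 1), ?_, ?_⟩
  · exact (((isCompact_closedBall (0 : Fin n → ℝ) 1).inter_left hC).image_of_continuousOn
      (hf.mono inter_subset_right)).isClosed
  · ext x
    constructor
    · rintro ⟨hx1, hx2⟩
      obtain ⟨y, hy, rfl⟩ := hx2
      refine ⟨⟨y, ⟨?_, ball_subset_closedBall hy⟩, rfl⟩, ⟨y, hy, rfl⟩⟩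
      have h1 : (hbij.toPartialEquiv f (ball 0 1) (f '' ball 0 1)).symm (f y) ∈ C := hx1
      rwa [hleft y hy] at h1
    · rintro ⟨hx1, hx2⟩
      obtain ⟨y, hy, rfl⟩ := hx2
      refine ⟨?_, ⟨y, hy, rfl⟩⟩
      show (hbij.toPartialEquiv f (ball 0 1) (f '' ball 0 1)).symm (f y) ∈ C
      rw [hleft y hy]
      obtain ⟨z, ⟨hzC, hzb⟩, hzy⟩ := hx1
      rcases eq_or_lt_of_le (mem_closedBall.1 hzb) with h2 | h2
      · exact absurd hzy.symm (hsep y hy z (mem_sphere.2 h2))
      · rw [← hinj (mem_ball.2 h2) hy hzy]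
        exact hzC

end Pool.Agent.Helper74.SS
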