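import Pool.Agent.Helper74.SS.St

set_option autoImplicit false

open Set Metric Filter Topology

namespace Pool.Agent.Helper74.SS

theorem norm2_I2 (x : Fin 2 → ℝ) : ‖x‖ = max |x 0| |x 1| := by
  apply le_antisymm
  · rw [pi_norm_le_iff_of_nonneg (le_max_of_le_left (abs_nonneg _))]
    intro i
    fin_cases i
    · exact le_max_left _ _
    · exact le_max_right _ _
  · apply max_le
    · exact norm_le_pi_norm x 0
    · exact norm_le_pi_norm x 1

/-- the point of `ℂ` -/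
def w_I2 (z : Fin 2 → ℝ) : ℂ := ⟨z 0, z 1⟩

/-- the angle -/
noncomputable def u_I2 (z : Fin 2 → ℝ) : ℝ := Int.fract (Complex.arg (w_I2 z) / (2 * Real.pi))

theorem u_mem_I2 (z : Fin 2 → ℝ) : u_I2 z ∈ Ico (0 : ℝ) 1 :=
  ⟨Int.fract_nonneg _, Int.fract_lt_one _⟩

theorem u_polar_I2 (z : Fin 2 → ℝ) (r t : ℝ) (hr : 0 < r) (h0 : z 0 = r * Real.cos (2 * Real.pi * t))
    (h1 : z 1 = r * Real.sin (2 * Real.pi * t)) : u_I2 z = Int.fract t := by
  have hpi := Real.pi_pos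
  have e : w_I2 z = r * (Complex.cos ((2 * Real.pi * t : ℝ) : ℂ) +
      Complex.sin ((2 * Real.pi * t : ℝ) : ℂ) * Complex.I) := by
    rw [← Complex.ofReal_cos, ← Complex.ofReal_sin]
    apply Complex.ext
    · simp only [w_I2, Complex.mul_re, Complex.ofReal_re, Complex.add_re, Complex.I_re,
        Complex.ofReal_im, Complex.I_im, Complex.add_im, Complex.mul_im]
      rw [h0]
      ring
    · simp only [w_I2, Complex.mul_re, Complex.ofReal_re, Complex.add_re, Complex.I_re,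
        Complex.ofReal_im, Complex.I_im, Complex.add_im, Complex.mul_im]
      rw [h1]
      ring
  unfold u_I2
  rw [e, Complex.arg_mul_cos_add_sin_mul_I_eq_toIocMod hr, Int.fract_eq_fract]
  refine ⟨-(toIocDiv Real.two_pi_pos (-Real.pi) (2 * Real.pi * t)), ?_⟩
  unfold toIocMod
  rw [zsmul_eq_mul]
  push_cast
  field_simp
  ring

theorem u_inj_I2 (z z' : Fin 2 → ℝ) (h : ‖z‖ = ‖z'‖) (hu : u_I2 z = u_I2 z') : z = z' := by
  have hpi := Real.pi_pos
  by_cases hz' : z' = 0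
  · rw [hz', norm_zero, norm_eq_zero] at h
    rw [h, hz']
  have hw' : w_I2 z' ≠ 0 := by
    intro hc
    apply hz'
    have h0 : (w_I2 z').re = 0 := by rw [hc]; rfl
    have h1 : (w_I2 z').im = 0 := by rw [hc]; rfl
    funext i
    fin_cases i
    · exact h0
    · exact h1
  have hw'0 : 0 < ‖w_I2 z'‖ := norm_pos_iff.mpr hw'
  unfold u_I2 at hu
  rw [Int.fract_eq_fract] at hu
  obtain ⟨n, hn⟩ := hu
  have harg : Complex.arg (w_I2 z) = Complex.arg (w_I2 z') + n * (2 * Real.pi) := by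
    field_simp at hn
    linarith
  have hc : Real.cos (Complex.arg (w_I2 z)) = Real.cos (Complex.arg (w_I2 z')) := by
    rw [harg, Real.cos_add_int_mul_two_pi]
  have hs : Real.sin (Complex.arg (w_I2 z)) = Real.sin (Complex.arg (w_I2 z')) := by
    rw [harg, Real.sin_add_int_mul_two_pi]
  have a0 := Complex.norm_mul_cos_arg (w_I2 z)
  have a1 := Complex.norm_mul_sin_arg (w_I2 z)
  have b0 := Complex.norm_mul_cos_arg (w_I2 z')
  have b1 := Complex.norm_mul_sin_arg (w_I2 z')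
  rw [hc] at a0
  rw [hs] at a1
  set l := ‖w_I2 z‖ / ‖w_I2 z'‖ with hl
  have hl0 : 0 ≤ l := by positivity
  have e : z = l • z' := by
    funext i
    fin_cases i
    · show (w_I2 z).re = l * (w_I2 z').re
      rw [← a0, ← b0, hl]
      field_simp
    · show (w_I2 z).im = l * (w_I2 z').im
      rw [← a1, ← b1, hl]
      field_simp
  rw [e, norm_smul, Real.norm_of_nonneg hl0] at h
  have hz'n : ‖z'‖ ≠ 0 := norm_ne_zero_iff.mpr hz'
  have hl1 : l = 1 := by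
    have : l * ‖z'‖ = 1 * ‖z'‖ := by rw [h, one_mul]
    exact mul_right_cancel₀ hz'n this
  rw [e, hl1, one_smul]

/-- the larger of `|cos|`, `|sin|` -/
noncomputable def m_I2 (t : ℝ) : ℝ :=
  max |Real.cos (2 * Real.pi * t)| |Real.sin (2 * Real.pi * t)|

theorem m_pos_I2 (t : ℝ) : 0 < m_I2 t := by
  unfold m_I2
  rw [lt_max_iff]
  by_contra hc
  push Not at hc
  have h1 : Real.cos (2 * Real.pi * t) = 0 := abs_nonpos_iff.mp hc.1
  have h2 : Real.sin (2 * Real.pi * t) = 0 := abs_nonpos_iff.mp hc.2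
  have h3 := Real.sin_sq_add_cos_sq (2 * Real.pi * t)
  rw [h1, h2] at h3
  norm_num at h3

/-- polar coordinates -/
noncomputable def k_I2 (p : ℝ × ℝ) : Fin 2 → ℝ :=
  fun i => if i = 0 then p.1 / m_I2 p.2 * Real.cos (2 * Real.pi * p.2)
    else p.1 / m_I2 p.2 * Real.sin (2 * Real.pi * p.2)

theorem m_cont_I2 : Continuous m_I2 := by
  unfold m_I2
  fun_prop

theorem k_cont_I2 : Continuous k_I2 := by
  apply continuous_pi
  intro i
  have h : Continuous (fun p : ℝ × ℝ => p.1 / m_I2 p.2) :=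
    continuous_fst.div (m_cont_I2.comp continuous_snd) (fun p => (m_pos_I2 p.2).ne')
  unfold k_I2
  by_cases hi : i = 0
  · simp only [hi, if_true]
    exact h.mul (by fun_prop)
  · simp only [hi, if_false]
    exact h.mul (by fun_prop)

theorem k_norm_I2 (p : ℝ × ℝ) (hp : 0 ≤ p.1) : ‖k_I2 p‖ = p.1 := by
  rw [norm2_I2]
  have hm := m_pos_I2 p.2
  have e0 : |k_I2 p 0| = p.1 / m_I2 p.2 * |Real.cos (2 * Real.pi * p.2)| := by
    show |p.1 / m_I2 p.2 * Real.cos (2 * Real.pi * p.2)| = _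
    rw [abs_mul, abs_of_nonneg (div_nonneg hp hm.le)]
  have e1 : |k_I2 p 1| = p.1 / m_I2 p.2 * |Real.sin (2 * Real.pi * p.2)| := by
    show |p.1 / m_I2 p.2 * Real.sin (2 * Real.pi * p.2)| = _
    rw [abs_mul, abs_of_nonneg (div_nonneg hp hm.le)]
  rw [e0, e1, ← mul_max_of_nonneg _ _ (div_nonneg hp hm.le)]
  show p.1 / m_I2 p.2 * m_I2 p.2 = p.1
  field_simp

theorem k_u_I2 (p : ℝ × ℝ) (hp : 0 < p.1) : u_I2 (k_I2 p) = Int.fract p.2 :=
  u_polar_I2 _ (p.1 / m_I2 p.2) p.2 (div_pos hp (m_pos_I2 p.2)) rfl rfl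

theorem u_zero_I2 : u_I2 0 = 0 := by
  have : w_I2 0 = 0 := rfl
  unfold u_I2
  rw [this, Complex.arg_zero, zero_div, Int.fract_zero]

theorem pI2 (hC0 : StC0) : StI2 := by
  refine ⟨u_I2, u_mem_I2, u_inj_I2, ?_, ?_⟩
  · intro ρ hρ t ht
    refine ⟨k_I2 (ρ, t), k_norm_I2 _ hρ.1.le, ?_⟩
    rw [k_u_I2 _ hρ.1]
    exact Int.fract_eq_self.mpr ht
  · intro X _ c hc h0 h1
    have key : ContinuousOn (fun p : ℝ × ℝ => c ‖k_I2 p‖ (u_I2 (k_I2 p)))
        (Icc (0 : ℝ) 1 ×ˢ Icc (0 : ℝ) 1) := by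
      apply hc.congr
      intro p hp
      obtain ⟨hp1, hp2⟩ := hp
      show c ‖k_I2 p‖ (u_I2 (k_I2 p)) = c p.1 p.2
      rw [k_norm_I2 p hp1.1]
      rcases hp1.1.eq_or_lt with h | h
      · rw [← h, h0 p.2 hp2]
        have : k_I2 p = 0 := by
          rw [← norm_eq_zero, k_norm_I2 p hp1.1, ← h]
        rw [this, u_zero_I2]
      · rw [k_u_I2 p h]
        rcases hp2.2.eq_or_lt with h' | h'
        · rw [h', Int.fract_one, h1 p.1 hp1]
        · rw [Int.fract_eq_self.mpr ⟨hp2.1, h'⟩]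
    have h2 := hC0 (ℝ × ℝ) (Fin 2 → ℝ) X (Icc (0 : ℝ) 1 ×ˢ Icc (0 : ℝ) 1) k_I2
      (fun z => c ‖z‖ (u_I2 z)) (isCompact_Icc.prod isCompact_Icc) k_cont_I2.continuousOn key
    apply h2.mono
    intro z hz
    have hz1 : ‖z‖ ≤ 1 := by simpa using hz
    refine ⟨(‖z‖, u_I2 z), ⟨⟨norm_nonneg z, hz1⟩, ⟨(u_mem_I2 z).1, (u_mem_I2 z).2.le⟩⟩, ?_⟩
    have e1 : ‖k_I2 (‖z‖, u_I2 z)‖ = ‖z‖ := k_norm_I2 _ (norm_nonneg z)
    by_cases hz0 : z = 0
    · rw [hz0, norm_zero, norm_eq_zero] at e1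
      rw [hz0, norm_zero]
      exact e1
    · apply u_inj_I2 _ _ e1
      rw [k_u_I2 _ (norm_pos_iff.mpr hz0)]
      exact Int.fract_eq_self.mpr (u_mem_I2 z)

end Pool.Agent.Helper74.SS
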