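import Pool.Agent.Helper74.SS.St

/-!
# SS module I3: the CW structure
-/

set_option autoImplicit false

open Set Metric Filter Topology

namespace Pool.Agent.Helper74.SS

/-- the cells -/
def cell_I3 (ι κ : Type) : ℕ → Type
  | 0 => Unit
  | 1 => ι
  | 2 => κ
  | _ => Empty

/-- the characteristic maps -/
noncomputable def fun_I3 {ι κ : Type} [DecidableEq ι] [DecidableEq κ] (R : κ → Wd ι)
    (u : (Fin 2 → ℝ) → ℝ) : (n : ℕ) → cell_I3 ι κ n → (Fin n → ℝ) → Amb ι κ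
  | 0, _, _ => 0
  | 1, i, z => wpt (show ι from i) ((z 0 + 1) / 2)
  | 2, j, z => cel R (show κ from j) ‖z‖ (u z)
  | (_ + 3), e, _ => (show Empty from e).elim

theorem norm1_I3 (z : Fin 1 → ℝ) : ‖z‖ = |z 0| := by
  apply le_antisymm
  · rw [pi_norm_le_iff_of_nonneg (abs_nonneg _)]
    intro i
    fin_cases i
    exact le_rfl
  · exact norm_le_pi_norm z 0

theorem ex_eq_one_I3 (h1 : StC1) (t : ℝ) : ex t = 1 ↔ ∃ n : ℤ, t = n := by
  obtain ⟨-, h0, -, -, -, -, hst, -⟩ := h1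
  have := hst t 0
  rw [h0, sub_zero] at this
  exact this

theorem ex_ne_one_I3 (h1 : StC1) (t : ℝ) (ht : 0 < t) (ht' : t < 1) : ex t ≠ 1 := by
  intro h
  obtain ⟨n, hn⟩ := (ex_eq_one_I3 h1 t).1 h
  rw [hn] at ht ht'
  have h1 : 0 < n := by exact_mod_cast ht
  have h2 : n < 1 := by exact_mod_cast ht'
  omega

section

variable {ι κ : Type} [DecidableEq ι] [DecidableEq κ]

theorem wpt_zero_I3 (h1 : StC1) (i : ι) (t : ℝ) (h : ∃ n : ℤ, t = n) :
    (wpt i t : Amb ι κ) = 0 := by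
  unfold wpt
  rw [(ex_eq_one_I3 h1 t).2 h, sub_self, Pi.single_zero]
  rfl

theorem wpt_ne_zero_I3 (h1 : StC1) (i : ι) (t : ℝ) (ht : 0 < t) (ht1 : t < 1) :
    (wpt i t : Amb ι κ) ≠ 0 := by
  intro h
  have h3 : (Pi.single i (ex t - 1) : ι → ℂ) i = 0 := congrFun (congrArg Prod.fst h) i
  rw [Pi.single_eq_same] at h3
  exact ex_ne_one_I3 h1 t ht ht1 (sub_eq_zero.1 h3)

theorem wpt_inj_I3 (h1 : StC1) (i i' : ι) (t t' : ℝ) (ht : 0 < t) (ht1 : t < 1)
    (ht' : 0 < t') (ht1' : t' < 1) (h : (wpt i t : Amb ι κ) = wpt i' t') : i = i' ∧ t = t' := by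
  have h' : (Pi.single i (ex t - 1) : ι → ℂ) = Pi.single i' (ex t' - 1) := congrArg Prod.fst h
  have hi : i = i' := by
    by_contra hne
    have h3 := congrFun h' i
    rw [Pi.single_eq_same, Pi.single_eq_of_ne hne] at h3
    exact ex_ne_one_I3 h1 t ht ht1 (sub_eq_zero.1 h3)
  refine ⟨hi, ?_⟩
  subst hi
  have h3 := congrFun h' i
  rw [Pi.single_eq_same, Pi.single_eq_same, sub_left_inj] at h3
  obtain ⟨n, hn⟩ := (h1.2.2.2.2.2.2.1 t t').1 h3
  have h4 : (-1 : ℝ) < n := by rw [← hn]; linarith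
  have h5 : (n : ℝ) < 1 := by rw [← hn]; linarith
  have h6 : -1 < n := by exact_mod_cast h4
  have h7 : n < 1 := by exact_mod_cast h5
  have h8 : n = 0 := by omega
  rw [h8] at hn
  simp only [Int.cast_zero] at hn
  linarith

theorem hh_wpt_I3 (i : ι) (t : ℝ) (j : κ) : hh j (wpt i t : Amb ι κ) = 0 := rfl

theorem wpt_fract_I3 (h1 : StC1) (i : ι) (t : ℝ) :
    (wpt i t : Amb ι κ) = wpt i (Int.fract t) := by
  unfold wpt
  have : ex t = ex (Int.fract t) := (h1.2.2.2.2.2.2.1 t (Int.fract t)).2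
    ⟨⌊t⌋, by rw [Int.fract]; ring⟩
  rw [this]

end

section

variable {ι κ : Type} [Fintype ι] [DecidableEq ι] [Fintype κ] [DecidableEq κ]

theorem cont_I3 (h1 : StC1) (h2 : StC2) (R : κ → Wd ι) (u : (Fin 2 → ℝ) → ℝ)
    (hu : ∀ (X : Type) [TopologicalSpace X] (c : ℝ → ℝ → X),
      ContinuousOn (fun p : ℝ × ℝ => c p.1 p.2) (Icc 0 1 ×ˢ Icc 0 1) →
      (∀ t ∈ Icc (0 : ℝ) 1, c 0 t = c 0 0) → (∀ ρ ∈ Icc (0 : ℝ) 1, c ρ 0 = c ρ 1) →
      ContinuousOn (fun z => c ‖z‖ (u z)) (closedBall 0 1)) :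
    ∀ n (i : cell_I3 ι κ n), ContinuousOn (fun_I3 R u n i) (closedBall 0 1)
  | 0, _ => continuousOn_const
  | 1, i => by
    refine Continuous.continuousOn ?_
    show Continuous fun z : Fin 1 → ℝ => (wpt (show ι from i) ((z 0 + 1) / 2) : Amb ι κ)
    unfold wpt
    have hex : Continuous ex := h1.1
    refine Continuous.prodMk ?_ continuous_const
    refine (continuous_single (A := fun _ : ι => ℂ) (show ι from i)).comp ?_
    exact (hex.comp (((continuous_apply 0).add continuous_const).div_const 2)).sub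
      continuous_const
  | 2, j => by
    obtain ⟨-, -, hc, -, hc0, hc1, -⟩ := h2 ι κ R
    exact hu (Amb ι κ) (cel R (show κ from j)) (hc _).continuousOn (fun t _ => hc0 _ t)
      fun ρ _ => hc1 _ ρ
  | (_ + 3), e => (show Empty from e).elim

theorem inj_I3 (h1 : StC1) (h2 : StC2) (R : κ → Wd ι) (u : (Fin 2 → ℝ) → ℝ)
    (hu0 : ∀ z, u z ∈ Ico (0 : ℝ) 1) (hu1 : ∀ z z', ‖z‖ = ‖z'‖ → u z = u z' → z = z') :
    ∀ n (i : cell_I3 ι κ n), InjOn (fun_I3 R u n i) (ball 0 1)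
  | 0, _ => fun x _ y _ _ => Subsingleton.elim x y
  | 1, i => by
    intro z hz z' hz' h
    rw [mem_ball_zero_iff, norm1_I3, abs_lt] at hz hz'
    have := (wpt_inj_I3 h1 _ _ _ _ (by linarith [hz.1]) (by linarith [hz.2])
      (by linarith [hz'.1]) (by linarith [hz'.2]) h).2
    funext k
    have hk : k = 0 := Subsingleton.elim _ _
    rw [hk]
    linarith
  | 2, j => by
    intro z hz z' hz' h
    rw [mem_ball_zero_iff] at hz hz'
    obtain ⟨-, -, -, -, -, -, -, -, -, -, -, -, hinj⟩ := h2 ι κ R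
    have hk := hinj (show κ from j) ‖z‖ ⟨norm_nonneg _, hz.le⟩ ‖z'‖ ⟨norm_nonneg _, hz'.le⟩ (u z)
      ⟨(hu0 z).1, (hu0 z).2.le⟩ (u z') ⟨(hu0 z').1, (hu0 z').2.le⟩ hz h
    obtain ⟨hn, h0 | ⟨m, hm⟩⟩ := hk
    · rw [norm_eq_zero.1 h0, norm_eq_zero.1 (hn.symm.trans h0)]
    · refine hu1 z z' hn ?_
      have a1 := (hu0 z)
      have a2 := (hu0 z')
      have h4 : (-1 : ℝ) < m := by rw [← hm]; linarith [a1.1, a2.2]
      have h5 : (m : ℝ) < 1 := by rw [← hm]; linarith [a1.2, a2.1]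
      have h6 : -1 < m := by exact_mod_cast h4
      have h7 : m < 1 := by exact_mod_cast h5
      have h8 : m = 0 := by omega
      rw [h8] at hm
      simp only [Int.cast_zero] at hm
      linarith
  | (_ + 3), e => (show Empty from e).elim

theorem sep_I3 (h1 : StC1) (h2 : StC2) (R : κ → Wd ι) (u : (Fin 2 → ℝ) → ℝ)
    (hu0 : ∀ z, u z ∈ Ico (0 : ℝ) 1) :
    ∀ n (i : cell_I3 ι κ n), ∀ x ∈ ball (0 : Fin n → ℝ) 1, ∀ y ∈ sphere (0 : Fin n → ℝ) 1,
      fun_I3 R u n i x ≠ fun_I3 R u n i y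
  | 0, _ => by
    intro x _ y hy
    rw [mem_sphere_zero_iff_norm, Subsingleton.elim y 0, norm_zero] at hy
    exact absurd hy zero_ne_one
  | 1, i => by
    intro x hx y hy h
    rw [mem_ball_zero_iff, norm1_I3, abs_lt] at hx
    rw [mem_sphere_zero_iff_norm, norm1_I3] at hy
    have hy' : (wpt (show ι from i) ((y 0 + 1) / 2) : Amb ι κ) = 0 := by
      refine wpt_zero_I3 h1 _ _ ?_
      rcases eq_or_eq_neg_of_abs_eq hy with h | h
      · exact ⟨1, by rw [h]; norm_num⟩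
      · exact ⟨0, by rw [h]; norm_num⟩
    have hx' : (wpt (show ι from i) ((x 0 + 1) / 2) : Amb ι κ) = 0 := Eq.trans h hy'
    exact wpt_ne_zero_I3 h1 _ _ (by linarith [hx.1]) (by linarith [hx.2]) hx'
  | 2, j => by
    intro z hz z' hz' h
    rw [mem_ball_zero_iff] at hz
    rw [mem_sphere_zero_iff_norm] at hz'
    obtain ⟨-, -, -, -, -, -, -, -, -, -, -, -, hinj⟩ := h2 ι κ R
    have hk := hinj (show κ from j) ‖z‖ ⟨norm_nonneg _, hz.le⟩ ‖z'‖ ⟨norm_nonneg _, hz'.le⟩ (u z)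
      ⟨(hu0 z).1, (hu0 z).2.le⟩ (u z') ⟨(hu0 z').1, (hu0 z').2.le⟩ hz h
    linarith [hk.1]
  | (_ + 3), e => (show Empty from e).elim

/-- The open cells are disjoint. -/
theorem disj_I3 (h1 : StC1) (h2 : StC2) (R : κ → Wd ι) (u : (Fin 2 → ℝ) → ℝ) :
    ∀ (n m : ℕ) (i : cell_I3 ι κ n) (j : cell_I3 ι κ m) (x : Fin n → ℝ) (y : Fin m → ℝ),
      x ∈ ball (0 : Fin n → ℝ) 1 → y ∈ ball (0 : Fin m → ℝ) 1 →
      fun_I3 R u n i x = fun_I3 R u m j y → (⟨n, i⟩ : Σ n, cell_I3 ι κ n) = ⟨m, j⟩ := by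
  obtain ⟨-, -, -, -, -, -, hhc, hhc0, -, -, -, -, -⟩ := h2 ι κ R
  have h01 : ∀ (i : ι) (x : Fin 1 → ℝ), x ∈ ball (0 : Fin 1 → ℝ) 1 →
      (0 : Amb ι κ) ≠ wpt i ((x 0 + 1) / 2) := by
    intro i x hx h
    rw [mem_ball_zero_iff, norm1_I3, abs_lt] at hx
    exact wpt_ne_zero_I3 h1 i _ (by linarith [hx.1]) (by linarith [hx.2]) h.symm
  have h2' : ∀ (j : κ) (x : Fin 2 → ℝ), x ∈ ball (0 : Fin 2 → ℝ) 1 → ∀ y : Amb ι κ,
      hh j y = 0 → y ≠ cel R j ‖x‖ (u x) := by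
    intro j x hx y hy h
    rw [mem_ball_zero_iff] at hx
    rw [h, hhc] at hy
    linarith
  have h00 : ∀ j : κ, hh j (0 : Amb ι κ) = 0 := fun _ => rfl
  intro n m i j x y hx hy h
  match n, m, i, j, x, y, hx, hy, h with
  | 0, 0, _, _, _, _, _, _, _ => rfl
  | 0, 1, _, j, _, y, _, hy, h => exact absurd h (h01 j y hy)
  | 0, 2, _, j, _, y, _, hy, h => exact absurd h (h2' j y hy 0 (h00 _))
  | 1, 0, i, _, x, _, hx, _, h => exact absurd h.symm (h01 i x hx)
  | 1, 1, i, j, x, y, hx, hy, h =>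
    rw [mem_ball_zero_iff, norm1_I3, abs_lt] at hx hy
    have := (wpt_inj_I3 h1 _ _ _ _ (by linarith [hx.1]) (by linarith [hx.2])
      (by linarith [hy.1]) (by linarith [hy.2]) h).1
    exact congrArg (fun k : ι => (⟨1, k⟩ : Σ n, cell_I3 ι κ n)) this
  | 1, 2, i, j, x, y, hx, hy, h => exact absurd h (h2' j y hy _ (hh_wpt_I3 _ _ _))
  | 2, 0, i, _, x, _, hx, _, h => exact absurd h.symm (h2' i x hx 0 (h00 _))
  | 2, 1, i, j, x, y, hx, hy, h => exact absurd h.symm (h2' i x hx _ (hh_wpt_I3 _ _ _))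
  | 2, 2, i, j, x, y, hx, hy, h =>
    by_cases hij : (show κ from i) = (show κ from j)
    · exact congrArg (fun k : κ => (⟨2, k⟩ : Σ n, cell_I3 ι κ n)) hij
    · exact absurd h (h2' j y hy _ (hhc0 _ _ _ _ hij))
  | (_ + 3), _, e, _, _, _, _, _, _ => exact (show Empty from e).elim
  | 0, (_ + 3), _, e, _, _, _, _, _ => exact (show Empty from e).elim
  | 1, (_ + 3), _, e, _, _, _, _, _ => exact (show Empty from e).elim
  | 2, (_ + 3), _, e, _, _, _, _, _ => exact (show Empty from e).elim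

theorem WW_cells_I3 (h1 : StC1) (R : κ → Wd ι) (u : (Fin 2 → ℝ) → ℝ) (x : Amb ι κ)
    (hx : x ∈ WW ι κ) : ∃ m < 2, ∃ j : cell_I3 ι κ m, x ∈ fun_I3 R u m j '' closedBall 0 1 := by
  rcases hx with rfl | ⟨i, t, rfl⟩
  · exact ⟨0, by norm_num, (), 0, by simp, rfl⟩
  · refine ⟨1, by norm_num, i, fun _ => 2 * Int.fract t - 1, ?_, ?_⟩
    · rw [mem_closedBall_zero_iff, norm1_I3, abs_le]
      have := Int.fract_nonneg t
      have := (Int.fract_lt_one t).le
      constructor <;> linarith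
    · show (wpt i ((2 * Int.fract t - 1 + 1) / 2) : Amb ι κ) = wpt i t
      rw [wpt_fract_I3 h1 i t]
      congr 1
      ring

end

theorem pI3 (hI1 : StI1) (hI2 : StI2) (h1 : StC1) (h2 : StC2) : StI3 := by
  intro ι κ _ _ _ _ R
  obtain ⟨u, hu0, hu1, hu2, hu3⟩ := hI2
  have hex : ∀ n (i : cell_I3 ι κ n), ∃ e : PartialEquiv (Fin n → ℝ) (Amb ι κ),
      (∀ x, e x = fun_I3 R u n i x) ∧ e.source = ball 0 1 ∧ ContinuousOn e.symm e.target :=
    fun n i => hI1 n (Amb ι κ) (fun_I3 R u n i) (cont_I3 h1 h2 R u hu3 n i)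
      (inj_I3 h1 h2 R u hu0 hu1 n i) (sep_I3 h1 h2 R u hu0 n i)
  choose e he hes het using hex
  have hfun : ∀ n i, (e n i : (Fin n → ℝ) → Amb ι κ) = fun_I3 R u n i := fun n i =>
    funext (he n i)
  obtain ⟨-, -, -, hcel1, hcel0, hcel01, -⟩ := h2 ι κ R
  have hfin : ∀ n, Finite (cell_I3 ι κ n) := by
    intro n
    match n with
    | 0 => exact inferInstanceAs (Finite Unit)
    | 1 => exact inferInstanceAs (Finite ι)
    | 2 => exact inferInstanceAs (Finite κ)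
    | (_ + 3) => exact inferInstanceAs (Finite Empty)
  have hemp : ∀ n, 2 < n → IsEmpty (cell_I3 ι κ n) := by
    intro n hn
    match n, hn with
    | (_ + 3), _ => exact inferInstanceAs (IsEmpty Empty)
  refine ⟨Topology.CWComplex.mkFinite (XX R) (cell_I3 ι κ) e ?_ hfin hes ?_ het ?_ ?_ ?_, hfin,
    hemp⟩
  · rw [eventually_atTop]
    exact ⟨3, fun n hn => hemp n hn⟩
  · intro n i
    rw [hfun]
    exact cont_I3 h1 h2 R u hu3 n i
  · rintro ⟨n, i⟩ _ ⟨m, j⟩ _ hne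
    rw [Function.onFun, Set.disjoint_left]
    rintro _ ⟨x, hx, rfl⟩ ⟨y, hy, hxy⟩
    simp only [he] at hxy
    exact hne (disj_I3 h1 h2 R u n m i j x y hx hy hxy.symm)
  · intro n i
    match n, i with
    | 0, i =>
      intro y hy
      rw [mem_sphere_zero_iff_norm, Subsingleton.elim y 0, norm_zero] at hy
      exact absurd hy zero_ne_one
    | 1, i =>
      intro y hy
      rw [mem_sphere_zero_iff_norm, norm1_I3] at hy
      simp only [mem_iUnion]
      refine ⟨0, by norm_num, (show cell_I3 ι κ 0 from ()), 0, by simp, ?_⟩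
      rw [he, he]
      refine (wpt_zero_I3 h1 _ _ ?_).symm
      rcases eq_or_eq_neg_of_abs_eq hy with h | h
      · exact ⟨1, by rw [h]; norm_num⟩
      · exact ⟨0, by rw [h]; norm_num⟩
    | 2, i =>
      intro y hy
      rw [mem_sphere_zero_iff_norm] at hy
      rw [he]
      have hW : fun_I3 R u 2 i y ∈ WW ι κ := by
        show cel R (show κ from i) ‖y‖ (u y) ∈ WW ι κ
        rw [hy, hcel1]
        exact (h1.2.2.2.2.2.2.2 ι κ (R i)).2.2.2 (u y)
      obtain ⟨m, hm, j, hj⟩ := WW_cells_I3 h1 R u _ hW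
      simp only [mem_iUnion]
      refine ⟨m, hm, j, ?_⟩
      rw [hfun]
      exact hj
    | (_ + 3), i => exact (show Empty from i).elim
  · apply Set.Subset.antisymm
    · intro x hx
      simp only [mem_iUnion] at hx
      obtain ⟨n, i, z, hz, rfl⟩ := hx
      rw [he]
      rw [mem_closedBall_zero_iff] at hz
      match n, i, z, hz with
      | 0, _, _, _ => exact Or.inl (Or.inl rfl)
      | 1, i, z, _ => exact Or.inl (Or.inr ⟨i, _, rfl⟩)
      | 2, j, z, hz =>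
        exact Or.inr ⟨j, ‖z‖, ⟨norm_nonneg _, hz⟩, u z, ⟨(hu0 z).1, (hu0 z).2.le⟩, rfl⟩
      | (_ + 3), i, _, _ => exact (show Empty from i).elim
    · intro x hx
      simp only [mem_iUnion]
      rcases hx with hx | ⟨j, ρ, hρ, t, ht, rfl⟩
      · obtain ⟨m, _, j, hj⟩ := WW_cells_I3 h1 R u x hx
        refine ⟨m, j, ?_⟩
        rw [hfun]
        exact hj
      · refine ⟨2, (show cell_I3 ι κ 2 from j), ?_⟩
        rw [hfun]
        rcases hρ.1.eq_or_lt with h0 | h0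
        · refine ⟨0, by simp, ?_⟩
          show cel R j ‖(0 : Fin 2 → ℝ)‖ (u 0) = cel R j ρ t
          rw [norm_zero, ← h0, hcel0 j t, hcel0 j (u 0)]
        · rcases ht.2.eq_or_lt with h3 | h3
          · obtain ⟨z, hz1, hz2⟩ := hu2 ρ ⟨h0, hρ.2⟩ 0 ⟨le_rfl, zero_lt_one⟩
            refine ⟨z, ?_, ?_⟩
            · rw [mem_closedBall_zero_iff, hz1]
              exact hρ.2
            · show cel R j ‖z‖ (u z) = cel R j ρ t
              rw [hz1, hz2, h3, hcel01]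
          · obtain ⟨z, hz1, hz2⟩ := hu2 ρ ⟨h0, hρ.2⟩ t ⟨ht.1, h3⟩
            refine ⟨z, ?_, ?_⟩
            · rw [mem_closedBall_zero_iff, hz1]
              exact hρ.2
            · show cel R j ‖z‖ (u z) = cel R j ρ t
              rw [hz1, hz2]

end Pool.Agent.Helper74.SS
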