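import Pool.Agent.Helper74.SS.St

set_option autoImplicit false

open Set Metric Filter Topology

namespace Pool.Agent.Helper74.SS

theorem pI4 (hC5 : StC5) : StI4 := by
  intro ι κ _ _ _ _ R
  obtain ⟨-, -, hpath⟩ := hC5 ι κ R
  have h0 : (0 : Amb ι κ) ∈ XX R := Or.inl (Or.inl rfl)
  refine ⟨⟨0, h0⟩, isPreconnected_of_forall 0 fun x hx => ?_⟩
  obtain ⟨γ, ⟨hγc, hγm⟩, hγ0, hγ1⟩ := hpath x hx
  refine ⟨γ '' Icc 0 1, ?_, ⟨0, by simp, hγ0⟩, ⟨1, by simp, hγ1⟩, ?_⟩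
  · rintro _ ⟨s, hs, rfl⟩
    exact hγm hs
  · exact isPreconnected_Icc.image γ hγc

end Pool.Agent.Helper74.SS
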