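import Pool.Agent.Helper74.SS.St

/-! Project SS, module J. -/

set_option autoImplicit false

open Set Metric Filter Topology

namespace Pool.Agent.Helper74.SS

/-- the exchange of `inl (ba 0 j)` and `inr j` -/
def swJ : Rl ⊕ Fin 2 → Rl ⊕ Fin 2
  | .inl (.ba i j) => if i = 0 then .inr j else .inl (.ba i j)
  | .inl (.phi j) => .inl (.phi j)
  | .inl (.st i k) => .inl (.st i k)
  | .inr j => .inl (.ba 0 j)

theorem swJ_inv : Function.Involutive swJ := by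
  rintro ((j | ⟨i, k⟩ | ⟨i, j⟩) | j)
  · rfl
  · rfl
  · by_cases h : i = 0
    · subst h; rfl
    · simp [swJ, h]
  · rfl

theorem swJ_val (j : Rl ⊕ Fin 2) :
    Sum.elim RL (fun j : Fin 2 => Cw (lt (.b 0)) (lt (.a j))) (swJ j) =
      Sum.elim RK (fun j : Fin 2 => Cw (lt (.b 0)) (UU j)) j := by
  rcases j with ((j | ⟨i, k⟩ | ⟨i, j⟩) | j)
  · rfl
  · rfl
  · by_cases h : i = 0
    · subst h; rfl
    · simp [swJ, h, RL, RK]
  · rfl

theorem pJ (h3 : StJ3) (h6 : StJ6) (h7 : StJ7) (h8 : StJ8) : StJ := by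
  have hx : ∀ j : Fin 2, LoopH RK [] (Cw (lt (.b 0)) (UU j)) := fun j =>
    h3 Gn Rl RK _ (h8.1 j)
  have hy : ∀ j : Fin 2, LoopH RL [] (Cw (lt (.b 0)) (lt (.a j))) := fun j =>
    h3 Gn Rl RL _ (h8.2 j)
  obtain ⟨e1⟩ := h6 Gn Rl (Fin 2) RK (fun _ => []) (fun j => Cw (lt (.b 0)) (UU j)) hx
  obtain ⟨e2⟩ := h6 Gn Rl (Fin 2) RL (fun _ => []) (fun j => Cw (lt (.b 0)) (lt (.a j))) hy
  obtain ⟨e3⟩ := h7 Gn (Rl ⊕ Fin 2) (Rl ⊕ Fin 2)
    (Sum.elim RK fun j : Fin 2 => Cw (lt (.b 0)) (UU j))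
    (Sum.elim RL fun j : Fin 2 => Cw (lt (.b 0)) (lt (.a j))) swJ_inv.toPerm
    (fun j => swJ_val j)
  exact ⟨(e1.trans e3.toHomotopyEquiv).trans e2.symm⟩

end Pool.Agent.Helper74.SS
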