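import Pool.Agent.Helper74.SS.St

/-!
# SS module J1: wedge with spheres
-/

set_option autoImplicit false

open Set Metric Filter Topology

namespace Pool.Agent.Helper74.SS

/-- The map of the sphere to the coordinate of a cell with the empty word. -/
noncomputable def sph_J (p : S2) : ℂ × ℝ :=
  ((‖(⟨(p : EuclideanSpace ℝ (Fin 3)) 0, (p : EuclideanSpace ℝ (Fin 3)) 1⟩ : ℂ)‖ / 4 : ℝ) •
    (⟨(p : EuclideanSpace ℝ (Fin 3)) 0, (p : EuclideanSpace ℝ (Fin 3)) 1⟩ : ℂ),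
    (1 + (p : EuclideanSpace ℝ (Fin 3)) 2) / 2)

theorem continuous_coord_J (i : Fin 3) :
    Continuous fun p : S2 => (p : EuclideanSpace ℝ (Fin 3)) i := by
  fun_prop

theorem continuous_sph_J : Continuous sph_J := by
  have h : Continuous fun p : S2 =>
      (⟨(p : EuclideanSpace ℝ (Fin 3)) 0, (p : EuclideanSpace ℝ (Fin 3)) 1⟩ : ℂ) := by
    have h0 := continuous_coord_J 0
    have h1 := continuous_coord_J 1
    have : (fun p : S2 =>
        (⟨(p : EuclideanSpace ℝ (Fin 3)) 0, (p : EuclideanSpace ℝ (Fin 3)) 1⟩ : ℂ)) =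
        fun p : S2 => Complex.equivRealProdCLM.symm
          ((p : EuclideanSpace ℝ (Fin 3)) 0, (p : EuclideanSpace ℝ (Fin 3)) 1) := by
      funext p
      apply Complex.ext <;> simp
    rw [this]
    exact Complex.equivRealProdCLM.symm.continuous.comp (h0.prodMk h1)
  have h2 := continuous_coord_J 2
  unfold sph_J
  exact ((h.norm.div_const 4).smul h).prodMk ((continuous_const.add h2).div_const 2)

theorem S2_sq_J (p : S2) : (p : EuclideanSpace ℝ (Fin 3)) 0 ^ 2 +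
    (p : EuclideanSpace ℝ (Fin 3)) 1 ^ 2 + (p : EuclideanSpace ℝ (Fin 3)) 2 ^ 2 = 1 := by
  have h := p.2
  rw [mem_sphere_zero_iff_norm, EuclideanSpace.norm_eq, Real.sqrt_eq_one] at h
  simpa [Fin.sum_univ_three] using h

theorem normSq_J (p : S2) :
    ‖(⟨(p : EuclideanSpace ℝ (Fin 3)) 0, (p : EuclideanSpace ℝ (Fin 3)) 1⟩ : ℂ)‖ ^ 2 =
      1 - (p : EuclideanSpace ℝ (Fin 3)) 2 ^ 2 := by
  rw [← Complex.normSq_eq_norm_sq, Complex.normSq_mk]
  have := S2_sq_J p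
  linarith

theorem sph_inj_J (p p' : S2) (h : sph_J p = sph_J p') : p = p' := by
  unfold sph_J at h
  rw [Prod.mk.injEq] at h
  obtain ⟨h1, h2⟩ := h
  have e2 : (p : EuclideanSpace ℝ (Fin 3)) 2 = (p' : EuclideanSpace ℝ (Fin 3)) 2 := by linarith
  have n1 := normSq_J p
  have n2 := normSq_J p'
  rw [e2, ← n2] at n1
  set v : ℂ := ⟨(p : EuclideanSpace ℝ (Fin 3)) 0, (p : EuclideanSpace ℝ (Fin 3)) 1⟩ with hv
  set v' : ℂ := ⟨(p' : EuclideanSpace ℝ (Fin 3)) 0, (p' : EuclideanSpace ℝ (Fin 3)) 1⟩ with hv'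
  have en : ‖v‖ = ‖v'‖ := by
    have := Real.sqrt_sq (norm_nonneg v)
    rw [n1, Real.sqrt_sq (norm_nonneg v')] at this
    exact this.symm
  have ev : v = v' := by
    rcases eq_or_ne ‖v'‖ 0 with h0 | h0
    · rw [norm_eq_zero.1 h0, norm_eq_zero.1 (en.trans h0)]
    · rw [en] at h1
      exact smul_right_injective ℂ (r := (‖v'‖ / 4 : ℝ)) (by positivity) h1
  have e0 : (p : EuclideanSpace ℝ (Fin 3)) 0 = (p' : EuclideanSpace ℝ (Fin 3)) 0 :=
    congrArg Complex.re ev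
  have e1 : (p : EuclideanSpace ℝ (Fin 3)) 1 = (p' : EuclideanSpace ℝ (Fin 3)) 1 :=
    congrArg Complex.im ev
  apply Subtype.ext
  ext i
  fin_cases i
  · exact e0
  · exact e1
  · exact e2

theorem sph_zero_J (p : S2) (h : sph_J p = 0) :
    (p : EuclideanSpace ℝ (Fin 3)) = !₂[0, 0, -1] := by
  unfold sph_J at h
  rw [Prod.mk_eq_zero] at h
  obtain ⟨-, h2⟩ := h
  have e2 : (p : EuclideanSpace ℝ (Fin 3)) 2 = -1 := by linarith
  have h3 := S2_sq_J p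
  rw [e2] at h3
  have e0 : (p : EuclideanSpace ℝ (Fin 3)) 0 = 0 := by nlinarith
  have e1 : (p : EuclideanSpace ℝ (Fin 3)) 1 = 0 := by nlinarith
  ext i
  fin_cases i
  · simpa using e0
  · simpa using e1
  · simpa using e2

theorem sph_s0_J (p : S2) (h : (p : EuclideanSpace ℝ (Fin 3)) = !₂[0, 0, -1]) : sph_J p = 0 := by
  unfold sph_J
  have e0 : (p : EuclideanSpace ℝ (Fin 3)) 0 = 0 := by rw [h]; simp
  have e1 : (p : EuclideanSpace ℝ (Fin 3)) 1 = 0 := by rw [h]; simp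
  have e2 : (p : EuclideanSpace ℝ (Fin 3)) 2 = -1 := by rw [h]; simp
  rw [e0, e1, e2]
  have : (⟨0, 0⟩ : ℂ) = 0 := rfl
  rw [this]
  simp

/-- Every point of the sphere gives a point of the cell. -/
theorem sph_polar_J (h1 : StC1) (p : S2) : ∃ ρ ∈ Icc (0 : ℝ) 1, ∃ t ∈ Icc (0 : ℝ) 1,
    sph_J p = (((ρ * (1 - ρ) : ℝ) : ℂ) * ex t, 1 - ρ) := by
  obtain ⟨-, -, -, -, -, hsurj, -⟩ := h1
  have hn := normSq_J p
  have hs := S2_sq_J p
  set a := (p : EuclideanSpace ℝ (Fin 3)) 0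
  set b := (p : EuclideanSpace ℝ (Fin 3)) 1
  set c := (p : EuclideanSpace ℝ (Fin 3)) 2 with hc
  have hc1 : -1 ≤ c := by nlinarith [sq_nonneg a, sq_nonneg b]
  have hc2 : c ≤ 1 := by nlinarith [sq_nonneg a, sq_nonneg b]
  refine ⟨(1 - c) / 2, ⟨by linarith, by linarith⟩, ?_⟩
  have key : ∃ t ∈ Icc (0 : ℝ) 1, (⟨a, b⟩ : ℂ) = (‖(⟨a, b⟩ : ℂ)‖ : ℂ) * ex t := by
    rcases eq_or_ne ‖(⟨a, b⟩ : ℂ)‖ 0 with h0 | h0
    · refine ⟨0, ⟨le_rfl, zero_le_one⟩, ?_⟩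
      rw [norm_eq_zero.1 h0]
      simp
    · obtain ⟨t, ht, he⟩ := hsurj ((⟨a, b⟩ : ℂ) / (‖(⟨a, b⟩ : ℂ)‖ : ℂ)) (by
        rw [norm_div, Complex.norm_real, norm_norm, div_self h0])
      refine ⟨t, ⟨ht.1, ht.2.le⟩, ?_⟩
      rw [← he, mul_div_cancel₀]
      exact_mod_cast h0
  obtain ⟨t, ht, he⟩ := key
  refine ⟨t, ht, ?_⟩
  unfold sph_J
  refine Prod.ext ?_ ?_
  · show (‖(⟨a, b⟩ : ℂ)‖ / 4 : ℝ) • (⟨a, b⟩ : ℂ) = _
    conv_lhs => rw [he]
    rw [Complex.real_smul, ← mul_assoc]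
    congr 1
    have : ((‖(⟨a, b⟩ : ℂ)‖ ^ 2 : ℝ) : ℂ) = ((1 - c ^ 2 : ℝ) : ℂ) := by rw [hn]
    push_cast at this ⊢
    have h5 : ‖((‖(⟨a, b⟩ : ℂ)‖ : ℂ) * ex t)‖ = ‖(⟨a, b⟩ : ℂ)‖ := by rw [← he]
    rw [h5]
    linear_combination this / 4
  · show (1 + c) / 2 = 1 - (1 - c) / 2
    ring

/-- Every point of the cell comes from the sphere. -/
theorem sph_surj_J (h1 : StC1) (ρ : ℝ) (hρ : ρ ∈ Icc (0 : ℝ) 1) (t : ℝ) : ∃ p : S2,
    sph_J p = (((ρ * (1 - ρ) : ℝ) : ℂ) * ex t, 1 - ρ) := by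
  obtain ⟨-, -, -, -, hnorm, -, -⟩ := h1
  have hnn : 0 ≤ ρ * (1 - ρ) := mul_nonneg hρ.1 (by linarith [hρ.2])
  set r := Real.sqrt (ρ * (1 - ρ)) with hr
  have hr2 : r ^ 2 = ρ * (1 - ρ) := Real.sq_sqrt hnn
  have hr0 : 0 ≤ r := Real.sqrt_nonneg _
  have hex : (ex t).re ^ 2 + (ex t).im ^ 2 = 1 := by
    have := hnorm t
    have h2 : Complex.normSq (ex t) = 1 := by rw [Complex.normSq_eq_norm_sq, this, one_pow]
    rw [Complex.normSq_apply] at h2
    nlinarith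
  let P : EuclideanSpace ℝ (Fin 3) := !₂[2 * r * (ex t).re, 2 * r * (ex t).im, 1 - 2 * ρ]
  have hP : P ∈ Metric.sphere (0 : EuclideanSpace ℝ (Fin 3)) 1 := by
    rw [mem_sphere_zero_iff_norm, EuclideanSpace.norm_eq, Real.sqrt_eq_one]
    simp only [Fin.sum_univ_three, Real.norm_eq_abs, sq_abs]
    have : (2 * r * (ex t).re) ^ 2 + (2 * r * (ex t).im) ^ 2 + (1 - 2 * ρ) ^ 2 = 1 := by
      have : (2 * r * (ex t).re) ^ 2 + (2 * r * (ex t).im) ^ 2 + (1 - 2 * ρ) ^ 2 =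
        4 * r ^ 2 * ((ex t).re ^ 2 + (ex t).im ^ 2) + (1 - 2 * ρ) ^ 2 := by ring
      rw [this, hex, hr2]
      ring
    simpa [P] using this
  refine ⟨⟨P, hP⟩, ?_⟩
  have e0 : P 0 = 2 * r * (ex t).re := by simp [P]
  have e1 : P 1 = 2 * r * (ex t).im := by simp [P]
  have e2 : P 2 = 1 - 2 * ρ := by simp [P]
  unfold sph_J
  show ((‖(⟨P 0, P 1⟩ : ℂ)‖ / 4 : ℝ) • (⟨P 0, P 1⟩ : ℂ), (1 + P 2) / 2) = _
  rw [e0, e1, e2]
  have ev : (⟨2 * r * (ex t).re, 2 * r * (ex t).im⟩ : ℂ) = ((2 * r : ℝ) : ℂ) * ex t := by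
    apply Complex.ext
    · rw [Complex.re_ofReal_mul]
    · rw [Complex.im_ofReal_mul]
  rw [ev, norm_mul, hnorm, mul_one, Complex.norm_real, Real.norm_of_nonneg (by positivity)]
  refine Prod.ext ?_ ?_
  · show ((2 * r / 4 : ℝ) • (((2 * r : ℝ) : ℂ) * ex t)) = ((ρ * (1 - ρ) : ℝ) : ℂ) * ex t
    rw [Complex.real_smul, ← mul_assoc, ← Complex.ofReal_mul, ← hr2]
    congr 2
    ring
  · show (1 + (1 - 2 * ρ)) / 2 = 1 - ρ
    ring

section gen

variable {ι κ κ' : Type} [DecidableEq ι] [DecidableEq κ] [DecidableEq κ']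

theorem inc_wpt_J (i : ι) (t : ℝ) : inc (κ' := κ') (wpt i t : Amb ι κ) = wpt i t := by
  unfold inc wpt
  refine Prod.ext rfl ?_
  funext k
  rcases k with k | k <;> rfl

theorem inc_cel_J (R : κ → Wd ι) (r : κ' → Wd ι) (j : κ) (ρ t : ℝ) :
    inc (κ' := κ') (cel R j ρ t) = cel (Sum.elim R r) (Sum.inl j) ρ t := by
  unfold inc cel
  refine Prod.ext rfl ?_
  funext k
  rcases k with k | k
  · show Pi.single (M := fun _ => ℂ × ℝ) j _ k = Pi.single (M := fun _ => ℂ × ℝ) (Sum.inl j) _ (Sum.inl k)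
    rcases eq_or_ne k j with rfl | h
    · rw [Pi.single_eq_same, Pi.single_eq_same]
    · rw [Pi.single_eq_of_ne h, Pi.single_eq_of_ne (fun h' => h (Sum.inl.inj h'))]
  · exact (Pi.single_eq_of_ne (M := fun _ : κ ⊕ κ' => ℂ × ℝ) (i := Sum.inl j) (i' := Sum.inr k)
      Sum.inr_ne_inl (((ρ * (1 - ρ) : ℝ) : ℂ) * ex t, 1 - ρ)).symm

theorem inc_zero_J : inc (κ' := κ') (0 : Amb ι κ) = 0 := by
  unfold inc
  refine Prod.ext rfl ?_
  funext k
  rcases k with k | k <;> rfl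

theorem continuous_inc_J : Continuous (inc : Amb ι κ → Amb ι (κ ⊕ κ')) := by
  unfold inc
  refine continuous_fst.prodMk (continuous_pi fun k => ?_)
  rcases k with k | k
  · exact (continuous_apply k).comp continuous_snd
  · exact continuous_const

theorem inc_inj_J (x y : Amb ι κ) (h : inc (κ' := κ') x = inc y) : x = y := by
  unfold inc at h
  rw [Prod.mk.injEq] at h
  refine Prod.ext h.1 ?_
  funext k
  exact congrFun h.2 (Sum.inl k)

theorem inc_mem_J (R : κ → Wd ι) (r : κ' → Wd ι) (x : Amb ι κ) (hx : x ∈ XX R) :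
    inc x ∈ XX (Sum.elim R r) := by
  rcases hx with (rfl | ⟨i, t, rfl⟩) | ⟨j, ρ, hρ, t, ht, rfl⟩
  · exact Or.inl (Or.inl inc_zero_J)
  · exact Or.inl (Or.inr ⟨i, t, inc_wpt_J i t⟩)
  · exact Or.inr ⟨Sum.inl j, ρ, hρ, t, ht, inc_cel_J R r j ρ t⟩

/-- The general wedge. -/
theorem wedge_J [Fintype ι] [Fintype κ] (h1 : StC1) (h2 : StC2) (R : κ → Wd ι) {P : Type} [TopologicalSpace P]
    [CompactSpace P] (kk : P → κ') (pp : P → S2)
    (hc : Continuous fun p => (Pi.single (Sum.inr (kk p)) (sph_J (pp p)) : κ ⊕ κ' → ℂ × ℝ))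
    (hinj : ∀ a b, kk a = kk b → pp a = pp b → a = b) (hsurj : ∀ k s, ∃ a, kk a = k ∧ pp a = s)
    (k0 : ↥(XX R)) (s0 : S2) (hk0 : (k0 : Amb ι κ) = 0)
    (hs0 : (s0 : EuclideanSpace ℝ (Fin 3)) = !₂[0, 0, -1])
    (r : ↥(XX R) ⊕ P → ↥(XX R) ⊕ P → Prop)
    (hr1 : ∀ a b, r a b → a = Sum.inl k0 ∧ ∃ c, b = Sum.inr c ∧ pp c = s0)
    (hr2 : ∀ c, pp c = s0 → r (Sum.inl k0) (Sum.inr c)) :
    Nonempty (Quot r ≃ₜ ↥(XX (Sum.elim R fun _ : κ' => ([] : Wd ι)))) := by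
  set R' : κ ⊕ κ' → Wd ι := Sum.elim R fun _ : κ' => ([] : Wd ι) with hR'
  have hcelr : ∀ (k : κ') (ρ t : ℝ), cel R' (Sum.inr k) ρ t =
      ((0 : ι → ℂ), Pi.single (Sum.inr k) ((((ρ * (1 - ρ) : ℝ) : ℂ) * ex t, 1 - ρ) : ℂ × ℝ)) := by
    intro k ρ t
    unfold cel
    refine Prod.ext ?_ rfl
    show (max 0 (3 * ρ - 2)) • gam (R' (Sum.inr k)) t = 0
    have : R' (Sum.inr k) = [] := rfl
    rw [this]
    simp [gam]
  -- the map
  let m : ↥(XX R) ⊕ P → Amb ι (κ ⊕ κ') := Sum.elim (fun x => inc (x : Amb ι κ))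
    fun p => ((0 : ι → ℂ), Pi.single (Sum.inr (kk p)) (sph_J (pp p)))
  have hm : Continuous m := by
    refine Continuous.sumElim ?_ ?_
    · exact continuous_inc_J.comp continuous_subtype_val
    · exact continuous_const.prodMk hc
  have hmem : ∀ t, m t ∈ XX R' := by
    rintro (x | p)
    · exact inc_mem_J R _ x x.2
    · obtain ⟨ρ, hρ, t, ht, he⟩ := sph_polar_J h1 (pp p)
      refine Or.inr ⟨Sum.inr (kk p), ρ, hρ, t, ht, ?_⟩
      rw [hcelr, ← he]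
      rfl
  have hresp : ∀ a b, r a b → m a = m b := by
    intro a b hab
    obtain ⟨rfl, c, rfl, hcs⟩ := hr1 a b hab
    show inc (k0 : Amb ι κ) = ((0 : ι → ℂ), Pi.single (Sum.inr (kk c)) (sph_J (pp c)))
    rw [hk0, inc_zero_J, hcs, sph_s0_J s0 hs0, Pi.single_zero]
    rfl
  have hfib : ∀ a b, m a = m b → Quot.mk r a = Quot.mk r b := by
    have key : ∀ (x : ↥(XX R)) (p : P), m (Sum.inl x) = m (Sum.inr p) → x = k0 ∧ pp p = s0 := by
      intro x p h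
      have h' : inc (x : Amb ι κ) =
        ((0 : ι → ℂ), Pi.single (Sum.inr (kk p)) (sph_J (pp p))) := h
      have hx1 : (x : Amb ι κ).1 = 0 := congrArg Prod.fst h'
      have hx2 : (Sum.elim (x : Amb ι κ).2 0 : κ ⊕ κ' → ℂ × ℝ) =
          Pi.single (Sum.inr (kk p)) (sph_J (pp p)) := congrArg Prod.snd h'
      have hz : sph_J (pp p) = 0 := by
        have := congrFun hx2 (Sum.inr (kk p))
        rw [Pi.single_eq_same] at this
        exact this.symm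
      constructor
      · apply Subtype.ext
        rw [hk0]
        refine Prod.ext hx1 ?_
        funext k
        have := congrFun hx2 (Sum.inl k)
        rw [Pi.single_eq_of_ne Sum.inl_ne_inr] at this
        exact this
      · apply Subtype.ext
        rw [hs0]
        exact sph_zero_J _ hz
    rintro (x | p) (y | q) h
    · have : x = y := Subtype.ext (inc_inj_J _ _ h)
      rw [this]
    · obtain ⟨rfl, hq⟩ := key x q h
      exact Quot.sound (hr2 q hq)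
    · obtain ⟨rfl, hp⟩ := key y p h.symm
      exact (Quot.sound (hr2 p hp)).symm
    · have h' : (Pi.single (Sum.inr (kk p)) (sph_J (pp p)) : κ ⊕ κ' → ℂ × ℝ) =
        Pi.single (Sum.inr (kk q)) (sph_J (pp q)) := congrArg Prod.snd h
      rcases eq_or_ne (kk p) (kk q) with hk | hk
      · have h3 := congrFun h' (Sum.inr (kk p))
        rw [Pi.single_eq_same, hk, Pi.single_eq_same] at h3
        rw [hinj p q hk (sph_inj_J _ _ h3)]
      · have h3 := congrFun h' (Sum.inr (kk p))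
        rw [Pi.single_eq_same, Pi.single_eq_of_ne (fun h => hk (Sum.inr.inj h))] at h3
        have h4 := congrFun h' (Sum.inr (kk q))
        rw [Pi.single_eq_same, Pi.single_eq_of_ne (fun h => hk (Sum.inr.inj h).symm)] at h4
        have e1 : pp p = s0 := Subtype.ext ((sph_zero_J _ h3).trans hs0.symm)
        have e2 : pp q = s0 := Subtype.ext ((sph_zero_J _ h4.symm).trans hs0.symm)
        exact (Quot.sound (hr2 p e1)).symm.trans (Quot.sound (hr2 q e2))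
  have hsur : ∀ y : ↥(XX R'), ∃ a, m a = y := by
    rintro ⟨y, (rfl | ⟨i, t, rfl⟩) | ⟨j | k, ρ, hρ, t, ht, rfl⟩⟩
    · exact ⟨Sum.inl k0, by show inc (k0 : Amb ι κ) = 0; rw [hk0, inc_zero_J]⟩
    · exact ⟨Sum.inl ⟨wpt i t, Or.inl (Or.inr ⟨i, t, rfl⟩)⟩, inc_wpt_J i t⟩
    · exact ⟨Sum.inl ⟨cel R j ρ t, Or.inr ⟨j, ρ, hρ, t, ht, rfl⟩⟩, inc_cel_J R _ j ρ t⟩
    · obtain ⟨s, hs⟩ := sph_surj_J h1 ρ hρ t
      obtain ⟨a, ha1, ha2⟩ := hsurj k s
      refine ⟨Sum.inr a, ?_⟩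
      show ((0 : ι → ℂ), Pi.single (Sum.inr (kk a)) (sph_J (pp a))) = cel R' (Sum.inr k) ρ t
      rw [hcelr, ha1, ha2, hs]
  -- the homeomorphism
  have : CompactSpace ↥(XX R) := isCompact_iff_compactSpace.1 (h2 ι κ R).2.1
  let f : Quot r → ↥(XX R') := Quot.lift (fun a => ⟨m a, hmem a⟩)
    fun a b hab => Subtype.ext (hresp a b hab)
  have hf : Continuous f := continuous_quot_lift _ (hm.subtype_mk hmem)
  have hbij : Function.Bijective f := by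
    constructor
    · rintro ⟨a⟩ ⟨b⟩ hab
      exact hfib a b (congrArg Subtype.val hab)
    · intro y
      obtain ⟨a, ha⟩ := hsur y
      exact ⟨Quot.mk r a, Subtype.ext ha⟩
  have : CompactSpace (Quot r) := Quot.compactSpace
  exact ⟨Continuous.homeoOfEquivCompactToT2 (f := Equiv.ofBijective f hbij) hf⟩

end gen

theorem pJ1 (h1 : StC1) (h2 : StC2) : StJ1 := by
  intro ι κ _ _ _ _ R k0 s0 hk0 hs0
  refine wedge_J (κ' := Unit) h1 h2 R (fun _ : S2 => ()) (fun p => p) ?_ (fun _ _ _ h => h)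
    (fun _ s => ⟨s, rfl, rfl⟩) k0 s0 hk0 hs0 _ ?_ ?_
  · exact (continuous_single (A := fun _ : κ ⊕ Unit => ℂ × ℝ) (Sum.inr ())).comp continuous_sph_J
  · rintro a b ⟨rfl, rfl⟩
    exact ⟨rfl, s0, rfl, rfl⟩
  · rintro c rfl
    exact ⟨rfl, rfl⟩

end Pool.Agent.Helper74.SS
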