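import Pool.Agent.Helper74.SS.P.J1

/-!
# SS module J2: wedge with two spheres
-/

set_option autoImplicit false

open Set Metric Filter Topology

namespace Pool.Agent.Helper74.SS

theorem pJ2 (h1 : StC1) (h2 : StC2) : StJ2 := by
  intro ι κ _ _ _ _ R k0 s0 hk0 hs0
  refine wedge_J (κ' := Fin 2) h1 h2 R (Sum.elim (fun _ : S2 => (0 : Fin 2)) fun _ : S2 => 1)
    (Sum.elim (fun p => p) fun p => p) ?_ ?_ ?_ k0 s0 hk0 hs0 _ ?_ ?_
  · refine continuous_sum_dom.2 ⟨?_, ?_⟩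
    · exact (continuous_single (A := fun _ : κ ⊕ Fin 2 => ℂ × ℝ) (Sum.inr 0)).comp
        continuous_sph_J
    · exact (continuous_single (A := fun _ : κ ⊕ Fin 2 => ℂ × ℝ) (Sum.inr 1)).comp
        continuous_sph_J
  · rintro (a | a) (b | b) hab h
    · exact congrArg Sum.inl h
    · exact absurd hab (by simp)
    · exact absurd hab (by simp)
    · exact congrArg Sum.inr h
  · intro k s
    fin_cases k
    · exact ⟨Sum.inl s, rfl, rfl⟩
    · exact ⟨Sum.inr s, rfl, rfl⟩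
  · rintro a b ⟨rfl, rfl | rfl⟩
    · exact ⟨rfl, Sum.inl s0, rfl, rfl⟩
    · exact ⟨rfl, Sum.inr s0, rfl, rfl⟩
  · rintro (c | c) hc
    · exact ⟨rfl, Or.inl (by rw [← hc]; rfl)⟩
    · exact ⟨rfl, Or.inr (by rw [← hc]; rfl)⟩

end Pool.Agent.Helper74.SS
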