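import Pool.Agent.Helper74.SS.St

set_option autoImplicit false
set_option linter.unusedSectionVars false

open Set Metric Filter Topology

namespace Pool.Agent.Helper74.SS

namespace J3

variable {ι κ : Type} [Fintype ι] [DecidableEq ι] [Fintype κ] [DecidableEq κ]

theorem zero_mem (R : κ → Wd ι) : (0 : Amb ι κ) ∈ XX R := Or.inl (Or.inl rfl)

/-- the base point -/
def bp (R : κ → Wd ι) : ↥(XX R) := ⟨0, zero_mem R⟩

theorem gam_mem (hC1 : StC1) (R : κ → Wd ι) (w : Wd ι) (t : ℝ) :
    ((gam w t, 0) : Amb ι κ) ∈ XX R := Or.inl ((hC1.2.2.2.2.2.2.2 ι κ w).2.2.2 t)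

theorem gam_cont (hC1 : StC1) (κ : Type) (w : Wd ι) : Continuous (gam w) :=
  (hC1.2.2.2.2.2.2.2 ι κ w).1

theorem gam_le (hC1 : StC1) (κ : Type) (w : Wd ι) (t : ℝ) (ht : t ≤ 0) : gam w t = 0 :=
  (hC1.2.2.2.2.2.2.2 ι κ w).2.1 t ht

theorem gam_ge (hC1 : StC1) (κ : Type) (w : Wd ι) (t : ℝ) (ht : 1 ≤ t) : gam w t = 0 :=
  (hC1.2.2.2.2.2.2.2 ι κ w).2.2.1 t ht

/-- the loop of a word -/
noncomputable def P (hC1 : StC1) (R : κ → Wd ι) (w : Wd ι) : Path (bp R) (bp R) where
  toFun t := ⟨(gam w t, 0), gam_mem hC1 R w t⟩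
  continuous_toFun := by
    refine Continuous.subtype_mk ?_ _
    exact ((gam_cont hC1 κ w).comp continuous_subtype_val).prodMk continuous_const
  source' := by
    apply Subtype.ext
    show ((gam w (0 : ℝ), 0) : Amb ι κ) = 0
    rw [gam_le hC1 κ w 0 le_rfl]; rfl
  target' := by
    apply Subtype.ext
    show ((gam w (1 : ℝ), 0) : Amb ι κ) = 0
    rw [gam_ge hC1 κ w 1 le_rfl]; rfl

theorem ex_neg_one (hC1 : StC1) : ex (-1) = 1 := by
  have h1 := hC1.2.2.2.1 1 (-1)
  have h2 : (1 : ℝ) + -1 = 0 := by norm_num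
  rw [h2, hC1.2.1, hC1.2.2.1, one_mul] at h1
  exact h1.symm

theorem lp_zero (hC1 : StC1) (a : ι × Bool) : lp a 0 = 0 := by
  unfold lp
  have : (if a.2 then (0 : ℝ) else -0) = 0 := by split_ifs <;> simp
  rw [this, hC1.2.1, sub_self, Pi.single_zero]

theorem lp_one (hC1 : StC1) (a : ι × Bool) : lp a 1 = 0 := by
  unfold lp
  split_ifs
  · rw [hC1.2.2.1, sub_self, Pi.single_zero]
  · rw [ex_neg_one hC1, sub_self, Pi.single_zero]

theorem lp_cont (hC1 : StC1) (a : ι × Bool) : Continuous (lp a) := by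
  have h : Continuous fun t : ℝ => ex (if a.2 then t else -t) - 1 := by
    by_cases h : a.2 = true
    · simp only [h, if_true]
      exact hC1.1.sub continuous_const
    · simp only [h]
      exact (hC1.1.comp continuous_neg).sub continuous_const
  exact (continuous_single (A := fun _ : ι => ℂ) a.1).comp h

theorem lp_mem (R : κ → Wd ι) (a : ι × Bool) (t : ℝ) : ((lp a t, 0) : Amb ι κ) ∈ XX R :=
  Or.inl (Or.inr ⟨a.1, if a.2 then t else -t, rfl⟩)

/-- the loop of a letter -/
noncomputable def L (hC1 : StC1) (R : κ → Wd ι) (a : ι × Bool) : Path (bp R) (bp R) where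
  toFun t := ⟨(lp a t, 0), lp_mem R a t⟩
  continuous_toFun := by
    refine Continuous.subtype_mk ?_ _
    exact ((lp_cont hC1 a).comp continuous_subtype_val).prodMk continuous_const
  source' := by
    apply Subtype.ext
    show ((lp a (0 : ℝ), 0) : Amb ι κ) = 0
    rw [lp_zero hC1 a]; rfl
  target' := by
    apply Subtype.ext
    show ((lp a (1 : ℝ), 0) : Amb ι κ) = 0
    rw [lp_one hC1 a]; rfl

theorem L_symm (hC1 : StC1) (R : κ → Wd ι) (i : ι) : L hC1 R (i, false) = (L hC1 R (i, true)).symm := by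
  apply Path.ext; funext t
  apply Subtype.ext
  show ((lp (i, false) (t : ℝ), 0) : Amb ι κ) = (lp (i, true) ((unitInterval.symm t : unitInterval) : ℝ), 0)
  have h1 : ex (1 + -(t : ℝ)) = ex (-t) := by rw [hC1.2.2.2.1, hC1.2.2.1, one_mul]
  simp only [lp, unitInterval.coe_symm_eq, sub_eq_add_neg]
  simp [h1]

theorem P_nil (hC1 : StC1) (R : κ → Wd ι) : P hC1 R [] = Path.refl (bp R) := by
  apply Path.ext; funext t
  rfl

theorem P_cons (hC1 : StC1) (R : κ → Wd ι) (a : ι × Bool) (w : Wd ι) :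
    P hC1 R (a :: w) = (L hC1 R a).trans (P hC1 R w) := by
  apply Path.ext; funext t
  rw [Path.trans_apply]
  split_ifs with h
  · apply Subtype.ext
    show ((lp a (clamp (2 * (t : ℝ))) + gam w (2 * (t : ℝ) - 1), 0) : Amb ι κ) = (lp a (2 * (t : ℝ)), 0)
    rw [gam_le hC1 κ w _ (by linarith), add_zero]
    have h0 := t.2.1
    have : clamp (2 * (t : ℝ)) = 2 * (t : ℝ) := by
      unfold clamp
      rw [min_eq_right (by linarith), max_eq_right (by linarith)]
    rw [this]
  · apply Subtype.ext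
    show ((lp a (clamp (2 * (t : ℝ))) + gam w (2 * (t : ℝ) - 1), 0) : Amb ι κ) = (gam w (2 * (t : ℝ) - 1), 0)
    push Not at h
    have : clamp (2 * (t : ℝ)) = 1 := by
      unfold clamp
      rw [min_eq_left (by linarith), max_eq_right (by linarith)]
    rw [this, lp_one hC1 a, zero_add]

/-- the opposite fundamental group -/
abbrev Gp (R : κ → Wd ι) : Type := (FundamentalGroup ↥(XX R) (bp R))ᵐᵒᵖ

/-- class of a loop -/
noncomputable def cl {R : κ → Wd ι} (p : Path (bp R) (bp R)) : Gp R :=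
  MulOpposite.op (FundamentalGroup.fromPath (Path.Homotopic.Quotient.mk p))

theorem cl_trans {R : κ → Wd ι} (p q : Path (bp R) (bp R)) : cl (p.trans q) = cl p * cl q := rfl

theorem cl_symm {R : κ → Wd ι} (p : Path (bp R) (bp R)) : cl p.symm = (cl p)⁻¹ := rfl

theorem cl_refl {R : κ → Wd ι} : cl (Path.refl (bp R)) = 1 := rfl

theorem cl_eq {R : κ → Wd ι} (p q : Path (bp R) (bp R)) (h : cl p = cl q) : p.Homotopic q := by
  have h2 : Path.Homotopic.Quotient.mk p = Path.Homotopic.Quotient.mk q := MulOpposite.op_injective h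
  exact Path.Homotopic.Quotient.exact h2

theorem cl_of {R : κ → Wd ι} (p q : Path (bp R) (bp R)) (h : p.Homotopic q) : cl p = cl q := by
  have h2 : Path.Homotopic.Quotient.mk p = Path.Homotopic.Quotient.mk q :=
    Path.Homotopic.Quotient.eq.mpr h
  unfold cl
  rw [h2]

/-- the homomorphism from the free group -/
noncomputable def phi (hC1 : StC1) (R : κ → Wd ι) : FreeGroup ι →* Gp R :=
  FreeGroup.lift fun i => cl (L hC1 R (i, true))

theorem phi_mk (hC1 : StC1) (R : κ → Wd ι) (w : Wd ι) : phi hC1 R (FreeGroup.mk w) = cl (P hC1 R w) := by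
  unfold phi
  rw [FreeGroup.lift_mk]
  induction w with
  | nil => rw [P_nil, cl_refl]; rfl
  | cons a w ih =>
    rw [P_cons, cl_trans, ← ih, List.map_cons, List.prod_cons]
    congr 1
    obtain ⟨i, b⟩ := a
    cases b
    · rw [L_symm, cl_symm]; rfl
    · rfl

theorem rel (hC1 : StC1) (hC2 : StC2) (R : κ → Wd ι) (j : κ) :
    (P hC1 R (R j)).Homotopic (Path.refl (bp R)) := by
  obtain ⟨-, -, hcont, h1, h0, hper, -⟩ := hC2 ι κ R
  have hmem : ∀ τ t : unitInterval, cel R j (1 - (τ : ℝ)) (t : ℝ) ∈ XX R := fun τ t =>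
    Or.inr ⟨j, 1 - τ, ⟨by linarith [τ.2.2], by linarith [τ.2.1]⟩, t, t.2, rfl⟩
  let HH : C(unitInterval × unitInterval, ↥(XX R)) :=
    ⟨fun p => ⟨cel R j (1 - (p.1 : ℝ)) (p.2 : ℝ), hmem p.1 p.2⟩, by
      refine Continuous.subtype_mk ?_ _
      exact (hcont j).comp ((continuous_const.sub (continuous_subtype_val.comp continuous_fst)).prodMk
        (continuous_subtype_val.comp continuous_snd))⟩
  let f : C(unitInterval, ↥(XX R)) := ⟨fun t => HH (0, t), by fun_prop⟩
  let g : C(unitInterval, ↥(XX R)) := ⟨fun t => HH (1, t), by fun_prop⟩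
  let F : f.Homotopy g := ⟨HH, fun _ => rfl, fun _ => rfl⟩
  let p : Path (0 : unitInterval) (1 : unitInterval) := ⟨⟨fun t => t, continuous_id⟩, rfl, rfl⟩
  have key := Path.Homotopic.map_trans_evalAt F p
  have hf0 : bp R = f 0 := by
    apply Subtype.ext
    show (0 : Amb ι κ) = cel R j (1 - ((0 : unitInterval) : ℝ)) ((0 : unitInterval) : ℝ)
    rw [Set.Icc.coe_zero, sub_zero, h1 j, gam_le hC1 κ _ 0 le_rfl]; rfl
  have hf1 : bp R = f 1 := by
    apply Subtype.ext
    show (0 : Amb ι κ) = cel R j (1 - ((0 : unitInterval) : ℝ)) ((1 : unitInterval) : ℝ)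
    rw [Set.Icc.coe_zero, Set.Icc.coe_one, sub_zero, h1 j, gam_ge hC1 κ _ 1 le_rfl]; rfl
  have hg : g 0 = g 1 := by
    apply Subtype.ext
    show cel R j (1 - ((1 : unitInterval) : ℝ)) ((0 : unitInterval) : ℝ) =
      cel R j (1 - ((1 : unitInterval) : ℝ)) ((1 : unitInterval) : ℝ)
    rw [Set.Icc.coe_zero, Set.Icc.coe_one]
    exact hper j _
  let q : Path (bp R) (g 0) := (F.evalAt 0).cast hf0 rfl
  have key2 := key.pathCast hf0 hg
  have e1 : ((p.map (map_continuous f)).trans (F.evalAt 1)).cast hf0 hg = (P hC1 R (R j)).trans q := by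
    apply Path.ext; funext t
    rw [Path.cast_coe, Path.trans_apply, Path.trans_apply]
    split_ifs with h
    · apply Subtype.ext
      show cel R j (1 - ((0 : unitInterval) : ℝ)) (2 * (t : ℝ)) = (gam (R j) (2 * (t : ℝ)), 0)
      rw [Set.Icc.coe_zero, sub_zero, h1]
    · apply Subtype.ext
      show cel R j (1 - (2 * (t : ℝ) - 1)) ((1 : unitInterval) : ℝ) =
        cel R j (1 - (2 * (t : ℝ) - 1)) ((0 : unitInterval) : ℝ)
      rw [Set.Icc.coe_zero, Set.Icc.coe_one, hper]
  have e2 : ((F.evalAt 0).trans (p.map (map_continuous g))).cast hf0 hg = q.trans (Path.refl (g 0)) := by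
    apply Path.ext; funext t
    rw [Path.cast_coe, Path.trans_apply, Path.trans_apply]
    split_ifs with h
    · rfl
    · apply Subtype.ext
      show cel R j (1 - ((1 : unitInterval) : ℝ)) (2 * (t : ℝ) - 1) =
        cel R j (1 - ((1 : unitInterval) : ℝ)) ((0 : unitInterval) : ℝ)
      rw [Set.Icc.coe_zero, Set.Icc.coe_one, sub_self, h0]
  rw [e1, e2] at key2
  have k3 : Path.Homotopic.Quotient.trans (Path.Homotopic.Quotient.mk (P hC1 R (R j)))
      (Path.Homotopic.Quotient.mk q) = Path.Homotopic.Quotient.mk q := by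
    rw [← Path.Homotopic.Quotient.mk_trans, Path.Homotopic.Quotient.eq.mpr key2,
      Path.Homotopic.Quotient.mk_trans, Path.Homotopic.Quotient.mk_refl,
      Path.Homotopic.Quotient.trans_refl]
  have k4 := congrArg (fun z => Path.Homotopic.Quotient.trans z (Path.Homotopic.Quotient.symm
    (Path.Homotopic.Quotient.mk q))) k3
  simp only [Path.Homotopic.Quotient.trans_assoc, Path.Homotopic.Quotient.trans_symm,
    Path.Homotopic.Quotient.trans_refl] at k4
  exact Path.Homotopic.Quotient.exact k4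

end J3

open J3 in
theorem pJ3 (hC1 : StC1) (hC2 : StC2) : StJ3 := by
  intro ι κ _ _ _ _ R w hw
  have hker : FreeGroup.mk w ∈ (phi hC1 R).ker := by
    have hle : Subgroup.normalClosure (Set.range fun j => FreeGroup.mk (R j)) ≤ (phi hC1 R).ker := by
      apply Subgroup.normalClosure_le_normal
      rintro _ ⟨j, rfl⟩
      rw [SetLike.mem_coe, MonoidHom.mem_ker, phi_mk, ← cl_refl]
      exact cl_of _ _ (rel hC1 hC2 R j)
    exact hle hw
  rw [MonoidHom.mem_ker, phi_mk, ← cl_refl] at hker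
  obtain ⟨F⟩ := (cl_eq _ _ hker).symm
  let pr : ℝ → unitInterval := Set.projIcc (0 : ℝ) 1 zero_le_one
  have hpr : Continuous pr := continuous_projIcc
  refine ⟨fun τ t => (F (pr τ, pr t) : ↥(XX R)), ?_, ?_, ?_, ?_, ?_⟩
  · apply Continuous.continuousOn
    exact continuous_subtype_val.comp (F.continuous.comp ((hpr.comp continuous_fst).prodMk
      (hpr.comp continuous_snd)))
  · intro τ _ t _
    exact (F (pr τ, pr t)).2
  · intro t _
    have h0 : pr 0 = 0 := Set.projIcc_left _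
    show ((F (pr 0, pr t) : ↥(XX R)) : Amb ι κ) = (0, 0)
    rw [h0, F.apply_zero]
    rfl
  · intro t ht
    have h1 : pr 1 = 1 := Set.projIcc_right _
    have h2 : pr t = ⟨t, ht⟩ := Set.projIcc_of_mem _ ht
    show ((F (pr 1, pr t) : ↥(XX R)) : Amb ι κ) = (gam w t, 0)
    rw [h1, F.apply_one, h2]
    rfl
  · intro τ _
    have h0 : pr 0 = 0 := Set.projIcc_left _
    have h1 : pr 1 = 1 := Set.projIcc_right _
    constructor
    · show ((F (pr τ, pr 0) : ↥(XX R)) : Amb ι κ) = 0
      rw [h0, F.source]; rfl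
    · show ((F (pr τ, pr 1) : ↥(XX R)) : Amb ι κ) = 0
      rw [h1, F.target]; rfl

end Pool.Agent.Helper74.SS
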