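import Pool.Agent.Helper74.SS.Top
set_option autoImplicit false

open Set Metric Filter Topology

namespace Pool.Agent.Helper74.SS

namespace J4aux

variable {ι κ κ' : Type} [DecidableEq ι] [DecidableEq κ] [DecidableEq κ']

theorem inc_zero_pt (g : ι → ℂ) : (inc ((g, 0) : Amb ι κ) : Amb ι (κ ⊕ κ')) = (g, 0) := by
  unfold inc
  ext i
  · rfl
  · cases i <;> rfl
  · cases i <;> rfl

theorem inc_cel (R : κ → Wd ι) (s : κ' → Wd ι) (j : κ) (ρ t : ℝ) :
    (inc (cel R j ρ t) : Amb ι (κ ⊕ κ')) = cel (Sum.elim R s) (Sum.inl j) ρ t := by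
  unfold inc cel
  refine Prod.ext rfl ?_
  funext i
  rcases i with i | i
  · by_cases h : i = j
    · subst h; simp
    · simp [Pi.single_apply, h]
  · simp [Pi.single_apply]

theorem inc_WW {x : Amb ι κ} (hx : x ∈ WW ι κ) : (inc x : Amb ι (κ ⊕ κ')) ∈ WW ι (κ ⊕ κ') := by
  rcases hx with rfl | ⟨i, t, rfl⟩
  · left
    exact inc_zero_pt 0
  · right
    exact ⟨i, t, inc_zero_pt _⟩

theorem WW_inc {x : Amb ι (κ ⊕ κ')} (hx : x ∈ WW ι (κ ⊕ κ')) :
    ∃ y ∈ WW ι κ, x = inc y := by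
  rcases hx with rfl | ⟨i, t, rfl⟩
  · exact ⟨0, Or.inl rfl, (inc_zero_pt 0).symm⟩
  · exact ⟨wpt i t, Or.inr ⟨i, t, rfl⟩, (inc_zero_pt _).symm⟩

theorem inc_XX (R : κ → Wd ι) (s : κ' → Wd ι) {x : Amb ι κ} (hx : x ∈ XX R) :
    (inc x : Amb ι (κ ⊕ κ')) ∈ XX (Sum.elim R s) := by
  rcases hx with hx | ⟨j, ρ, hρ, t, ht, rfl⟩
  · exact Or.inl (inc_WW hx)
  · exact Or.inr ⟨Sum.inl j, ρ, hρ, t, ht, inc_cel R s j ρ t⟩

theorem cont_inc : Continuous (inc : Amb ι κ → Amb ι (κ ⊕ κ')) := by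
  unfold inc
  refine continuous_fst.prodMk ?_
  refine continuous_pi fun i => ?_
  rcases i with i | i
  · exact (continuous_apply i).comp continuous_snd
  · exact continuous_const

theorem contOn_if {T Y : Type} [TopologicalSpace T] [TopologicalSpace Y] {S : Set T}
    {a b : T → ℝ} (ha : Continuous a) (hb : Continuous b) {f g : T → Y}
    (hf : ContinuousOn f (S ∩ {p | a p ≤ b p})) (hg : ContinuousOn g (S ∩ {p | b p ≤ a p}))
    (hfg : ∀ p ∈ S, a p = b p → f p = g p) :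
    ContinuousOn (fun p => if a p ≤ b p then f p else g p) S := by
  have h1 : ContinuousOn (fun p => if a p ≤ b p then f p else g p) (S ∩ {p | a p ≤ b p}) := by
    refine hf.congr ?_
    intro p hp
    have : a p ≤ b p := hp.2
    simp [this]
  have h2 : ContinuousOn (fun p => if a p ≤ b p then f p else g p) (S ∩ {p | b p ≤ a p}) := by
    refine hg.congr ?_
    intro p hp
    have h' : b p ≤ a p := hp.2
    by_cases h : a p ≤ b p
    · simp only [h, if_true]
      exact hfg p hp.1 (le_antisymm h h')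
    · simp [h]
  intro p hp
  have e : S = (S ∩ {p | a p ≤ b p}) ∪ (S ∩ {p | b p ≤ a p}) := by
    ext p
    constructor
    · intro hp
      rcases le_total (a p) (b p) with h | h
      · exact Or.inl ⟨hp, h⟩
      · exact Or.inr ⟨hp, h⟩
    · rintro (h | h) <;> exact h.1
  have c1 : ContinuousWithinAt (fun p => if a p ≤ b p then f p else g p)
      (S ∩ {p | a p ≤ b p}) p := by
    by_cases h : a p ≤ b p
    · exact h1 p ⟨hp, h⟩
    · apply continuousWithinAt_of_notMem_closure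
      intro hc
      have hcl : IsClosed {p | a p ≤ b p} := isClosed_le ha hb
      have := hcl.closure_subset_iff.2 (inter_subset_right (s := S) (t := {p | a p ≤ b p})) hc
      exact h this
  have c2 : ContinuousWithinAt (fun p => if a p ≤ b p then f p else g p)
      (S ∩ {p | b p ≤ a p}) p := by
    by_cases h : b p ≤ a p
    · exact h2 p ⟨hp, h⟩
    · apply continuousWithinAt_of_notMem_closure
      intro hc
      have hcl : IsClosed {p | b p ≤ a p} := isClosed_le hb ha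
      have := hcl.closure_subset_iff.2 (inter_subset_right (s := S) (t := {p | b p ≤ a p})) hc
      exact h this
  rw [e]
  exact c1.union c2

end J4aux

open J4aux

theorem pJ4 (_h1 : StC1) (h2 : StC2) (h3 : StC3) : StJ4 := by
  intro ι κ κ' _ _ _ _ _ _ R r r' H hH
  classical
  obtain ⟨-, -, hcelc, hcel1, hcel0, hcel01, -⟩ := h2 ι (κ ⊕ κ') (Sum.elim R r')
  set Rt := Sum.elim R r' with hRt
  set Re := Sum.elim R r with hRe
  let fc : (κ ⊕ κ') → ℝ → ℝ → ℝ → Amb ι (κ ⊕ κ') := fun j ρ t _ =>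
    Sum.elim (fun j => cel Rt (Sum.inl j) ρ t)
      (fun k => if ρ ≤ 1 / 2 then cel Rt (Sum.inr k) (2 * ρ) t else inc (H k (2 - 2 * ρ) t)) j
  have key : ∀ k, ∀ t ∈ Icc (0 : ℝ) 1, (inc (H k 1 t) : Amb ι (κ ⊕ κ')) = cel Rt (Sum.inr k) 1 t := by
    intro k t ht
    rw [hH.one k t ht, inc_zero_pt, hcel1]
    rfl
  obtain ⟨f, hfc, hfW, hfcel⟩ := h3 ι (κ ⊕ κ') (Amb ι (κ ⊕ κ')) Re (fun x _ => x) fc
    (continuous_fst.continuousOn)
    (by
      intro j
      rcases j with j | k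
      · refine Continuous.continuousOn ?_
        exact (hcelc (Sum.inl j)).comp (continuous_fst.prodMk (continuous_fst.comp continuous_snd))
      · show ContinuousOn (fun p : ℝ × ℝ × ℝ => if p.1 ≤ 1 / 2 then
          cel Rt (Sum.inr k) (2 * p.1) p.2.1 else inc (H k (2 - 2 * p.1) p.2.1)) _
        refine contOn_if (a := fun p : ℝ × ℝ × ℝ => p.1) (b := fun _ => 1 / 2)
          continuous_fst continuous_const ?_ ?_ ?_
        · refine Continuous.continuousOn ?_
          exact (hcelc (Sum.inr k)).comp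
            ((continuous_const.mul continuous_fst).prodMk (continuous_fst.comp continuous_snd))
        · refine cont_inc.comp_continuousOn ?_
          have hg : ContinuousOn (fun p : ℝ × ℝ × ℝ => ((2 - 2 * p.1, p.2.1) : ℝ × ℝ))
              (Icc (0 : ℝ) 1 ×ˢ Icc (0 : ℝ) 1 ×ˢ Icc (0 : ℝ) 1 ∩ {p | (1 : ℝ) / 2 ≤ p.1}) := by
            refine Continuous.continuousOn ?_
            fun_prop
          refine (hH.cont k).comp hg ?_
          rintro p ⟨⟨hp1, hp2, -⟩, hp3⟩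
          have hp3' : (1 : ℝ) / 2 ≤ p.1 := hp3
          refine ⟨⟨?_, ?_⟩, hp2⟩
          · show 0 ≤ 2 - 2 * p.1
            linarith [hp1.2]
          · show 2 - 2 * p.1 ≤ 1
            linarith
        · rintro p ⟨-, hp2, -⟩ hpe
          have hpe' : p.1 = 1 / 2 := hpe
          show cel Rt (Sum.inr k) (2 * p.1) p.2.1 = inc (H k (2 - 2 * p.1) p.2.1)
          rw [hpe']
          norm_num
          exact (key k _ hp2).symm)
    (by
      intro j t ht τ _
      rcases j with j | k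
      · show cel Rt (Sum.inl j) 1 t = _
        rw [hcel1]
        rfl
      · show (if (1 : ℝ) ≤ 1 / 2 then cel Rt (Sum.inr k) (2 * 1) t else inc (H k (2 - 2 * 1) t)) = _
        rw [if_neg (by norm_num)]
        norm_num
        rw [hH.zero k t ht, inc_zero_pt]
        rfl)
    (by
      intro j t ht τ _
      rcases j with j | k
      · exact hcel0 (Sum.inl j) t
      · show (if (0 : ℝ) ≤ 1 / 2 then cel Rt (Sum.inr k) (2 * 0) t else inc (H k (2 - 2 * 0) t)) =
          (if (0 : ℝ) ≤ 1 / 2 then cel Rt (Sum.inr k) (2 * 0) 0 else inc (H k (2 - 2 * 0) 0))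
        rw [if_pos (by norm_num), if_pos (by norm_num), mul_zero]
        exact hcel0 (Sum.inr k) t)
    (by
      intro j ρ hρ τ _
      rcases j with j | k
      · exact hcel01 (Sum.inl j) ρ
      · show (if ρ ≤ 1 / 2 then cel Rt (Sum.inr k) (2 * ρ) 0 else inc (H k (2 - 2 * ρ) 0)) =
          (if ρ ≤ 1 / 2 then cel Rt (Sum.inr k) (2 * ρ) 1 else inc (H k (2 - 2 * ρ) 1))
        by_cases h : ρ ≤ 1 / 2
        · rw [if_pos h, if_pos h]
          exact hcel01 (Sum.inr k) (2 * ρ)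
        · rw [if_neg h, if_neg h]
          have hm : (2 - 2 * ρ) ∈ Icc (0 : ℝ) 1 := ⟨by linarith [hρ.2], by linarith⟩
          rw [(hH.ends k _ hm).1, (hH.ends k _ hm).2])
  have h0 : (0 : ℝ) ∈ Icc (0 : ℝ) 1 := ⟨le_rfl, zero_le_one⟩
  have hinner : ∀ k, ∀ ρ ∈ Icc (0 : ℝ) (1 / 2), ∀ t ∈ Icc (0 : ℝ) 1,
      f (cel Re (Sum.inr k) ρ t) 0 = cel Rt (Sum.inr k) (2 * ρ) t := by
    intro k ρ hρ t ht
    rw [hfcel (Sum.inr k) ρ ⟨hρ.1, by linarith [hρ.2]⟩ t ht 0 h0]
    show (if ρ ≤ 1 / 2 then cel Rt (Sum.inr k) (2 * ρ) t else inc (H k (2 - 2 * ρ) t)) = _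
    rw [if_pos hρ.2]
  have houter : ∀ k, ∀ ρ ∈ Icc (1 / 2 : ℝ) 1, ∀ t ∈ Icc (0 : ℝ) 1,
      f (cel Re (Sum.inr k) ρ t) 0 = inc (H k (2 - 2 * ρ) t) := by
    intro k ρ hρ t ht
    rw [hfcel (Sum.inr k) ρ ⟨by linarith [hρ.1], hρ.2⟩ t ht 0 h0]
    show (if ρ ≤ 1 / 2 then cel Rt (Sum.inr k) (2 * ρ) t else inc (H k (2 - 2 * ρ) t)) = _
    by_cases h : ρ ≤ 1 / 2
    · have : ρ = 1 / 2 := le_antisymm h hρ.1
      subst this
      rw [if_pos le_rfl]
      norm_num
      exact (key k t ht).symm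
    · rw [if_neg h]
  refine ⟨fun x => f x 0, ?_, ?_, ?_, hinner, houter⟩
  · have hg : ContinuousOn (fun x : Amb ι (κ ⊕ κ') => ((x, 0) : Amb ι (κ ⊕ κ') × ℝ)) (XX Re) :=
      (Continuous.prodMk continuous_id continuous_const).continuousOn
    exact hfc.comp hg (fun x hx => ⟨hx, h0⟩)
  · rintro x (hx | ⟨j, ρ, hρ, t, ht, rfl⟩)
    · show f x 0 ∈ _
      rw [hfW x hx 0 h0]
      exact Or.inl hx
    · rcases j with j | k
      · show f _ 0 ∈ _
        rw [hfcel (Sum.inl j) ρ hρ t ht 0 h0]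
        exact Or.inr ⟨Sum.inl j, ρ, hρ, t, ht, rfl⟩
      · show f _ 0 ∈ _
        by_cases h : ρ ≤ 1 / 2
        · rw [hinner k ρ ⟨hρ.1, h⟩ t ht]
          exact Or.inr ⟨Sum.inr k, 2 * ρ, ⟨by linarith [hρ.1], by linarith⟩, t, ht, rfl⟩
        · rw [houter k ρ ⟨by linarith, hρ.2⟩ t ht]
          exact inc_XX R r' (hH.maps k _ ⟨by linarith [hρ.2], by linarith⟩ t ht)
  · rintro x (hx | ⟨j, ρ, hρ, t, ht, rfl⟩)
    · show f (inc x) 0 = inc x
      exact hfW _ (inc_WW hx) 0 h0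
    · show f (inc (cel R j ρ t)) 0 = inc (cel R j ρ t)
      rw [inc_cel R r j ρ t]
      rw [hfcel (Sum.inl j) ρ hρ t ht 0 h0]
      show cel Rt (Sum.inl j) ρ t = cel Re (Sum.inl j) ρ t
      rw [← inc_cel R r' j ρ t, ← inc_cel R r j ρ t]

end Pool.Agent.Helper74.SS
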