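import Pool.Agent.Helper74.SS.St

set_option autoImplicit false

open Set Metric Filter Topology

namespace Pool.Agent.Helper74.SS

namespace J6

/-- restriction of a map to subsets -/
def rm {X Y : Type} [TopologicalSpace X] [TopologicalSpace Y] {S : Set X} {T : Set Y} (f : X → Y)
    (hf : ContinuousOn f S) (hm : MapsTo f S T) : C(↥S, ↥T) :=
  ⟨fun x => ⟨f x, hm x.2⟩, by
    refine Continuous.subtype_mk ?_ _
    exact continuousOn_iff_continuous_domRestrict.mp hf⟩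

theorem hom {X : Type} [TopologicalSpace X] {S : Set X} (f : C(↥S, ↥S)) (h : X → ℝ → X)
    (hc : ContinuousOn (fun p : X × ℝ => h p.1 p.2) (S ×ˢ Icc (0 : ℝ) 1))
    (hm : ∀ x ∈ S, ∀ τ ∈ Icc (0 : ℝ) 1, h x τ ∈ S)
    (h0 : ∀ x : ↥S, h x 0 = f x) (h1 : ∀ x ∈ S, h x 1 = x) :
    f.Homotopic (ContinuousMap.id ↥S) := by
  refine ⟨⟨⟨fun p => ⟨h (p.2 : X) (p.1 : ℝ), hm _ p.2.2 _ p.1.2⟩, ?_⟩, ?_, ?_⟩⟩
  · refine Continuous.subtype_mk ?_ _
    have : Continuous fun p : unitInterval × ↥S => ((p.2 : X), (p.1 : ℝ)) := by fun_prop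
    exact hc.comp_continuous this (fun p => ⟨p.2.2, p.1.2⟩)
  · intro x
    apply Subtype.ext
    show h (x : X) ((0 : unitInterval) : ℝ) = f x
    rw [Set.Icc.coe_zero]
    exact h0 x
  · intro x
    apply Subtype.ext
    show h (x : X) ((1 : unitInterval) : ℝ) = x
    rw [Set.Icc.coe_one]
    exact h1 x x.2

end J6

open J6 in
theorem pJ6 (hJ4 : StJ4) (hJ5 : StJ5) : StJ6 := by
  intro ι κ κ' _ _ _ _ _ _ R r r' h
  choose H hc hm h0 h1 he using h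
  have HH : IsHt R r r' H := ⟨hc, hm, h0, h1, he⟩
  have hsub : ∀ τ ∈ Icc (0 : ℝ) 1, 1 - τ ∈ Icc (0 : ℝ) 1 := fun τ hτ =>
    ⟨by linarith [hτ.2], by linarith [hτ.1]⟩
  have HH' : IsHt R r' r (fun k τ t => H k (1 - τ) t) := by
    refine ⟨fun k => ?_, fun k τ hτ t ht => hm k _ (hsub τ hτ) t ht, fun k t ht => ?_,
      fun k t ht => ?_, fun k τ hτ => he k _ (hsub τ hτ)⟩
    · have : ContinuousOn (fun p : ℝ × ℝ => ((1 - p.1, p.2) : ℝ × ℝ)) (Icc 0 1 ×ˢ Icc 0 1) := by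
        fun_prop
      exact (hc k).comp this (fun p hp => ⟨hsub _ hp.1, hp.2⟩)
    · show H k (1 - 0) t = _
      rw [sub_zero]; exact h1 k t ht
    · show H k (1 - 1) t = _
      rw [sub_self]; exact h0 k t ht
  obtain ⟨Φ, hΦ⟩ := hJ4 ι κ κ' R r r' H HH
  obtain ⟨Ψ, hΨ⟩ := hJ4 ι κ κ' R r' r _ HH'
  obtain ⟨a, ac, am, a0, a1⟩ := hJ5 ι κ κ' R r r' H Φ Ψ HH hΦ hΨ
  have hΦ' : IsPhi R r r' (fun k τ t => (fun k τ t => H k (1 - τ) t) k (1 - τ) t) Φ := by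
    have : (fun (k : κ') (τ t : ℝ) => (fun k τ t => H k (1 - τ) t) k (1 - τ) t) = H := by
      funext k τ t
      show H k (1 - (1 - τ)) t = H k τ t
      rw [sub_sub_cancel]
    rw [this]; exact hΦ
  obtain ⟨b, bc, bm, b0, b1⟩ := hJ5 ι κ κ' R r' r _ Ψ Φ HH' hΨ hΦ'
  refine ⟨⟨rm Φ hΦ.cont hΦ.maps, rm Ψ hΨ.cont hΨ.maps, ?_, ?_⟩⟩
  · exact hom _ a ac am (fun x => a0 x x.2) a1
  · exact hom _ b bc bm (fun x => b0 x x.2) b1

end Pool.Agent.Helper74.SS
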