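import Pool.Agent.Helper74.SS.St

set_option autoImplicit false

open Set Metric Filter Topology

namespace Pool.Agent.Helper74.SS

/-- renaming the cells -/
private def ren_J7 {ι κ κ' : Type} (e : κ ≃ κ') : Amb ι κ ≃ₜ Amb ι κ' where
  toFun x := (x.1, fun j' => x.2 (e.symm j'))
  invFun y := (y.1, fun j => y.2 (e j))
  left_inv x := by
    refine Prod.ext rfl ?_
    funext j
    simp
  right_inv y := by
    refine Prod.ext rfl ?_
    funext j
    simp
  continuous_toFun := by fun_prop
  continuous_invFun := by fun_prop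

private theorem single_J7 {κ κ' M : Type} [DecidableEq κ] [DecidableEq κ'] [Zero M] (e : κ ≃ κ')
    (j : κ) (v : M) : (fun j' => (Pi.single j v : κ → M) (e.symm j')) = Pi.single (e j) v := by
  funext j'
  by_cases h : j' = e j
  · subst h
    simp
  · rw [Pi.single_eq_of_ne h, Pi.single_eq_of_ne]
    intro h2
    exact h (by rw [← h2, Equiv.apply_symm_apply])

private theorem sub_J7 {ι κ κ' : Type} [DecidableEq ι] [DecidableEq κ] [DecidableEq κ']
    (R : κ → Wd ι) (R' : κ' → Wd ι) (e : κ ≃ κ') (h : ∀ j, R' (e j) = R j) (x : Amb ι κ)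
    (hx : x ∈ XX R) : ren_J7 e x ∈ XX R' := by
  rcases hx with (rfl | ⟨i, t, rfl⟩) | ⟨j, ρ, hρ, t, ht, rfl⟩
  · exact Or.inl (Or.inl rfl)
  · exact Or.inl (Or.inr ⟨i, t, rfl⟩)
  · refine Or.inr ⟨e j, ρ, hρ, t, ht, ?_⟩
    rw [cel, cel, h j]
    refine Prod.ext rfl ?_
    exact single_J7 e j _

theorem pJ7 : StJ7 := by
  intro ι κ κ' _ _ _ _ _ _ R R' e h
  have himg : ren_J7 e '' XX R = XX R' := by
    apply Set.Subset.antisymm
    · rintro _ ⟨x, hx, rfl⟩
      exact sub_J7 R R' e h x hx
    · intro y hy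
      have h' : ∀ j', R (e.symm j') = R' j' := by
        intro j'
        rw [← h, Equiv.apply_symm_apply]
      have h2 := sub_J7 R' R e.symm h' y hy
      refine ⟨ren_J7 e.symm y, h2, ?_⟩
      refine Prod.ext rfl ?_
      funext j
      simp [ren_J7]
  exact ⟨((ren_J7 e).image (XX R)).trans (Homeomorph.setCongr himg)⟩

end Pool.Agent.Helper74.SS
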