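import Pool.Agent.Helper74.SS.St

/-!
# SS, module J8: the additional relators are consequences
-/

set_option autoImplicit false

open Set Metric Filter Topology

namespace Pool.Agent.Helper74.SS

private theorem mem_iff_J8 (hG1 : StG1) {κ : Type} (R : κ → Wd Gn) (u : Wd Gn) :
    FreeGroup.mk u ∈ Subgroup.normalClosure (Set.range fun r => FreeGroup.mk (R r)) ↔
      wev (gen R) u = 1 := by
  obtain ⟨-, -, -, -, h5, -⟩ := hG1 Gn (PG R) (gen R)
  have h6 : FreeGroup.lift (gen R) =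
      PresentedGroup.mk (Set.range fun r => FreeGroup.mk (R r)) := by
    apply FreeGroup.ext_hom
    intro a
    rw [FreeGroup.lift_apply_of]
    rfl
  rw [h5 u, h6]
  exact (QuotientGroup.eq_one_iff (N := Subgroup.normalClosure
    (Set.range fun r => FreeGroup.mk (R r))) (FreeGroup.mk u)).symm

private theorem comm_of_Cw_J8 (hG1 : StG1) {G : Type} [Group G] (g : Gn → G) (u v : Wd Gn)
    (h : wev g (Cw u v) = 1) : Commute (wev g u) (wev g v) := by
  obtain ⟨-, h2, h3, -, -, -⟩ := hG1 Gn G g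
  unfold Cw at h
  rw [h2, h2, h2, h3, h3] at h
  have h' : wev g u * wev g v = wev g v * wev g u := by
    calc wev g u * wev g v
        = (wev g u * wev g v * (wev g u)⁻¹ * (wev g v)⁻¹) * (wev g v * wev g u) := by group
      _ = wev g v * wev g u := by rw [h, one_mul]
  exact h'

private theorem Cw_of_comm_J8 (hG1 : StG1) {G : Type} [Group G] (g : Gn → G) (u v : Wd Gn)
    (h : Commute (wev g u) (wev g v)) : wev g (Cw u v) = 1 := by
  obtain ⟨-, h2, h3, -, -, -⟩ := hG1 Gn G g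
  unfold Cw
  rw [h2, h2, h2, h3, h3, h.eq]
  group

private theorem comm_Qw_J8 (hG1 : StG1) {G : Type} [Group G] (g : Gn → G) (c : G) (u v : Wd Gn)
    (hu : Commute c (wev g u)) (hv : Commute c (wev g v)) : Commute c (wev g (Qw u v)) := by
  obtain ⟨-, h2, h3, -, -, -⟩ := hG1 Gn G g
  unfold Qw
  rw [h2, h2, h2, h2, h3, h3]
  exact (((hu.mul_right hv).mul_right hu.inv_right).mul_right hv.inv_right).mul_right hv.inv_right

private theorem comm_UU_J8 (hG1 : StG1) {G : Type} [Group G] (g : Gn → G) (c : G)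
    (hs : ∀ k, Commute c (g (.st k))) (ha : ∀ j, Commute c (g (.a j))) (j : Fin 2) :
    Commute c (wev g (UU j)) := by
  obtain ⟨-, h2, h3, h4, -, -⟩ := hG1 Gn G g
  have hQ : ∀ k l, Commute c (wev g (Qw (lt (.st k)) (lt (.a l)))) := by
    intro k l
    apply comm_Qw_J8 hG1
    · rw [h4]; exact hs k
    · rw [h4]; exact ha l
  unfold UU
  split_ifs
  · rw [h2]; exact (hQ 0 0).mul_right (hQ 1 1)
  · rw [h2, h3]; exact (hQ 1 0).inv_right.mul_right (hQ 0 1)

private theorem comm_WW_J8 (hG1 : StG1) {G : Type} [Group G] (g : Gn → G) (c : G)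
    (w : Fin 2 → Wd Gn) (hs : ∀ k, Commute c (g (.st k))) (hw : ∀ j, Commute c (wev g (w j)))
    (j : Fin 2) : Commute c (wev g (WW2 w j)) := by
  obtain ⟨-, h2, h3, h4, -, -⟩ := hG1 Gn G g
  have hQ : ∀ k l, Commute c (wev g (Qw (lt (.st k)) (w l))) := by
    intro k l
    apply comm_Qw_J8 hG1
    · rw [h4]; exact hs k
    · exact hw l
  unfold WW2
  split_ifs
  · rw [h2, h3]; exact (hQ 0 0).mul_right (hQ 1 1).inv_right
  · rw [h2]; exact (hQ 1 0).mul_right (hQ 0 1)

private theorem rel_J8 (hG1 : StG1) {κ : Type} (R : κ → Wd Gn) (r : κ) :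
    wev (gen R) (R r) = 1 :=
  (mem_iff_J8 hG1 R (R r)).1 (Subgroup.subset_normalClosure ⟨r, rfl⟩)

theorem pJ8 (hG1 : StG1) : StJ8 := by
  refine ⟨fun j => ?_, fun j => ?_⟩
  · rw [mem_iff_J8 hG1]
    obtain ⟨-, h2, h3, h4, -, -⟩ := hG1 Gn (PG RK) (gen RK)
    apply Cw_of_comm_J8 hG1
    apply comm_UU_J8 hG1
    · intro k
      have := comm_of_Cw_J8 hG1 (gen RK) _ _ (rel_J8 hG1 RK (.st 0 k))
      rw [h4 (.st k)] at this
      exact this
    · intro l
      have := comm_of_Cw_J8 hG1 (gen RK) _ _ (rel_J8 hG1 RK (.ba 0 l))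
      rw [h4 (.a l)] at this
      exact this
  · rw [mem_iff_J8 hG1]
    obtain ⟨-, h2, h3, h4, -, -⟩ := hG1 Gn (PG RL) (gen RL)
    apply Cw_of_comm_J8 hG1
    have hs : ∀ k, Commute (wev (gen RL) (lt (.b 0))) (gen RL (.st k)) := by
      intro k
      have := comm_of_Cw_J8 hG1 (gen RL) _ _ (rel_J8 hG1 RL (.st 0 k))
      rw [h4 (.st k)] at this
      exact this
    have hU : ∀ l, Commute (wev (gen RL) (lt (.b 0))) (wev (gen RL) (UU l)) := by
      intro l
      have h := rel_J8 hG1 RL (.ba 0 l)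
      have h' : RL (.ba 0 l) = Cw (lt (.b 0)) (UU l) := by simp [RL]
      rw [h'] at h
      exact comm_of_Cw_J8 hG1 (gen RL) _ _ h
    have hφ : wev (gen RL) (lt (.a j)) = wev (gen RL) (WW2 UU j) := by
      have h := rel_J8 hG1 RL (.phi j)
      have h' : RL (.phi j) = wi (lt (.a j)) ++ WW2 UU j := rfl
      rw [h', h2, h3] at h
      exact (inv_mul_eq_one.1 h)
    rw [hφ]
    exact comm_WW_J8 hG1 (gen RL) _ UU hs hU j

end Pool.Agent.Helper74.SS
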