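import Pool.Agent.Helper74.SS.Top

/-! Project SS, module K (helper68): the final statement. -/

set_option autoImplicit false

open Set Metric Filter Topology

namespace Pool.Agent.Helper74.SS

theorem pK (hC : StC) (hF : StF) (hNeg : StNeg) (hI3 : StI3) (hI4 : StI4) (hJ1 : StJ1)
    (hJ2 : StJ2) (hJ : StJ) (hK1 : StK1) (hC2 : StC2) : StK := by
  obtain ⟨cK, hK1f, hK1e⟩ := hI3 Gn Rl RK
  obtain ⟨cL, hL1f, hL1e⟩ := hI3 Gn Rl RL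
  have h0K : (0 : Amb Gn Rl) ∈ XX RK := Or.inl (Or.inl rfl)
  have h0L : (0 : Amb Gn Rl) ∈ XX RL := Or.inl (Or.inl rfl)
  have hs : (!₂[0, 0, -1] : EuclideanSpace ℝ (Fin 3)) ∈
      Metric.sphere (0 : EuclideanSpace ℝ (Fin 3)) 1 := by
    rw [mem_sphere_zero_iff_norm, EuclideanSpace.norm_eq]
    simp [Fin.sum_univ_three]
  refine ⟨Amb Gn Rl, Amb Gn Rl, inferInstance, inferInstance, inferInstance, inferInstance,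
    XX RK, XX RL, cK, cL, hI4 Gn Rl RK, hI4 Gn Rl RL, hK1f, hL1f, hK1e, hL1e,
    ⟨0, h0K⟩, ⟨0, h0L⟩, ⟨!₂[0, 0, -1], hs⟩, ?_, ?_⟩
  · obtain ⟨eK⟩ := hJ2 Gn Rl RK ⟨0, h0K⟩ ⟨!₂[0, 0, -1], hs⟩ rfl rfl
    obtain ⟨eL⟩ := hJ2 Gn Rl RL ⟨0, h0L⟩ ⟨!₂[0, 0, -1], hs⟩ rfl rfl
    obtain ⟨e⟩ := hJ
    exact ⟨(eK.toHomotopyEquiv.trans e).trans eL.toHomotopyEquiv.symm⟩
  · rintro ⟨e⟩
    obtain ⟨eK⟩ := hJ1 Gn Rl RK ⟨0, h0K⟩ ⟨!₂[0, 0, -1], hs⟩ rfl rfl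
    obtain ⟨eL⟩ := hJ1 Gn Rl RL ⟨0, h0L⟩ ⟨!₂[0, 0, -1], hs⟩ rfl rfl
    have e' : ContinuousMap.HomotopyEquiv ↥(XX RKs) ↥(XX RLs) :=
      (eK.toHomotopyEquiv.symm.trans e).trans eL.toHomotopyEquiv
    have hcK : IsCompact (XX RKs) := (hC2 Gn (Rl ⊕ Unit) RKs).2.1
    have hcL : IsCompact (XX RLs) := (hC2 Gn (Rl ⊕ Unit) RLs).2.1
    obtain ⟨F, G, h, k, hHE⟩ := hK1 _ _ (XX RKs) (XX RLs) hcK hcL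
      ⟨0, Or.inl (Or.inl rfl)⟩ ⟨e'⟩
    obtain ⟨g, hg⟩ := hC Gn (Rl ⊕ Unit) RKs
    obtain ⟨g', hg'⟩ := hC Gn (Rl ⊕ Unit) RLs
    rw [← hg, ← hg'] at hHE
    exact hNeg (hF _ _ _ _ _ _ RKs RLs g g' F G h k hHE)

end Pool.Agent.Helper74.SS
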