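import Pool.Agent.Helper74.SS.St

set_option autoImplicit false

open Set Metric Filter Topology

namespace Pool.Agent.Helper74.SS

namespace K1

open Classical in
/-- extension of a map between subsets by a constant -/
noncomputable def ext {V V' : Type} {S : Set V} {S' : Set V'} (f : ↥S → ↥S') (y : V') : V → V' :=
  fun x => if hx : x ∈ S then (f ⟨x, hx⟩ : V') else y

theorem ext_of {V V' : Type} {S : Set V} {S' : Set V'} (f : ↥S → ↥S') (y : V') (x : V) (hx : x ∈ S) :
    ext f y x = f ⟨x, hx⟩ := by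
  unfold ext
  rw [dif_pos hx]

theorem ext_mor {V V' : Type} [MetricSpace V] [MetricSpace V'] {S : Set V} {S' : Set V'}
    (hS : IsCompact S) (f : C(↥S, ↥S')) (y : V') : Mor S S' (ext f y) := by
  constructor
  · apply hS.uniformContinuousOn_of_continuous
    rw [continuousOn_iff_continuous_domRestrict]
    have : (fun x : ↥S => ((f x : ↥S') : V')) = S.domRestrict (ext f y) := by
      funext x
      exact (ext_of f y x x.2).symm
    rw [← this]
    exact continuous_subtype_val.comp f.continuous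
  · intro x hx
    rw [ext_of f y x hx]
    exact (f ⟨x, hx⟩).2

open Classical in
/-- extension of a homotopy -/
noncomputable def hext {V : Type} {S : Set V} (F : unitInterval × ↥S → ↥S) : V → ℝ → V :=
  fun x τ => if hx : x ∈ S then (F (Set.projIcc (0 : ℝ) 1 zero_le_one τ, ⟨x, hx⟩) : V) else x

theorem hext_of {V : Type} {S : Set V} (F : unitInterval × ↥S → ↥S) (x : V) (hx : x ∈ S) (τ : ℝ) :
    hext F x τ = F (Set.projIcc (0 : ℝ) 1 zero_le_one τ, ⟨x, hx⟩) := by
  unfold hext
  rw [dif_pos hx]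

theorem hext_mor {V : Type} [MetricSpace V] {S : Set V}
    (hS : IsCompact S) (F : C(unitInterval × ↥S, ↥S)) : HMor S S (hext F) := by
  constructor
  · apply (hS.prod isCompact_Icc).uniformContinuousOn_of_continuous
    rw [continuousOn_iff_continuous_domRestrict]
    have : (fun p : ↥(S ×ˢ Icc (0 : ℝ) 1) =>
        ((F (Set.projIcc (0 : ℝ) 1 zero_le_one p.1.2, ⟨p.1.1, p.2.1⟩) : ↥S) : V)) =
        (S ×ˢ Icc (0 : ℝ) 1).domRestrict (fun p : V × ℝ => hext F p.1 p.2) := by
      funext p
      exact (hext_of F p.1.1 p.2.1 p.1.2).symm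
    rw [← this]
    refine continuous_subtype_val.comp (F.continuous.comp (Continuous.prodMk ?_ ?_))
    · exact continuous_projIcc.comp (continuous_snd.comp continuous_subtype_val)
    · exact Continuous.subtype_mk (continuous_fst.comp continuous_subtype_val) _
  · intro x hx τ _
    rw [hext_of F x hx τ]
    exact (F _).2

end K1

open K1 in
theorem pK1 : StK1 := by
  intro V V' _ _ S S' hS hS' hne ⟨e⟩
  obtain ⟨x0, hx0⟩ := hne
  let F := ext e.toFun (e ⟨x0, hx0⟩ : V')
  let G := ext e.invFun x0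
  obtain ⟨H⟩ := e.left_inv.symm
  obtain ⟨K⟩ := e.right_inv.symm
  refine ⟨F, G, hext H, hext K, ext_mor hS _ _, ext_mor hS' _ _, hext_mor hS H.toContinuousMap,
    ?_, ?_, hext_mor hS' K.toContinuousMap, ?_, ?_⟩
  · intro x hx
    rw [hext_of _ x hx, Set.projIcc_left]
    have := H.apply_zero ⟨x, hx⟩
    exact congrArg Subtype.val this
  · intro x hx
    rw [hext_of _ x hx, Set.projIcc_right]
    have := H.apply_one ⟨x, hx⟩
    have h2 : F x = e.toFun ⟨x, hx⟩ := ext_of _ _ x hx
    have h3 : F x ∈ S' := h2 ▸ (e.toFun ⟨x, hx⟩).2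
    have h4 : G (F x) = e.invFun ⟨F x, h3⟩ := ext_of _ _ _ h3
    have h5 : (⟨F x, h3⟩ : ↥S') = e.toFun ⟨x, hx⟩ := Subtype.ext h2
    rw [h4, h5]
    exact congrArg Subtype.val this
  · intro x hx
    rw [hext_of _ x hx, Set.projIcc_left]
    have := K.apply_zero ⟨x, hx⟩
    exact congrArg Subtype.val this
  · intro x hx
    rw [hext_of _ x hx, Set.projIcc_right]
    have := K.apply_one ⟨x, hx⟩
    have h2 : G x = e.invFun ⟨x, hx⟩ := ext_of _ _ x hx
    have h3 : G x ∈ S := h2 ▸ (e.invFun ⟨x, hx⟩).2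
    have h4 : F (G x) = e.toFun ⟨G x, h3⟩ := ext_of _ _ _ h3
    have h5 : (⟨G x, h3⟩ : ↥S) = e.invFun ⟨x, hx⟩ := Subtype.ext h2
    rw [h4, h5]
    exact congrArg Subtype.val this

end Pool.Agent.Helper74.SS
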