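import Pool.Agent.Helper74.SS.St

/-! Project SS, module NA: the matrix function `N` on the closed disc. -/

set_option autoImplicit false

open Set Metric Filter Topology

namespace Pool.Agent.Helper74.SS

/-- Unimodularity of two functions that are never simultaneously equal to `1`. -/
theorem unim_NA {X : Type} [TopologicalSpace X] (u v : C(X, ℝ))
    (h : ∀ x, ¬(u x = 1 ∧ v x = 1)) : ∃ p q : C(X, ℝ), p * (1 - u) + q * (1 - v) = 1 := by
  set D : C(X, ℝ) := (1 - u) ^ 2 + (1 - v) ^ 2 with hD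
  have hD0 : ∀ x, D x ≠ 0 := by
    intro x h0
    apply h x
    have h1 : (1 - u x) ^ 2 + (1 - v x) ^ 2 = 0 := by
      have : D x = (1 - u x) ^ 2 + (1 - v x) ^ 2 := by simp [hD]
      rw [← this, h0]
    constructor <;> nlinarith [sq_nonneg (1 - u x), sq_nonneg (1 - v x)]
  have hU : IsUnit D := (ContinuousMap.isUnit_iff_forall_ne_zero D).2 hD0
  obtain ⟨d, hd⟩ := hU
  refine ⟨(1 - u) * (d⁻¹ : C(X, ℝ)ˣ), (1 - v) * (d⁻¹ : C(X, ℝ)ˣ), ?_⟩
  have h1 : ((d⁻¹ : C(X, ℝ)ˣ) : C(X, ℝ)) * D = 1 := by rw [← hd]; simp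
  calc (1 - u) * ((d⁻¹ : C(X, ℝ)ˣ) : C(X, ℝ)) * (1 - u) +
        (1 - v) * ((d⁻¹ : C(X, ℝ)ˣ) : C(X, ℝ)) * (1 - v)
      = ((d⁻¹ : C(X, ℝ)ˣ) : C(X, ℝ)) * D := by rw [hD]; ring
    _ = 1 := h1

/-- `wev` in the affine group when all `m` vanish. -/
theorem wev_zero_NA (h1 : StG1) {ι A : Type} [CommRing A] (u : ι → Aˣ) (w : Wd ι) :
    (wev (fun i => (⟨0, u i⟩ : Aff A)) w).m = 0 := by
  let F : Aˣ →* Aff A :=
    { toFun := fun x => ⟨0, x⟩
      map_one' := rfl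
      map_mul' := fun x y => by ext <;> simp }
  have h2 := (h1 ι Aˣ u).2.2.2.2.2 (Aff A) F w
  have h3 : (fun i => (⟨0, u i⟩ : Aff A)) = fun i => F (u i) := rfl
  rw [h3, ← h2]
  rfl

/-- naturality of `ell` -/
theorem ell_map_NA {A B : Type} [CommRing A] [CommRing B] (f : A →+* B) (u : Gn → Aˣ)
    (c : Rl ⊕ Unit → A) (p : I6 ⊕ Unit) :
    ell (fun x => Units.map (f : A →* B) (u x)) (fun j => f (c j)) p = f (ell u c p) := by
  rcases p with ⟨i, k⟩ | ⟨⟩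
  · fin_cases k
    · rfl
    · rfl
    · simp [ell]
  · rfl

/-- additivity of `ell` -/
theorem ell_sub_NA {A : Type} [CommRing A] (u : Gn → Aˣ) (c d : Rl ⊕ Unit → A)
    (p : I6 ⊕ Unit) :
    ell u (fun j => c j + (-1) * d j) p = ell u c p - ell u d p := by
  rcases p with ⟨i, k⟩ | ⟨⟩
  · fin_cases k
    · simp [ell]; ring
    · simp [ell]; ring
    · simp [ell]; ring
  · simp [ell]; ring

/-- the closed disc -/
abbrev Dsc : Type := closedBall (0 : ℂ) 1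

theorem nrm_NA (z : Dsc) : ‖(z : ℂ)‖ ≤ 1 := mem_closedBall_zero_iff.1 z.2

theorem sq_NA (z : Dsc) : (z : ℂ).re ^ 2 + (z : ℂ).im ^ 2 = ‖(z : ℂ)‖ ^ 2 := by
  rw [← Complex.normSq_eq_norm_sq, Complex.normSq_apply]
  ring

theorem re_NA (z : Dsc) : -1 ≤ (z : ℂ).re ∧ (z : ℂ).re ≤ 1 :=
  abs_le.1 ((Complex.abs_re_le_norm (z : ℂ)).trans (nrm_NA z))

theorem im_NA (z : Dsc) : -1 ≤ (z : ℂ).im ∧ (z : ℂ).im ≤ 1 :=
  abs_le.1 ((Complex.abs_im_le_norm (z : ℂ)).trans (nrm_NA z))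

/-- evaluation at a point of the disc -/
noncomputable def ev_NA (z : Dsc) : C(Dsc, ℝ) →+* ℝ where
  toFun f := f z
  map_one' := rfl
  map_mul' _ _ := rfl
  map_zero' := rfl
  map_add' _ _ := rfl

theorem units_NA : ∃ u : Gn → (C(Dsc, ℝ))ˣ,
    (∀ z : Dsc, (u (.st 0) : C(Dsc, ℝ)) z = 2 + (z : ℂ).re) ∧
    (∀ z : Dsc, (u (.st 1) : C(Dsc, ℝ)) z = 2 + (z : ℂ).im) ∧
    (∀ j, u (.a j) = 1) ∧ (∀ i, u (.b i) = 1) := by
  have h0 : IsUnit (⟨fun z => 2 + (z : ℂ).re, by fun_prop⟩ : C(Dsc, ℝ)) := by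
    rw [ContinuousMap.isUnit_iff_forall_ne_zero]
    intro z h
    have h1 : (2 : ℝ) + (z : ℂ).re = 0 := h
    linarith [(re_NA z).1]
  have h1 : IsUnit (⟨fun z => 2 + (z : ℂ).im, by fun_prop⟩ : C(Dsc, ℝ)) := by
    rw [ContinuousMap.isUnit_iff_forall_ne_zero]
    intro z h
    have h1 : (2 : ℝ) + (z : ℂ).im = 0 := h
    linarith [(im_NA z).1]
  obtain ⟨v0, hv0⟩ := h0
  obtain ⟨v1, hv1⟩ := h1
  refine ⟨fun x => match x with
    | .st k => if k = 0 then v0 else v1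
    | .a _ => 1
    | .b _ => 1, ?_, ?_, fun _ => rfl, fun _ => rfl⟩
  · intro z
    show (v0 : C(Dsc, ℝ)) z = _
    rw [hv0]
    rfl
  · intro z
    show (v1 : C(Dsc, ℝ)) z = _
    rw [hv1]
    rfl

/-- A continuous function vanishing on the open disc vanishes. -/
theorem dense_NA (x : C(Dsc, ℝ)) (h : ∀ z : Dsc, ‖(z : ℂ)‖ < 1 → x z = 0) : x = 0 := by
  ext z
  have hmem : ∀ t : ℝ, ((projIcc (0 : ℝ) 1 zero_le_one t : ℝ) : ℂ) * (z : ℂ) ∈
      closedBall (0 : ℂ) 1 := by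
    intro t
    rw [mem_closedBall_zero_iff, norm_mul, Complex.norm_real, Real.norm_of_nonneg
      (projIcc (0 : ℝ) 1 zero_le_one t).2.1]
    exact mul_le_one₀ (projIcc (0 : ℝ) 1 zero_le_one t).2.2 (norm_nonneg _) (nrm_NA z)
  let g : ℝ → Dsc := fun t => ⟨((projIcc (0 : ℝ) 1 zero_le_one t : ℝ) : ℂ) * (z : ℂ), hmem t⟩
  have hg : Continuous g := by
    refine Continuous.subtype_mk ?_ _
    exact (Complex.continuous_ofReal.comp
      (continuous_subtype_val.comp continuous_projIcc)).mul continuous_const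
  have h1 : ∀ t < (1 : ℝ), x (g t) = 0 := by
    intro t ht
    apply h
    show ‖((projIcc (0 : ℝ) 1 zero_le_one t : ℝ) : ℂ) * (z : ℂ)‖ < 1
    rw [norm_mul, Complex.norm_real, Real.norm_of_nonneg
      (projIcc (0 : ℝ) 1 zero_le_one t).2.1]
    have h2 : (projIcc (0 : ℝ) 1 zero_le_one t : ℝ) < 1 := by
      rw [coe_projIcc]
      simp [ht]
    calc (projIcc (0 : ℝ) 1 zero_le_one t : ℝ) * ‖(z : ℂ)‖
        ≤ (projIcc (0 : ℝ) 1 zero_le_one t : ℝ) * 1 :=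
          mul_le_mul_of_nonneg_left (nrm_NA z) (projIcc (0 : ℝ) 1 zero_le_one t).2.1
      _ < 1 := by rw [mul_one]; exact h2
  have h2 : IsClosed {t : ℝ | x (g t) = 0} :=
    isClosed_eq (x.continuous.comp hg) continuous_const
  have h3 : closure (Iio (1 : ℝ)) ⊆ {t : ℝ | x (g t) = 0} := closure_minimal h1 h2
  have h4 : x (g 1) = 0 := h3 (by rw [closure_Iio]; exact mem_Iic.2 le_rfl)
  have h5 : g 1 = z := by
    apply Subtype.ext
    show ((projIcc (0 : ℝ) 1 zero_le_one 1 : ℝ) : ℂ) * (z : ℂ) = z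
    rw [projIcc_right]
    simp
  rw [← h5, h4]
  rfl

/-- characters of the group of `L` with values in `A` -/
theorem char_NA (h1 : StG1) (h2 : StG2) (h4 : StG4) {A : Type} [CommRing A] (u : Gn → Aˣ)
    (ha : ∀ j, u (.a j) = 1) : ∃ χ : PG RLs →* Aˣ, ∀ x, χ (gen RLs x) = u x := by
  refine h4.2.univ Aˣ u (fun _ _ => mul_comm _ _) (fun _ _ => mul_comm _ _) (fun j => ?_)
  have h3 := (h1 Gn (Aff A) (fun i => ⟨0, u i⟩)).2.2.2.2.2 Aˣ (Aff.uHom A) (phiW j)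
  have h5 := (h2 A u (fun _ => 0) ha).2.1 j
  have h6 : (fun i => Aff.uHom A ⟨0, u i⟩) = u := rfl
  rw [h6] at h3
  rw [← h3]
  have h7 : wev (fun i => (⟨0, u i⟩ : Aff A)) (phiW j) = ⟨ff u * 0, 1⟩ := h5
  rw [h7]
  rfl

theorem pNA (h1 : StG1) (h2 : StG2) (h4 : StG4) (h7 : StG7) (h8 : StG8) (h10 : StG10) :
    StNA := by
  intro θ T hT
  obtain ⟨u, hu0, hu1, hua, hub⟩ := units_NA
  obtain ⟨χ, hχ⟩ := char_NA h1 h2 h4 u hua
  have hK := h7 (PG RKs) (PG RLs) (gen RKs) (gen RLs) θ h4.1 h4.2 (C(Dsc, ℝ)) χ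
    (fun j => by rw [hχ]; exact hua j) (fun i => by rw [hχ]; exact hub i)
  set uL : Gn → (C(Dsc, ℝ))ˣ := fun x => χ (gen RLs x) with huL
  have huLu : uL = u := funext hχ
  set uK : Gn → (C(Dsc, ℝ))ˣ := fun x => χ (θ (gen RKs x)) with huK
  -- unimodularity
  have hL1 : ∀ z : Dsc, ¬((uL (.st 0) : C(Dsc, ℝ)) z = 1 ∧ (uL (.st 1) : C(Dsc, ℝ)) z = 1) := by
    rintro z ⟨e0, e1⟩
    rw [huLu, hu0] at e0
    rw [huLu, hu1] at e1
    have e2 := sq_NA z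
    have e3 := nrm_NA z
    have e4 : ‖(z : ℂ)‖ ^ 2 ≤ 1 := by nlinarith [norm_nonneg (z : ℂ)]
    have e5 : (z : ℂ).re = -1 := by linarith
    have e6 : (z : ℂ).im = -1 := by linarith
    rw [e5, e6] at e2
    linarith
  have hK1 : ∀ z : Dsc, ¬((uK (.st 0) : C(Dsc, ℝ)) z = 1 ∧ (uK (.st 1) : C(Dsc, ℝ)) z = 1) := by
    rintro z ⟨e0, e1⟩
    have e2 : ((Units.map (ev_NA z : C(Dsc, ℝ) →* ℝ)).comp χ).comp θ.toMonoidHom = 1 := by
      refine MonoidHom.eq_of_eqOn_dense h4.1.gens ?_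
      rintro _ ⟨x, rfl⟩
      show Units.map (ev_NA z : C(Dsc, ℝ) →* ℝ) (uK x) = 1
      rcases x with k | j | i
      · apply Units.ext
        fin_cases k
        · exact e0
        · exact e1
      · have : uK (.a j) = 1 := hK.2 j
        rw [this, map_one]
      · have : uK (.b i) = 1 := hK.1 i
        rw [this, map_one]
    refine hL1 z ⟨?_, ?_⟩
    · have e3 := congrArg (fun f => ((f (θ.symm (gen RLs (.st 0))) : ℝˣ) : ℝ)) e2
      have e4 : ((Units.map (ev_NA z : C(Dsc, ℝ) →* ℝ)) (χ (θ (θ.symm (gen RLs (.st 0))))) : ℝ) =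
        1 := e3
      rw [MulEquiv.apply_symm_apply] at e4
      exact e4
    · have e3 := congrArg (fun f => ((f (θ.symm (gen RLs (.st 1))) : ℝˣ) : ℝ)) e2
      have e4 : ((Units.map (ev_NA z : C(Dsc, ℝ) →* ℝ)) (χ (θ (θ.symm (gen RLs (.st 1))))) : ℝ) =
        1 := e3
      rw [MulEquiv.apply_symm_apply] at e4
      exact e4
  have hreg : ∀ x : C(Dsc, ℝ), ff uL * x = 0 → x = 0 := by
    intro x hx
    refine dense_NA x (fun z hz => ?_)
    have e1 : (ff uL * x) z = 0 := by rw [hx]; rfl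
    have e2 : (ff uL) z = (z : ℂ).re ^ 2 + (z : ℂ).im ^ 2 - 1 := by
      show ((uL (.st 0) : C(Dsc, ℝ)) z - 2) ^ 2 + ((uL (.st 1) : C(Dsc, ℝ)) z - 2) ^ 2 - 1 = _
      rw [huLu, hu0, hu1]
      ring
    rw [ContinuousMap.mul_apply, e2, sq_NA] at e1
    rcases mul_eq_zero.1 e1 with e3 | e3
    · exfalso
      nlinarith [norm_nonneg (z : ℂ)]
    · exact e3
  obtain ⟨N, hNu, hN⟩ := h10 (C(Dsc, ℝ)) (T (C(Dsc, ℝ)) χ) uL uK
    (fun j => by rw [huLu]; exact hua j) (fun i => by rw [huLu]; exact hub i)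
    hK.2 hK.1 (unim_NA _ _ hL1) (unim_NA _ _ hK1) hreg
    (fun c' d' c d a => hT.lin _ χ c' d' c d a) (hT.totl _ χ) (hT.totr _ χ)
    (fun c' c => hT.bd _ χ c' c)
  classical
  let N' : ℂ → Matrix (I6 ⊕ Unit) (I6 ⊕ Unit) ℝ := fun z =>
    if hz : z ∈ closedBall (0 : ℂ) 1 then (ev_NA ⟨z, hz⟩).mapMatrix N else 1
  have hN' : ∀ z : Dsc, N' z = (ev_NA z).mapMatrix N := by
    intro z
    show (if hz : (z : ℂ) ∈ closedBall (0 : ℂ) 1 then (ev_NA ⟨z, hz⟩).mapMatrix N else 1) = _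
    rw [dif_pos z.2]
  refine ⟨N', ?_, ?_, ?_⟩
  · rw [continuousOn_iff_continuous_domRestrict]
    have e1 : (closedBall (0 : ℂ) 1).domRestrict N' = fun z : Dsc => (ev_NA z).mapMatrix N :=
      funext hN'
    rw [e1]
    refine continuous_matrix fun i j => ?_
    exact (N i j).continuous
  · intro z hz
    rw [hN' ⟨z, hz⟩, ← RingHom.map_det]
    exact (hNu.map (ev_NA ⟨z, hz⟩)).ne_zero
  · intro z hz χ' hχ' c' c hc
    have e1 : χ' = (Units.map (ev_NA ⟨z, hz⟩ : C(Dsc, ℝ) →* ℝ)).comp χ := by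
      refine MonoidHom.eq_of_eqOn_dense h4.2.gens ?_
      rintro _ ⟨x, rfl⟩
      show χ' (gen RLs x) = Units.map (ev_NA ⟨z, hz⟩ : C(Dsc, ℝ) →* ℝ) (χ (gen RLs x))
      rw [hχ]
      rcases x with k | j | i
      · apply Units.ext
        fin_cases k
        · exact hχ'.1.trans (hu0 ⟨z, hz⟩).symm
        · exact hχ'.2.1.trans (hu1 ⟨z, hz⟩).symm
      · rw [hua j, map_one]
        exact hχ'.2.2.1 j
      · rw [hub i, map_one]
        exact hχ'.2.2.2 i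
    let ch' : Rl ⊕ Unit → C(Dsc, ℝ) := fun j => ContinuousMap.const _ (c' j)
    obtain ⟨ch, hch⟩ := hT.totl _ χ ch'
    have e2 := hT.nat _ ℝ (ev_NA ⟨z, hz⟩) χ ch' ch hch
    rw [← e1] at e2
    have e3 := hT.lin ℝ χ' c' c' c (fun j => ev_NA ⟨z, hz⟩ (ch j)) (-1) hc e2
    have e4 := hT.bd ℝ χ' _ _ e3 ⟨fun _ => 0, fun j => by
      rw [wev_zero_NA h1]
      ring⟩
    have e5 : (fun x => χ' (θ (gen RKs x))) =
        fun x => Units.map (ev_NA ⟨z, hz⟩ : C(Dsc, ℝ) →* ℝ) (uK x) := by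
      rw [e1]
      rfl
    have e6 : (fun x => χ' (gen RLs x)) =
        fun x => Units.map (ev_NA ⟨z, hz⟩ : C(Dsc, ℝ) →* ℝ) (uL x) := by
      rw [e1]
      rfl
    have e7 := h8 ℝ (fun x => χ' (θ (gen RKs x))) _
      (fun j => by
        have : χ' (θ (gen RKs (.a j))) = Units.map (ev_NA ⟨z, hz⟩ : C(Dsc, ℝ) →* ℝ) (uK (.a j)) :=
          congrFun e5 (.a j)
        show χ' (θ (gen RKs (.a j))) = 1
        rw [this, show uK (.a j) = 1 from hK.2 j, map_one])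
      (fun i => by
        have : χ' (θ (gen RKs (.b i))) = Units.map (ev_NA ⟨z, hz⟩ : C(Dsc, ℝ) →* ℝ) (uK (.b i)) :=
          congrFun e5 (.b i)
        show χ' (θ (gen RKs (.b i))) = 1
        rw [this, show uK (.b i) = 1 from hK.1 i, map_one]) (Or.inl e4)
    funext p
    have e8 := congrFun e7 p
    rw [ell_sub_NA] at e8
    have e9 : ell (fun x => χ' (θ (gen RKs x))) c p =
        ell (fun x => χ' (θ (gen RKs x))) (fun j => ev_NA ⟨z, hz⟩ (ch j)) p :=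
      sub_eq_zero.1 e8
    rw [e9, e5, ell_map_NA, hN ch' ch hch, hN' ⟨z, hz⟩, e6]
    simp only [Matrix.mulVec, dotProduct, map_sum, map_mul, RingHom.mapMatrix_apply,
      Matrix.map_apply]
    refine Finset.sum_congr rfl fun q _ => ?_
    congr 1
    rw [← ell_map_NA]
    rfl

end Pool.Agent.Helper74.SS

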