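import Pool.Agent.Helper74.SS.St

/-! Project SS: module NB, the cup product classes on the circle. -/

set_option autoImplicit false

open Set Metric Filter Topology

namespace Pool.Agent.Helper74.SS

namespace NBaux

/-- forget the integer coordinate -/
def toAff (A : Type) [CommRing A] : Heq A →* Aff A where
  toFun a := ⟨a.m, a.u⟩
  map_one' := rfl
  map_mul' _ _ := rfl

/-- the integer coordinate -/
def nHom (A : Type) [CommRing A] : Heq A →* Multiplicative ℤ where
  toFun a := Multiplicative.ofAdd a.n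
  map_one' := rfl
  map_mul' _ _ := rfl

/-- ring homomorphisms act on the groups `Heq` -/
def hmap {A B : Type} [CommRing A] [CommRing B] (f : A →+* B) : Heq A →* Heq B where
  toFun a := ⟨f a.m, Units.map (f : A →* B) a.u, a.n⟩
  map_one' := by
    ext <;> simp
  map_mul' a b := by
    ext <;> simp

/-- the values on the generators -/
def hgen {A : Type} [CommRing A] (u : Fin 2 → Aˣ) (m : Fin 2 → A) (α : Fin 2 → A) (β : Fin 2 → ℤ) :
    Gn → Heq A
  | .st k => ⟨m k, u k, 0⟩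
  | .a j => ⟨α j, 1, 0⟩
  | .b i => ⟨0, 1, β i⟩

theorem exH (h1 : StG1) (h2 : StG2) (h4 : StG4) {A : Type} [CommRing A] (u : Fin 2 → Aˣ)
    (m : Fin 2 → A) (α : Fin 2 → A) (β : Fin 2 → ℤ)
    (hf : ((u 0 : A) - 2) ^ 2 + ((u 1 : A) - 2) ^ 2 - 1 = 0) :
    ∃ f : PG RLs →* Heq A, ∀ x, f (gen RLs x) = hgen u m α β x := by
  apply h4.2.univ
  · intro i k
    show _ * _ = _ * _
    ext
    · simp [hgen]
    · simp [hgen]
    · simp [hgen]
  · intro i j
    show _ * _ = _ * _
    ext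
    · simp [hgen]
    · simp [hgen]
    · simp [hgen]
  · intro j
    have e1 := (h1 Gn (Heq A) (hgen u m α β)).2.2.2.2.2 (Aff A) (toAff A) (phiW j)
    have e2 := (h2 A (fun x => (hgen u m α β x).u) (fun x => (hgen u m α β x).m)
      (fun j => rfl)).2.1 j
    have e3 := (h1 Gn (Heq A) (hgen u m α β)).2.2.2.2.2 (Multiplicative ℤ) (nHom A) (phiW j)
    have hff : ff (fun x => (hgen u m α β x).u) = 0 := hf
    rw [hff, zero_mul] at e2
    have e4 : toAff A (wev (hgen u m α β) (phiW j)) = ⟨0, 1⟩ := e1.trans e2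
    have e5 : nHom A (wev (hgen u m α β) (phiW j)) = 1 := by
      rw [e3]
      have hst : ∀ k, nHom A (hgen u m α β (.st k)) = 1 := fun k => rfl
      have ha : ∀ k, nHom A (hgen u m α β (.a k)) = 1 := fun k => rfl
      fin_cases j <;> simp [wev, phiW, WW2, UU, Qw, wi, lt, hst, ha]
    ext
    · exact congrArg Aff.m e4
    · exact congrArg (fun a : Aff A => (a.u : A)) e4
    · exact Multiplicative.ofAdd.injective e5

theorem hom_eq {G : Type} [Group G] (h4 : StG4) (f g : PG RLs →* G)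
    (h : ∀ x, f (gen RLs x) = g (gen RLs x)) : f = g := by
  apply MonoidHom.eq_of_eqOn_top
  rw [← h4.2.gens]
  apply MonoidHom.eqOn_closure
  rintro _ ⟨x, rfl⟩
  exact h x

theorem hom_eqK {G : Type} [Group G] (h4 : StG4) (f g : PG RKs →* G)
    (h : ∀ x, f (gen RKs x) = g (gen RKs x)) : f = g := by
  apply MonoidHom.eq_of_eqOn_top
  rw [← h4.1.gens]
  apply MonoidHom.eqOn_closure
  rintro _ ⟨x, rfl⟩
  exact h x

/-- the circle -/
abbrev Ci : Type := ↥(sphere (0 : ℂ) 1)

theorem ci_sq (z : Ci) : (z : ℂ).re ^ 2 + (z : ℂ).im ^ 2 = 1 := by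
  have h : ‖(z : ℂ)‖ = 1 := by simp
  have h2 : ‖(z : ℂ)‖ ^ 2 = 1 := by rw [h]; norm_num
  rw [Complex.sq_norm, Complex.normSq_apply] at h2
  nlinarith

/-- the functions `2 + re`, `2 + im` -/
noncomputable def uf (k : Fin 2) : C(Ci, ℝ) :=
  if k = 0 then ⟨fun z => 2 + (z : ℂ).re, by fun_prop⟩ else ⟨fun z => 2 + (z : ℂ).im, by fun_prop⟩

theorem uf0 (z : Ci) : uf 0 z = 2 + (z : ℂ).re := rfl
theorem uf1 (z : Ci) : uf 1 z = 2 + (z : ℂ).im := rfl

theorem uf_unit (k : Fin 2) : IsUnit (uf k) := by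
  rw [ContinuousMap.isUnit_iff_forall_ne_zero]
  intro z
  have h := ci_sq z
  have hk : k = 0 ∨ k = 1 := by fin_cases k <;> simp
  rcases hk with rfl | rfl
  · rw [uf0]; nlinarith [sq_nonneg ((z : ℂ).im), sq_nonneg ((z : ℂ).re)]
  · rw [uf1]; nlinarith [sq_nonneg ((z : ℂ).im), sq_nonneg ((z : ℂ).re)]

/-- the units `2 + re`, `2 + im` -/
noncomputable def uu (k : Fin 2) : C(Ci, ℝ)ˣ := (uf_unit k).unit

theorem uu_val (k : Fin 2) : ((uu k : C(Ci, ℝ)ˣ) : C(Ci, ℝ)) = uf k := rfl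

/-- the denominator `D` -/
noncomputable def DD : C(Ci, ℝ) := (1 - uf 0) ^ 2 + (1 - uf 1) ^ 2

theorem notboth (z : Ci) : ¬ (2 + (z : ℂ).re = 1 ∧ 2 + (z : ℂ).im = 1) := by
  rintro ⟨h0, h1⟩
  have h := ci_sq z
  have e0 : (z : ℂ).re = -1 := by linarith
  have e1 : (z : ℂ).im = -1 := by linarith
  rw [e0, e1] at h
  norm_num at h

theorem DD_unit : IsUnit DD := by
  rw [ContinuousMap.isUnit_iff_forall_ne_zero]
  intro z hz
  have e : (1 - (2 + (z : ℂ).re)) ^ 2 + (1 - (2 + (z : ℂ).im)) ^ 2 = 0 := hz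
  have h1 : (1 - (2 + (z : ℂ).re)) ^ 2 = 0 := by nlinarith [sq_nonneg (1 - (2 + (z : ℂ).re)), sq_nonneg (1 - (2 + (z : ℂ).im))]
  have h2 : (1 - (2 + (z : ℂ).im)) ^ 2 = 0 := by nlinarith [sq_nonneg (1 - (2 + (z : ℂ).re)), sq_nonneg (1 - (2 + (z : ℂ).im))]
  have h1' := pow_eq_zero_iff (two_ne_zero) |>.1 h1
  have h2' := pow_eq_zero_iff (two_ne_zero) |>.1 h2
  exact notboth z ⟨by linarith, by linarith⟩

/-- the values of `m` on `st 0`, `st 1` -/
noncomputable def mm (k : Fin 3) (l : Fin 2) : C(Ci, ℝ) :=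
  if k = 2 then (if l = 0 then (1 - uf 1) * ((DD_unit.unit⁻¹ : C(Ci, ℝ)ˣ) : C(Ci, ℝ))
    else -(1 - uf 0) * ((DD_unit.unit⁻¹ : C(Ci, ℝ)ˣ) : C(Ci, ℝ))) else 0

theorem mm_eq (k : Fin 3) : (1 - uf 1) * mm k 0 - (1 - uf 0) * mm k 1 = if k = 2 then 1 else 0 := by
  by_cases hk : k = 2
  · subst hk
    simp only [mm, if_true]
    have h : DD * ((DD_unit.unit⁻¹ : C(Ci, ℝ)ˣ) : C(Ci, ℝ)) = 1 := IsUnit.mul_val_inv _
    have h' : ((1 - uf 0) ^ 2 + (1 - uf 1) ^ 2) * ((DD_unit.unit⁻¹ : C(Ci, ℝ)ˣ) : C(Ci, ℝ)) = 1 := h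
    rw [if_neg (by decide : ¬ (1 : Fin 2) = 0)]
    linear_combination h'
  · simp [mm, hk]

/-- the values of `m` on `a 0`, `a 1` -/
def al {A : Type} [CommRing A] (k : Fin 3) (j : Fin 2) : A := if k.val = j.val then 1 else 0

/-- the values of `n` on `b 0`, `b 1` -/
def be (i i' : Fin 2) : ℤ := if i' = i then 1 else 0

theorem uf_ff : (((uu 0 : C(Ci, ℝ)ˣ) : C(Ci, ℝ)) - 2) ^ 2 + (((uu 1 : C(Ci, ℝ)ˣ) : C(Ci, ℝ)) - 2) ^ 2 - 1
    = 0 := by
  rw [uu_val, uu_val]
  ext z
  show (2 + (z : ℂ).re - 2) ^ 2 + (2 + (z : ℂ).im - 2) ^ 2 - 1 = (0 : ℝ)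
  have h := ci_sq z
  nlinarith

/-- evaluation at a point of the circle -/
noncomputable def ev (z : Ci) : C(Ci, ℝ) →+* ℝ where
  toFun f := f z
  map_one' := rfl
  map_mul' _ _ := rfl
  map_zero' := rfl
  map_add' _ _ := rfl

end NBaux

open NBaux

theorem pNB (h1 : StG1) (h2 : StG2) (h4 : StG4) (h7 : StG7) (h11 : StG11) : StNB := by
  intro θ
  have hex : ∀ (i : Fin 2) (k : Fin 3), ∃ f : PG RLs →* Heq C(Ci, ℝ), ∀ x, f (gen RLs x) =
      hgen uu (mm k) (al k) (be i) x := fun i k => exH h1 h2 h4 uu (mm k) (al k) (be i) uf_ff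
  choose M hM using hex
  -- independence
  have hind1 : ∀ i i' k x, toAff _ (M i k x) = toAff _ (M i' k x) := by
    intro i i' k x
    have : (toAff _).comp (M i k) = (toAff _).comp (M i' k) := by
      apply hom_eq h4
      intro y
      show toAff _ (M i k (gen RLs y)) = toAff _ (M i' k (gen RLs y))
      rw [hM, hM]
      cases y <;> rfl
    exact congrArg (fun f : PG RLs →* Aff C(Ci, ℝ) => f x) this
  have hind1m : ∀ i i' k x, (M i k x).m = (M i' k x).m := fun i i' k x =>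
    congrArg Aff.m (hind1 i i' k x)
  have hind1u : ∀ i i' k x, (M i k x).u = (M i' k x).u := fun i i' k x =>
    congrArg Aff.u (hind1 i i' k x)
  have hind2 : ∀ i k k' x, (M i k x).n = (M i k' x).n := by
    intro i k k' x
    have : (nHom _).comp (M i k) = (nHom _).comp (M i k') := by
      apply hom_eq h4
      intro y
      show nHom _ (M i k (gen RLs y)) = nHom _ (M i k' (gen RLs y))
      rw [hM, hM]
      cases y <;> rfl
    exact Multiplicative.ofAdd.injective
      (congrArg (fun f : PG RLs →* Multiplicative ℤ => f x) this)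
  have hind3u : ∀ i k k' x, (M i k x).u = (M i k' x).u := by
    intro i k k' x
    have : (Heq.uHom _).comp (M i k) = (Heq.uHom _).comp (M i k') := by
      apply hom_eq h4
      intro y
      show Heq.uHom _ (M i k (gen RLs y)) = Heq.uHom _ (M i k' (gen RLs y))
      rw [hM, hM]
      cases y <;> rfl
    exact (congrArg (fun f : PG RLs →* C(Ci, ℝ)ˣ => f x) this)
  let HA : Fin 3 → Fin 3 → C(Ci, ℝ) := fun j k =>
    ![(M 0 k (θ (gen RKs (.a 0)))).m, (M 0 k (θ (gen RKs (.a 1)))).m,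
      (1 - ((M 0 k (θ (gen RKs (.st 1)))).u : C(Ci, ℝ))) * (M 0 k (θ (gen RKs (.st 0)))).m -
      (1 - ((M 0 k (θ (gen RKs (.st 0)))).u : C(Ci, ℝ))) * (M 0 k (θ (gen RKs (.st 1)))).m] j
  classical
  let H : ℂ → Matrix (Fin 3) (Fin 3) ℝ := fun z => Matrix.of fun j k =>
    if hz : z ∈ sphere (0 : ℂ) 1 then HA j k ⟨z, hz⟩ else 0
  have hH : ∀ (z : Ci) j k, H z j k = HA j k z := by
    intro z j k
    show (if hz : (z : ℂ) ∈ sphere (0 : ℂ) 1 then HA j k ⟨z, hz⟩ else 0) = _
    rw [dif_pos z.2]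
  let C : Matrix (Fin 2) (Fin 2) ℝ := fun i' i => ((M i 0 (θ (gen RKs (.b i')))).n : ℝ)
  refine ⟨H, C, ?_, ?_⟩
  · rw [continuousOn_iff_continuous_domRestrict]
    refine continuous_pi fun j => continuous_pi fun k => ?_
    exact (HA j k).continuous.congr fun z => (hH z j k).symm
  · intro z hz i k
    let zc : Ci := ⟨z, hz⟩
    let μ : PG RLs →* Heq ℝ := (hmap (ev zc)).comp (M i k)
    have hμ : ∀ x, μ x = hmap (ev zc) (M i k x) := fun x => rfl
    have hg : ∀ x, μ (gen RLs x) = hmap (ev zc) (hgen uu (mm k) (al k) (be i) x) := by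
      intro x
      rw [hμ, hM]
    have hst0 : ((μ (gen RLs (.st 0))).u : ℝ) = 2 + z.re := by
      rw [hg]; rfl
    have hst1 : ((μ (gen RLs (.st 1))).u : ℝ) = 2 + z.im := by
      rw [hg]; rfl
    have hau : ∀ j, (μ (gen RLs (.a j))).u = 1 := by
      intro j; rw [hg]
      ext; rfl
    have hbu : ∀ j, (μ (gen RLs (.b j))).u = 1 := by
      intro j; rw [hg]
      ext; rfl
    have hbm : ∀ j, (μ (gen RLs (.b j))).m = 0 := by
      intro j; rw [hg]
      rfl
    let χ : PG RLs →* ℝˣ := (Heq.uHom ℝ).comp μ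
    have hχ : ∀ x, χ x = (μ x).u := fun x => rfl
    have h7' := h7 (PG RKs) (PG RLs) (gen RKs) (gen RLs) θ h4.1 h4.2 ℝ χ hau hbu
    have hnb : ¬ (((μ (θ (gen RKs (.st 0)))).u : ℝ) = 1 ∧ ((μ (θ (gen RKs (.st 1)))).u : ℝ) = 1) := by
      rintro ⟨e0, e1⟩
      have htriv : χ.comp (θ : PG RKs →* PG RLs) = 1 := by
        apply hom_eqK h4
        intro x
        show χ (θ (gen RKs x)) = 1
        cases x with
        | st k =>
          have hk : k = 0 ∨ k = 1 := by fin_cases k <;> simp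
          rcases hk with rfl | rfl
          · exact Units.ext e0
          · exact Units.ext e1
        | a j => exact h7'.2 j
        | b i => exact h7'.1 i
      have htriv2 : ∀ y, χ y = 1 := by
        intro y
        have := congrArg (fun f : PG RKs →* ℝˣ => f (θ.symm y)) htriv
        simpa using this
      refine notboth zc ⟨?_, ?_⟩
      · have := congrArg (fun u : ℝˣ => (u : ℝ)) (htriv2 (gen RLs (.st 0)))
        exact hst0.symm.trans this
      · have := congrArg (fun u : ℝˣ => (u : ℝ)) (htriv2 (gen RLs (.st 1)))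
        exact hst1.symm.trans this
    have huni : ∃ p q : ℝ, p * (1 - ((μ (θ (gen RKs (.st 0)))).u : ℝ)) +
      q * (1 - ((μ (θ (gen RKs (.st 1)))).u : ℝ)) = 1 := by
      by_cases e0 : ((μ (θ (gen RKs (.st 0)))).u : ℝ) = 1
      · have e1 : ((μ (θ (gen RKs (.st 1)))).u : ℝ) ≠ 1 := fun e => hnb ⟨e0, e⟩
        refine ⟨0, (1 - ((μ (θ (gen RKs (.st 1)))).u : ℝ))⁻¹, ?_⟩
        rw [inv_mul_cancel₀ (sub_ne_zero.2 e1.symm)]; ring
      · refine ⟨(1 - ((μ (θ (gen RKs (.st 0)))).u : ℝ))⁻¹, 0, ?_⟩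
        rw [inv_mul_cancel₀ (sub_ne_zero.2 (Ne.symm e0))]; ring
    obtain ⟨k1, k2, k3, k4, k5, k6⟩ := h11 ℝ θ μ hau hbu hbm huni
    refine ⟨μ, ⟨hst0, hst1, hau, hbu⟩, ?_, ?_⟩
    · funext p
      rcases p with ⟨i', j⟩ | ⟨⟩
      · rw [k3]
        show _ = bigA z (i', j) (i, k)
        have hbn : (((μ (gen RLs (.b i'))).n : ℤ) : ℝ) = if i' = i then 1 else 0 := by
          rw [hg]
          show ((be i i' : ℤ) : ℝ) = _
          unfold be
          split_ifs <;> simp
        have ham : ∀ j : Fin 2, (μ (gen RLs (.a j))).m = if k.val = j.val then 1 else 0 := by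
          intro j
          rw [hg]
          show ev zc (al k j) = _
          unfold al
          split_ifs <;> simp
        have hthird : (1 - ((μ (gen RLs (.st 1))).u : ℝ)) * (μ (gen RLs (.st 0))).m -
              (1 - ((μ (gen RLs (.st 0))).u : ℝ)) * (μ (gen RLs (.st 1))).m = if k = 2 then 1 else 0 := by
          rw [hst0, hst1]
          have e0 : (μ (gen RLs (.st 0))).m = ev zc (mm k 0) := by rw [hg]; rfl
          have e1 : (μ (gen RLs (.st 1))).m = ev zc (mm k 1) := by rw [hg]; rfl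
          have e2 := congrArg (ev zc) (mm_eq k)
          rw [e0, e1]
          have e3 : ev zc (if k = 2 then (1 : C(Ci, ℝ)) else 0) = if k = 2 then 1 else 0 := by
            split_ifs <;> simp
          rw [e3] at e2
          rw [← e2, map_sub, map_mul, map_mul]
          rfl
        rw [hbn, hthird]
        simp only [mU, ham, hst0, hst1, bigA, rotA]
        clear hthird ham hbn k6 k5 k4 k3 k2 k1 huni hnb h7' hH
        have hi : i' = i ∨ i' ≠ i := em _
        rcases hi with rfl | hi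
        · have hi0 : i' = 0 ∨ i' = 1 := by fin_cases i' <;> simp
          rcases hi0 with rfl | rfl
          · fin_cases j <;> fin_cases k <;> simp
          · fin_cases j <;> fin_cases k <;> simp
        · simp [hi]
      · rw [k4]; rfl
    · funext p
      rcases p with ⟨i', j⟩ | ⟨⟩
      · rw [k5]
        show _ = C i' i * H z j k
        rw [hH zc j k]
        have hn : (((μ (θ (gen RKs (.b i')))).n : ℤ) : ℝ) = C i' i := by
          show (((M i k (θ (gen RKs (.b i')))).n : ℤ) : ℝ) = (((M i 0 (θ (gen RKs (.b i')))).n : ℤ) : ℝ)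
          rw [hind2 i k 0]
        have hm : ∀ x, (μ (θ (gen RKs x))).m = (M 0 k (θ (gen RKs x))).m zc := by
          intro x
          show (M i k (θ (gen RKs x))).m zc = _
          rw [hind1m i 0]
        have hu : ∀ x, ((μ (θ (gen RKs x))).u : ℝ) = ((M 0 k (θ (gen RKs x))).u : C(Ci, ℝ)) zc := by
          intro x
          show ((M i k (θ (gen RKs x))).u : C(Ci, ℝ)) zc = _
          rw [hind1u i 0]
        rw [hn]
        congr 1
        simp only [hm, hu, HA]
        clear hn hm hu k6 k5 k4 k3 k2 k1 huni hnb h7' hH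
        fin_cases j <;> rfl
      · rw [k6]; rfl

end Pool.Agent.Helper74.SS
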