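import Pool.Agent.Helper74.SS.St

/-! Project SS: module Neg, the algebraic half of the proof. -/

set_option autoImplicit false

open Set Metric Filter Topology

namespace Pool.Agent.Helper74.SS

theorem pNeg (hS : StSpin) (hA : StNA) (hB : StNB) : StNeg := by
  rintro ⟨θ, T, hT⟩
  obtain ⟨N, hN1, hN2, hN3⟩ := hA θ T hT
  obtain ⟨H, C, hH, hC⟩ := hB θ
  refine hS N H C (fun z => Matrix.of fun p _ => N z (.inl p) (.inr ()))
    (fun z => Matrix.of fun _ _ => N z (.inr ()) (.inr ())) hN1 hN2 hH ?_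
  intro z hz
  have key : ∀ (i : Fin 2) (k : Fin 3), (N z).mulVec (ext0 fun p => bigA z p (i, k)) =
      ext0 fun p => Matrix.kroneckerMap (· * ·) C (H z) p (i, k) := by
    intro i k
    obtain ⟨μ, h1, h2, h3⟩ := hC z hz i k
    have h4 := hN3 z (sphere_subset_closedBall hz) _ h1 _ _ (hT.cup ℝ μ)
    rw [← h3, ← h2]
    exact h4.symm
  ext r c
  rcases c with ⟨i, k⟩ | ⟨⟩
  · have h := congrFun (key i k) r
    rw [Matrix.mul_apply]
    have e1 : (N z).mulVec (ext0 fun p => bigA z p (i, k)) r =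
        ∑ s, N z r s * Matrix.fromBlocks (bigA z) 0 0 (1 : Matrix Unit Unit ℝ) s (Sum.inl (i, k)) := by
      rw [Matrix.mulVec, dotProduct]
      refine Finset.sum_congr rfl fun s _ => ?_
      congr 1
      rcases s with s | s <;> rfl
    rw [← e1, h]
    rcases r with r | r <;> rfl
  · rw [Matrix.mul_apply, Fintype.sum_sum_type]
    have e1 : ∑ x : I6, N z r (Sum.inl x) *
        Matrix.fromBlocks (bigA z) 0 0 (1 : Matrix Unit Unit ℝ) (Sum.inl x) (Sum.inr ()) = 0 := by
      refine Finset.sum_eq_zero fun s _ => ?_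
      rw [Matrix.fromBlocks_apply₁₂, Matrix.zero_apply, mul_zero]
    rw [e1, zero_add]
    simp only [Finset.univ_unique, Finset.sum_singleton]
    rw [Matrix.fromBlocks_apply₂₂]
    rcases r with r | r
    · simp
    · simp

end Pool.Agent.Helper74.SS
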