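import Pool.Agent.Helper74.SS.St

/-! Project SS (MP_2a19da_gt), module Spin: the contradiction in the general linear group. -/

set_option autoImplicit false

open Set Metric Filter Topology

namespace Pool.Agent.Helper74.SS

private theorem ex_eq_Spin (t : ℝ) :
    ex t = Complex.exp (((2 * Real.pi * t : ℝ) : ℂ) * Complex.I) := by
  rw [ex]; push_cast; rfl

private theorem ex_re_Spin (t : ℝ) : (ex t).re = Real.cos (2 * Real.pi * t) := by
  rw [ex_eq_Spin, Complex.exp_ofReal_mul_I_re]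

private theorem ex_im_Spin (t : ℝ) : (ex t).im = Real.sin (2 * Real.pi * t) := by
  rw [ex_eq_Spin, Complex.exp_ofReal_mul_I_im]

private theorem norm_ex_Spin (t : ℝ) : ‖ex t‖ = 1 := by
  rw [ex_eq_Spin, Complex.norm_exp_ofReal_mul_I]

private theorem ex_zero_Spin : ex 0 = 1 := by
  rw [ex_eq_Spin]; simp

private theorem ex_one_Spin : ex 1 = 1 := by
  rw [ex]
  have h : (2 * (Real.pi : ℂ) * ((1 : ℝ) : ℂ) * Complex.I) = 2 * Real.pi * Complex.I := by
    push_cast; ring
  rw [h, Complex.exp_two_pi_mul_I]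

private theorem continuous_ex_Spin : Continuous ex := by
  unfold ex
  fun_prop

private theorem bigA_mul_Spin (z : ℂ) (hz : ‖z‖ = 1) :
    bigA z * bigA ((starRingEnd ℂ) z) = 1 := by
  have h : z.re * z.re + z.im * z.im = 1 := by
    have h1 : Complex.normSq z = 1 := by rw [Complex.normSq_eq_norm_sq, hz]; norm_num
    rw [Complex.normSq_apply] at h1
    exact h1
  ext ⟨i, j⟩ ⟨k, l⟩
  fin_cases i <;> fin_cases k <;> fin_cases j <;> fin_cases l <;>
    simp [bigA, rotA, Matrix.mul_apply, Fintype.sum_prod_type, Fin.sum_univ_succ] <;> nlinarith [h]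

private theorem rotL_eq_Spin (t : ℝ) :
    rotL (Sum.inl (0, 0) : N7) (Sum.inl (0, 1)) t = Matrix.fromBlocks (bigA (ex t)) 0 0 1 := by
  ext i j
  rcases i with ⟨i1, i2⟩ | ⟨⟩ <;> rcases j with ⟨j1, j2⟩ | ⟨⟩
  · fin_cases i1 <;> fin_cases j1 <;> fin_cases i2 <;> fin_cases j2 <;>
      simp [rotL, bigA, rotA, ex_re_Spin, ex_im_Spin]
  · simp [rotL]
  · simp [rotL]
  · simp [rotL]

theorem pSpin (h8 : StH8) (h9 : StH9) : StSpin := by
  intro N H C v D hN hdet hH heq
  obtain ⟨w, hw, hrot⟩ := h8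
  have hexs : ∀ t, ex t ∈ sphere (0 : ℂ) 1 := fun t => by
    rw [mem_sphere_zero_iff_norm]; exact norm_ex_Spin t
  have hexb : ∀ t, ex t ∈ closedBall (0 : ℂ) 1 := fun t => sphere_subset_closedBall (hexs t)
  -- the rotation loop
  have hRdet : ∀ t, (Matrix.fromBlocks (bigA (ex t)) 0 0 1 : Matrix N7 N7 ℝ).det ≠ 0 := by
    intro t
    rw [Matrix.det_fromBlocks_zero₂₁, Matrix.det_one, mul_one]
    intro h0
    have h1 := congrArg Matrix.det (bigA_mul_Spin (ex t) (norm_ex_Spin t))
    rw [Matrix.det_mul, h0, zero_mul, Matrix.det_one] at h1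
    exact zero_ne_one h1
  have hRcont : Continuous (fun t : ℝ => rotL (Sum.inl (0, 0) : N7) (Sum.inl (0, 1)) t) := by
    refine continuous_pi fun i => continuous_pi fun j => ?_
    unfold rotL
    split_ifs <;> fun_prop
  have hLR : Lp (GG N7) (rotL (Sum.inl (0, 0) : N7) (Sum.inl (0, 1))) := by
    refine ⟨hRcont.continuousOn, fun t _ => ?_, ?_⟩
    · show (rotL (Sum.inl (0, 0) : N7) (Sum.inl (0, 1)) t).det ≠ 0
      rw [rotL_eq_Spin]
      exact hRdet t
    · rw [rotL_eq_Spin, rotL_eq_Spin, ex_zero_Spin, ex_one_Spin]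
  have hR0 : rotL (Sum.inl (0, 0) : N7) (Sum.inl (0, 1)) 0 = 1 := by
    ext i j
    rcases i with ⟨i1, i2⟩ | ⟨⟩ <;> rcases j with ⟨j1, j2⟩ | ⟨⟩
    · fin_cases i1 <;> fin_cases j1 <;> fin_cases i2 <;> fin_cases j2 <;>
        simp [rotL]
    · simp [rotL]
    · simp [rotL]
    · simp [rotL]
  -- the loop `N (ex t)`
  have hNc : ContinuousOn (fun t : ℝ => N (ex t)) (Icc 0 1) :=
    hN.comp continuous_ex_Spin.continuousOn fun t _ => hexb t
  have hLN : Lp (GG N7) (fun t => N (ex t)) :=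
    ⟨hNc, fun t _ => hdet _ (hexb t), by simp only [ex_zero_Spin, ex_one_Spin]⟩
  -- values of `w`
  have hL1 : Lp (GG N7) (fun _ => (1 : Matrix N7 N7 ℝ)) :=
    ⟨continuousOn_const, fun t _ => by simp [GG], rfl⟩
  have hw1 : w (fun _ => (1 : Matrix N7 N7 ℝ)) = 1 := by
    have h1 := hw.mul _ _ hL1 hL1 rfl
    simp only [mul_one] at h1
    rcases hw.pm _ hL1 with h2 | h2
    · exact h2
    · rw [h2] at h1; norm_num at h1
  have hwN : w (fun t => N (ex t)) = 1 := by
    have h1 := hw.hom (fun t τ => N (((1 - τ : ℝ) : ℂ) * ex t)) ?_ ?_ ?_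
    · simp only [sub_zero, Complex.ofReal_one, one_mul, sub_self, Complex.ofReal_zero,
        zero_mul] at h1
      rw [h1]
      have h2 := hw.left (N 0) (hdet 0 (by simp)) _ hL1
      simp only [mul_one] at h2
      rw [h2, hw1]
    · refine hN.comp (t := closedBall (0 : ℂ) 1) ?_ ?_
      · have : Continuous (fun p : ℝ × ℝ => ((1 - p.2 : ℝ) : ℂ) * ex p.1) := by
          have := continuous_ex_Spin
          fun_prop
        exact this.continuousOn
      · rintro ⟨t, τ⟩ ⟨ht, hτ⟩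
        rw [mem_closedBall_zero_iff, norm_mul, norm_ex_Spin, mul_one, Complex.norm_real,
          Real.norm_eq_abs, abs_of_nonneg (by linarith [hτ.2])]
        linarith [hτ.1]
    · intro t ht τ hτ
      refine hdet _ ?_
      rw [mem_closedBall_zero_iff, norm_mul, norm_ex_Spin, mul_one, Complex.norm_real,
          Real.norm_eq_abs, abs_of_nonneg (by linarith [hτ.2])]
      linarith [hτ.1]
    · intro τ _
      simp only [ex_zero_Spin, ex_one_Spin]
  have hprod : w (fun t => N (ex t) * rotL (Sum.inl (0, 0) : N7) (Sum.inl (0, 1)) t) = -1 := by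
    rw [hw.mul _ _ hLN hLR hR0, hwN, hrot]; norm_num
  -- the right side
  have heq' : ∀ t : ℝ, N (ex t) * rotL (Sum.inl (0, 0) : N7) (Sum.inl (0, 1)) t =
      Matrix.fromBlocks (Matrix.kroneckerMap (· * ·) C (H (ex t))) (v (ex t)) 0 (D (ex t)) := by
    intro t
    rw [rotL_eq_Spin]
    exact heq _ (hexs t)
  have hLc : ContinuousOn (fun t : ℝ =>
      (Matrix.fromBlocks (Matrix.kroneckerMap (· * ·) C (H (ex t))) (v (ex t)) 0 (D (ex t)) :
        Matrix N7 N7 ℝ)) (Icc 0 1) := by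
    have h1 : ContinuousOn (fun t : ℝ => N (ex t) *
        rotL (Sum.inl (0, 0) : N7) (Sum.inl (0, 1)) t) (Icc 0 1) := by
      exact hNc.mul hRcont.continuousOn
    exact h1.congr fun t _ => (heq' t).symm
  have h9' := h9 w (fun t => H (ex t)) C (fun t => v (ex t)) (fun t => D (ex t)) hw
    (hH.comp continuous_ex_Spin.continuousOn fun t _ => hexs t) ?_ ?_
    (by simp only [ex_zero_Spin, ex_one_Spin]) (by simp only [ex_zero_Spin, ex_one_Spin])
    (by simp only [ex_zero_Spin, ex_one_Spin]) ?_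
  · rw [← funext heq'] at h9'
    rw [hprod] at h9'
    norm_num at h9'
  · refine continuousOn_pi.2 fun i => continuousOn_pi.2 fun j => ?_
    exact (continuousOn_pi.1 (continuousOn_pi.1 hLc (Sum.inl i)) (Sum.inr j))
  · refine continuousOn_pi.2 fun i => continuousOn_pi.2 fun j => ?_
    exact (continuousOn_pi.1 (continuousOn_pi.1 hLc (Sum.inr i)) (Sum.inr j))
  · intro t _
    rw [← heq' t, Matrix.det_mul]
    refine mul_ne_zero (hdet _ (hexb t)) ?_
    rw [rotL_eq_Spin]
    exact hRdet t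

end Pool.Agent.Helper74.SS
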