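import Pool.Agent.Helper74.SS.St

/-!
Project SS, module A1: path products exist, uniformly in a family of paths.
-/

set_option autoImplicit false

open Set Metric Filter Topology

namespace Pool.Agent.Helper74.SS

section A1

variable {V G : Type} [PseudoMetricSpace V] [Group G]

omit [PseudoMetricSpace V] in
/-- The path product as a product over `List.range N` (a list of natural numbers). -/
theorem pp_eq_A1 (E : V → V → G) (g : ℝ → V) (N : ℕ) :
    pp E g N =
      ((List.range N).map fun k : ℕ => E (g ((k : ℝ) / N)) (g (((k : ℝ) + 1) / N))).prod := by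
  have h : ∀ l : List ℕ, List.flatMap (fun a : ℕ => [(a : ℝ)]) l =
      List.map (fun a : ℕ => (a : ℝ)) l := by
    intro l
    induction l with
    | nil => rfl
    | cons a l ih => rw [List.flatMap_cons, ih]; rfl
  unfold pp
  first
  | rfl
  | (simp only [List.bind_eq_flatMap, List.pure_def]
     rw [h, List.map_map]
     rfl)

private theorem range_blocks_A1 (f : ℕ → G) (M : ℕ) (n : ℕ) :
    ((List.range (n * M)).map f).prod =
      ((List.range n).map fun k => ((List.range M).map fun i => f (k * M + i)).prod).prod := by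
  induction n with
  | zero => simp
  | succ n ih =>
    rw [Nat.succ_mul, List.range_add, List.map_append, List.prod_append, ih, List.range_succ,
      List.map_append, List.prod_append]
    simp [List.map_map, Function.comp_def]

private theorem pp_mul_A1 {S : Set V} {E : V → V → G} {ε δ : ℝ} (hε : 0 < ε)
    (hE : ∀ x ∈ S, ∀ y ∈ S, ∀ z ∈ S, dist x y < ε → dist x z < ε → E x y * E y z = E x z)
    (g : ℝ → V) (hg : ∀ s ∈ Icc (0 : ℝ) 1, g s ∈ S)
    (hd : ∀ s ∈ Icc (0 : ℝ) 1, ∀ t ∈ Icc (0 : ℝ) 1, |s - t| < δ → dist (g s) (g t) < ε)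
    {N M : ℕ} (hN : 1 ≤ N) (hNδ : 1 / (N : ℝ) < δ) (hM : 1 ≤ M) :
    pp E g (N * M) = pp E g N := by
  have hN' : (0 : ℝ) < N := by exact_mod_cast hN
  have hM' : (0 : ℝ) < M := by exact_mod_cast hM
  have hself : ∀ x ∈ S, E x x = 1 := by
    intro x hx
    have h1 := hE x hx x hx x hx (by rw [dist_self]; exact hε) (by rw [dist_self]; exact hε)
    exact mul_eq_left.1 h1
  have key : ∀ k, k < N → ∀ i, i ≤ M →
      ((List.range i).map fun i' => E (g (((k * M + i' : ℕ) : ℝ) / ((N * M : ℕ) : ℝ)))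
        (g ((((k * M + i' : ℕ) : ℝ) + 1) / ((N * M : ℕ) : ℝ)))).prod =
      E (g ((k : ℝ) / N)) (g (((k * M + i : ℕ) : ℝ) / ((N * M : ℕ) : ℝ))) := by
    intro k hk i
    have hk' : (k : ℝ) + 1 ≤ N := by exact_mod_cast hk
    have hkI : (k : ℝ) / N ∈ Icc (0 : ℝ) 1 := by
      constructor
      · positivity
      · rw [div_le_one hN']
        linarith
    have hpt : ∀ j : ℕ, j ≤ M → ((k * M + j : ℕ) : ℝ) / ((N * M : ℕ) : ℝ) ∈ Icc (0 : ℝ) 1 ∧
        dist (g ((k : ℝ) / N)) (g (((k * M + j : ℕ) : ℝ) / ((N * M : ℕ) : ℝ))) < ε := by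
      intro j hj
      have hj' : (j : ℝ) ≤ M := by exact_mod_cast hj
      have h1 : ((k * M + j : ℕ) : ℝ) / ((N * M : ℕ) : ℝ) ∈ Icc (0 : ℝ) 1 := by
        constructor
        · positivity
        · rw [div_le_one (by positivity)]
          push_cast
          nlinarith
      refine ⟨h1, hd _ hkI _ h1 ?_⟩
      have h2 : (k : ℝ) / N - ((k * M + j : ℕ) : ℝ) / ((N * M : ℕ) : ℝ) =
          -((j : ℝ) / (N * M)) := by
        push_cast
        field_simp
        ring
      rw [h2, abs_neg, abs_of_nonneg (by positivity)]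
      refine lt_of_le_of_lt ?_ hNδ
      rw [div_le_div_iff₀ (by positivity) hN']
      nlinarith
    induction i with
    | zero =>
      intro _
      have h3 : ((k * M + 0 : ℕ) : ℝ) / ((N * M : ℕ) : ℝ) = (k : ℝ) / N := by
        push_cast
        field_simp
        ring
      rw [h3, hself _ (hg _ hkI)]
      simp
    | succ i ih =>
      intro hi
      rw [List.range_succ, List.map_append, List.prod_append, ih (by omega)]
      obtain ⟨a1, a2⟩ := hpt i (by omega)
      obtain ⟨b1, b2⟩ := hpt (i + 1) hi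
      have h4 : (((k * M + i : ℕ) : ℝ) + 1) / ((N * M : ℕ) : ℝ) =
          ((k * M + (i + 1) : ℕ) : ℝ) / ((N * M : ℕ) : ℝ) := by
        push_cast
        ring
      simp only [List.map_cons, List.map_nil, List.prod_cons, List.prod_nil, mul_one]
      rw [h4]
      exact hE _ (hg _ hkI) _ (hg _ a1) _ (hg _ b1) a2 b2
  rw [pp_eq_A1, pp_eq_A1]
  rw [range_blocks_A1]
  congr 1
  apply List.map_congr_left
  intro k hk
  rw [List.mem_range] at hk
  rw [key k hk M le_rfl]
  have h5 : ((k * M + M : ℕ) : ℝ) / ((N * M : ℕ) : ℝ) = ((k : ℝ) + 1) / N := by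
    push_cast
    field_simp
  rw [h5]

private theorem pp_eq_PP_A1 {S : Set V} {E : V → V → G} {ε δ : ℝ} (hε : 0 < ε)
    (hE : ∀ x ∈ S, ∀ y ∈ S, ∀ z ∈ S, dist x y < ε → dist x z < ε → E x y * E y z = E x z)
    (g : ℝ → V) (hg : ∀ s ∈ Icc (0 : ℝ) 1, g s ∈ S)
    (hd : ∀ s ∈ Icc (0 : ℝ) 1, ∀ t ∈ Icc (0 : ℝ) 1, |s - t| < δ → dist (g s) (g t) < ε)
    {N0 : ℕ} (hN0 : 1 ≤ N0) (hNδ : 1 / (N0 : ℝ) < δ) :
    ∀ N ≥ N0, pp E g N = PP E g := by
  have hpos : (0 : ℝ) < N0 := by exact_mod_cast hN0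
  have heq : ∀ N ≥ N0, ∀ M ≥ N0, pp E g N = pp E g M := by
    have hlt : ∀ K ≥ N0, 1 / (K : ℝ) < δ := by
      intro K hK
      refine lt_of_le_of_lt ?_ hNδ
      have : (N0 : ℝ) ≤ K := by exact_mod_cast hK
      exact one_div_le_one_div_of_le hpos this
    intro N hN M hM
    rw [← pp_mul_A1 hε hE g hg hd (hN0.trans hN) (hlt N hN) (hN0.trans hM), mul_comm,
      pp_mul_A1 hε hE g hg hd (hN0.trans hM) (hlt M hM) (hN0.trans hN)]
  have hex : ∃ c, ∀ᶠ N in atTop, pp E g N = c :=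
    ⟨pp E g N0, by
      filter_upwards [eventually_ge_atTop N0] with N hN
      exact heq N hN N0 le_rfl⟩
  intro N hN
  have hch : ∀ᶠ K in atTop, pp E g K = PP E g := by
    unfold PP
    rw [dif_pos hex]
    exact hex.choose_spec
  obtain ⟨K, hK1, hK2⟩ := (hch.and (eventually_ge_atTop N0)).exists
  rw [heq N hN K hK2, hK1]

private theorem exists_N_A1 {δ : ℝ} (hδ : 0 < δ) : ∃ N0 : ℕ, 1 ≤ N0 ∧ 1 / (N0 : ℝ) < δ := by
  obtain ⟨n, hn⟩ := exists_nat_one_div_lt hδ
  refine ⟨n + 1, by omega, ?_⟩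
  push_cast
  exact hn

end A1

/-- A1: path products exist, uniformly in a family of paths. -/
theorem pA1 : StA1 := by
  intro V V' G _ _ _ S S' E h hcoc hmor
  obtain ⟨ε, hε, hE⟩ := hcoc
  obtain ⟨huc, hmem⟩ := hmor
  obtain ⟨δ, hδ, hδ'⟩ := Metric.uniformContinuousOn_iff.1 huc ε hε
  obtain ⟨N0, hN0, hN0δ⟩ := exists_N_A1 hδ
  refine ⟨N0, fun N hN x hx => ?_⟩
  refine pp_eq_PP_A1 hε hE (h x) (fun s hs => hmem x hx s hs) ?_ hN0 hN0δ N hN
  intro s hs t ht hst
  refine hδ' (x, s) ⟨hx, hs⟩ (x, t) ⟨hx, ht⟩ ?_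
  rw [Prod.dist_eq, dist_self, Real.dist_eq]
  exact max_lt hδ hst

/-- A1': the path product of one path is the eventual value of `pp`. -/
theorem pA1' : StA1' := by
  intro V G _ _ S E γ hcoc hγ
  obtain ⟨ε, hε, hE⟩ := hcoc
  obtain ⟨hc, hmem⟩ := hγ
  obtain ⟨δ, hδ, hδ'⟩ := Metric.uniformContinuousOn_iff.1
    (isCompact_Icc.uniformContinuousOn_of_continuous hc) ε hε
  obtain ⟨N0, hN0, hN0δ⟩ := exists_N_A1 hδ
  refine ⟨N0, fun N hN => ?_⟩
  refine pp_eq_PP_A1 hε hE γ (fun s hs => hmem hs) ?_ hN0 hN0δ N hN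
  intro s hs t ht hst
  exact hδ' s hs t ht (by rw [Real.dist_eq]; exact hst)

end Pool.Agent.Helper74.SS
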