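import Pool.Agent.Helper74.SS.St

/-! Project SS, module B3: one small step. -/

set_option autoImplicit false

open Set Metric Filter Topology

namespace Pool.Agent.Helper74.SS

theorem pB3 : StB3 := by
  intro V V' A _ _ _ S' e ω hc hz
  obtain ⟨εc, hεc, hc⟩ := hc
  obtain ⟨εz, hεz, hz⟩ := hz
  refine ⟨min εc εz, lt_min hεc hεz, ?_⟩
  intro S f f' hf hf' hex
  obtain ⟨ε1, hε1, h1⟩ := hex
  have hself : ∀ x ∈ S, dist (f x) (f' x) < min εc εz := by
    intro x hx
    exact (h1 x hx x hx (by rw [dist_self]; exact hε1)).2.1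
  constructor
  · refine ⟨ε1, hε1, ?_⟩
    intro x hx y hy hxy
    obtain ⟨h2, h3, h4⟩ := h1 x hx y hy hxy
    have h5 := hself x hx
    have k1 := hc (f x) (hf hx) (f' x) (hf' hx) (f' y) (hf' hy) (lt_of_lt_of_le h5 (min_le_left _ _))
      (lt_of_lt_of_le h3 (min_le_left _ _))
    have k2 := hc (f x) (hf hx) (f y) (hf hy) (f' y) (hf' hy) (lt_of_lt_of_le h2 (min_le_left _ _))
      (lt_of_lt_of_le h3 (min_le_left _ _))
    show e (f x) (f' x) * e (f' x) (f' y) = e (f x) (f y) * e (f y) (f' y)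
    rw [k1, k2]
  · refine ⟨fun x y => ω (f x) (f y) (f' y) - ω (f x) (f' x) (f' y), ε1, hε1, ?_⟩
    intro x hx y hy z hz' hxy hxz
    obtain ⟨h2, h3, _⟩ := h1 x hx y hy hxy
    obtain ⟨h5, h6, _⟩ := h1 x hx z hz' hxz
    have h8 := hself x hx
    have q : ∀ {r : ℝ}, r < min εc εz → r < εz := fun h => lt_of_lt_of_le h (min_le_right _ _)
    have k1 := hz (f x) (hf hx) (f y) (hf hy) (f z) (hf hz') (f' z) (hf' hz') (q h2) (q h5) (q h6)
    have k2 := hz (f x) (hf hx) (f y) (hf hy) (f' y) (hf' hy) (f' z) (hf' hz') (q h2) (q h3) (q h6)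
    have k3 := hz (f x) (hf hx) (f' x) (hf' hx) (f' y) (hf' hy) (f' z) (hf' hz') (q h8) (q h3)
      (q h6)
    show ω (f x) (f y) (f z) - (e (f x) (f' x) : A) * ω (f' x) (f' y) (f' z) =
      (e (f x) (f y) : A) * (ω (f y) (f z) (f' z) - ω (f y) (f' y) (f' z)) -
        (ω (f x) (f z) (f' z) - ω (f x) (f' x) (f' z)) +
        (ω (f x) (f y) (f' y) - ω (f x) (f' x) (f' y))
    linear_combination -k1 + k2 - k3

end Pool.Agent.Helper74.SS
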