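import Pool.Agent.Helper74.SS.St

set_option autoImplicit false

open Set Metric Filter Topology

namespace Pool.Agent.Helper74.SS

open Classical in
/-- The glued map. -/
private noncomputable def glue_C3 {ι κ Y : Type} [DecidableEq ι] [DecidableEq κ]
    (R : κ → Wd ι) (fW : Amb ι κ → ℝ → Y) (fc : κ → ℝ → ℝ → ℝ → Y) (x : Amb ι κ) (τ : ℝ) : Y :=
  if x ∈ WW ι κ then fW x τ else
    if h : ∃ p : κ × ℝ × ℝ, p.2.1 ∈ Icc (0 : ℝ) 1 ∧ p.2.2 ∈ Icc (0 : ℝ) 1 ∧
      x = cel R p.1 p.2.1 p.2.2 then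
    fc h.choose.1 h.choose.2.1 h.choose.2.2 τ else fW x τ

theorem pC3 (hC0 : StC0) (hC1 : StC1) (hC2 : StC2) : StC3 := by
  intro ι κ Y _ _ _ _ _ R fW fc hW hc h1 h0 hper
  obtain ⟨cW, cX, ccont, cone, czero, cper, hsame, hne, hWW, hnn, hrep, hmem, hinj⟩ :=
    hC2 ι κ R
  have hval1 : ∀ x ∈ WW ι κ, ∀ τ, glue_C3 R fW fc x τ = fW x τ := by
    intro x hx τ
    unfold glue_C3
    rw [if_pos hx]
  have hval2 : ∀ j, ∀ ρ ∈ Icc (0 : ℝ) 1, ∀ t ∈ Icc (0 : ℝ) 1, ∀ τ ∈ Icc (0 : ℝ) 1,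
      glue_C3 R fW fc (cel R j ρ t) τ = fc j ρ t τ := by
    intro j ρ hρ t ht τ hτ
    by_cases hx : cel R j ρ t ∈ WW ι κ
    · rw [hval1 _ hx]
      have h2 := hWW _ hx j
      rw [hsame] at h2
      have h3 : ρ = 1 := by linarith
      subst h3
      rw [cone, h1 j t ht τ hτ]
    · have hρ1 : ρ < 1 := by
        rcases lt_or_eq_of_le hρ.2 with h | h
        · exact h
        · exfalso
          subst h
          rw [cone] at hx
          exact hx ((hC1.2.2.2.2.2.2.2 ι κ (R j)).2.2.2 t)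
      have hex : ∃ p : κ × ℝ × ℝ, p.2.1 ∈ Icc (0 : ℝ) 1 ∧ p.2.2 ∈ Icc (0 : ℝ) 1 ∧
          cel R j ρ t = cel R p.1 p.2.1 p.2.2 := ⟨(j, ρ, t), hρ, ht, rfl⟩
      unfold glue_C3
      rw [if_neg hx, dif_pos hex]
      obtain ⟨k1, k2, k3⟩ := hex.choose_spec
      generalize hex.choose = p at k1 k2 k3
      obtain ⟨j', ρ', t'⟩ := p
      dsimp only at k1 k2 k3 ⊢
      have hj : j' = j := by
        by_contra hjj
        have h2 := congrArg (hh j) k3
        rw [hsame, hne j' j ρ' t' hjj] at h2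
        linarith
      subst hj
      obtain ⟨h2, h3⟩ := hinj j' ρ hρ ρ' k1 t ht t' k2 hρ1 k3
      subst h2
      rcases h3 with h3 | ⟨n, hn⟩
      · subst h3
        rw [h0 j' t ht τ hτ, h0 j' t' k2 τ hτ]
      · have hn1 : n < 2 := by
          have : (n : ℝ) < 2 := by rw [← hn]; linarith [ht.2, k2.1]
          exact_mod_cast this
        have hn2 : -2 < n := by
          have : (-2 : ℝ) < n := by rw [← hn]; linarith [ht.1, k2.2]
          exact_mod_cast this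
        have hcases : n = -1 ∨ n = 0 ∨ n = 1 := by omega
        rcases hcases with rfl | rfl | rfl
        · push_cast at hn
          have e1 : t = 0 := by linarith [ht.1, k2.2]
          have e2 : t' = 1 := by linarith [ht.1, k2.2]
          rw [e1, e2, hper j' ρ hρ τ hτ]
        · push_cast at hn
          have e1 : t = t' := by linarith
          rw [e1]
        · push_cast at hn
          have e1 : t = 1 := by linarith [ht.2, k2.1]
          have e2 : t' = 0 := by linarith [ht.2, k2.1]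
          rw [e1, e2, hper j' ρ hρ τ hτ]
  refine ⟨glue_C3 R fW fc, ?_, fun x hx τ _ => hval1 x hx τ, hval2⟩
  -- continuity
  set P : Option κ → Set (Amb ι κ × ℝ) := fun o => match o with
    | none => WW ι κ ×ˢ Icc (0 : ℝ) 1
    | some j => (fun p : ℝ × ℝ × ℝ => ((cel R j p.1 p.2.1, p.2.2) : Amb ι κ × ℝ)) ''
      (Icc (0 : ℝ) 1 ×ˢ Icc (0 : ℝ) 1 ×ˢ Icc (0 : ℝ) 1) with hP
  have hqc : ∀ j, Continuous (fun p : ℝ × ℝ × ℝ =>
      ((cel R j p.1 p.2.1, p.2.2) : Amb ι κ × ℝ)) := by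
    intro j
    have h2 : Continuous (fun p : ℝ × ℝ × ℝ => cel R j p.1 p.2.1) :=
      (ccont j).comp (continuous_fst.prodMk (continuous_fst.comp continuous_snd))
    exact h2.prodMk (continuous_snd.comp continuous_snd)
  have hK : IsCompact (Icc (0 : ℝ) 1 ×ˢ Icc (0 : ℝ) 1 ×ˢ Icc (0 : ℝ) 1) :=
    isCompact_Icc.prod (isCompact_Icc.prod isCompact_Icc)
  have hcl : ∀ o, IsClosed (P o) := by
    intro o
    cases o with
    | none => exact (cW.prod isCompact_Icc).isClosed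
    | some j => exact (hK.image (hqc j)).isClosed
  have hsub : XX R ×ˢ Icc (0 : ℝ) 1 ⊆ ⋃ o, P o := by
    rintro ⟨x, τ⟩ ⟨hx, hτ⟩
    rw [mem_iUnion]
    rcases hx with hx | ⟨j, ρ, hρ, t, ht, he⟩
    · exact ⟨none, hx, hτ⟩
    · refine ⟨some j, ⟨(ρ, t, τ), ⟨hρ, ht, hτ⟩, ?_⟩⟩
      dsimp only at he ⊢
      rw [he]
  refine ContinuousOn.mono ?_ hsub
  refine LocallyFinite.continuousOn_iUnion (locallyFinite_of_finite P) hcl ?_
  intro o
  cases o with
  | none =>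
    refine hW.congr ?_
    rintro ⟨x, τ⟩ ⟨hx, hτ⟩
    exact hval1 x hx τ
  | some j =>
    refine hC0 (ℝ × ℝ × ℝ) (Amb ι κ × ℝ) Y _ _ _ hK (hqc j).continuousOn ?_
    refine (hc j).congr ?_
    rintro ⟨ρ, t, τ⟩ ⟨hρ, ht, hτ⟩
    exact hval2 j ρ hρ t ht τ hτ

end Pool.Agent.Helper74.SS
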