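import Pool.Agent.Helper74.SS.St

/-! Project SS, module E2: two cellular representatives of a 2-cocycle differ by a coboundary. -/

set_option autoImplicit false

open Set Metric Filter Topology

namespace Pool.Agent.Helper74.SS

private theorem coc_mono_E2 {V G : Type} [PseudoMetricSpace V] [Group G] {S S' : Set V}
    {E : V → V → G} (h : S ⊆ S') (hE : Coc S' E) : Coc S E := by
  obtain ⟨ε, hε, H⟩ := hE
  exact ⟨ε, hε, fun x hx y hy z hz => H x (h hx) y (h hy) z (h hz)⟩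

private theorem nr3_mono_E2 {V B : Type} [PseudoMetricSpace V] {S S' : Set V}
    {a b : V → V → V → B} (h : S ⊆ S') (hE : Nr3 S' a b) : Nr3 S a b := by
  obtain ⟨ε, hε, H⟩ := hE
  exact ⟨ε, hε, fun x hx y hy z hz => H x (h hx) y (h hy) z (h hz)⟩

private theorem z1_sub_E2 {V K : Type} [PseudoMetricSpace V] [CommRing K] {S : Set V}
    {e : V → V → Kˣ} {ω : V → V → V → K} {φ φ' : V → V → K} (h : Nr3 S ω (d1 e φ))
    (h' : Nr3 S ω (d1 e φ')) : Z1 S e (fun x y => φ x y - φ' x y) := by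
  obtain ⟨ε, hε, H⟩ := h
  obtain ⟨ε', hε', H'⟩ := h'
  refine ⟨min ε ε', lt_min hε hε', fun x hx y hy z hz hxy hxz => ?_⟩
  have h1 := H x hx y hy z hz (hxy.trans_le (min_le_left _ _)) (hxz.trans_le (min_le_left _ _))
  have h2 := H' x hx y hy z hz (hxy.trans_le (min_le_right _ _)) (hxz.trans_le (min_le_right _ _))
  unfold d1 at h1 h2 ⊢
  linear_combination h2 - h1

theorem pE2 (hB1 : StB1) (hB7 : StB7) : StE2 := by
  intro ι κ V K _ _ _ R g e ω c c' hE hZ hR hR'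
  obtain ⟨η, ψ, hη, hψ, hc⟩ := hR
  obtain ⟨η', ψ', hη', hψ', hc'⟩ := hR'
  have hEA : Coc g.A e := coc_mono_E2 g.AX hE
  have hde : Z1 g.A e (fun x y => η' x y - η x y) := z1_sub_E2 hη' hη
  have hEt : Coc g.A (fun x y => (⟨η' x y - η x y, e x y⟩ : Aff K)) :=
    ((hB1 V K g.A e hEA).2.2.2.2.2.2 _).1 hde
  refine ⟨fun i => integ e (fun x y => η' x y - η x y) (g.wp i), fun j => ?_⟩
  have hEB : Coc (g.B j) e := coc_mono_E2 (g.BX j) hE
  have hEN : Coc (g.A ∩ g.B j) e := coc_mono_E2 inter_subset_left hEA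
  have hlN : IsPath (g.A ∩ g.B j) (g.lam j) := (g.lamP j).1
  have hlA : IsPath g.A (g.lam j) := ⟨hlN.1, fun t ht => (hlN.2 ht).1⟩
  have hlB : IsPath (g.B j) (g.lam j) := ⟨hlN.1, fun t ht => (hlN.2 ht).2⟩
  -- the differences on `B j`
  have hdp : Z1 (g.B j) e (fun x y => ψ' j x y - ψ j x y) := z1_sub_E2 (hψ' j) (hψ j)
  have hzero := (hB7 V K (g.B j) e (g.lam j) hEB hlB).2.2.2.2.1 _ (g.Bcon j) hdp
    (g.lamP j).2.symm
  -- linearity on the annulus
  have z1 : Z1 (g.A ∩ g.B j) e (fun x y => ψ j x y - η x y) :=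
    z1_sub_E2 (nr3_mono_E2 inter_subset_right (hψ j)) (nr3_mono_E2 inter_subset_left hη)
  have z2 : Z1 (g.A ∩ g.B j) e (fun x y => ψ' j x y - η' x y) :=
    z1_sub_E2 (nr3_mono_E2 inter_subset_right (hψ' j)) (nr3_mono_E2 inter_subset_left hη')
  have z3 : Z1 (g.A ∩ g.B j) e (fun x y => η' x y - η x y) := nr3_mono_E2 inter_subset_left hde
  have z4 : Z1 (g.A ∩ g.B j) e (fun x y => ψ' j x y - ψ j x y) :=
    nr3_mono_E2 inter_subset_right hdp
  have hN := hB7 V K (g.A ∩ g.B j) e (g.lam j) hEN hlN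
  have l1 := (hN.2.1 _ _ (-1) z1 z2).2
  have l2 := (hN.2.1 _ _ (-1) z3 z4).2
  have hfun : (fun x y => (ψ j x y - η x y) + (-1) * (ψ' j x y - η' x y))
      = fun x y => (η' x y - η x y) + (-1) * (ψ' j x y - ψ j x y) := by
    funext x y; ring
  rw [hfun, l2, hzero.1] at l1
  -- `l1 : I + (-1) * 0 = integ (ψ - η) + (-1) * integ (ψ' - η')`
  have hA := hB7 V K g.A e
  have e1 : ∀ i, PP (fun x y => (⟨η' x y - η x y, e x y⟩ : Aff K)) (g.wp i)
      = ⟨integ e (fun x y => η' x y - η x y) (g.wp i), PP e (g.wp i)⟩ :=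
    fun i => (hA (g.wp i) hEA (g.wpP i).1).1 _ hde
  have e2 : PP (fun x y => (⟨η' x y - η x y, e x y⟩ : Aff K)) (g.rad j)
      = ⟨integ e (fun x y => η' x y - η x y) (g.rad j), PP e (g.rad j)⟩ :=
    (hA (g.rad j) hEA (g.radP j).1).1 _ hde
  have e3 : PP (fun x y => (⟨η' x y - η x y, e x y⟩ : Aff K)) (g.lam j)
      = ⟨integ e (fun x y => η' x y - η x y) (g.lam j), PP e (g.lam j)⟩ :=
    (hA (g.lam j) hEA hlA).1 _ hde
  have hrel := g.Arel (Aff K) _ hEt j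
  rw [funext e1, e2, e3, hzero.2] at hrel
  rw [← hrel]
  show c j - c' j = _
  rw [hc j, hc' j]
  simp only [Aff.mul_m, Aff.mul_u, Aff.inv_m, mul_one]
  have hu : ((PP e (g.rad j) : Kˣ) : K) * (((PP e (g.rad j))⁻¹ : Kˣ) : K) = 1 := by
    rw [← Units.val_mul, mul_inv_cancel, Units.val_one]
  linear_combination (-((PP e (g.rad j) : Kˣ) : K)) * l1 +
    (integ e (fun x y => η' x y - η x y) (g.rad j)) * hu

end Pool.Agent.Helper74.SS
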