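import Pool.Agent.Helper74.SS.St

/-! Project SS, module G2 (helper84): the values of the relators in the affine group. -/

set_option autoImplicit false

namespace Pool.Agent.Helper74.SS

theorem pG2 (hG1 : StG1) : StG2 := by
  intro A _ u m ha
  obtain ⟨hnil, happ, hwi, hlt, -, -⟩ := hG1 Gn (Aff A) (fun i => (⟨m i, u i⟩ : Aff A))
  have hQ : ∀ v w : Wd Gn, wev (fun i => (⟨m i, u i⟩ : Aff A)) (Qw v w) =
      wev (fun i => (⟨m i, u i⟩ : Aff A)) v * wev (fun i => (⟨m i, u i⟩ : Aff A)) w *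
      (wev (fun i => (⟨m i, u i⟩ : Aff A)) v)⁻¹ * (wev (fun i => (⟨m i, u i⟩ : Aff A)) w)⁻¹ *
      (wev (fun i => (⟨m i, u i⟩ : Aff A)) w)⁻¹ := by
    intro v w; simp only [Qw, happ, hwi]
  have hC : ∀ v w : Wd Gn, wev (fun i => (⟨m i, u i⟩ : Aff A)) (Cw v w) =
      wev (fun i => (⟨m i, u i⟩ : Aff A)) v * wev (fun i => (⟨m i, u i⟩ : Aff A)) w *
      (wev (fun i => (⟨m i, u i⟩ : Aff A)) v)⁻¹ *
      (wev (fun i => (⟨m i, u i⟩ : Aff A)) w)⁻¹ := by
    intro v w; simp only [Cw, happ, hwi]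
  -- values of `Q`
  have q1 : ∀ (k : Fin 2) (x : Wd Gn) (y : A),
      wev (fun i => (⟨m i, u i⟩ : Aff A)) x = ⟨y, 1⟩ →
      wev (fun i => (⟨m i, u i⟩ : Aff A)) (Qw (lt (.st k)) x) =
        ⟨((u (.st k) : A) - 2) * y, 1⟩ := by
    intro k x y hx
    rw [hQ, hx, hlt]
    ext
    · simp only [Aff.mul_m, Aff.mul_u, Aff.inv_m, Aff.inv_u, mul_one, inv_one, Units.val_one,
        mul_inv_cancel, one_mul]
      have h := Units.mul_inv (u (.st k))
      linear_combination (-(m (.st k))) * h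
    · simp
  have hUU : ∀ j, wev (fun i => (⟨m i, u i⟩ : Aff A)) (UU j) = ⟨mU u m j, 1⟩ := by
    intro j
    have hA : ∀ j, wev (fun i => (⟨m i, u i⟩ : Aff A)) (lt (.a j)) = ⟨m (.a j), 1⟩ := by
      intro j; rw [hlt, ha]
    unfold UU mU
    split_ifs with hj
    · rw [happ, q1 0 _ _ (hA 0), q1 1 _ _ (hA 1)]
      ext
      · simp
      · simp
    · rw [happ, hwi, q1 1 _ _ (hA 0), q1 0 _ _ (hA 1)]
      ext
      · simp
      · simp
  have hphi : ∀ j, wev (fun i => (⟨m i, u i⟩ : Aff A)) (phiW j) = ⟨ff u * m (.a j), 1⟩ := by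
    intro j
    unfold phiW WW2
    rw [happ, hwi, hlt, ha]
    split_ifs with hj
    · subst hj
      rw [happ, hwi, q1 0 _ _ (hUU 0), q1 1 _ _ (hUU 1)]
      ext
      · simp [mU, ff]; ring
      · simp
    · have hj1 : j = 1 := by omega
      subst hj1
      rw [happ, q1 1 _ _ (hUU 0), q1 0 _ _ (hUU 1)]
      ext
      · simp [mU, ff]; ring
      · simp
  have hst : ∀ i k, wev (fun i => (⟨m i, u i⟩ : Aff A)) (Cw (lt (.b i)) (lt (.st k))) =
      ⟨(1 - (u (.st k) : A)) * m (.b i) + ((u (.b i) : A) - 1) * m (.st k), 1⟩ := by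
    intro i k
    rw [hC, hlt, hlt]
    ext
    · simp only [Aff.mul_m, Aff.mul_u, Aff.inv_m, Aff.inv_u, Units.val_mul]
      have h1 := Units.mul_inv (u (.st k))
      have h2 := Units.mul_inv (u (.b i))
      linear_combination (-(u (.st k) : A) * m (.b i) - (m (.st k)) * (u (.st k) : A) * (((u (.st k))⁻¹ : Aˣ) : A)) * h2 - (m (.st k)) * h1
    · simp only [Aff.mul_u, Aff.inv_u]
      rw [mul_comm (u (.b i)) (u (.st k)), mul_assoc (u (.st k)), mul_inv_cancel, mul_one,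
        mul_inv_cancel]
  have hba : ∀ (i : Fin 2) (x : Wd Gn) (y : A),
      wev (fun i => (⟨m i, u i⟩ : Aff A)) x = ⟨y, 1⟩ →
      wev (fun i => (⟨m i, u i⟩ : Aff A)) (Cw (lt (.b i)) x) =
      ⟨((u (.b i) : A) - 1) * y, 1⟩ := by
    intro i x y hx
    rw [hC, hlt, hx]
    ext
    · simp only [Aff.mul_m, Aff.mul_u, Aff.inv_m, Aff.inv_u, Units.val_mul, Units.val_one,
        inv_one, mul_one, one_mul]
      have h2 := Units.mul_inv (u (.b i))
      linear_combination (-(m (.b i)) - y) * h2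
    · simp
  have hA : ∀ j, wev (fun i => (⟨m i, u i⟩ : Aff A)) (lt (.a j)) = ⟨m (.a j), 1⟩ := by
    intro j; rw [hlt, ha]
  refine ⟨hUU, hphi, hst, ?_, hphi, hst, ?_⟩
  · intro i j
    exact hba i _ _ (hA j)
  · intro i j
    show wev _ (if i = 0 then Cw (lt (.b 0)) (UU j) else Cw (lt (.b i)) (lt (.a j))) = _
    split_ifs with hi
    · subst hi
      exact hba 0 _ _ (hUU j)
    · exact hba i _ _ (hA j)

end Pool.Agent.Helper74.SS
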