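import Pool.Agent.Helper74.SS.St
import Pool.Agent.Helper74.SS.PPeq

/-! Project SS, module H6: the rotation loop has invariant `-1`. -/

set_option autoImplicit false

open Set Metric Filter Topology
open scoped Matrix.Norms.Elementwise

namespace Pool.Agent.Helper74.SS

namespace H6

section

variable {n : Type} [Fintype n] [DecidableEq n] {γ : n → M8}

omit [Fintype n] in
lemma cont_rotL (a b : n) : Continuous (rotL a b) := by
  refine continuous_pi fun i => continuous_pi fun j => ?_
  unfold rotL
  split_ifs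
  · exact Real.continuous_cos.comp (by fun_prop)
  · exact Real.continuous_sin.comp (by fun_prop)
  · exact (Real.continuous_sin.comp (by fun_prop)).neg
  · exact continuous_const
  · exact continuous_const

lemma rotL_col_a {E : Type} [AddCommGroup E] [Module ℝ E] {a b : n} (hab : a ≠ b) (t : ℝ)
    (f : n → E) : ∑ j, rotL a b t j a • f j =
      Real.cos (2 * Real.pi * t) • f a - Real.sin (2 * Real.pi * t) • f b := by
  rw [← Finset.add_sum_erase _ _ (Finset.mem_univ a),
    ← Finset.add_sum_erase _ _ (Finset.mem_erase.mpr ⟨hab.symm, Finset.mem_univ b⟩)]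
  rw [Finset.sum_eq_zero]
  · simp [rotL, hab, hab.symm, sub_eq_add_neg]
  · intro j hj
    simp only [Finset.mem_erase, Finset.mem_univ, and_true] at hj
    simp [rotL, hj.1, hj.2, hab]

lemma rotL_col_b {E : Type} [AddCommGroup E] [Module ℝ E] {a b : n} (hab : a ≠ b) (t : ℝ)
    (f : n → E) : ∑ j, rotL a b t j b • f j =
      Real.sin (2 * Real.pi * t) • f a + Real.cos (2 * Real.pi * t) • f b := by
  rw [← Finset.add_sum_erase _ _ (Finset.mem_univ a),
    ← Finset.add_sum_erase _ _ (Finset.mem_erase.mpr ⟨hab.symm, Finset.mem_univ b⟩)]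
  rw [Finset.sum_eq_zero]
  · simp [rotL, hab, hab.symm]
  · intro j hj
    simp only [Finset.mem_erase, Finset.mem_univ, and_true] at hj
    simp [rotL, hj.1, hj.2, hab.symm]

lemma rotL_col {E : Type} [AddCommGroup E] [Module ℝ E] {a b i : n} (ha : i ≠ a) (hb : i ≠ b)
    (t : ℝ) (f : n → E) : ∑ j, rotL a b t j i • f j = f i := by
  rw [Finset.sum_eq_single i]
  · simp [rotL, ha, hb]
  · intro j _ hj
    simp [rotL, ha, hb, hj]
  · simp

omit [Fintype n] in
lemma rotL_tr {a b : n} (hab : a ≠ b) (t : ℝ) : (rotL a b t).transpose = rotL a b (-t) := by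
  ext i j
  simp only [Matrix.transpose_apply, rotL, mul_neg, Real.cos_neg, Real.sin_neg, neg_neg]
  by_cases h1 : i = a
  · subst h1
    by_cases h2 : j = i
    · subst h2; simp [hab]
    · by_cases h3 : j = b
      · subst h3; simp [hab, hab.symm]
      · simp [h2, h3, hab, Ne.symm h2]
  · by_cases h2 : i = b
    · subst h2
      by_cases h3 : j = a
      · subst h3; simp [hab, hab.symm]
      · by_cases h4 : j = i
        · subst h4; simp [hab.symm]
        · simp [h3, h4, hab.symm, Ne.symm h4]
    · simp [h1, h2, eq_comm]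

lemma rotL_mul {a b : n} (hab : a ≠ b) (t s : ℝ) :
    rotL a b t * rotL a b s = rotL a b (t + s) := by
  ext i j
  have hc : ∀ k, rotL a b t i k * rotL a b s k j = rotL a b s k j • rotL a b t i k := fun k => by
    rw [smul_eq_mul, mul_comm]
  rw [Matrix.mul_apply, Finset.sum_congr rfl fun k _ => hc k]
  by_cases h1 : j = a
  · subst h1
    rw [rotL_col_a hab]
    simp only [smul_eq_mul, rotL, mul_add, Real.cos_add, Real.sin_add]
    by_cases h2 : i = j
    · subst h2; simp [hab, hab.symm]; ring
    · by_cases h3 : i = b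
      · subst h3; simp [hab, hab.symm]; ring
      · simp [h2, h3, hab, hab.symm]
  · by_cases h2 : j = b
    · subst h2
      rw [rotL_col_b hab]
      simp only [smul_eq_mul, rotL, mul_add, Real.cos_add, Real.sin_add]
      by_cases h3 : i = a
      · subst h3; simp [hab, hab.symm]; ring
      · by_cases h4 : i = j
        · subst h4; simp [hab, hab.symm]; ring
        · simp [h3, h4, hab, hab.symm]
    · rw [rotL_col h1 h2]
      simp [rotL, h1, h2]

omit [Fintype n] in
lemma rotL_zero {a b : n} (hab : a ≠ b) : rotL a b 0 = 1 := by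
  ext i j
  simp only [rotL, mul_zero, Real.cos_zero, Real.sin_zero, neg_zero, Matrix.one_apply]
  by_cases h1 : i = a
  · subst h1
    by_cases h2 : i = j
    · subst h2; simp
    · by_cases h3 : j = b
      · subst h3; simp [hab, hab.symm]
      · simp [h2, h3, hab, Ne.symm h2]
  · by_cases h2 : i = b
    · subst h2
      by_cases h3 : j = a
      · subst h3; simp [hab, hab.symm]
      · by_cases h4 : i = j
        · subst h4; simp
        · simp [h3, h4, hab.symm, Ne.symm h4]
    · simp [h1, h2]

lemma rotL_mem {a b : n} (hab : a ≠ b) (t : ℝ) : rotL a b t ∈ OO n := by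
  constructor
  · rw [rotL_tr hab, rotL_mul hab, add_neg_cancel, rotL_zero hab]
  · rw [rotL_tr hab, rotL_mul hab, neg_add_cancel, rotL_zero hab]

omit [Fintype n] in
lemma rotL_one {a b : n} : rotL a b 1 = rotL a b 0 := by
  ext i j
  simp [rotL]

/-- the spin lift of the rotation -/
noncomputable def U (γ : n → M8) (a b : n) (t : ℝ) : M8 :=
  Real.cos (Real.pi * t) • (1 : M8) - Real.sin (Real.pi * t) • (γ a * γ b)

lemma U_tr (hγ : Gam γ) {a b : n} (hab : a ≠ b) (t : ℝ) :
    (U γ a b t).transpose = U γ a b (-t) := by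
  have h : (γ a * γ b).transpose = -(γ a * γ b) := by
    rw [Matrix.transpose_mul, hγ.tr, hγ.tr, neg_mul_neg, hγ.anti b a hab.symm]
  unfold U
  rw [Matrix.transpose_sub, Matrix.transpose_smul, Matrix.transpose_smul, h, Matrix.transpose_one]
  simp

lemma J_sq (hγ : Gam γ) {a b : n} (hab : a ≠ b) : (γ a * γ b) * (γ a * γ b) = -1 := by
  calc (γ a * γ b) * (γ a * γ b) = γ a * (γ b * γ a) * γ b := by simp only [mul_assoc]
    _ = -(γ a * γ a * (γ b * γ b)) := by
        rw [hγ.anti b a hab.symm, mul_neg, neg_mul]; simp only [mul_assoc]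
    _ = -1 := by rw [hγ.sq, hγ.sq]; simp

lemma U_mul (hγ : Gam γ) {a b : n} (hab : a ≠ b) (t s : ℝ) :
    U γ a b t * U γ a b s = U γ a b (t + s) := by
  unfold U
  rw [sub_mul, mul_sub, mul_sub]
  simp only [Matrix.smul_mul, Matrix.mul_smul, one_mul, mul_one, J_sq hγ hab, mul_add,
    Real.cos_add, Real.sin_add, smul_smul, smul_neg, sub_smul, add_smul]
  rw [mul_comm (Real.cos (Real.pi * t)) (Real.cos (Real.pi * s)),
    mul_comm (Real.cos (Real.pi * t)) (Real.sin (Real.pi * s)),
    mul_comm (Real.sin (Real.pi * t)) (Real.cos (Real.pi * s)),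
    mul_comm (Real.sin (Real.pi * t)) (Real.sin (Real.pi * s))]
  abel

lemma U_zero (a b : n) : U γ a b 0 = 1 := by simp [U]

lemma U_one (a b : n) : U γ a b 1 = -1 := by simp [U]

lemma J_diag (hγ : Gam γ) {a b : n} (hab : a ≠ b) : (γ a * γ b) 0 0 = 0 := by
  have h : (γ a * γ b).transpose = -(γ a * γ b) := by
    rw [Matrix.transpose_mul, hγ.tr, hγ.tr, neg_mul_neg, hγ.anti b a hab.symm]
  have h1 := congrFun (congrFun h 0) 0
  rw [Matrix.transpose_apply, Matrix.neg_apply] at h1
  linarith

lemma U_diag (hγ : Gam γ) {a b : n} (hab : a ≠ b) (t : ℝ) :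
    U γ a b t 0 0 = Real.cos (Real.pi * t) := by
  unfold U
  rw [Matrix.sub_apply, Matrix.smul_apply, Matrix.smul_apply, J_diag hγ hab]
  simp

lemma U_itw (hγ : Gam γ) {a b : n} (hab : a ≠ b) (t : ℝ) : Itw γ (rotL a b t) (U γ a b t) := by
  have hc : Real.cos (2 * Real.pi * t) = Real.cos (Real.pi * t) * Real.cos (Real.pi * t) -
      Real.sin (Real.pi * t) * Real.sin (Real.pi * t) := by
    rw [← Real.cos_add]; congr 1; ring
  have hs : Real.sin (2 * Real.pi * t) = Real.sin (Real.pi * t) * Real.cos (Real.pi * t) +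
      Real.cos (Real.pi * t) * Real.sin (Real.pi * t) := by
    rw [← Real.sin_add]; congr 1; ring
  have h1 : Real.cos (Real.pi * t) * Real.cos (Real.pi * t) =
      1 - Real.sin (Real.pi * t) * Real.sin (Real.pi * t) := by
    have := Real.cos_sq_add_sin_sq (Real.pi * t); nlinarith
  have haJ : γ a * (γ a * γ b) = -γ b := by rw [← mul_assoc, hγ.sq]; simp
  have hJa : (γ a * γ b) * γ a = γ b := by
    rw [mul_assoc, hγ.anti b a hab.symm, mul_neg, haJ, neg_neg]
  have hJb : (γ a * γ b) * γ b = -γ a := by rw [mul_assoc, hγ.sq]; simp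
  have hbJ : γ b * (γ a * γ b) = γ a := by
    rw [← mul_assoc, hγ.anti b a hab.symm, neg_mul, hJb, neg_neg]
  refine ⟨fun i => ?_, ?_, ?_⟩
  · by_cases ha : i = a
    · subst ha
      unfold gm
      rw [rotL_col_a hab]
      unfold U
      rw [sub_mul, mul_sub, mul_sub, sub_mul]
      simp only [Matrix.smul_mul, Matrix.mul_smul, one_mul, mul_one, haJ, hbJ, hJa, smul_smul,
        smul_neg]
      have e1 : Real.cos (2 * Real.pi * t) * Real.cos (Real.pi * t) +
          Real.sin (2 * Real.pi * t) * Real.sin (Real.pi * t) = Real.cos (Real.pi * t) := by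
        rw [hc, hs]
        linear_combination (Real.cos (Real.pi * t)) * h1
      have e2 : Real.cos (2 * Real.pi * t) * Real.sin (Real.pi * t) -
          Real.sin (2 * Real.pi * t) * Real.cos (Real.pi * t) = -Real.sin (Real.pi * t) := by
        rw [hc, hs]
        linear_combination (-Real.sin (Real.pi * t)) * h1
      have e3 : Real.cos (Real.pi * t) • γ i - Real.sin (Real.pi * t) • γ b =
          (Real.cos (2 * Real.pi * t) * Real.cos (Real.pi * t) +
          Real.sin (2 * Real.pi * t) * Real.sin (Real.pi * t)) • γ i +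
          (Real.cos (2 * Real.pi * t) * Real.sin (Real.pi * t) -
          Real.sin (2 * Real.pi * t) * Real.cos (Real.pi * t)) • γ b := by
        rw [e1, e2, neg_smul, sub_eq_add_neg]
      rw [e3]
      module
    · by_cases hb : i = b
      · subst hb
        unfold gm
        rw [rotL_col_b hab]
        unfold U
        rw [add_mul, mul_sub, mul_sub, sub_mul]
        simp only [Matrix.smul_mul, Matrix.mul_smul, one_mul, mul_one, haJ, hbJ, hJb, smul_smul,
          smul_neg]
        have e1 : Real.sin (2 * Real.pi * t) * Real.cos (Real.pi * t) -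
            Real.cos (2 * Real.pi * t) * Real.sin (Real.pi * t) = Real.sin (Real.pi * t) := by
          rw [hc, hs]
          linear_combination (Real.sin (Real.pi * t)) * h1
        have e2 : Real.sin (2 * Real.pi * t) * Real.sin (Real.pi * t) +
            Real.cos (2 * Real.pi * t) * Real.cos (Real.pi * t) = Real.cos (Real.pi * t) := by
          rw [hc, hs]
          linear_combination (Real.cos (Real.pi * t)) * h1
        have e3 : Real.cos (Real.pi * t) • γ i - Real.sin (Real.pi * t) • -γ a =
            (Real.sin (2 * Real.pi * t) * Real.cos (Real.pi * t) -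
            Real.cos (2 * Real.pi * t) * Real.sin (Real.pi * t)) • γ a +
            (Real.sin (2 * Real.pi * t) * Real.sin (Real.pi * t) +
            Real.cos (2 * Real.pi * t) * Real.cos (Real.pi * t)) • γ i := by
          rw [e1, e2]; module
        first
        | rw [← smul_neg, e3]; module
        | (have e4 := e3; simp only [smul_neg] at e4; rw [e4]; module)
      · unfold gm
        rw [rotL_col ha hb]
        have hJ : γ i * (γ a * γ b) = (γ a * γ b) * γ i := by
          rw [← mul_assoc, hγ.anti i a ha, neg_mul, mul_assoc, hγ.anti i b hb, mul_neg, neg_neg,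
            mul_assoc]
        unfold U
        rw [mul_sub, sub_mul]
        simp only [Matrix.smul_mul, Matrix.mul_smul, one_mul, mul_one, hJ]
  · rw [U_tr hγ hab, U_mul hγ hab, neg_add_cancel, U_zero]
  · rw [U_tr hγ hab, U_mul hγ hab, add_neg_cancel, U_zero]

/-- `U` as a unit -/
noncomputable def Uu (hγ : Gam γ) {a b : n} (hab : a ≠ b) (t : ℝ) : M8ˣ where
  val := U γ a b t
  inv := U γ a b (-t)
  val_inv := by rw [U_mul hγ hab, add_neg_cancel, U_zero]
  inv_val := by rw [U_mul hγ hab, neg_add_cancel, U_zero]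

end

end H6

open H6 in
theorem pH6 (h2 : StH2) (hA1' : StA1') : StH6 := by
  intro n _ _ γ E a b hγ hE hab
  have hcont := cont_rotL a b
  have hLp : Lp (OO n) (rotL a b) := ⟨hcont.continuousOn, fun t _ => rotL_mem hab t, rotL_one.symm⟩
  refine ⟨hLp, ?_⟩
  obtain ⟨k1, k2, k3, k4, k5⟩ := h2 n γ hγ
  obtain ⟨ε, hε, hI⟩ := hE.itw
  -- near the diagonal `E` is given by `U`
  have hEU : ∀ t s : ℝ, dist (rotL a b t) (rotL a b s) < ε → |s - t| < 1 / 2 →
      E (rotL a b t) (rotL a b s) = (Uu hγ hab t)⁻¹ * Uu hγ hab s := by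
    intro t s hd hts
    obtain ⟨i1, i2⟩ := hI _ (rotL_mem hab t) _ (rotL_mem hab s) hd
    have j1 : Itw γ ((rotL a b t).transpose * rotL a b s) ((U γ a b t).transpose * U γ a b s) :=
      k2 _ _ _ _ (k4 _ (rotL_mem hab t) _ (U_itw hγ hab t)) (U_itw hγ hab s)
    have j2 : (U γ a b t).transpose * U γ a b s = U γ a b (s - t) := by
      rw [U_tr hγ hab, U_mul hγ hab]; congr 1; ring
    rw [j2] at j1
    have j3 : 0 < U γ a b (s - t) 0 0 := by
      rw [U_diag hγ hab]
      apply Real.cos_pos_of_mem_Ioo
      rw [abs_lt] at hts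
      have := Real.pi_pos
      constructor <;> nlinarith
    have j4 : (E (rotL a b t) (rotL a b s) : M8) = U γ a b (s - t) := by
      rcases k1 _ _ _ j1 i1 with h | h
      · exact h
      · exfalso
        rw [h, Matrix.neg_apply] at i2
        linarith
    apply Units.ext
    rw [j4]
    change U γ a b (s - t) = U γ a b (-t) * U γ a b s
    rw [U_mul hγ hab]; congr 1; ring
  -- uniform continuity
  have huc : UniformContinuousOn (rotL a b) (Icc 0 1) :=
    isCompact_Icc.uniformContinuousOn_of_continuous hcont.continuousOn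
  obtain ⟨δ, hδ, hδ'⟩ := Metric.uniformContinuousOn_iff.mp huc ε hε
  obtain ⟨N0, hN0⟩ := hA1' _ _ (OO n) E (rotL a b) hE.coc ⟨hLp.1, hLp.2.1⟩
  obtain ⟨N1, hN1⟩ := exists_nat_gt (max (1 / δ) 2)
  set N := max N0 (max N1 1) with hN
  have hNpos : 0 < (N : ℝ) := by
    have : 1 ≤ N := le_trans (le_max_right _ _) (le_max_right _ _)
    exact_mod_cast this
  have hNN1 : (N1 : ℝ) ≤ N := by
    have : N1 ≤ N := le_trans (le_max_left _ _) (le_max_right _ _)
    exact_mod_cast this
  have hNδ : 1 / (N : ℝ) < δ := by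
    rw [div_lt_iff₀ hNpos]
    have h1 : 1 / δ < N := lt_of_lt_of_le (lt_of_le_of_lt (le_max_left _ _) hN1) hNN1
    rw [div_lt_iff₀ hδ] at h1
    linarith
  have hN2 : 1 / (N : ℝ) < 1 / 2 := by
    have h1 : (2 : ℝ) < N := lt_of_lt_of_le (lt_of_le_of_lt (le_max_right _ _) hN1) hNN1
    exact one_div_lt_one_div_of_lt (by norm_num) h1
  have hprod : ∀ k ≤ N, ((List.range k).map
      (fun k : ℕ => E (rotL a b ((k : ℝ) / N)) (rotL a b (((k : ℝ) + 1) / N)))).prod =
      (Uu hγ hab 0)⁻¹ * Uu hγ hab ((k : ℝ) / N) := by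
    intro k
    induction k with
    | zero => intro _; simp
    | succ k ih =>
      intro hk
      rw [List.range_succ, List.map_append, List.prod_append, ih (by omega)]
      simp only [List.map_cons, List.map_nil, List.prod_cons, List.prod_nil, mul_one]
      have hk1 : ((k : ℝ) + 1) ≤ N := by exact_mod_cast hk
      have m1 : (k : ℝ) / N ∈ Icc (0 : ℝ) 1 := by
        constructor
        · positivity
        · rw [div_le_one hNpos]; linarith
      have m2 : ((k : ℝ) + 1) / N ∈ Icc (0 : ℝ) 1 := by
        constructor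
        · positivity
        · rw [div_le_one hNpos]; linarith
      have e0 : ((k : ℝ) + 1) / N - (k : ℝ) / N = 1 / N := by ring
      have hd : dist ((k : ℝ) / N) (((k : ℝ) + 1) / N) < δ := by
        rw [Real.dist_eq, abs_sub_comm, e0, abs_of_pos (by positivity)]
        exact hNδ
      rw [hEU _ _ (hδ' _ m1 _ m2 hd) (by rw [e0, abs_of_pos (by positivity)]; exact hN2)]
      push_cast
      group
  have hPP : PP E (rotL a b) = (Uu hγ hab 0)⁻¹ * Uu hγ hab 1 := by
    rw [← hN0 N (le_max_left _ _), pp_eq, hprod N le_rfl, div_self hNpos.ne']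
  have hval : ((PP E (rotL a b) : M8ˣ) : M8) = -1 := by
    rw [hPP]
    change U γ a b (-0) * U γ a b 1 = -1
    rw [neg_zero, U_zero, U_one, one_mul]
  unfold wO
  rw [if_neg]
  intro h
  rw [h] at hval
  have := congrFun (congrFun hval 0) 0
  simp at this
  norm_num at this

end Pool.Agent.Helper74.SS
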