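import Pool.Agent.Helper74.SS.P.J4
set_option autoImplicit false

open Set Metric Filter Topology

namespace Pool.Agent.Helper74.SS

open J4aux

theorem pJ5 (_h1 : StC1) (h2 : StC2) (h3 : StC3) : StJ5 := by
  intro ι κ κ' _ _ _ _ _ _ R r r' H Φ Ψ hH hΦ hΨ
  classical
  obtain ⟨-, -, hcelc, hcel1, hcel0, hcel01, -⟩ := h2 ι (κ ⊕ κ') (Sum.elim R r)
  set Re := Sum.elim R r with hRe
  let fc : (κ ⊕ κ') → ℝ → ℝ → ℝ → Amb ι (κ ⊕ κ') := fun j ρ t τ =>
    Sum.elim (fun j => cel Re (Sum.inl j) ρ t)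
      (fun k => if ρ ≤ (1 + 3 * τ) / 4 then cel Re (Sum.inr k) (ρ / ((1 + 3 * τ) / 4)) t
        else inc (H k (min (4 * (ρ - (1 + 3 * τ) / 4)) (2 - 2 * ρ)) t)) j
  -- the parameter of `H` lies in `[0,1]`
  have hpar : ∀ ρ ∈ Icc (0 : ℝ) 1, ∀ τ ∈ Icc (0 : ℝ) 1, (1 + 3 * τ) / 4 ≤ ρ →
      min (4 * (ρ - (1 + 3 * τ) / 4)) (2 - 2 * ρ) ∈ Icc (0 : ℝ) 1 := by
    intro ρ hρ τ hτ h
    refine ⟨le_min (by linarith) (by linarith [hρ.2]), ?_⟩
    rcases le_total ρ (1 / 2) with h' | h'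
    · exact (min_le_left _ _).trans (by linarith [hτ.1])
    · exact (min_le_right _ _).trans (by linarith)
  obtain ⟨f, hfc, hfW, hfcel⟩ := h3 ι (κ ⊕ κ') (Amb ι (κ ⊕ κ')) Re (fun x _ => x) fc
    (continuous_fst.continuousOn)
    (by
      intro j
      rcases j with j | k
      · refine Continuous.continuousOn ?_
        exact (hcelc (Sum.inl j)).comp (continuous_fst.prodMk (continuous_fst.comp continuous_snd))
      · show ContinuousOn (fun p : ℝ × ℝ × ℝ => if p.1 ≤ (1 + 3 * p.2.2) / 4 then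
          cel Re (Sum.inr k) (p.1 / ((1 + 3 * p.2.2) / 4)) p.2.1
          else inc (H k (min (4 * (p.1 - (1 + 3 * p.2.2) / 4)) (2 - 2 * p.1)) p.2.1)) _
        refine contOn_if (a := fun p : ℝ × ℝ × ℝ => p.1) (b := fun p => (1 + 3 * p.2.2) / 4)
          continuous_fst (by fun_prop) ?_ ?_ ?_
        · have hg : ContinuousOn (fun p : ℝ × ℝ × ℝ =>
              ((p.1 / ((1 + 3 * p.2.2) / 4), p.2.1) : ℝ × ℝ))
              (Icc (0 : ℝ) 1 ×ˢ Icc (0 : ℝ) 1 ×ˢ Icc (0 : ℝ) 1 ∩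
                {p | p.1 ≤ (1 + 3 * p.2.2) / 4}) := by
            refine ContinuousOn.prodMk ?_ (by fun_prop)
            refine ContinuousOn.div (by fun_prop) (by fun_prop) ?_
            rintro p ⟨⟨-, -, hp⟩, -⟩
            have := hp.1
            linarith
          exact (hcelc (Sum.inr k)).comp_continuousOn hg
        · refine cont_inc.comp_continuousOn ?_
          have hg : ContinuousOn (fun p : ℝ × ℝ × ℝ =>
              ((min (4 * (p.1 - (1 + 3 * p.2.2) / 4)) (2 - 2 * p.1), p.2.1) : ℝ × ℝ))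
              (Icc (0 : ℝ) 1 ×ˢ Icc (0 : ℝ) 1 ×ˢ Icc (0 : ℝ) 1 ∩
                {p | (1 + 3 * p.2.2) / 4 ≤ p.1}) := by
            refine Continuous.continuousOn ?_
            fun_prop
          refine (hH.cont k).comp hg ?_
          rintro p ⟨⟨hp1, hp2, hp4⟩, hp3⟩
          exact ⟨hpar p.1 hp1 p.2.2 hp4 hp3, hp2⟩
        · rintro p ⟨hp1, hp2, hp3⟩ hpe
          have hpe' : p.1 = (1 + 3 * p.2.2) / 4 := hpe
          have hpos : (1 + 3 * p.2.2) / 4 ≠ 0 := by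
            have := hp3.1
            linarith
          show cel Re (Sum.inr k) (p.1 / ((1 + 3 * p.2.2) / 4)) p.2.1 =
            inc (H k (min (4 * (p.1 - (1 + 3 * p.2.2) / 4)) (2 - 2 * p.1)) p.2.1)
          rw [hpe', div_self hpos, sub_self, mul_zero, hcel1, min_eq_left (by
            have := hp3.2
            linarith), hH.zero k _ hp2, inc_zero_pt]
          rfl)
    (by
      intro j t ht τ hτ
      rcases j with j | k
      · show cel Re (Sum.inl j) 1 t = _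
        rw [hcel1]
      · show (if (1 : ℝ) ≤ (1 + 3 * τ) / 4 then cel Re (Sum.inr k) (1 / ((1 + 3 * τ) / 4)) t
          else inc (H k (min (4 * (1 - (1 + 3 * τ) / 4)) (2 - 2 * 1)) t)) = (gam (Re (Sum.inr k)) t, 0)
        split_ifs with h
        · have : (1 + 3 * τ) / 4 = 1 := by linarith [hτ.2]
          rw [this, div_one, hcel1]
        · have h' : min (4 * (1 - (1 + 3 * τ) / 4)) (2 - 2 * 1) = (0 : ℝ) := by
            rw [min_eq_right (by linarith)]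
            norm_num
          rw [h', hH.zero k t ht, inc_zero_pt]
          rfl)
    (by
      intro j t ht τ hτ
      rcases j with j | k
      · exact hcel0 (Sum.inl j) t
      · show (if (0 : ℝ) ≤ (1 + 3 * τ) / 4 then cel Re (Sum.inr k) (0 / ((1 + 3 * τ) / 4)) t
          else inc (H k (min (4 * (0 - (1 + 3 * τ) / 4)) (2 - 2 * 0)) t)) =
          (if (0 : ℝ) ≤ (1 + 3 * τ) / 4 then cel Re (Sum.inr k) (0 / ((1 + 3 * τ) / 4)) 0
          else inc (H k (min (4 * (0 - (1 + 3 * τ) / 4)) (2 - 2 * 0)) 0))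
        have h : (0 : ℝ) ≤ (1 + 3 * τ) / 4 := by linarith [hτ.1]
        rw [if_pos h, if_pos h, zero_div]
        exact hcel0 (Sum.inr k) t)
    (by
      intro j ρ hρ τ hτ
      rcases j with j | k
      · exact hcel01 (Sum.inl j) ρ
      · show (if ρ ≤ (1 + 3 * τ) / 4 then cel Re (Sum.inr k) (ρ / ((1 + 3 * τ) / 4)) 0
          else inc (H k (min (4 * (ρ - (1 + 3 * τ) / 4)) (2 - 2 * ρ)) 0)) =
          (if ρ ≤ (1 + 3 * τ) / 4 then cel Re (Sum.inr k) (ρ / ((1 + 3 * τ) / 4)) 1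
          else inc (H k (min (4 * (ρ - (1 + 3 * τ) / 4)) (2 - 2 * ρ)) 1))
        by_cases h : ρ ≤ (1 + 3 * τ) / 4
        · rw [if_pos h, if_pos h]
          exact hcel01 (Sum.inr k) _
        · rw [if_neg h, if_neg h]
          have hm := hpar ρ hρ τ hτ (by linarith)
          rw [(hH.ends k _ hm).1, (hH.ends k _ hm).2])
  have hin : ∀ k, ∀ ρ ∈ Icc (0 : ℝ) 1, ∀ t ∈ Icc (0 : ℝ) 1, ∀ τ ∈ Icc (0 : ℝ) 1,
      ρ ≤ (1 + 3 * τ) / 4 →
      f (cel Re (Sum.inr k) ρ t) τ = cel Re (Sum.inr k) (ρ / ((1 + 3 * τ) / 4)) t := by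
    intro k ρ hρ t ht τ hτ h
    rw [hfcel (Sum.inr k) ρ hρ t ht τ hτ]
    show (if ρ ≤ (1 + 3 * τ) / 4 then cel Re (Sum.inr k) (ρ / ((1 + 3 * τ) / 4)) t
          else inc (H k (min (4 * (ρ - (1 + 3 * τ) / 4)) (2 - 2 * ρ)) t)) = _
    rw [if_pos h]
  have hout : ∀ k, ∀ ρ ∈ Icc (0 : ℝ) 1, ∀ t ∈ Icc (0 : ℝ) 1, ∀ τ ∈ Icc (0 : ℝ) 1,
      (1 + 3 * τ) / 4 < ρ →
      f (cel Re (Sum.inr k) ρ t) τ = inc (H k (min (4 * (ρ - (1 + 3 * τ) / 4)) (2 - 2 * ρ)) t) := by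
    intro k ρ hρ t ht τ hτ h
    rw [hfcel (Sum.inr k) ρ hρ t ht τ hτ]
    show (if ρ ≤ (1 + 3 * τ) / 4 then cel Re (Sum.inr k) (ρ / ((1 + 3 * τ) / 4)) t
          else inc (H k (min (4 * (ρ - (1 + 3 * τ) / 4)) (2 - 2 * ρ)) t)) = _
    rw [if_neg (not_le.2 h)]
  have hold : ∀ j, ∀ ρ ∈ Icc (0 : ℝ) 1, ∀ t ∈ Icc (0 : ℝ) 1, ∀ τ ∈ Icc (0 : ℝ) 1,
      f (cel Re (Sum.inl j) ρ t) τ = cel Re (Sum.inl j) ρ t := by
    intro j ρ hρ t ht τ hτ
    rw [hfcel (Sum.inl j) ρ hρ t ht τ hτ]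
    rfl
  have h0 : (0 : ℝ) ∈ Icc (0 : ℝ) 1 := ⟨le_rfl, zero_le_one⟩
  have h1' : (1 : ℝ) ∈ Icc (0 : ℝ) 1 := ⟨zero_le_one, le_rfl⟩
  refine ⟨f, hfc, ?_, ?_, ?_⟩
  · rintro x (hx | ⟨j, ρ, hρ, t, ht, rfl⟩) τ hτ
    · rw [hfW x hx τ hτ]
      exact Or.inl hx
    · rcases j with j | k
      · rw [hold j ρ hρ t ht τ hτ]
        exact Or.inr ⟨Sum.inl j, ρ, hρ, t, ht, rfl⟩
      · rcases le_or_gt ρ ((1 + 3 * τ) / 4) with h | h
        · rw [hin k ρ hρ t ht τ hτ h]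
          have hpos : 0 < (1 + 3 * τ) / 4 := by linarith [hτ.1]
          exact Or.inr ⟨Sum.inr k, _, ⟨div_nonneg hρ.1 hpos.le, (div_le_one hpos).2 h⟩, t, ht, rfl⟩
        · rw [hout k ρ hρ t ht τ hτ h]
          exact inc_XX R r (hH.maps k _ (hpar ρ hρ τ hτ h.le) t ht)
  · rintro x (hx | ⟨j, ρ, hρ, t, ht, rfl⟩)
    · rw [hfW x hx 0 h0]
      obtain ⟨y, hy, rfl⟩ := WW_inc hx
      rw [hΦ.old y (Or.inl hy), hΨ.old y (Or.inl hy)]
    · rcases j with j | k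
      · rw [hold j ρ hρ t ht 0 h0, hRe, ← inc_cel R r j ρ t]
        have hy : cel R j ρ t ∈ XX R := Or.inr ⟨j, ρ, hρ, t, ht, rfl⟩
        rw [hΦ.old _ hy, hΨ.old _ hy]
      · rcases le_total ρ (1 / 2) with h | h
        · rw [hΦ.inner k ρ ⟨hρ.1, h⟩ t ht]
          rcases le_or_gt ρ (1 / 4) with h' | h'
          · rw [hΨ.inner k (2 * ρ) ⟨by linarith [hρ.1], by linarith⟩ t ht]
            rw [hin k ρ hρ t ht 0 h0 (by linarith)]
            congr 1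
            ring
          · rw [hΨ.outer k (2 * ρ) ⟨by linarith, by linarith⟩ t ht]
            rw [hout k ρ hρ t ht 0 h0 (by linarith)]
            have e : min (4 * (ρ - (1 + 3 * 0) / 4)) (2 - 2 * ρ) = 1 - (2 - 2 * (2 * ρ)) := by
              rw [min_eq_left (by linarith)]
              ring
            rw [e]
        · rw [hΦ.outer k ρ ⟨h, hρ.2⟩ t ht]
          have hy : H k (2 - 2 * ρ) t ∈ XX R :=
            hH.maps k _ ⟨by linarith [hρ.2], by linarith⟩ t ht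
          rw [hΨ.old _ hy, hout k ρ hρ t ht 0 h0 (by linarith)]
          have e : min (4 * (ρ - (1 + 3 * 0) / 4)) (2 - 2 * ρ) = 2 - 2 * ρ :=
            min_eq_right (by linarith)
          rw [e]
  · rintro x (hx | ⟨j, ρ, hρ, t, ht, rfl⟩)
    · exact hfW x hx 1 h1'
    · rcases j with j | k
      · exact hold j ρ hρ t ht 1 h1'
      · rw [hin k ρ hρ t ht 1 h1' (by linarith [hρ.2])]
        congr 1
        norm_num

end Pool.Agent.Helper74.SS
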